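import Pool.Agent.Helper6.LVarCover

set_option autoImplicit false
set_option linter.unusedSectionVars false
set_option linter.style.haveILetI false

open Filter

namespace Pool.Agent.Helper6.AP

open LVar

/-- A variety of `ℓ`-groups (class closed under subalgebras, homomorphic images, products). -/
structure IsVar (V : ∀ (α : Type) [Group α] [Lattice α], Prop) : Prop where
  mono : ∀ (α : Type) [Group α] [Lattice α], V α →
        ∀ a b c : α, a ≤ b → c * a ≤ c * b ∧ a * c ≤ b * c
  sub : ∀ (α β : Type) [Group α] [Lattice α] [Group β] [Lattice β] (f : α → β),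
        (∀ x y, f (x * y) = f x * f y) → (∀ x y, f (x ⊔ y) = f x ⊔ f y) →
        (∀ x y, f (x ⊓ y) = f x ⊓ f y) → Function.Injective f → V β → V α
  quot : ∀ (α β : Type) [Group α] [Lattice α] [Group β] [Lattice β] (f : α → β),
        (∀ x y, f (x * y) = f x * f y) → (∀ x y, f (x ⊔ y) = f x ⊔ f y) →
        (∀ x y, f (x ⊓ y) = f x ⊓ f y) → Function.Surjective f → V α → V β
  prod : ∀ (ι : Type) (A : ι → Type) [∀ i, Group (A i)] [∀ i, Lattice (A i)],
        (∀ i, V (A i)) → V (∀ i, A i)

/-- The amalgamation property. -/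
def Amalg (V : ∀ (α : Type) [Group α] [Lattice α], Prop) : Prop :=
  ∀ (A B C : Type) [Group A] [Lattice A] [Group B] [Lattice B] [Group C] [Lattice C]
        (f : A → B) (g : A → C),
        (∀ x y, f (x * y) = f x * f y) → (∀ x y, f (x ⊔ y) = f x ⊔ f y) →
        (∀ x y, f (x ⊓ y) = f x ⊓ f y) → Function.Injective f →
        (∀ x y, g (x * y) = g x * g y) → (∀ x y, g (x ⊔ y) = g x ⊔ g y) →
        (∀ x y, g (x ⊓ y) = g x ⊓ g y) → Function.Injective g →
        V A → V B → V C →
        ∃ (D : Type) (_ : Group D) (_ : Lattice D), V D ∧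
          ∃ (h : B → D) (k : C → D),
            (∀ x y, h (x * y) = h x * h y) ∧ (∀ x y, h (x ⊔ y) = h x ⊔ h y) ∧
            (∀ x y, h (x ⊓ y) = h x ⊓ h y) ∧ Function.Injective h ∧
            (∀ x y, k (x * y) = k x * k y) ∧ (∀ x y, k (x ⊔ y) = k x ⊔ k y) ∧
            (∀ x y, k (x ⊓ y) = k x ⊓ k y) ∧ Function.Injective k ∧
            ∀ a, h (f a) = k (g a)

/-- Embeddings of `ℓ`-groups. -/
structure LEmb {A B : Type} [Group A] [Lattice A] [Group B] [Lattice B] (f : A →* B) : Prop where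
  sup : ∀ x y, f (x ⊔ y) = f x ⊔ f y
  inf : ∀ x y, f (x ⊓ y) = f x ⊓ f y
  inj : Function.Injective f

section

variable {V : ∀ (α : Type) [Group α] [Lattice α], Prop}

theorem IsVar.left (hV : IsVar V) {G : Type} [Group G] [Lattice G] (h : V G) : MulLeftMono G :=
  ⟨fun c _ _ hab => (hV.mono G h _ _ c hab).1⟩

theorem IsVar.right (hV : IsVar V) {G : Type} [Group G] [Lattice G] (h : V G) : MulRightMono G :=
  ⟨fun c _ _ hab => (hV.mono G h _ _ c hab).2⟩

/-- The amalgamation property in terms of homomorphisms. -/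
theorem Amalg.hom (hA : Amalg V) {A B C : Type} [Group A] [Lattice A] [Group B] [Lattice B]
    [Group C] [Lattice C] (f : A →* B) (g : A →* C) (hf : LEmb f) (hg : LEmb g)
    (vA : V A) (vB : V B) (vC : V C) :
    ∃ (D : Type) (_ : Group D) (_ : Lattice D), V D ∧ ∃ (h : B →* D) (k : C →* D),
      LEmb h ∧ LEmb k ∧ ∀ a, h (f a) = k (g a) := by
  obtain ⟨D, _, _, vD, h, k, h1, h2, h3, h4, k1, k2, k3, k4, hk⟩ :=
    hA A B C f g (map_mul f) hf.sup hf.inf hf.inj (map_mul g) hg.sup hg.inf hg.inj vA vB vC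
  exact ⟨D, _, _, vD, MonoidHom.mk' h h1, MonoidHom.mk' k k1, ⟨h2, h3, h4⟩, ⟨k2, k3, k4⟩, hk⟩

theorem LEmb.mono {A B : Type} [Group A] [Lattice A] [Group B] [Lattice B] {f : A →* B}
    (hf : LEmb f) {x y : A} (h : x ≤ y) : f x ≤ f y := by
  rw [← sup_eq_right, ← hf.sup, sup_eq_right.mpr h]

theorem LEmb.one_lt {A B : Type} [Group A] [Lattice A] [Group B] [Lattice B] {f : A →* B}
    (hf : LEmb f) {x : A} (h : 1 < x) : 1 < f x := by
  refine lt_of_le_of_ne ?_ ?_
  · rw [← map_one f]; exact hf.mono h.le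
  · intro h1
    rw [← map_one f] at h1
    exact h.ne (hf.inj h1)

/-- A homomorphism from a chain which is strictly positive on positive elements is an
embedding. -/
theorem lemb_of_pos {A B : Type} [Group A] [Lattice A] [MulLeftMono A]
    [Group B] [Lattice B] [MulLeftMono B] (htot : ∀ x y : A, x ≤ y ∨ y ≤ x) (f : A →* B)
    (hf : ∀ x : A, 1 < x → 1 < f x) : LEmb f := by
  have hmono : ∀ x y : A, x ≤ y → f x ≤ f y := by
    intro x y h
    rcases h.lt_or_eq with h | h
    · have h1 : (1 : A) < x⁻¹ * y := one_lt_inv_mul'.mpr h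
      have h2 := hf _ h1
      rw [map_mul, map_inv] at h2
      exact (one_lt_inv_mul'.mp h2).le
    · rw [h]
  refine ⟨?_, ?_, ?_⟩
  · intro x y
    rcases htot x y with h | h
    · rw [sup_eq_right.mpr h, sup_eq_right.mpr (hmono _ _ h)]
    · rw [sup_eq_left.mpr h, sup_eq_left.mpr (hmono _ _ h)]
  · intro x y
    rcases htot x y with h | h
    · rw [inf_eq_left.mpr h, inf_eq_left.mpr (hmono _ _ h)]
    · rw [inf_eq_right.mpr h, inf_eq_right.mpr (hmono _ _ h)]
  · intro x y hxy
    by_contra hne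
    have key : ∀ x y : A, x < y → f x ≠ f y := by
      intro x y h hcon
      have h1 : (1 : A) < x⁻¹ * y := one_lt_inv_mul'.mpr h
      have h2 := hf _ h1
      rw [map_mul, map_inv, hcon, inv_mul_cancel] at h2
      exact lt_irrefl _ h2
    rcases htot x y with h | h
    · exact key x y (lt_of_le_of_ne h hne) hxy
    · exact key y x (lt_of_le_of_ne h (Ne.symm hne)) hxy.symm

theorem IsVar.of_lemb (hV : IsVar V) {A B : Type} [Group A] [Lattice A] [Group B] [Lattice B]
    {f : A →* B} (hf : LEmb f) (h : V B) : V A :=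
  hV.sub A B f (map_mul f) hf.sup hf.inf hf.inj h

/-- The transfer lemma for varieties. -/
theorem IsVar.transfer (hV : IsVar V) {E G : Type} [Group E] [Lattice E] [MulLeftMono E]
    [Group G] [Lattice G] (htot : ∀ x y : E, x ≤ y ∨ y ≤ x) (ψ : ℕ → E →* G)
    (hψ : ∀ x : E, 1 < x → ∀ᶠ n in atTop, 1 < ψ n x) (vG : V G) : V E := by
  haveI := hV.left vG
  haveI := hV.right vG
  have v1 : V (ℕ → G) := hV.prod ℕ (fun _ => G) (fun _ => vG)
  have v2 : V (Germ (atTop : Filter ℕ) G) := by
    refine hV.quot (ℕ → G) (Germ (atTop : Filter ℕ) G) (fun f => (f : Germ (atTop : Filter ℕ) G))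
      (fun _ _ => rfl) (fun _ _ => rfl) (fun _ _ => rfl) ?_ v1
    intro x
    induction x using Germ.inductionOn with | _ f => exact ⟨f, rfl⟩
  haveI := hV.left v2
  let Φ : E →* Germ (atTop : Filter ℕ) G :=
    MonoidHom.mk' (fun x => ((fun n => ψ n x : ℕ → G) : Germ (atTop : Filter ℕ) G)) (by
      intro x y
      rw [← Germ.coe_mul]
      congr 1
      funext n
      exact map_mul (ψ n) x y)
  refine hV.of_lemb (f := Φ) (lemb_of_pos htot Φ ?_) v2
  intro x hx
  have h1 := hψ x hx
  refine lt_of_le_of_ne ?_ ?_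
  · change ((fun _ => 1 : ℕ → G) : Germ (atTop : Filter ℕ) G) ≤ _
    exact Germ.coe_le.mpr (h1.mono fun n hn => hn.le)
  · intro hcon
    have h2 : ((fun _ => 1 : ℕ → G) : Germ (atTop : Filter ℕ) G) =
      ((fun n => ψ n x : ℕ → G) : Germ (atTop : Filter ℕ) G) := hcon
    have h3 := Germ.coe_eq.mp h2
    obtain ⟨n, h4, h5⟩ := (h1.and h3).exists
    exact absurd h5 h4.ne

/-- The transfer lemma with varying targets. -/
theorem IsVar.transfer' (hV : IsVar V) {E : Type} {G : ℕ → Type} [Group E] [Lattice E]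
    [MulLeftMono E] [∀ n, Group (G n)] [∀ n, Lattice (G n)]
    (htot : ∀ x y : E, x ≤ y ∨ y ≤ x) (ψ : ∀ n, E →* G n)
    (hψ : ∀ x : E, 1 < x → ∀ᶠ n in atTop, 1 < ψ n x) (vG : ∀ n, V (G n)) : V E := by
  classical
  refine hV.transfer (G := ∀ n, G n) htot (fun n => (MonoidHom.mulSingle G n).comp (ψ n)) ?_
    (hV.prod ℕ G vG)
  intro x hx
  filter_upwards [hψ x hx] with n hn
  refine lt_of_le_of_ne ?_ ?_
  · intro m
    by_cases hm : m = n
    · subst hm
      simp only [MonoidHom.coe_comp, Function.comp_apply, MonoidHom.mulSingle_apply,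
        Pi.mulSingle_eq_same, Pi.one_apply]
      exact hn.le
    · simp [Pi.mulSingle_eq_of_ne hm]
  · intro hcon
    have := congrFun hcon n
    simp only [MonoidHom.coe_comp, Function.comp_apply, MonoidHom.mulSingle_apply,
        Pi.mulSingle_eq_same, Pi.one_apply] at this
    exact hn.ne this

/-- The two-element family. -/
def P2 (G H : Type) : Bool → Type
  | false => G
  | true => H

instance (G H : Type) [Group G] [Group H] : ∀ b, Group (P2 G H b)
  | false => inferInstanceAs (Group G)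
  | true => inferInstanceAs (Group H)

instance (G H : Type) [Lattice G] [Lattice H] : ∀ b, Lattice (P2 G H b)
  | false => inferInstanceAs (Lattice G)
  | true => inferInstanceAs (Lattice H)

/-- The map to the two-element product. -/
def toP2 {G H : Type} (p : G × H) : ∀ b, P2 G H b
  | false => p.1
  | true => p.2

/-- Binary products. -/
theorem IsVar.prod2 (hV : IsVar V) {G H : Type} [Group G] [Lattice G] [Group H] [Lattice H]
    (vG : V G) (vH : V H) : V (G × H) := by
  have h1 : V (∀ b, P2 G H b) := hV.prod Bool (P2 G H) (fun b => by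
    cases b
    · exact vG
    · exact vH)
  refine hV.sub (G × H) (∀ b, P2 G H b) toP2 ?_ ?_ ?_ ?_ h1
  · intro x y; funext b; cases b <;> rfl
  · intro x y; funext b; cases b <;> rfl
  · intro x y; funext b; cases b <;> rfl
  · intro x y hxy
    exact Prod.ext (congrFun hxy false) (congrFun hxy true)

/-- The lattice structure of a subgroup closed under the lattice operations. -/
@[reducible] def subLattice {G : Type} [Group G] [Lattice G] (A : Subgroup G)
    (hs : ∀ x ∈ A, ∀ y ∈ A, x ⊔ y ∈ A) (hi : ∀ x ∈ A, ∀ y ∈ A, x ⊓ y ∈ A) : Lattice A :=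
  Subtype.lattice (fun _ _ hx hy => hs _ hx _ hy) (fun _ _ hx hy => hi _ hx _ hy)

theorem subLattice_lemb {G : Type} [Group G] [Lattice G] (A : Subgroup G)
    (hs : ∀ x ∈ A, ∀ y ∈ A, x ⊔ y ∈ A) (hi : ∀ x ∈ A, ∀ y ∈ A, x ⊓ y ∈ A) :
    letI := subLattice A hs hi
    LEmb A.subtype := by
  letI := subLattice A hs hi
  exact ⟨fun _ _ => rfl, fun _ _ => rfl, Subtype.coe_injective⟩

theorem IsVar.quotient (hV : IsVar V) {G : Type} [Group G] [Lattice G] [MulLeftMono G]
    [MulRightMono G] (vG : V G) (P : Subgroup G) [P.Normal] (hP : IsLIdeal P) :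
    letI := quotLattice P hP
    V (G ⧸ P) := by
  letI := quotLattice P hP
  exact hV.quot G (G ⧸ P) (fun x => (x : G ⧸ P)) (fun _ _ => rfl) (fun _ _ => rfl)
    (fun _ _ => rfl) (QuotientGroup.mk_surjective) vG

end

end Pool.Agent.Helper6.AP
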