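import Pool.Agent.Helper6.AP2

set_option autoImplicit false
set_option linter.unusedSectionVars false
set_option linter.style.haveILetI false

open Filter

namespace Pool.Agent.Helper6.AP

open LVar

variable {V : ∀ (α : Type) [Group α] [Lattice α], Prop}

/-- The powers of a positive element. -/
theorem zhom_lemb {G : Type} [Group G] [Lattice G] [MulLeftMono G] [MulRightMono G]
    {b : G} (hb : 1 < b) : LEmb (zpowersHom G b) := by
  refine lemb_of_pos (fun x y => le_total x y) _ ?_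
  intro x hx
  have h1 : (1 : ℤ) ≤ Multiplicative.toAdd x := hx
  rw [zpowersHom_apply]
  have := zmono hb.le h1
  rw [zpow_one] at this
  exact hb.trans_le this

theorem prod_lemb {A B G H : Type} [Group A] [Lattice A] [Group B] [Lattice B]
    [Group G] [Lattice G] [Group H] [Lattice H] {f : A →* G} {g : B →* H}
    (hf : LEmb f) (hg : LEmb g) : LEmb (MonoidHom.prodMap f g) := by
  refine ⟨?_, ?_, ?_⟩
  · intro x y; exact Prod.ext (hf.sup _ _) (hg.sup _ _)
  · intro x y; exact Prod.ext (hf.inf _ _) (hg.inf _ _)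
  · intro x y h
    exact Prod.ext (hf.inj (congrArg Prod.fst h)) (hg.inj (congrArg Prod.snd h))

/-- The swap of the last two coordinates. -/
def swp : (Multiplicative ℤ × Multiplicative ℤ) × Multiplicative ℤ →*
    (Multiplicative ℤ × Multiplicative ℤ) × Multiplicative ℤ where
  toFun p := ((p.1.1, p.2), p.1.2)
  map_one' := rfl
  map_mul' _ _ := rfl

theorem swp_lemb : LEmb swp := by
  refine ⟨fun _ _ => rfl, fun _ _ => rfl, ?_⟩
  intro x y h
  have h1 := congrArg (fun p => p.1.1) h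
  have h2 := congrArg (fun p => p.1.2) h
  have h3 := congrArg (fun p => p.2) h
  exact Prod.ext (Prod.ext h1 h3) h2

theorem LEmb.comp {A B C : Type} [Group A] [Lattice A] [Group B] [Lattice B]
    [Group C] [Lattice C] {f : B →* C} {g : A →* B} (hf : LEmb f) (hg : LEmb g) :
    LEmb (f.comp g) := by
  refine ⟨?_, ?_, ?_⟩
  · intro x y; simp [hf.sup, hg.sup]
  · intro x y; simp [hf.inf, hg.inf]
  · exact hf.inj.comp hg.inj

/-- **Step 1**: a variety with the amalgamation property is representable. -/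
theorem rep_pos (hV : IsVar V) (hA : Amalg V) {G : Type} [Group G] [Lattice G] (vG : V G)
    {b g : G} (hb : 1 < b) (hg : 1 ≤ g) (h : b ⊓ (g⁻¹ * b * g) = 1) : False := by
  haveI := hV.left vG
  haveI := hV.right vG
  set c := g⁻¹ * b * g with hc
  have hc1 : 1 < c := by
    refine lt_of_le_of_ne ?_ ?_
    · have := mul_le_mul' (mul_le_mul' (le_refl g⁻¹) hb.le) (le_refl g)
      simpa [hc] using this
    · intro h1
      have h2 : b = g * c * g⁻¹ := by rw [hc]; group
      rw [← h1] at h2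
      rw [h2] at hb
      simp at hb
  have e1 := pairHom_lemb hb hc1 h
  have e2 := prod_lemb e1 (zhom_lemb hb)
  have vGG : V (G × G) := hV.prod2 vG vG
  have vA : V ((Multiplicative ℤ × Multiplicative ℤ) × Multiplicative ℤ) := hV.of_lemb e2 vGG
  obtain ⟨D, _, _, vD, h, k, hh, hk, hhk⟩ := hA.hom _ _ e2 (e2.comp swp_lemb) vA vGG vGG
  haveI := hV.left vD
  haveI := hV.right vD
  set F := MonoidHom.prodMap (pairHom b c (comm_of_disj ‹_›)) (zpowersHom G b) with hF
  have one_le_map : ∀ (φ : G × G →* D), LEmb φ → ∀ x : G × G, 1 ≤ x → 1 ≤ φ x := by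
    intro φ hφ x hx
    rw [← map_one φ]; exact hφ.mono hx
  -- the three elements
  have i1 : h (b, 1) = k (b, 1) := by
    have := hhk ((Multiplicative.ofAdd 1, 1), 1)
    simpa [F, pairHom, swp] using this
  have i2 : h (c, 1) = k (1, b) := by
    have := hhk ((1, Multiplicative.ofAdd 1), 1)
    simpa [F, pairHom, swp] using this
  have i3 : h (1, b) = k (c, 1) := by
    have := hhk ((1, 1), Multiplicative.ofAdd 1)
    simpa [F, pairHom, swp] using this
  have hb1 : (1 : G × G) ≤ (b, 1) := Prod.mk_le_mk.mpr ⟨hb.le, le_rfl⟩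
  have hg1 : (1 : G × G) ≤ (g, 1) := Prod.mk_le_mk.mpr ⟨hg, le_rfl⟩
  have fin := heart1 (b1 := h (b, 1)) (b2 := h (c, 1)) (b3 := h (1, b)) (g := h (g, 1))
    (g' := k (g, 1)) (one_le_map h hh _ hb1) (one_le_map h hh _ hg1) (one_le_map k hk _ hg1)
    (by
      rw [← map_inv, ← map_mul, ← map_mul]
      congr 1
      exact Prod.ext rfl (by simp))
    (by
      rw [i1, i3, ← map_inv, ← map_mul, ← map_mul]
      congr 1
      exact Prod.ext rfl (by simp))
    (by
      rw [← hh.inf, ← map_one h]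
      congr 1
      exact Prod.ext (inf_eq_left.mpr hg) (inf_eq_right.mpr hb.le))
    (by
      rw [i2, ← hk.inf, ← map_one k]
      congr 1
      exact Prod.ext (inf_eq_left.mpr hg) (inf_eq_right.mpr hb.le))
    (by
      rw [← hh.inf, ← map_one h]
      congr 1
      exact Prod.ext ‹b ⊓ c = 1› (inf_idem _))
    (by
      rw [← hh.inf, ← map_one h]
      congr 1
      exact Prod.ext (inf_eq_right.mpr hb.le) (inf_eq_left.mpr hb.le))
  have h1 : (b, (1 : G)) = 1 := hh.inj (by rw [fin, map_one])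
  exact hb.ne' (congrArg Prod.fst h1)

/-- Representability, elementwise form. -/
theorem rep_gen (hV : IsVar V) (hA : Amalg V) {G : Type} [Group G] [Lattice G] (vG : V G)
    {b g : G} (hb : 1 ≤ b) (h : b ⊓ (g⁻¹ * b * g) = 1) : b = 1 := by
  haveI := hV.left vG
  haveI := hV.right vG
  -- decompose `g`
  set p := g ⊔ 1 with hp
  set m := g⁻¹ ⊔ 1 with hm
  have hp1 : 1 ≤ p := le_sup_right
  have hm1 : 1 ≤ m := le_sup_right
  have hpm : p ⊓ m = 1 := pos_inf_neg g
  have hgp : g = p * m⁻¹ := by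
    have : p = g * m := by
      rw [hp, hm, mul_sup, mul_inv_cancel, mul_one, sup_comm]
    rw [this]; group
  have hcomm : p * m = m * p := comm_of_disj hpm
  -- the key relation
  have key : (m⁻¹ * b * m) ⊓ (p⁻¹ * b * p) = 1 := by
    have h1 : m⁻¹ * (b ⊓ (g⁻¹ * b * g)) * m = 1 := by rw [h]; group
    rw [conj_inf] at h1
    rw [← h1]
    congr 1
    rw [hgp]; group
  have cb : ∀ u v : G, 1 ≤ u → 1 ≤ v → u ⊓ v = 1 →
      (v⁻¹ * b * v) ⊓ (u⁻¹ * b * u) = 1 → b ⊓ u = 1 := by
    intro u v hu hv huv hk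
    by_contra hne
    have h1 : 1 < b ⊓ u := lt_of_le_of_ne (le_inf hb hu) (Ne.symm hne)
    refine rep_pos hV hA vG h1 hu ?_
    apply le_antisymm
    · rw [← hk]
      have e1 : (b ⊓ u) ⊓ v = 1 := by
        apply le_antisymm
        · rw [← huv]; exact inf_le_inf_right _ inf_le_right
        · exact le_inf (le_inf hb hu) hv
      have e2 : v⁻¹ * (b ⊓ u) * v = b ⊓ u := by
        rw [mul_assoc, comm_of_disj e1]; group
      refine le_inf ?_ ?_
      · calc (b ⊓ u) ⊓ (u⁻¹ * (b ⊓ u) * u) ≤ b ⊓ u := inf_le_left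
          _ = v⁻¹ * (b ⊓ u) * v := e2.symm
          _ ≤ v⁻¹ * b * v := mul_le_mul' (mul_le_mul' le_rfl inf_le_left) le_rfl
      · exact inf_le_right.trans (mul_le_mul' (mul_le_mul' le_rfl inf_le_left) le_rfl)
    · refine le_inf h1.le ?_
      have := mul_le_mul' (mul_le_mul' (le_refl u⁻¹) h1.le) (le_refl u)
      simpa using this
  have b1 : b ⊓ p = 1 := cb p m hp1 hm1 hpm key
  have b2 : b ⊓ m = 1 := cb m p hm1 hp1 (by rw [inf_comm]; exact hpm) (by rw [inf_comm]; exact key)
  have c1 := comm_of_disj b1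
  have c2 := comm_of_disj b2
  have e3 : g⁻¹ * b * g = b := by
    rw [hgp, mul_inv_rev, inv_inv]
    calc m * p⁻¹ * b * (p * m⁻¹) = m * (p⁻¹ * (b * p)) * m⁻¹ := by group
      _ = m * b * m⁻¹ := by rw [c1]; group
      _ = b := by rw [← c2]; group
  rw [e3, inf_idem] at h
  exact h

/-- Representability: disjointness is preserved by conjugation. -/
theorem rep (hV : IsVar V) (hA : Amalg V) {G : Type} [Group G] [Lattice G] (vG : V G)
    {u v : G} (h : u ⊓ v = 1) (x : G) : u ⊓ (x⁻¹ * v * x) = 1 := by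
  haveI := hV.left vG
  haveI := hV.right vG
  have hu : 1 ≤ u := by rw [← h]; exact inf_le_left
  have hv : 1 ≤ v := by rw [← h]; exact inf_le_right
  have hy : 1 ≤ u ⊓ (x⁻¹ * v * x) := by
    refine le_inf hu ?_
    have := mul_le_mul' (mul_le_mul' (le_refl x⁻¹) hv) (le_refl x)
    simpa using this
  refine rep_gen hV hA vG (g := x⁻¹) hy ?_
  apply le_antisymm
  · rw [← h]
    refine le_inf (inf_le_left.trans inf_le_left) (inf_le_right.trans ?_)
    calc x⁻¹⁻¹ * (u ⊓ x⁻¹ * v * x) * x⁻¹ ≤ x⁻¹⁻¹ * (x⁻¹ * v * x) * x⁻¹ :=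
          mul_le_mul' (mul_le_mul' le_rfl inf_le_right) le_rfl
      _ = v := by group
  · refine le_inf hy ?_
    have := mul_le_mul' (mul_le_mul' (le_refl x⁻¹⁻¹) hy) (le_refl x⁻¹)
    simpa using this

/-- Square roots are unique. -/
theorem sq_inj (hV : IsVar V) (hA : Amalg V) {G : Type} [Group G] [Lattice G] (vG : V G)
    {x y : G} (h : x * x = y * y) : x = y := by
  haveI := hV.left vG
  haveI := hV.right vG
  -- `x² ∧ y² ≤ x y`
  have key : ∀ x y : G, (x * x) ⊓ (y * y) ≤ x * y := by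
    intro x y
    set u := x * y⁻¹ with hu
    have h1 : (u ⊔ 1) ⊓ (u⁻¹ ⊔ 1) = 1 := pos_inf_neg u
    have h2 := rep hV hA vG (by rw [inf_comm]; exact h1 : (u⁻¹ ⊔ 1) ⊓ (u ⊔ 1) = 1) x⁻¹
    have h3 : (x * u * x⁻¹) ⊓ u⁻¹ ≤ 1 := by
      rw [← h2, inf_comm]
      refine inf_le_inf le_sup_left ?_
      rw [inv_inv]
      exact mul_le_mul' (mul_le_mul' le_rfl le_sup_left) le_rfl
    have h4 : ((x * u * x⁻¹) ⊓ u⁻¹) * (x * y) ≤ 1 * (x * y) := mul_le_mul_left h3 _
    rw [inf_mul, one_mul] at h4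
    refine le_trans (le_of_eq ?_) h4
    congr 1
    · rw [hu]; group
    · rw [hu]; group
  have h1 : (x * x) ≤ x * y := by
    have := key x y
    rwa [← h, inf_idem] at this
  have h2 : (y * y) ≤ y * x := by
    have := key y x
    rwa [h, inf_idem] at this
  have h3 : x ≤ y := (mul_le_mul_iff_left x).mp h1
  have h4 : y ≤ x := (mul_le_mul_iff_left y).mp h2
  exact le_antisymm h3 h4

end Pool.Agent.Helper6.AP
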