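import Pool.Agent.Helper6.AP9
import Pool.Agent.Helper6.AP3

set_option autoImplicit false
set_option linter.unusedSectionVars false
set_option linter.style.haveILetI false

open Filter

namespace Pool.Agent.Helper6.AP

open LVar

variable {V : ∀ (α : Type) [Group α] [Lattice α], Prop}

/-- The cone on sequences in which the lowest index dominates. -/
def BC : ACone (ℕ → ℤ) where
  Pos p := ∃ i, 0 < p i ∧ ∀ j, j < i → p j = 0
  add := by
    rintro f g ⟨i, h1, h2⟩ ⟨j, h3, h4⟩
    rcases lt_trichotomy i j with h | h | h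
    · refine ⟨i, ?_, fun k hk => ?_⟩
      · rw [Pi.add_apply, h4 i h, add_zero]; exact h1
      · rw [Pi.add_apply, h2 k hk, h4 k (hk.trans h), zero_add]
    · subst h
      refine ⟨i, ?_, fun k hk => ?_⟩
      · rw [Pi.add_apply]; omega
      · rw [Pi.add_apply, h2 k hk, h4 k hk, zero_add]
    · refine ⟨j, ?_, fun k hk => ?_⟩
      · rw [Pi.add_apply, h2 j h, zero_add]; exact h3
      · rw [Pi.add_apply, h2 k (hk.trans h), h4 k hk, zero_add]
  not_zero := by
    rintro ⟨i, h, -⟩
    exact lt_irrefl _ h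
  tri := by
    intro f
    by_cases hf : f = 0
    · exact Or.inl hf
    right
    have hex : ∃ i, f i ≠ 0 := by
      by_contra hcon
      push Not at hcon
      exact hf (funext hcon)
    classical
    have h1 := Nat.find_spec hex
    have h2 : ∀ j, j < Nat.find hex → f j = 0 := by
      intro j hj
      have := Nat.find_min hex hj
      simpa using this
    rcases lt_or_gt_of_ne h1 with h | h
    · right
      refine ⟨Nat.find hex, ?_, fun j hj => ?_⟩
      · rw [Pi.neg_apply]; omega
      · rw [Pi.neg_apply, h2 j hj, neg_zero]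
    · left
      exact ⟨_, h, h2⟩

/-- The unipotent shift. -/
def sh (p : ℕ → ℤ) : ℕ → ℤ
  | 0 => p 0
  | j + 1 => p (j + 1) + p j

/-- Its inverse. -/
def ush (p : ℕ → ℤ) : ℕ → ℤ
  | 0 => p 0
  | j + 1 => p (j + 1) - ush p j

/-- The unipotent shift as an isomorphism. -/
def shE : (ℕ → ℤ) ≃+ (ℕ → ℤ) where
  toFun := sh
  invFun := ush
  left_inv := by
    intro p
    funext j
    induction j with
    | zero => rfl
    | succ j ih => rw [ush, ih, sh]; ring
  right_inv := by
    intro p
    funext j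
    cases j with
    | zero => rfl
    | succ j => rw [sh, ush]; ring
  map_add' := by
    intro p q
    funext j
    cases j with
    | zero => rfl
    | succ j => rw [Pi.add_apply, sh, sh, sh, Pi.add_apply, Pi.add_apply]; ring

theorem sh_pos (p : ℕ → ℤ) (hp : BC.Pos p) : BC.Pos (sh p) := by
  obtain ⟨i, h1, h2⟩ := hp
  have key : ∀ j, j ≤ i → sh p j = p j := by
    intro j hj
    cases j with
    | zero => rfl
    | succ j => rw [sh, h2 j (by omega), add_zero]
  exact ⟨i, by rw [key i le_rfl]; exact h1, fun j hj => by rw [key j hj.le]; exact h2 j hj⟩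

/-- The unipotent shift as an order automorphism. -/
def SB : OAut BC := mkOAut BC shE sh_pos

/-- The cone on the extended group. -/
def BE : ACone ((ℕ → ℤ) × ℤ) where
  Pos p := BC.Pos p.1 ∨ (p.1 = 0 ∧ 0 < p.2)
  add := by
    rintro ⟨p, e⟩ ⟨q, d⟩ h1 h2
    simp only [Prod.mk_add_mk] at *
    rcases h1 with h1 | ⟨h1, h1'⟩ <;> rcases h2 with h2 | ⟨h2, h2'⟩
    · exact Or.inl (BC.add _ _ h1 h2)
    · left; rw [h2, add_zero]; exact h1
    · left; rw [h1, zero_add]; exact h2
    · right; rw [h1, h2]; exact ⟨add_zero _, by omega⟩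
  not_zero := by
    rintro (h | ⟨_, h⟩)
    · exact BC.not_zero h
    · exact lt_irrefl _ h
  tri := by
    rintro ⟨p, e⟩
    rcases BC.tri p with h | h | h
    · rcases lt_trichotomy e 0 with h' | h' | h'
      · right; right; right
        exact ⟨by rw [Prod.fst_neg, h, neg_zero], by rw [Prod.snd_neg]; omega⟩
      · left; rw [h, h']; rfl
      · right; left; right; exact ⟨h, h'⟩
    · right; left; left; exact h
    · right; right; left; exact h

/-- The extended automorphism. -/
def SE : OAut BE := mkOAut BE (shE.prodCongr (AddEquiv.refl ℤ)) (by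
  rintro ⟨p, e⟩ h
  rcases h with h | ⟨h, h'⟩
  · exact Or.inl (sh_pos p h)
  · refine Or.inr ⟨?_, h'⟩
    change shE p = 0
    rw [show p = 0 from h, map_zero])

theorem SE_apply (p : ℕ → ℤ) (e : ℤ) : (SE : Equiv.Perm _) (p, e) = (sh p, e) := rfl
theorem SB_apply (p : ℕ → ℤ) : (SB : Equiv.Perm _) p = sh p := rfl

/-- The additive part of the transfer map of step 7. -/
noncomputable def bN (n : ℕ) : (ℕ → ℤ) × ℤ →+ (ℕ →₀ ℤ) :=
  AddMonoidHom.mk' (fun p => (∑ l ∈ Finset.range (n + 1), Finsupp.single l (p.1 (n - l))) +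
    Finsupp.single 0 p.2) (by
    intro p q
    simp only [Prod.fst_add, Prod.snd_add, Pi.add_apply, Finsupp.single_add,
      Finset.sum_add_distrib]
    abel)

theorem bN_apply (n : ℕ) (p : (ℕ → ℤ) × ℤ) (l : ℕ) :
    bN n p l = (if l ≤ n then p.1 (n - l) else 0) + if l = 0 then p.2 else 0 := by
  change ((∑ l ∈ Finset.range (n + 1), Finsupp.single l (p.1 (n - l))) +
    Finsupp.single 0 p.2 : ℕ →₀ ℤ) l = _
  rw [Finsupp.add_apply, Finsupp.finsetSum_apply]
  congr 1
  · by_cases h : l ≤ n
    · rw [if_pos h, Finset.sum_eq_single l]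
      · rw [Finsupp.single_eq_same]
      · intro b _ hb
        rw [Finsupp.single_eq_of_ne (Ne.symm hb)]
      · intro hl
        exact absurd (Finset.mem_range.mpr (by omega)) hl
    · rw [if_neg h]
      apply Finset.sum_eq_zero
      intro b hb
      rw [Finset.mem_range] at hb
      rw [Finsupp.single_eq_of_ne (by omega)]
  · by_cases h : l = 0
    · rw [if_pos h, h, Finsupp.single_eq_same]
    · rw [if_neg h, Finsupp.single_eq_of_ne h]

theorem bN_comm (n : ℕ) (p : (ℕ → ℤ) × ℤ) :
    bN n ((SE : Equiv.Perm _) p) = ((Tn n : OAut FC) : Equiv.Perm _) (bN n p) := by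
  obtain ⟨p, e⟩ := p
  ext l
  rw [Tn_apply, SE_apply, bN_apply, bN_apply, bN_apply]
  simp only
  by_cases h1 : l ≤ n
  · by_cases h2 : l = n
    · subst h2
      rw [if_pos le_rfl, if_pos le_rfl, if_pos le_rfl, if_neg (show ¬ l + 1 ≤ l by omega),
        if_neg (show ¬ l + 1 = 0 by omega), Nat.sub_self]
      simp [sh]
    · obtain ⟨m, hm⟩ : ∃ m, n - l = m + 1 := ⟨n - l - 1, by omega⟩
      have hm' : n - (l + 1) = m := by omega
      rw [if_pos h1, if_pos h1, if_pos h1, if_pos (show l + 1 ≤ n by omega),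
        if_neg (show ¬ l + 1 = 0 by omega), hm, hm', sh]
      ring
  · rw [if_neg h1, if_neg h1, if_neg h1]
    ring

theorem SE_mem (hV : IsVar V) (vT : ∀ n, V (Ext FC (Tn n))) : V (Ext BE SE) := by
  refine hV.transfer' Ext.total (fun n => Ext.map (bN n) (bN_comm n)) ?_ vT
  intro x hx
  rw [Ext.one_lt_iff] at hx
  rcases hx with hx | ⟨hx, hx' | ⟨hx', hx''⟩⟩
  · refine Eventually.of_forall fun N => ?_
    rw [Ext.one_lt_iff]
    exact Or.inl hx
  · obtain ⟨i, h1, h2⟩ := hx'
    filter_upwards [eventually_gt_atTop i] with N hN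
    rw [Ext.one_lt_iff]
    refine Or.inr ⟨hx, N - i, ?_, ?_⟩
    · rw [Ext.map_a, bN_apply, if_pos (by omega), if_neg (by omega), add_zero,
        show N - (N - i) = i by omega]
      exact h1
    · intro j hj
      rw [Ext.map_a, bN_apply, if_neg (show ¬ j = 0 by omega), add_zero]
      by_cases hjn : j ≤ N
      · rw [if_pos hjn]; exact h2 _ (by omega)
      · rw [if_neg hjn]
  · refine Eventually.of_forall fun N => ?_
    rw [Ext.one_lt_iff]
    refine Or.inr ⟨hx, 0, ?_, ?_⟩
    · rw [Ext.map_a, bN_apply, hx']; simpa using hx''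
    · intro j hj
      rw [Ext.map_a, bN_apply, hx', if_neg (show ¬ j = 0 by omega)]
      simp

theorem SB_mem (hV : IsVar V) (v : V (Ext BE SE)) : V (Ext BC SB) := by
  refine Ext.mem_of_map hV (AddMonoidHom.inl (ℕ → ℤ) ℤ) ?_ ?_ v
  · intro a; rfl
  · intro a ha; exact Or.inl ha

end Pool.Agent.Helper6.AP
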