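import Pool.Agent.Helper6.AP10

set_option autoImplicit false
set_option linter.unusedSectionVars false
set_option linter.style.haveILetI false

open Filter

namespace Pool.Agent.Helper6.AP

open LVar

variable {V : ∀ (α : Type) [Group α] [Lattice α], Prop}

/-- The first basis vector. -/
def d0 : ℕ → ℤ := fun j => if j = 0 then 1 else 0

theorem pw_d0 (n : ℕ) : ∀ j, Ext.pw SB n d0 j = (n.choose j : ℤ) := by
  induction n with
  | zero =>
    intro j
    rw [Nat.cast_zero, Ext.pw_zero]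
    cases j with
    | zero => rfl
    | succ j => rfl
  | succ n ih =>
    intro j
    have e : Ext.pw SB ((n + 1 : ℕ) : ℤ) d0 = sh (Ext.pw SB n d0) := by
      rw [Nat.cast_add, Nat.cast_one, add_comm, Ext.pw_add, Ext.pw_one]; rfl
    rw [e]
    cases j with
    | zero => rw [sh, ih 0]; simp
    | succ j =>
      rw [sh, ih, ih, Nat.choose_succ_succ]; push_cast; ring

/-- The moment map. -/
noncomputable def mom : (ℤ →₀ ℤ) →+ (ℕ → ℤ) :=
  Finsupp.liftAddHom (fun i => zmultiplesHom (ℕ → ℤ) (Ext.pw SB i d0))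

theorem mom_single (i c : ℤ) : mom (Finsupp.single i c) = c • Ext.pw SB i d0 := by
  rw [mom, Finsupp.liftAddHom_apply_single]; rfl

theorem mom_apply (f : ℤ →₀ ℤ) : mom f = f.sum (fun i c => c • Ext.pw SB i d0) := rfl

theorem mom_inj (f : ℤ →₀ ℤ) (h : mom f = 0) : f = 0 := by
  by_contra hf
  have hs : f.support.Nonempty := Finsupp.support_nonempty_iff.mpr hf
  set i0 := f.support.max' hs with hi0
  set m : ℤ := ((f.support.min' hs).natAbs : ℤ) with hm
  have hi0m : i0 ∈ f.support := f.support.max'_mem hs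
  have h1 : f i0 ≠ 0 := Finsupp.mem_support_iff.mp hi0m
  have hnn : ∀ i ∈ f.support, 0 ≤ m + i := by
    intro i hi
    have := f.support.min'_le i hi
    omega
  have h2 : Ext.pw SB m (mom f) = 0 := by rw [h, map_zero]
  rw [mom_apply, Finsupp.sum, map_sum] at h2
  have h3 := congrFun h2 (m + i0).toNat
  rw [Finset.sum_apply, Finset.sum_eq_single i0] at h3
  · rw [map_zsmul, ← Ext.pw_add, Pi.smul_apply] at h3
    have e : m + i0 = ((m + i0).toNat : ℤ) := (Int.toNat_of_nonneg (hnn i0 hi0m)).symm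
    rw [e, pw_d0, Int.toNat_natCast, Nat.choose_self] at h3
    simp at h3
    exact h1 h3
  · intro i hi hne
    rw [map_zsmul, ← Ext.pw_add, Pi.smul_apply]
    have e : m + i = ((m + i).toNat : ℤ) := (Int.toNat_of_nonneg (hnn i hi)).symm
    have hlt : (m + i).toNat < (m + i0).toNat := by
      have h4 := f.support.le_max' i hi
      have h5 := hnn i hi
      have h6 : i < i0 := lt_of_le_of_ne h4 hne
      omega
    rw [e, pw_d0, Nat.choose_eq_zero_of_lt hlt]
    simp
  · intro h4; exact absurd hi0m h4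

/-- The character. -/
noncomputable def chi : (ℤ →₀ ℤ) →+ ℤ :=
  Finsupp.liftAddHom (fun i => zmultiplesHom ℤ (if Even i then 1 else -1))

theorem chi_single (i c : ℤ) : chi (Finsupp.single i c) = c * (if Even i then 1 else -1) := by
  rw [chi, Finsupp.liftAddHom_apply_single]
  simp

/-- The double shift. -/
noncomputable def dsh : (ℤ →₀ ℤ) ≃+ (ℤ →₀ ℤ) := Finsupp.domCongr (Equiv.addRight (2 : ℤ))

theorem dsh_single (i c : ℤ) : dsh (Finsupp.single i c) = Finsupp.single (i + 2) c := by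
  rw [dsh, Finsupp.domCongr_apply, Finsupp.equivMapDomain_single]; rfl

theorem mom_dsh (f : ℤ →₀ ℤ) : mom (dsh f) = sh (sh (mom f)) := by
  have e : ∀ p, sh (sh p) = Ext.pw SB 2 p := by
    intro p
    rw [show (2 : ℤ) = 1 + 1 by norm_num, Ext.pw_add, Ext.pw_one, Ext.pw_one]; rfl
  rw [e]
  have : mom.comp dsh.toAddMonoidHom = (Ext.pw SB 2).comp mom := by
    apply Finsupp.addHom_ext
    intro i c
    change mom (dsh (Finsupp.single i c)) = Ext.pw SB 2 (mom (Finsupp.single i c))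
    rw [dsh_single, mom_single, mom_single, map_zsmul, ← Ext.pw_add, add_comm 2 i]
  exact DFunLike.congr_fun this f

theorem chi_dsh (f : ℤ →₀ ℤ) : chi (dsh f) = chi f := by
  have : chi.comp dsh.toAddMonoidHom = chi := by
    apply Finsupp.addHom_ext
    intro i c
    change chi (dsh (Finsupp.single i c)) = chi (Finsupp.single i c)
    rw [dsh_single, chi_single, chi_single]
    congr 2
    rw [Int.even_add]
    simp
  exact DFunLike.congr_fun this f

/-- The pulled back cone. -/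
def LC : ACone (ℤ →₀ ℤ) where
  Pos f := BC.Pos (mom f)
  add f g h1 h2 := by rw [map_add]; exact BC.add _ _ h1 h2
  not_zero h := by rw [map_zero] at h; exact BC.not_zero h
  tri f := by
    rw [map_neg]
    rcases BC.tri (mom f) with h | h | h
    · exact Or.inl (mom_inj f h)
    · exact Or.inr (Or.inl h)
    · exact Or.inr (Or.inr h)

/-- The double shift as an order automorphism. -/
noncomputable def SL : OAut LC := mkOAut LC dsh (by
  intro f hf
  change BC.Pos (mom (dsh f))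
  rw [mom_dsh]
  exact sh_pos _ (sh_pos _ hf))

theorem conj_t {A : Type} [AddCommGroup A] {C : ACone A} {T : OAut C} (k : ℤ) (a : A) :
    ((⟨0, k⟩ : Ext C T) * ⟨a, 0⟩ * (⟨0, k⟩ : Ext C T)⁻¹) = ⟨Ext.pw T k a, 0⟩ := by
  ext
  · simp
  · simp

theorem pw_two {A : Type} [AddCommGroup A] {C : ACone A} {T : OAut C} (a : A) :
    Ext.pw T 2 a = (T : Equiv.Perm A) ((T : Equiv.Perm A) a) := by
  rw [show (2 : ℤ) = 1 + 1 by norm_num, Ext.pw_add, Ext.pw_one, Ext.pw_one]

/-- The first embedding. -/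
noncomputable def F1 : Ext LC SL →* Ext BC SB :=
  Ext.lift (fun f => ⟨mom f, 0⟩) (by
    intro f g
    ext1
    · simp [Ext.pw_zero]
    · simp) ⟨0, 2⟩ (by
    intro f
    rw [conj_t, pw_two]
    change _ = (⟨mom (dsh f), 0⟩ : Ext BC SB)
    rw [mom_dsh]
    rfl)

/-- The second embedding. -/
noncomputable def F2 : Ext LC SL →* Ext BE SE :=
  Ext.lift (fun f => ⟨(mom f, chi f), 0⟩) (by
    intro f g
    ext1
    · simp [Ext.pw_zero]
    · simp) ⟨0, 2⟩ (by
    intro f
    rw [conj_t, pw_two]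
    change _ = (⟨(mom (dsh f), chi (dsh f)), 0⟩ : Ext BE SE)
    rw [mom_dsh, chi_dsh]
    rfl)

theorem F1_lemb : LEmb F1 := by
  refine lemb_of_pos Ext.total F1 ?_
  intro x hx
  rw [Ext.one_lt_iff] at hx ⊢
  rcases hx with hx | ⟨hx, hx'⟩
  · left
    rw [F1, Ext.lift_apply, Ext.mul_k, Ext.zpow_k]
    simp only
    omega
  · right
    rw [F1, Ext.lift_apply, hx, zpow_zero, mul_one]
    exact ⟨rfl, hx'⟩

theorem F2_lemb : LEmb F2 := by
  refine lemb_of_pos Ext.total F2 ?_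
  intro x hx
  rw [Ext.one_lt_iff] at hx ⊢
  rcases hx with hx | ⟨hx, hx'⟩
  · left
    rw [F2, Ext.lift_apply, Ext.mul_k, Ext.zpow_k]
    simp only
    omega
  · right
    rw [F2, Ext.lift_apply, hx, zpow_zero, mul_one]
    exact ⟨rfl, Or.inl hx'⟩

/-- **The contradiction**: a nonabelian variety of `ℓ`-groups does not have the amalgamation
property. -/
theorem no_amalg (hV : IsVar V) (hA : Amalg V) {G : Type} [Group G] [Lattice G] (vG : V G)
    {x y : G} (hxy : x * y ≠ y * x) : False := by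
  have vH : V Heis := heis_mem hV hA vG hxy
  have v4 := z4_mem hV hA vH
  have vE : V (Ext BE SE) := SE_mem hV (Tn_mem hV hA v4)
  have vB : V (Ext BC SB) := SB_mem hV vE
  have vL : V (Ext LC SL) := hV.of_lemb F1_lemb vB
  obtain ⟨D, _, _, vD, h, k, hh, hk, hhk⟩ := hA.hom F1 F2 F1_lemb F2_lemb vL vB vE
  -- the roots agree
  have e0 : h ⟨0, 1⟩ = k ⟨0, 1⟩ := by
    apply sq_inj hV hA vD
    have e1 : F1 ⟨0, 1⟩ = (⟨0, 1⟩ : Ext BC SB) * ⟨0, 1⟩ := by
      rw [F1, Ext.lift_apply]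
      ext1
      · simp
      · simp
    have e2 : F2 ⟨0, 1⟩ = (⟨0, 1⟩ : Ext BE SE) * ⟨0, 1⟩ := by
      rw [F2, Ext.lift_apply]
      ext1
      · simp
      · simp
    have e3 := hhk ⟨0, 1⟩
    rw [e1, e2, map_mul, map_mul] at e3
    exact e3
  -- the base elements agree
  have f0 : F1 ⟨Finsupp.single 0 1, 0⟩ = ⟨d0, 0⟩ := by
    rw [F1, Ext.lift_apply, zpow_zero, mul_one, mom_single, Ext.pw_zero, one_smul]
  have f1 : F1 ⟨Finsupp.single 1 1, 0⟩ = ⟨sh d0, 0⟩ := by
    rw [F1, Ext.lift_apply, zpow_zero, mul_one, mom_single, Ext.pw_one, one_smul]; rfl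
  have g0 : F2 ⟨Finsupp.single 0 1, 0⟩ = ⟨(d0, 1), 0⟩ := by
    rw [F2, Ext.lift_apply, zpow_zero, mul_one, mom_single, Ext.pw_zero, one_smul, chi_single]
    simp
  have g1 : F2 ⟨Finsupp.single 1 1, 0⟩ = ⟨(sh d0, -1), 0⟩ := by
    rw [F2, Ext.lift_apply, zpow_zero, mul_one, mom_single, Ext.pw_one, one_smul, chi_single]
    simp [SB_apply]
  have a0 := hhk ⟨Finsupp.single 0 1, 0⟩
  have a1 := hhk ⟨Finsupp.single 1 1, 0⟩
  rw [f0, g0] at a0
  rw [f1, g1] at a1
  have c1 : ((⟨0, 1⟩ : Ext BC SB) * ⟨d0, 0⟩ * (⟨0, 1⟩ : Ext BC SB)⁻¹) = ⟨sh d0, 0⟩ := by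
    rw [conj_t, Ext.pw_one]; rfl
  have c2 : ((⟨0, 1⟩ : Ext BE SE) * ⟨(d0, 1), 0⟩ * (⟨0, 1⟩ : Ext BE SE)⁻¹) =
      ⟨(sh d0, 1), 0⟩ := by
    rw [conj_t, Ext.pw_one]; rfl
  have a2 : k ⟨(sh d0, 1), 0⟩ = k ⟨(sh d0, -1), 0⟩ := by
    rw [← a1, ← c1, ← c2, map_mul, map_mul, map_mul, map_mul, map_inv, map_inv, e0, a0]
  have a3 := hk.inj a2
  have a4 : ((1 : ℤ)) = -1 := congrArg (fun x : Ext BE SE => x.a.2) a3
  omega

end Pool.Agent.Helper6.AP
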