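import Pool.Agent.Helper6.AP1

set_option autoImplicit false
set_option linter.unusedSectionVars false
set_option linter.style.haveILetI false

open Filter

namespace Pool.Agent.Helper6.AP

open LVar

section Alg

variable {G : Type*} [Group G] [Lattice G] [MulLeftMono G] [MulRightMono G]

/-- Disjoint positive elements commute. -/
theorem comm_of_disj {a b : G} (h : a ⊓ b = 1) : a * b = b * a := by
  have h1 : a ⊔ b = a * b := by
    have : a ⊔ b = a * (a ⊓ b)⁻¹ * b := by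
      rw [inv_inf, mul_sup, sup_mul]
      simp [sup_comm]
    rw [this, h]; simp
  have h2 : b ⊔ a = b * a := by
    have : b ⊔ a = b * (b ⊓ a)⁻¹ * a := by
      rw [inv_inf, mul_sup, sup_mul]
      simp [sup_comm]
    rw [this, inf_comm, h]; simp
  rw [← h1, ← h2, sup_comm]

theorem sup_of_disj {a b : G} (h : a ⊓ b = 1) : a ⊔ b = a * b := by
  have : a ⊔ b = a * (a ⊓ b)⁻¹ * b := by
    rw [inv_inf, mul_sup, sup_mul]
    simp [sup_comm]
  rw [this, h]; simp

theorem conj_inf (g a b : G) : g⁻¹ * (a ⊓ b) * g = (g⁻¹ * a * g) ⊓ (g⁻¹ * b * g) := by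
  rw [mul_inf, inf_mul]

/-- If `u ≥ 1` and `b ≥ 1` is disjoint from its conjugate by `u` then `b ≤ u`. -/
theorem le_of_disj_conj {b u : G} (hu : 1 ≤ u) (h : b ⊓ (u⁻¹ * b * u) = 1) :
    b ≤ u := by
  have h1 : (u * b) ⊓ (b * u) = u := by
    have : u * (b ⊓ (u⁻¹ * b * u)) = (u * b) ⊓ (b * u) := by
      rw [mul_inf]; congr 1; group
    rw [← this, h, mul_one]
  rw [← h1]
  exact le_inf (le_mul_of_one_le_left' hu) (le_mul_of_one_le_right' hu)

/-- The algebraic heart of the first step. -/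
theorem heart1 {b1 b2 b3 g g' : G} (h1 : 1 ≤ b1) (hg : 1 ≤ g)
    (hg' : 1 ≤ g') (e2 : g⁻¹ * b1 * g = b2) (e3 : g'⁻¹ * b1 * g' = b3) (d3 : b3 ⊓ g = 1)
    (d2 : b2 ⊓ g' = 1) (d12 : b1 ⊓ b2 = 1) (d13 : b1 ⊓ b3 = 1) : b1 = 1 := by
  set h := g ⊓ g' with hh
  have h1h : 1 ≤ h := le_inf hg hg'
  have hb2 : 1 ≤ b2 := by rw [← d2]; exact inf_le_left
  have hb3 : 1 ≤ b3 := by rw [← d3]; exact inf_le_left
  have c2 : b2 * h = h * b2 := by
    apply comm_of_disj
    apply le_antisymm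
    · rw [← d2]; exact inf_le_inf_left _ inf_le_right
    · exact le_inf hb2 h1h
  have c3 : b3 * h = h * b3 := by
    apply comm_of_disj
    apply le_antisymm
    · rw [← d3]; exact inf_le_inf_left _ inf_le_left
    · exact le_inf hb3 h1h
  have u1 : 1 ≤ g * h⁻¹ := by
    rw [← mul_inv_cancel h]; exact mul_le_mul_left inf_le_left _
  have v1 : 1 ≤ g' * h⁻¹ := by
    rw [← mul_inv_cancel h]; exact mul_le_mul_left inf_le_right _
  have huv : (g * h⁻¹) ⊓ (g' * h⁻¹) = 1 := by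
    rw [← inf_mul, ← hh, mul_inv_cancel]
  have cu : (g * h⁻¹)⁻¹ * b1 * (g * h⁻¹) = b2 := by
    have : (g * h⁻¹)⁻¹ * b1 * (g * h⁻¹) = h * (g⁻¹ * b1 * g) * h⁻¹ := by group
    rw [this, e2, ← c2]; group
  have cv : (g' * h⁻¹)⁻¹ * b1 * (g' * h⁻¹) = b3 := by
    have : (g' * h⁻¹)⁻¹ * b1 * (g' * h⁻¹) = h * (g'⁻¹ * b1 * g') * h⁻¹ := by group
    rw [this, e3, ← c3]; group
  apply le_antisymm _ h1
  rw [← huv]
  refine le_inf (le_of_disj_conj u1 ?_) (le_of_disj_conj v1 ?_)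
  · rw [cu]; exact d12
  · rw [cv]; exact d13

/-- Powers of disjoint positive elements. -/
theorem zpow_sup_one_of_disj {b c : G} (hb : 1 ≤ b) (hc : 1 ≤ c) (h : b ⊓ c = 1) (i j : ℤ) :
    (b ^ i * c ^ j) ⊔ 1 = b ^ (i ⊔ 0) * c ^ (j ⊔ 0) := by
  have hcomm : Commute b c := comm_of_disj h
  have key : ∀ m n : ℕ, b ^ m ⊔ c ^ n = b ^ m * c ^ n := fun m n =>
    sup_of_disj (inf_pow_pow_eq_one hb hc h m n)
  rcases le_total 0 i with hi | hi <;> rcases le_total 0 j with hj | hj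
  · rw [sup_eq_left.mpr hi, sup_eq_left.mpr hj, sup_eq_left]
    obtain ⟨m, rfl⟩ := Int.eq_ofNat_of_zero_le hi
    obtain ⟨n, rfl⟩ := Int.eq_ofNat_of_zero_le hj
    rw [zpow_natCast, zpow_natCast]
    exact one_le_mul (one_le_pow_of_one_le' hb m) (one_le_pow_of_one_le' hc n)
  · rw [sup_eq_left.mpr hi, sup_eq_right.mpr hj]
    obtain ⟨m, rfl⟩ := Int.eq_ofNat_of_zero_le hi
    obtain ⟨n, hn⟩ := Int.eq_ofNat_of_zero_le (neg_nonneg.mpr hj)
    have hj' : j = -(n : ℤ) := by omega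
    subst hj'
    rw [zpow_neg, zpow_natCast, zpow_natCast, zpow_zero, mul_one]
    have : b ^ m * (c ^ n)⁻¹ ⊔ 1 = (b ^ m ⊔ c ^ n) * (c ^ n)⁻¹ := by
      rw [sup_mul, mul_inv_cancel]
    rw [this, key]; group
  · rw [sup_eq_right.mpr hi, sup_eq_left.mpr hj]
    obtain ⟨m, hm⟩ := Int.eq_ofNat_of_zero_le (neg_nonneg.mpr hi)
    obtain ⟨n, rfl⟩ := Int.eq_ofNat_of_zero_le hj
    have hi' : i = -(m : ℤ) := by omega
    subst hi'
    rw [zpow_neg, zpow_natCast, zpow_natCast, zpow_zero, one_mul]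
    have : (b ^ m)⁻¹ * c ^ n ⊔ 1 = (b ^ m)⁻¹ * (b ^ m ⊔ c ^ n) := by
      rw [mul_sup, inv_mul_cancel, sup_comm]
    rw [this, key]; group
  · rw [sup_eq_right.mpr hi, sup_eq_right.mpr hj, sup_eq_right.mpr]
    · simp
    obtain ⟨m, hm⟩ := Int.eq_ofNat_of_zero_le (neg_nonneg.mpr hi)
    obtain ⟨n, hn⟩ := Int.eq_ofNat_of_zero_le (neg_nonneg.mpr hj)
    have hi' : i = -(m : ℤ) := by omega
    have hj' : j = -(n : ℤ) := by omega
    subst hi' hj'
    rw [zpow_neg, zpow_neg, zpow_natCast, zpow_natCast]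
    exact mul_le_one' (inv_le_one'.mpr (one_le_pow_of_one_le' hb m))
      (inv_le_one'.mpr (one_le_pow_of_one_le' hc n))

theorem zpow_sup_of_disj {b c : G} (hb : 1 ≤ b) (hc : 1 ≤ c) (h : b ⊓ c = 1) (i j i' j' : ℤ) :
    b ^ (i ⊔ i') * c ^ (j ⊔ j') = (b ^ i * c ^ j) ⊔ (b ^ i' * c ^ j') := by
  have hcomm : Commute b c := comm_of_disj h
  have h1 := zpow_sup_one_of_disj hb hc h (i - i') (j - j')
  have e1 : (b ^ i * c ^ j) ⊔ (b ^ i' * c ^ j') =
      ((b ^ (i - i') * c ^ (j - j')) ⊔ 1) * (b ^ i' * c ^ j') := by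
    rw [sup_mul, one_mul]
    congr 1
    rw [show b ^ (i - i') * c ^ (j - j') * (b ^ i' * c ^ j') =
      b ^ (i - i') * (c ^ (j - j') * b ^ i') * c ^ j' by group,
      ((hcomm.zpow_zpow i' (j - j')).eq).symm]
    rw [show b ^ (i - i') * (b ^ i' * c ^ (j - j')) * c ^ j' =
      (b ^ (i - i') * b ^ i') * (c ^ (j - j') * c ^ j') by group]
    rw [← zpow_add, ← zpow_add]
    congr 2 <;> ring
  rw [e1, h1]
  rw [show b ^ ((i - i') ⊔ 0) * c ^ ((j - j') ⊔ 0) * (b ^ i' * c ^ j') =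
      b ^ ((i - i') ⊔ 0) * (c ^ ((j - j') ⊔ 0) * b ^ i') * c ^ j' by group,
      ((hcomm.zpow_zpow i' ((j - j') ⊔ 0)).eq).symm]
  rw [show b ^ ((i - i') ⊔ 0) * (b ^ i' * c ^ ((j - j') ⊔ 0)) * c ^ j' =
      (b ^ ((i - i') ⊔ 0) * b ^ i') * (c ^ ((j - j') ⊔ 0) * c ^ j') by group]
  rw [← zpow_add, ← zpow_add]
  congr 2
  · rcases le_total i i' with h | h
    · rw [sup_eq_right.mpr h, sup_eq_right.mpr (by omega)]; ring
    · rw [sup_eq_left.mpr h, sup_eq_left.mpr (by omega)]; ring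
  · rcases le_total j j' with h | h
    · rw [sup_eq_right.mpr h, sup_eq_right.mpr (by omega)]; ring
    · rw [sup_eq_left.mpr h, sup_eq_left.mpr (by omega)]; ring

/-- The free abelian `ℓ`-subgroup generated by two disjoint elements. -/
def pairHom (b c : G) (h : b * c = c * b) :
    Multiplicative ℤ × Multiplicative ℤ →* G where
  toFun p := b ^ (Multiplicative.toAdd p.1) * c ^ (Multiplicative.toAdd p.2)
  map_one' := by simp
  map_mul' p q := by
    have hcomm : Commute b c := h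
    simp only [Prod.fst_mul, Prod.snd_mul, toAdd_mul, zpow_add]
    rw [show b ^ (Multiplicative.toAdd p.1) * c ^ (Multiplicative.toAdd p.2) *
      (b ^ (Multiplicative.toAdd q.1) * c ^ (Multiplicative.toAdd q.2)) =
      b ^ (Multiplicative.toAdd p.1) * (c ^ (Multiplicative.toAdd p.2) *
      b ^ (Multiplicative.toAdd q.1)) * c ^ (Multiplicative.toAdd q.2) by group,
      ((hcomm.zpow_zpow _ _).eq).symm]
    group

theorem zpow_inj_aux {b : G} (hb : 1 < b) {n : ℤ} (h : b ^ n = 1) : n = 0 := by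
  by_contra hne
  rcases lt_or_gt_of_ne hne with h1 | h1
  · have h2 := zmono hb.le (show n ≤ -1 by omega)
    rw [h, zpow_neg_one] at h2
    exact absurd (one_le_inv'.mp h2) (not_le_of_gt hb)
  · have h2 := zmono hb.le (show 1 ≤ n by omega)
    rw [h, zpow_one] at h2
    exact absurd h2 (not_le_of_gt hb)

theorem pairHom_lemb {G : Type} [Group G] [Lattice G] [MulLeftMono G] [MulRightMono G]
    {b c : G} (hb : 1 < b) (hc : 1 < c) (h : b ⊓ c = 1) :
    LEmb (pairHom b c (comm_of_disj h)) := by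
  have hsup : ∀ x y, pairHom b c (comm_of_disj h) (x ⊔ y) =
      pairHom b c (comm_of_disj h) x ⊔ pairHom b c (comm_of_disj h) y := by
    intro x y
    exact zpow_sup_of_disj hb.le hc.le h _ _ _ _
  refine ⟨hsup, ?_, ?_⟩
  · intro x y
    have h1 := hsup x⁻¹ y⁻¹
    rw [map_inv, map_inv, ← inv_inf, ← inv_inf, map_inv] at h1
    exact inv_injective h1
  · rw [injective_iff_map_eq_one]
    intro x hx
    have hx' : b ^ (Multiplicative.toAdd x.1) * c ^ (Multiplicative.toAdd x.2) = 1 := hx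
    have h1 := zpow_sup_one_of_disj hb.le hc.le h (Multiplicative.toAdd x.1)
      (Multiplicative.toAdd x.2)
    have h2 := zpow_sup_one_of_disj hb.le hc.le h (-Multiplicative.toAdd x.1)
      (-Multiplicative.toAdd x.2)
    have hcomm : Commute b c := comm_of_disj h
    have hx'' : b ^ (-Multiplicative.toAdd x.1) * c ^ (-Multiplicative.toAdd x.2) = 1 := by
      rw [zpow_neg, zpow_neg, ← mul_inv_rev, ((hcomm.zpow_zpow _ _).eq).symm, hx', inv_one]
    rw [hx', sup_idem] at h1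
    rw [hx'', sup_idem] at h2
    have pos : ∀ i j : ℤ, 0 ≤ i → 0 ≤ j → 1 = b ^ i * c ^ j → i = 0 ∧ j = 0 := by
      intro i j hi hj h
      obtain ⟨m, rfl⟩ := Int.eq_ofNat_of_zero_le hi
      obtain ⟨n, rfl⟩ := Int.eq_ofNat_of_zero_le hj
      have hb1 : (1 : G) ≤ b ^ (m : ℤ) := by
        rw [zpow_natCast]; exact one_le_pow_of_one_le' hb.le m
      have hc1 : (1 : G) ≤ c ^ (n : ℤ) := by
        rw [zpow_natCast]; exact one_le_pow_of_one_le' hc.le n
      have hb2 : b ^ (m : ℤ) = 1 := by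
        apply le_antisymm _ hb1
        rw [h]; exact le_mul_of_one_le_right' hc1
      have hc2 : c ^ (n : ℤ) = 1 := by
        rw [hb2, one_mul] at h; exact h.symm
      exact ⟨zpow_inj_aux hb hb2, zpow_inj_aux hc hc2⟩
    have p1 := pos _ _ le_sup_right le_sup_right h1
    have p2 := pos _ _ le_sup_right le_sup_right h2
    have q1 : Multiplicative.toAdd x.1 = 0 := by
      have a1 := sup_eq_right.mp p1.1
      have a2 := sup_eq_right.mp p2.1
      omega
    have q2 : Multiplicative.toAdd x.2 = 0 := by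
      have a1 := sup_eq_right.mp p1.2
      have a2 := sup_eq_right.mp p2.2
      omega
    exact Prod.ext q1 q2

end Alg

end Pool.Agent.Helper6.AP
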