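import Pool.Agent.Helper6.AP3

set_option autoImplicit false
set_option linter.unusedSectionVars false
set_option linter.style.haveILetI false

open Filter

namespace Pool.Agent.Helper6.AP

open LVar

variable {V : ∀ (α : Type) [Group α] [Lattice α], Prop}

section Polar

variable {G : Type*} [Group G] [Lattice G] [MulLeftMono G] [MulRightMono G]

theorem disj_mul {a b c : G} (hb : 1 ≤ b) (hc : 1 ≤ c) (h1 : a ⊓ b = 1)
    (h2 : a ⊓ c = 1) : a ⊓ (b * c) = 1 := by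
  have ha : 1 ≤ a := by rw [← h1]; exact inf_le_left
  apply le_antisymm
  · refine (inf_mul_le_aux ha hb hc).trans ?_
    rw [h1, h2, one_mul]
  · exact le_inf ha (one_le_mul hb hc)

theorem abs_mul_le (x y : G) : (x * y) ⊔ (x * y)⁻¹ ≤
    (x ⊔ x⁻¹) * (y ⊔ y⁻¹) * (x ⊔ x⁻¹) := by
  have hx := one_le_mabs x
  have hy := one_le_mabs y
  have hx' : 1 ≤ x ⊔ x⁻¹ := hx
  have hy' : 1 ≤ y ⊔ y⁻¹ := hy
  refine sup_le ?_ ?_
  · calc x * y ≤ (x ⊔ x⁻¹) * (y ⊔ y⁻¹) := mul_le_mul' le_sup_left le_sup_left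
      _ ≤ _ := le_mul_of_one_le_right' hx'
  · rw [mul_inv_rev]
    calc y⁻¹ * x⁻¹ ≤ (y ⊔ y⁻¹) * (x ⊔ x⁻¹) := mul_le_mul' le_sup_right le_sup_right
      _ ≤ (x ⊔ x⁻¹) * ((y ⊔ y⁻¹) * (x ⊔ x⁻¹)) := le_mul_of_one_le_left' hx'
      _ = _ := by rw [mul_assoc]

theorem abs_conj (g x : G) : (g⁻¹ * x * g) ⊔ (g⁻¹ * x * g)⁻¹ = g⁻¹ * (x ⊔ x⁻¹) * g := by
  rw [mul_sup, sup_mul]
  congr 1
  group

theorem abs_sup_le (x y : G) : (x ⊔ y) ⊔ (x ⊔ y)⁻¹ ≤ (x ⊔ x⁻¹) ⊔ (y ⊔ y⁻¹) := by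
  refine sup_le (sup_le (le_sup_left.trans le_sup_left) (le_sup_left.trans le_sup_right)) ?_
  rw [inv_sup]
  exact inf_le_left.trans (le_sup_right.trans le_sup_left)

theorem abs_inf_le (x y : G) : (x ⊓ y) ⊔ (x ⊓ y)⁻¹ ≤ (x ⊔ x⁻¹) ⊔ (y ⊔ y⁻¹) := by
  refine sup_le (inf_le_left.trans (le_sup_left.trans le_sup_left)) ?_
  rw [inv_inf]
  exact sup_le (le_sup_right.trans le_sup_left) (le_sup_right.trans le_sup_right)

/-- The polar of a positive element. -/
def polar (u : G) (hu : 1 ≤ u) : Subgroup G where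
  carrier := {z | u ⊓ (z ⊔ z⁻¹) = 1}
  one_mem' := by
    change u ⊓ (1 ⊔ 1⁻¹) = 1
    rw [inv_one, sup_idem]; exact inf_eq_right.mpr hu
  mul_mem' := by
    intro x y hx hy
    have hx1 : 1 ≤ x ⊔ x⁻¹ := one_le_mabs x
    have hy1 : 1 ≤ y ⊔ y⁻¹ := one_le_mabs y
    have h1 : u ⊓ ((x ⊔ x⁻¹) * (y ⊔ y⁻¹) * (x ⊔ x⁻¹)) = 1 :=
      disj_mul (one_le_mul hx1 hy1) hx1 (disj_mul hx1 hy1 hx hy) hx
    apply le_antisymm
    · rw [← h1]; exact inf_le_inf_left _ (abs_mul_le x y)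
    · exact le_inf hu (one_le_mabs _)
  inv_mem' := by
    intro x hx
    change u ⊓ (x⁻¹ ⊔ x⁻¹⁻¹) = 1
    rw [inv_inv, sup_comm]
    exact hx

theorem mem_polar {u : G} {hu : 1 ≤ u} {z : G} : z ∈ polar u hu ↔ u ⊓ (z ⊔ z⁻¹) = 1 := Iff.rfl

theorem polar_of_le {u : G} {hu : 1 ≤ u} {z : G} {w : G} (h1 : u ⊓ w = 1)
    (h2 : z ⊔ z⁻¹ ≤ w) : z ∈ polar u hu := by
  rw [mem_polar]
  apply le_antisymm
  · rw [← h1]; exact inf_le_inf_left _ h2
  · exact le_inf hu (one_le_mabs z)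

theorem polar_ideal (hrep : ∀ u v x : G, u ⊓ v = 1 → u ⊓ (x⁻¹ * v * x) = 1) (u : G)
    (hu : 1 ≤ u) : IsLIdeal (polar u hu) := by
  have hsup : ∀ x ∈ polar u hu, ∀ y ∈ polar u hu, u ⊓ ((x ⊔ x⁻¹) ⊔ (y ⊔ y⁻¹)) = 1 := by
    intro x hx y hy
    have hx1 : 1 ≤ x ⊔ x⁻¹ := one_le_mabs x
    have hy1 : 1 ≤ y ⊔ y⁻¹ := one_le_mabs y
    have h1 := disj_mul hx1 hy1 hx hy
    apply le_antisymm
    · rw [← h1]
      refine inf_le_inf_left _ (sup_le ?_ ?_)
      · exact le_mul_of_one_le_right' hy1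
      · exact le_mul_of_one_le_left' hx1
    · exact le_inf hu (hx1.trans le_sup_left)
  refine ⟨⟨?_⟩, ?_, ?_, ?_⟩
  · intro x hx g
    rw [mem_polar] at hx ⊢
    have := hrep _ _ g⁻¹ hx
    rw [← abs_conj, inv_inv] at this
    exact this
  · intro x hx y hy
    exact polar_of_le (hsup x hx y hy) (abs_sup_le x y)
  · intro x hx y hy
    exact polar_of_le (hsup x hx y hy) (abs_inf_le x y)
  · intro x hx y hy g h1 h2
    refine polar_of_le (hsup x hx y hy) (sup_le ?_ ?_)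
    · exact h2.trans (le_sup_left.trans le_sup_right)
    · exact (inv_le_inv_iff.mpr h1).trans (le_sup_right.trans le_sup_left)

end Polar

/-- In a variety with the amalgamation property every nontrivial element survives in a
totally ordered quotient. -/
theorem exists_chain (hV : IsVar V) (hA : Amalg V) {G : Type} [Group G] [Lattice G]
    (vG : V G) {w : G} (hw : w ≠ 1) :
    ∃ (K : Type) (_ : Group K) (_ : Lattice K) (π : G →* K), V K ∧
      (∀ x y : K, x ≤ y ∨ y ≤ x) ∧ (∀ x y, π (x ⊔ y) = π x ⊔ π y) ∧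
      (∀ x y, π (x ⊓ y) = π x ⊓ π y) ∧ Function.Surjective π ∧ π w ≠ 1 := by
  classical
  haveI := hV.left vG
  haveI := hV.right vG
  have hbot : IsLIdeal (⊥ : Subgroup G) := by
    refine ⟨inferInstance, ?_, ?_, ?_⟩
    · intro x hx y hy
      rw [Subgroup.mem_bot.mp hx, Subgroup.mem_bot.mp hy, sup_idem]
      exact Subgroup.one_mem _
    · intro x hx y hy
      rw [Subgroup.mem_bot.mp hx, Subgroup.mem_bot.mp hy, inf_idem]
      exact Subgroup.one_mem _
    · intro x hx y hy g h1 h2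
      rw [Subgroup.mem_bot.mp hx] at h1
      rw [Subgroup.mem_bot.mp hy] at h2
      exact Subgroup.mem_bot.mpr (le_antisymm h2 h1)
  obtain ⟨P, hmax⟩ : ∃ P : Subgroup G, Maximal (fun N : Subgroup G => IsLIdeal N ∧ w ∉ N) P := by
    have := zorn_le_nonempty₀ {N : Subgroup G | IsLIdeal N ∧ w ∉ N} (fun C hC hchain N0 hN0 => by
      have hdir : DirectedOn (· ≤ ·) C := hchain.directedOn
      have hmem : ∀ x, x ∈ sSup C ↔ ∃ N ∈ C, x ∈ N := fun x =>
        Subgroup.mem_sSup_of_directedOn ⟨N0, hN0⟩ hdir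
      refine ⟨sSup C, ⟨?_, ?_⟩, fun N hN => le_sSup hN⟩
      · refine ⟨⟨?_⟩, ?_, ?_, ?_⟩
        · intro x hx g
          rw [hmem] at hx ⊢
          obtain ⟨A, hA, hxA⟩ := hx
          exact ⟨A, hA, (hC hA).1.normal.conj_mem x hxA g⟩
        · intro x hx y hy
          rw [hmem] at hx hy ⊢
          obtain ⟨A, hA, hxA⟩ := hx
          obtain ⟨B, hB, hyB⟩ := hy
          rcases hchain.total hA hB with h | h
          · exact ⟨B, hB, (hC hB).1.sup_mem _ (h hxA) _ hyB⟩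
          · exact ⟨A, hA, (hC hA).1.sup_mem _ hxA _ (h hyB)⟩
        · intro x hx y hy
          rw [hmem] at hx hy ⊢
          obtain ⟨A, hA, hxA⟩ := hx
          obtain ⟨B, hB, hyB⟩ := hy
          rcases hchain.total hA hB with h | h
          · exact ⟨B, hB, (hC hB).1.inf_mem _ (h hxA) _ hyB⟩
          · exact ⟨A, hA, (hC hA).1.inf_mem _ hxA _ (h hyB)⟩
        · intro x hx y hy g h1 h2
          rw [hmem] at hx hy ⊢
          obtain ⟨A, hA, hxA⟩ := hx
          obtain ⟨B, hB, hyB⟩ := hy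
          rcases hchain.total hA hB with h | h
          · exact ⟨B, hB, (hC hB).1.convex _ (h hxA) _ hyB g h1 h2⟩
          · exact ⟨A, hA, (hC hA).1.convex _ hxA _ (h hyB) g h1 h2⟩
      · intro hcon
        obtain ⟨N, hN, hwN⟩ := (hmem w).mp hcon
        exact (hC hN).2 hwN) ⊥ ⟨hbot, fun h => hw (Subgroup.mem_bot.mp h)⟩
    obtain ⟨P, _, hP⟩ := this
    exact ⟨P, hP⟩
  have hPI : IsLIdeal P := hmax.1.1
  have hwP : w ∉ P := hmax.1.2
  haveI hPn : P.Normal := hPI.normal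
  letI : Lattice (G ⧸ P) := quotLattice P hPI
  haveI : MulLeftMono (G ⧸ P) := quotLattice_mulLeftMono P hPI
  haveI : MulRightMono (G ⧸ P) := quotLattice_mulRightMono P hPI
  have vQ : V (G ⧸ P) := hV.quotient vG P hPI
  have hrep : ∀ u v x : G ⧸ P, u ⊓ v = 1 → u ⊓ (x⁻¹ * v * x) = 1 :=
    fun u v x h => rep hV hA vQ h x
  have key : ∀ (N : Subgroup (G ⧸ P)), IsLIdeal N → N ≠ ⊥ → (w : G ⧸ P) ∈ N := by
    intro N hN hne
    have hcm : IsLIdeal (N.comap (QuotientGroup.mk' P)) := by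
      refine ⟨hN.normal.comap _, ?_, ?_, ?_⟩
      · intro a ha b hb
        exact hN.sup_mem _ ha _ hb
      · intro a ha b hb
        exact hN.inf_mem _ ha _ hb
      · intro a ha b hb g h1 h2
        have m1 : QuotientGroup.mk' P a ≤ QuotientGroup.mk' P g := by
          rw [← sup_eq_right]
          change QuotientGroup.mk' P (a ⊔ g) = _
          rw [sup_eq_right.mpr h1]
        have m2 : QuotientGroup.mk' P g ≤ QuotientGroup.mk' P b := by
          rw [← sup_eq_right]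
          change QuotientGroup.mk' P (g ⊔ b) = _
          rw [sup_eq_right.mpr h2]
        exact hN.convex _ ha _ hb _ m1 m2
    have hle : P ≤ N.comap (QuotientGroup.mk' P) := by
      intro a ha
      change QuotientGroup.mk' P a ∈ N
      have : QuotientGroup.mk' P a = 1 := (QuotientGroup.eq_one_iff a).mpr ha
      rw [this]
      exact Subgroup.one_mem _
    by_contra hw2
    have heq : N.comap (QuotientGroup.mk' P) ≤ P := hmax.2 ⟨hcm, hw2⟩ hle
    apply hne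
    rw [eq_bot_iff]
    intro x hx
    obtain ⟨x', rfl⟩ := QuotientGroup.mk'_surjective P x
    exact Subgroup.mem_bot.mpr ((QuotientGroup.eq_one_iff x').mpr (heq hx))
  have hprime : ∀ x y : G ⧸ P, 1 ≤ x → 1 ≤ y → x ⊓ y = 1 → x = 1 ∨ y = 1 := by
    intro x y hx hy hxy
    by_contra hcon
    push Not at hcon
    have absx : x ⊔ x⁻¹ = x := sup_eq_left.mpr ((inv_le_one'.mpr hx).trans hx)
    have absy : y ⊔ y⁻¹ = y := sup_eq_left.mpr ((inv_le_one'.mpr hy).trans hy)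
    have h1 : (w : G ⧸ P) ∈ polar x hx := by
      refine key _ (polar_ideal hrep x hx) ?_
      intro hbot
      have : y ∈ polar x hx := by rw [mem_polar, absy]; exact hxy
      rw [hbot] at this
      exact hcon.2 (Subgroup.mem_bot.mp this)
    rw [mem_polar] at h1
    have hw1 : (1 : G ⧸ P) ≤ (w : G ⧸ P) ⊔ (w : G ⧸ P)⁻¹ := one_le_mabs _
    have h2 : (w : G ⧸ P) ∈ polar ((w : G ⧸ P) ⊔ (w : G ⧸ P)⁻¹) hw1 := by
      refine key _ (polar_ideal hrep _ _) ?_
      intro hbot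
      have : x ∈ polar ((w : G ⧸ P) ⊔ (w : G ⧸ P)⁻¹) hw1 := by
        rw [mem_polar, absx, inf_comm]; exact h1
      rw [hbot] at this
      exact hcon.1 (Subgroup.mem_bot.mp this)
    rw [mem_polar, inf_idem] at h2
    have h3 : (w : G ⧸ P) = 1 := by
      apply le_antisymm
      · rw [← h2]; exact le_sup_left
      · rw [← inv_le_one', ← h2]; exact le_sup_right
    exact hwP ((QuotientGroup.eq_one_iff w).mp h3)
  refine ⟨G ⧸ P, inferInstance, quotLattice P hPI, QuotientGroup.mk' P, vQ, ?_, fun _ _ => rfl,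
    fun _ _ => rfl, QuotientGroup.mk'_surjective P, ?_⟩
  · intro x y
    rcases hprime (x * y⁻¹ ⊔ 1) ((x * y⁻¹)⁻¹ ⊔ 1) le_sup_right le_sup_right (pos_inf_neg _)
      with h | h
    · left
      have : x * y⁻¹ ≤ 1 := sup_eq_right.mp h
      rwa [mul_inv_le_iff_le_mul, one_mul] at this
    · right
      have : (x * y⁻¹)⁻¹ ≤ 1 := sup_eq_right.mp h
      rw [mul_inv_rev, inv_inv, mul_inv_le_iff_le_mul, one_mul] at this
      exact this
  · intro h
    exact hwP ((QuotientGroup.eq_one_iff w).mp h)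

/-- **Step 2**: the congruence extension argument. -/
theorem cep (hV : IsVar V) (hA : Amalg V) {C : Type} [Group C] [Lattice C] (vC : V C)
    (A : Subgroup C) (hs : ∀ x ∈ A, ∀ y ∈ A, x ⊔ y ∈ A) (hi : ∀ x ∈ A, ∀ y ∈ A, x ⊓ y ∈ A)
    (M : Subgroup A) (hM : letI := subLattice A hs hi; IsLIdeal M) {b a : A} (g : C)
    (hb : (1 : C) ≤ b) (hbM : b ∈ M) (ha : (a : C) = g⁻¹ * b * g) : a ∈ M := by
  haveI := hV.left vC
  haveI := hV.right vC
  letI : Lattice A := subLattice A hs hi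
  have eA : LEmb A.subtype := subLattice_lemb A hs hi
  have vA : V A := hV.of_lemb eA vC
  haveI := hV.left vA
  haveI := hV.right vA
  haveI : M.Normal := hM.normal
  letI : Lattice (A ⧸ M) := quotLattice M hM
  have vQ : V (A ⧸ M) := hV.quotient vA M hM
  haveI := hV.left vQ
  have vB : V (A × (A ⧸ M)) := hV.prod2 vA vQ
  let f : A →* A × (A ⧸ M) := (MonoidHom.id A).prod (QuotientGroup.mk' M)
  have hf : LEmb f := by
    refine ⟨fun _ _ => rfl, fun _ _ => rfl, ?_⟩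
    intro x y h
    exact congrArg Prod.fst h
  obtain ⟨D, _, _, vD, h, k, hh, hk, hhk⟩ := hA.hom f A.subtype hf eA vA vB vC
  haveI := hV.left vD
  haveI := hV.right vD
  have hb1 : (1 : A) ≤ b := hb
  have ha1 : (1 : A) ≤ a := by
    change (1 : C) ≤ a
    rw [ha]
    have := mul_le_mul' (mul_le_mul' (le_refl g⁻¹) hb) (le_refl g)
    simpa using this
  have haq : (1 : A ⧸ M) ≤ (a : A ⧸ M) := by
    rw [← sup_eq_right]
    change ((1 ⊔ a : A) : A ⧸ M) = _
    rw [sup_eq_right.mpr ha1]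
  have hbq : ((b : A) : A ⧸ M) = 1 := (QuotientGroup.eq_one_iff b).mpr hbM
  set w : D := h (1, (a : A ⧸ M)) with hw
  have e1 : w ⊓ k b = 1 := by
    have : k b = h (b, 1) := by
      rw [← hbq]; exact (hhk b).symm
    rw [this, hw, ← hh.inf, ← map_one h]
    congr 1
    exact Prod.ext (inf_eq_left.mpr hb1) (inf_eq_right.mpr haq)
  have e2 : w ⊓ k a = 1 := by
    have := rep hV hA vD e1 (k g)
    rw [← map_inv, ← map_mul, ← map_mul, ← ha] at this
    exact this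
  have e3 : w ≤ k a := by
    have : k a = h (a, (a : A ⧸ M)) := (hhk a).symm
    rw [this, hw]
    exact hh.mono (Prod.mk_le_mk.mpr ⟨ha1, le_rfl⟩)
  rw [inf_eq_left.mpr e3] at e2
  have e4 : ((1 : A), (a : A ⧸ M)) = 1 := hh.inj (by rw [← hw, e2, map_one])
  exact (QuotientGroup.eq_one_iff a).mp (congrArg Prod.snd e4)

end Pool.Agent.Helper6.AP
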