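import Pool.Agent.Helper6.AP4

set_option autoImplicit false
set_option linter.unusedSectionVars false
set_option linter.style.haveILetI false

open Filter

namespace Pool.Agent.Helper6.AP

open LVar

variable {V : ∀ (α : Type) [Group α] [Lattice α], Prop}

section Chain

variable {K : Type*} [Group K] [Lattice K] [MulLeftMono K] [MulRightMono K]

theorem lt_of_not_le' (htot : ∀ x y : K, x ≤ y ∨ y ≤ x) {x y : K} (h : ¬ x ≤ y) : y < x :=
  lt_of_le_not_ge ((htot x y).resolve_left h) h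

theorem abs_of_one_le {x : K} (h : 1 ≤ x) : x ⊔ x⁻¹ = x :=
  sup_eq_left.mpr ((inv_le_one'.mpr h).trans h)

theorem abs_of_le_one {x : K} (h : x ≤ 1) : x ⊔ x⁻¹ = x⁻¹ :=
  sup_eq_right.mpr (h.trans (one_le_inv'.mpr h))

theorem one_le_abs (x : K) : 1 ≤ x ⊔ x⁻¹ := one_le_mabs x

theorem conj_pow_eq (g x : K) (n : ℕ) : g⁻¹ * x ^ n * g = (g⁻¹ * x * g) ^ n := by
  have := conj_pow (i := n) (a := g⁻¹) (b := x)
  rw [inv_inv] at this
  exact this.symm

theorem conj_le {x y : K} (g : K) (h : x ≤ y) : g⁻¹ * x * g ≤ g⁻¹ * y * g :=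
  mul_le_mul' (mul_le_mul' le_rfl h) le_rfl

/-- The uniform estimate. -/
theorem uniform (htot : ∀ x y : K, x ≤ y ∨ y ≤ x) {a y : K} (ha : 1 ≤ a) {k : ℕ} (hk : 1 ≤ k)
    (h : y ⊔ y⁻¹ ≤ a ^ k) : a ≤ (y * a * y⁻¹) ^ (2 * k) := by
  by_contra hcon
  have h1 := lt_of_not_le' htot hcon
  set a' := y * a * y⁻¹ with ha'
  have ha1 : 1 ≤ a' := by
    have := mul_le_mul' (mul_le_mul' (le_refl y) ha) (le_refl y⁻¹)
    simpa [ha'] using this
  have hy : y ⊔ y⁻¹ ≤ a' ^ k := by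
    have e1 : y * (y ⊔ y⁻¹) * y⁻¹ = y ⊔ y⁻¹ := by
      rw [mul_sup, sup_mul]; congr 1 <;> group
    rw [← e1, ha', conj_pow]
    exact mul_le_mul' (mul_le_mul' le_rfl h) le_rfl
  have hyy : (y ⊔ y⁻¹) * (y ⊔ y⁻¹) ≤ a := by
    refine (mul_le_mul' hy hy).trans ?_
    rw [← pow_add, ← two_mul]
    exact h1.le
  have h2 : a ≤ a' * a' := by
    rcases htot 1 y with hy1 | hy1
    · rw [abs_of_one_le hy1] at hyy
      have e1 : a * y⁻¹ ≤ a' := by
        rw [ha', mul_assoc]; exact le_mul_of_one_le_left' hy1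
      have e2 : (1 : K) ≤ y⁻¹ * a * y⁻¹ := by
        have := mul_le_mul' (mul_le_mul' (le_refl y⁻¹) hyy) (le_refl y⁻¹)
        simpa using this
      calc a = a * 1 := (mul_one a).symm
        _ ≤ a * (y⁻¹ * a * y⁻¹) := mul_le_mul' le_rfl e2
        _ = (a * y⁻¹) * (a * y⁻¹) := by group
        _ ≤ a' * a' := mul_le_mul' e1 e1
    · rw [abs_of_le_one hy1] at hyy
      have e1 : y * a ≤ a' := by
        rw [ha']; exact le_mul_of_one_le_right' (one_le_inv'.mpr hy1)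
      have e2 : (1 : K) ≤ y * a * y := by
        have := mul_le_mul' (mul_le_mul' (le_refl y) hyy) (le_refl y)
        simpa using this
      calc a = 1 * a := (one_mul a).symm
        _ ≤ (y * a * y) * a := mul_le_mul' e2 le_rfl
        _ = (y * a) * (y * a) := by group
        _ ≤ a' * a' := mul_le_mul' e1 e1
  have h3 : a' * a' ≤ a' ^ (2 * k) := by
    rw [← pow_two]; exact pow_le_pow_right' ha1 (by omega)
  exact absurd (h2.trans h3) hcon

end Chain

section Seq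

variable {K : Type} [Group K] [Lattice K] [MulLeftMono K] [MulRightMono K]

/-- Sequences bounded by a power of the sequence `a`. -/
def bdd (a : ℕ → K) : Subgroup (ℕ → K) where
  carrier := {x | ∃ k : ℕ, ∀ n, x n ⊔ (x n)⁻¹ ≤ a n ^ k}
  one_mem' := ⟨0, fun n => by simp⟩
  mul_mem' := by
    rintro x y ⟨k, hk⟩ ⟨l, hl⟩
    refine ⟨k + l + k, fun n => ?_⟩
    rw [pow_add, pow_add]
    exact (abs_mul_le (x n) (y n)).trans (mul_le_mul' (mul_le_mul' (hk n) (hl n)) (hk n))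
  inv_mem' := by
    rintro x ⟨k, hk⟩
    refine ⟨k, fun n => ?_⟩
    rw [Pi.inv_apply, inv_inv, sup_comm]
    exact hk n

theorem bdd_of_le {a : ℕ → K} (ha : ∀ n, 1 ≤ a n) {x y z : ℕ → K} (hx : x ∈ bdd a)
    (hy : y ∈ bdd a) (h : ∀ n, z n ⊔ (z n)⁻¹ ≤ (x n ⊔ (x n)⁻¹) ⊔ (y n ⊔ (y n)⁻¹)) :
    z ∈ bdd a := by
  obtain ⟨k, hk⟩ := hx
  obtain ⟨l, hl⟩ := hy
  refine ⟨k + l, fun n => (h n).trans (sup_le ?_ ?_)⟩
  · exact (hk n).trans (pow_le_pow_right' (ha n) (by omega))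
  · exact (hl n).trans (pow_le_pow_right' (ha n) (by omega))

theorem bdd_sup {a : ℕ → K} (ha : ∀ n, 1 ≤ a n) : ∀ x ∈ bdd a, ∀ y ∈ bdd a, x ⊔ y ∈ bdd a :=
  fun _ hx _ hy => bdd_of_le ha hx hy fun _ => abs_sup_le _ _

theorem bdd_inf {a : ℕ → K} (ha : ∀ n, 1 ≤ a n) : ∀ x ∈ bdd a, ∀ y ∈ bdd a, x ⊓ y ∈ bdd a :=
  fun _ hx _ hy => bdd_of_le ha hx hy fun _ => abs_inf_le _ _

theorem chain_pow_le (htot : ∀ x y : K, x ≤ y ∨ y ≤ x) {u v a : K} {k : ℕ} (hu : u ^ (3 * k) ≤ a) (hv : v ^ (3 * k) ≤ a) : (u * v * u) ^ k ≤ a := by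
  rcases htot u v with h | h
  · refine le_trans ?_ hv
    rw [pow_mul]
    refine pow_le_pow_left' ?_ k
    calc u * v * u ≤ v * v * v := mul_le_mul' (mul_le_mul' h le_rfl) h
      _ = v ^ 3 := by rw [pow_succ, pow_two]
  · refine le_trans ?_ hu
    rw [pow_mul]
    refine pow_le_pow_left' ?_ k
    calc u * v * u ≤ u * u * u := mul_le_mul' (mul_le_mul' le_rfl h) le_rfl
      _ = u ^ 3 := by rw [pow_succ, pow_two]

/-- Sequences infinitely smaller than `a`. -/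
def inft (htot : ∀ x y : K, x ≤ y ∨ y ≤ x) (a : ℕ → K) (ha : ∀ n, 1 ≤ a n) :
    Subgroup (bdd a) where
  carrier := {x | ∀ k : ℕ, ∀ᶠ n in atTop, ((x : ℕ → K) n ⊔ ((x : ℕ → K) n)⁻¹) ^ k ≤ a n}
  one_mem' := by
    intro k
    refine Eventually.of_forall fun n => ?_
    simpa using ha n
  mul_mem' := by
    intro x y hx hy k
    filter_upwards [hx (3 * k), hy (3 * k)] with n h1 h2
    exact (pow_le_pow_left' (abs_mul_le _ _) k).trans
      (chain_pow_le htot h1 h2)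
  inv_mem' := by
    intro x hx k
    filter_upwards [hx k] with n h1
    change (((x : ℕ → K) n)⁻¹ ⊔ ((x : ℕ → K) n)⁻¹⁻¹) ^ k ≤ a n
    rw [inv_inv, sup_comm]
    exact h1

theorem inft_of_le (htot : ∀ x y : K, x ≤ y ∨ y ≤ x) {a : ℕ → K} (ha : ∀ n, 1 ≤ a n)
    {x y z : bdd a} (hx : x ∈ inft htot a ha) (hy : y ∈ inft htot a ha)
    (h : ∀ n, (z : ℕ → K) n ⊔ ((z : ℕ → K) n)⁻¹ ≤
      ((x : ℕ → K) n ⊔ ((x : ℕ → K) n)⁻¹) ⊔ ((y : ℕ → K) n ⊔ ((y : ℕ → K) n)⁻¹)) :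
    z ∈ inft htot a ha := by
  intro k
  filter_upwards [hx k, hy k] with n h1 h2
  refine (pow_le_pow_left' (h n) k).trans ?_
  rcases htot ((x : ℕ → K) n ⊔ ((x : ℕ → K) n)⁻¹) ((y : ℕ → K) n ⊔ ((y : ℕ → K) n)⁻¹) with h3 | h3
  · rw [sup_eq_right.mpr h3]; exact h2
  · rw [sup_eq_left.mpr h3]; exact h1

theorem inft_ideal (htot : ∀ x y : K, x ≤ y ∨ y ≤ x) (a : ℕ → K) (ha : ∀ n, 1 ≤ a n) :
    letI := subLattice (bdd a) (bdd_sup ha) (bdd_inf ha)
    IsLIdeal (inft htot a ha) := by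
  letI := subLattice (bdd a) (bdd_sup ha) (bdd_inf ha)
  refine ⟨⟨?_⟩, ?_, ?_, ?_⟩
  · -- normality
    intro x hx y
    obtain ⟨l, hl⟩ := y.2
    intro k
    filter_upwards [hx (k * (2 * (l + 1)) + k * (2 * (l + 1)))] with n hn
    change (((y : ℕ → K) n * (x : ℕ → K) n * ((y : ℕ → K) n)⁻¹) ⊔
      ((y : ℕ → K) n * (x : ℕ → K) n * ((y : ℕ → K) n)⁻¹)⁻¹) ^ k ≤ a n
    have e1 : ((y : ℕ → K) n * (x : ℕ → K) n * ((y : ℕ → K) n)⁻¹) ⊔
      ((y : ℕ → K) n * (x : ℕ → K) n * ((y : ℕ → K) n)⁻¹)⁻¹ =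
      (y : ℕ → K) n * ((x : ℕ → K) n ⊔ ((x : ℕ → K) n)⁻¹) * ((y : ℕ → K) n)⁻¹ := by
      have := abs_conj (((y : ℕ → K) n)⁻¹) ((x : ℕ → K) n)
      rw [inv_inv] at this
      exact this
    rw [e1, conj_pow]
    set u := (x : ℕ → K) n ⊔ ((x : ℕ → K) n)⁻¹ with hu
    set z := (y : ℕ → K) n with hz
    by_contra hcon
    have h1 := (lt_of_not_le' htot hcon).le
    -- `z⁻¹ a z ≤ u ^ k`
    have h2 : z⁻¹ * a n * z ≤ u ^ k := by
      have := conj_le z h1
      have e2 : z⁻¹ * (z * u ^ k * z⁻¹) * z = u ^ k := by group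
      rwa [e2] at this
    have h3 : a n ≤ (z⁻¹ * a n * z) ^ (2 * (l + 1)) := by
      have := uniform htot (ha n) (y := z⁻¹) (k := l + 1) (by omega) (by
        rw [inv_inv, sup_comm]
        exact (hl n).trans (pow_le_pow_right' (ha n) (by omega)))
      rwa [inv_inv] at this
    have h4 : a n ≤ u ^ (k * (2 * (l + 1))) := by
      rw [pow_mul]
      exact h3.trans (pow_le_pow_left' h2 _)
    have h5 : u ^ (k * (2 * (l + 1))) ≤ 1 := by
      rw [pow_add] at hn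
      have := mul_le_mul' (hn.trans h4) (le_refl (u ^ (k * (2 * (l + 1))))⁻¹)
      simpa using this
    have h6 : u ^ k ≤ 1 := (pow_le_pow_right' (one_le_abs _)
      (Nat.le_mul_of_pos_right k (by omega))).trans h5
    apply hcon
    refine le_trans ?_ (ha n)
    have := mul_le_mul' (mul_le_mul' (le_refl z) h6) (le_refl z⁻¹)
    simpa using this
  · intro x hx y hy
    exact inft_of_le htot ha hx hy fun _ => abs_sup_le _ _
  · intro x hx y hy
    exact inft_of_le htot ha hx hy fun _ => abs_inf_le _ _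
  · intro x hx y hy z h1 h2
    refine inft_of_le htot ha hx hy fun n => sup_le ?_ ?_
    · exact (h2 n).trans (le_sup_left.trans le_sup_right)
    · exact (inv_le_inv_iff.mpr (h1 n)).trans (le_sup_right.trans le_sup_left)

end Seq

/-- **Step 3**: a variety with the amalgamation property is weakly abelian. -/
theorem weak (hV : IsVar V) (hA : Amalg V) {G : Type} [Group G] [Lattice G] (vG : V G)
    (b g : G) (hb : 1 ≤ b) : g⁻¹ * b * g ≤ b * b := by
  by_contra hcon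
  haveI := hV.left vG
  haveI := hV.right vG
  have hw : (g⁻¹ * b * g * (b * b)⁻¹) ⊔ 1 ≠ 1 := by
    intro h
    have := sup_eq_right.mp h
    rw [mul_inv_le_iff_le_mul, one_mul] at this
    exact hcon this
  obtain ⟨K, _, _, π, vK, htot, psup, pinf, -, hπ⟩ := exists_chain hV hA vG hw
  haveI := hV.left vK
  haveI := hV.right vK
  have pmono : ∀ x y : G, x ≤ y → π x ≤ π y := by
    intro x y h; rw [← sup_eq_right, ← psup, sup_eq_right.mpr h]
  obtain ⟨b', hb'⟩ : ∃ b', b' = π b := ⟨_, rfl⟩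
  obtain ⟨g', hg'⟩ : ∃ g', g' = π g := ⟨_, rfl⟩
  have hb1 : 1 ≤ b' := by rw [hb', ← map_one π]; exact pmono _ _ hb
  have hlt : b' * b' < g'⁻¹ * b' * g' := by
    apply lt_of_not_le' htot
    intro h
    apply hπ
    rw [psup, map_one, map_mul, map_mul, map_mul, map_inv, map_inv, map_mul, ← hb', ← hg',
      sup_eq_right, mul_inv_le_iff_le_mul, one_mul]
    exact h
  have hb2 : 1 < b' := by
    refine lt_of_le_of_ne hb1 ?_
    intro h
    rw [← h] at hlt
    simp at hlt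
  -- the sequence
  obtain ⟨a, ha⟩ : ∃ a : ℕ → K, a = fun n => (g' ^ n)⁻¹ * b' * g' ^ n := ⟨_, rfl⟩
  have hgrow : ∀ n, b' ^ (2 ^ n) ≤ a n := by
    intro n
    induction n with
    | zero => simp [ha]
    | succ n ih =>
      have e1 : a (n + 1) = g'⁻¹ * a n * g' := by
        simp only [ha, pow_succ]; group
      rw [e1]
      refine le_trans ?_ (conj_le g' ih)
      rw [conj_pow_eq, pow_succ, mul_comm (2 ^ n) 2, pow_mul, pow_two]
      exact pow_le_pow_left' hlt.le _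
  have ha1 : ∀ n, 1 ≤ a n := fun n => (one_le_pow_of_one_le' hb1 _).trans (hgrow n)
  have hba : ∀ n, b' ≤ a n := by
    intro n
    refine le_trans ?_ (hgrow n)
    have := pow_le_pow_right' hb1 (Nat.one_le_two_pow (n := n))
    rwa [pow_one] at this
  have vC : V (ℕ → K) := hV.prod ℕ (fun _ => K) (fun _ => vK)
  have bmem : (fun _ => b' : ℕ → K) ∈ bdd a :=
    ⟨1, fun n => by rw [pow_one, abs_of_one_le hb1]; exact hba n⟩
  have amem : a ∈ bdd a := ⟨1, fun n => by rw [pow_one, abs_of_one_le (ha1 n)]⟩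
  have fin := cep hV hA vC (bdd a) (bdd_sup ha1) (bdd_inf ha1) (inft htot a ha1)
    (inft_ideal htot a ha1) (b := ⟨_, bmem⟩) (a := ⟨a, amem⟩) (fun n => g' ^ n)
    (fun _ => hb1) (by
      intro k
      filter_upwards [eventually_ge_atTop k] with n hn
      change (b' ⊔ b'⁻¹) ^ k ≤ a n
      rw [abs_of_one_le hb1]
      refine le_trans ?_ (hgrow n)
      exact pow_le_pow_right' hb1 (hn.trans (Nat.lt_two_pow_self (n := n)).le))
    (by
      funext n
      exact congrFun ha n)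
  obtain ⟨n, hn⟩ := (fin 2).exists
  change (a n ⊔ (a n)⁻¹) ^ 2 ≤ a n at hn
  rw [abs_of_one_le (ha1 n), pow_two] at hn
  have h1 : a n ≤ 1 := by
    have := mul_le_mul' hn (le_refl (a n)⁻¹)
    simpa using this
  exact absurd (hba n) (not_le_of_gt (lt_of_le_of_lt h1 hb2))

end Pool.Agent.Helper6.AP
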