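import Pool.Agent.Helper6.AP5

set_option autoImplicit false
set_option linter.unusedSectionVars false
set_option linter.style.haveILetI false

open Filter

namespace Pool.Agent.Helper6.AP

open LVar

variable {V : ∀ (α : Type) [Group α] [Lattice α], Prop}

theorem nat_aux (n k : ℕ) : n ^ k * (n + k) ≤ n * (n + 1) ^ k := by
  induction k with
  | zero => simp
  | succ k ih =>
    have h1 : n ^ k ≤ (n + 1) ^ k := Nat.pow_le_pow_left (Nat.le_succ n) k
    calc n ^ (k + 1) * (n + (k + 1)) = n * (n ^ k * (n + k)) + n * n ^ k := by ring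
      _ ≤ n * (n * (n + 1) ^ k) + n * (n + 1) ^ k := by gcongr
      _ = n * (n + 1) ^ (k + 1) := by ring

theorem nat_aux2 (n : ℕ) : ∃ k, 2 * n ^ k < (n + 1) ^ k := by
  rcases Nat.eq_zero_or_pos n with rfl | hn
  · exact ⟨1, by norm_num⟩
  · refine ⟨n + 1, ?_⟩
    have h1 := nat_aux n (n + 1)
    have h2 : 0 < n ^ (n + 1) := pow_pos hn _
    have h3 : n * (2 * n ^ (n + 1)) < n * (n + 1) ^ (n + 1) := by nlinarith
    exact Nat.lt_of_mul_lt_mul_left h3

section Chain

variable {K : Type*} [Group K] [Lattice K] [MulLeftMono K] [MulRightMono K]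

theorem eq_one_of_pow_le {q : K} (hq : 1 ≤ q) {m n : ℕ} (hmn : m < n) (h : q ^ n ≤ q ^ m) :
    q = 1 := by
  apply le_antisymm _ hq
  have h1 : q ^ n = q ^ m * q ^ (n - m) := by rw [← pow_add]; congr 1; omega
  rw [h1] at h
  have h2 : q ^ (n - m) ≤ 1 := by
    have := mul_le_mul' (le_refl (q ^ m)⁻¹) h
    simpa using this
  refine le_trans ?_ h2
  have := pow_le_pow_right' hq (show 1 ≤ n - m by omega)
  rwa [pow_one] at this

theorem wk1 (htot : ∀ x y : K, x ≤ y ∨ y ≤ x)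
    (hwk : ∀ p q : K, 1 ≤ q → p⁻¹ * q * p ≤ q * q) (p q : K) (hq : 1 ≤ q) (n : ℕ) :
    (p⁻¹ * q * p) ^ n ≤ q ^ (n + 1) := by
  by_contra hcon
  have h0 := (lt_of_not_le' htot hcon).le
  obtain ⟨k, hk⟩ := nat_aux2 n
  have hind : ∀ k : ℕ, q ^ ((n + 1) ^ k) ≤ ((p ^ k)⁻¹ * q * p ^ k) ^ (n ^ k) := by
    intro k
    induction k with
    | zero => simp
    | succ k ih =>
      have e1 : ((p ^ k)⁻¹ * q * p ^ k) ^ (n + 1) ≤ ((p ^ (k + 1))⁻¹ * q * p ^ (k + 1)) ^ n := by
        have := conj_le (p ^ k) h0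
        rw [conj_pow_eq, conj_pow_eq] at this
        refine this.trans (le_of_eq ?_)
        congr 1
        rw [pow_succ']; group
      calc q ^ ((n + 1) ^ (k + 1)) = (q ^ ((n + 1) ^ k)) ^ (n + 1) := by
            rw [← pow_mul, pow_succ]
        _ ≤ (((p ^ k)⁻¹ * q * p ^ k) ^ (n ^ k)) ^ (n + 1) := pow_le_pow_left' ih _
        _ = (((p ^ k)⁻¹ * q * p ^ k) ^ (n + 1)) ^ (n ^ k) := by
            rw [← pow_mul, ← pow_mul, mul_comm]
        _ ≤ (((p ^ (k + 1))⁻¹ * q * p ^ (k + 1)) ^ n) ^ (n ^ k) := pow_le_pow_left' e1 _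
        _ = ((p ^ (k + 1))⁻¹ * q * p ^ (k + 1)) ^ (n ^ (k + 1)) := by
            rw [← pow_mul]; congr 1; ring
  have h1 := (hind k).trans (pow_le_pow_left' (hwk (p ^ k) q hq) _)
  rw [← pow_two, ← pow_mul] at h1
  have h2 := eq_one_of_pow_le hq hk h1
  apply hcon
  rw [h2]; simp

theorem pow_mul_pow_le {x y : K} (h : x * y ≤ y * x) (n : ℕ) : x ^ n * y ^ n ≤ (x * y) ^ n := by
  have h1 : ∀ n : ℕ, x * y ^ n ≤ y ^ n * x := by
    intro n
    induction n with
    | zero => simp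
    | succ n ih =>
      calc x * y ^ (n + 1) = (x * y ^ n) * y := by rw [pow_succ, mul_assoc]
        _ ≤ (y ^ n * x) * y := mul_le_mul' ih le_rfl
        _ = y ^ n * (x * y) := by rw [mul_assoc]
        _ ≤ y ^ n * (y * x) := mul_le_mul' le_rfl h
        _ = y ^ (n + 1) * x := by rw [pow_succ]; simp only [mul_assoc]
  induction n with
  | zero => simp
  | succ n ih =>
    calc x ^ (n + 1) * y ^ (n + 1) = x ^ n * (x * y ^ n) * y := by
          rw [pow_succ, pow_succ]; simp only [mul_assoc]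
      _ ≤ x ^ n * (y ^ n * x) * y := mul_le_mul' (mul_le_mul' le_rfl (h1 n)) le_rfl
      _ = x ^ n * y ^ n * (x * y) := by simp only [mul_assoc]
      _ ≤ (x * y) ^ n * (x * y) := mul_le_mul' ih le_rfl
      _ = (x * y) ^ (n + 1) := by rw [pow_succ]

theorem wk2 (htot : ∀ x y : K, x ≤ y ∨ y ≤ x)
    (hwk : ∀ p q : K, 1 ≤ q → p⁻¹ * q * p ≤ q * q) (p q : K) (hq : 1 ≤ q) (m : ℕ) :
    (q⁻¹ * (p⁻¹ * q * p)) ^ m ≤ q := by
  set c := q⁻¹ * (p⁻¹ * q * p) with hc
  have hqc : q * c = p⁻¹ * q * p := by rw [hc]; group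
  rcases htot c 1 with h1 | h1
  · exact (pow_le_one' h1 m).trans hq
  by_contra hcon
  have h0 := (lt_of_not_le' htot hcon).le
  have h2 := wk1 htot hwk p q hq (2 * m)
  rw [← hqc] at h2
  have h3 : q ^ 2 ≤ c ^ (2 * m) := by
    rw [mul_comm, pow_mul]; exact pow_le_pow_left' h0 2
  have h4 : q ^ (2 * m + 2) ≤ q ^ (2 * m + 1) := by
    refine le_trans ?_ h2
    rcases htot (q * c) (c * q) with h5 | h5
    · rw [pow_add]
      exact (mul_le_mul' le_rfl h3).trans (pow_mul_pow_le h5 _)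
    · rw [add_comm, pow_add]
      exact ((mul_le_mul' h3 le_rfl).trans (pow_mul_pow_le h5 _)).trans (pow_le_pow_left' h5 _)
  have h5 := eq_one_of_pow_le hq (by omega) h4
  apply hcon
  rw [hc, h5]; simp

theorem wk3 (htot : ∀ x y : K, x ≤ y ∨ y ≤ x)
    (hwk : ∀ p q : K, 1 ≤ q → p⁻¹ * q * p ≤ q * q) (p q : K) (hq : 1 ≤ q) (m : ℕ) :
    ((q⁻¹ * (p⁻¹ * q * p)) ⊔ (q⁻¹ * (p⁻¹ * q * p))⁻¹) ^ m ≤ q := by
  rcases htot 1 (q⁻¹ * (p⁻¹ * q * p)) with h1 | h1
  · rw [abs_of_one_le h1]; exact wk2 htot hwk p q hq m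
  · rw [abs_of_le_one h1]
    have hq' : 1 ≤ p⁻¹ * q * p := by
      have := conj_le p hq
      simpa using this
    have h2 := wk2 htot hwk p⁻¹ (p⁻¹ * q * p) hq' m
    have e1 : (p⁻¹ * q * p)⁻¹ * (p⁻¹⁻¹ * (p⁻¹ * q * p) * p⁻¹) = (q⁻¹ * (p⁻¹ * q * p))⁻¹ := by
      group
    rw [e1] at h2
    refine h2.trans ?_
    have := mul_le_mul' (le_refl q) h1
    simpa [← mul_assoc] using this

/-- The elements infinitely smaller than `a`. -/
def small (htot : ∀ x y : K, x ≤ y ∨ y ≤ x) (a : K) (ha : 1 ≤ a) : Subgroup K where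
  carrier := {z | ∀ n : ℕ, (z ⊔ z⁻¹) ^ n ≤ a}
  one_mem' := by intro n; simpa using ha
  mul_mem' := by
    intro x y hx hy n
    exact (pow_le_pow_left' (abs_mul_le _ _) n).trans
      (chain_pow_le' htot (hx (3 * n)) (hy (3 * n)))
  inv_mem' := by
    intro x hx n
    rw [inv_inv, sup_comm]; exact hx n
where
  chain_pow_le' (htot : ∀ x y : K, x ≤ y ∨ y ≤ x) {u v a : K} {k : ℕ}
      (hu : u ^ (3 * k) ≤ a) (hv : v ^ (3 * k) ≤ a) : (u * v * u) ^ k ≤ a := by
    rcases htot u v with h | h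
    · refine le_trans ?_ hv
      rw [pow_mul]
      refine pow_le_pow_left' ?_ k
      calc u * v * u ≤ v * v * v := mul_le_mul' (mul_le_mul' h le_rfl) h
        _ = v ^ 3 := by rw [pow_succ, pow_two]
    · refine le_trans ?_ hu
      rw [pow_mul]
      refine pow_le_pow_left' ?_ k
      calc u * v * u ≤ u * u * u := mul_le_mul' (mul_le_mul' le_rfl h) le_rfl
        _ = u ^ 3 := by rw [pow_succ, pow_two]

theorem mem_small {htot : ∀ x y : K, x ≤ y ∨ y ≤ x} {a : K} {ha : 1 ≤ a} {z : K} :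
    z ∈ small htot a ha ↔ ∀ n : ℕ, (z ⊔ z⁻¹) ^ n ≤ a := Iff.rfl

theorem small_of_le {htot : ∀ x y : K, x ≤ y ∨ y ≤ x} {a : K} {ha : 1 ≤ a} {x y z : K}
    (hx : x ∈ small htot a ha) (hy : y ∈ small htot a ha)
    (h : z ⊔ z⁻¹ ≤ (x ⊔ x⁻¹) ⊔ (y ⊔ y⁻¹)) : z ∈ small htot a ha := by
  intro n
  refine (pow_le_pow_left' h n).trans ?_
  rcases htot (x ⊔ x⁻¹) (y ⊔ y⁻¹) with h3 | h3
  · rw [sup_eq_right.mpr h3]; exact hy n
  · rw [sup_eq_left.mpr h3]; exact hx n

theorem small_ideal (htot : ∀ x y : K, x ≤ y ∨ y ≤ x)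
    (hwk : ∀ p q : K, 1 ≤ q → p⁻¹ * q * p ≤ q * q) (a : K) (ha : 1 ≤ a) :
    IsLIdeal (small htot a ha) := by
  refine ⟨⟨?_⟩, ?_, ?_, ?_⟩
  · intro x hx g n
    have e1 : (g * x * g⁻¹) ⊔ (g * x * g⁻¹)⁻¹ = g⁻¹⁻¹ * (x ⊔ x⁻¹) * g⁻¹ := by
      have := abs_conj g⁻¹ x
      rw [inv_inv] at this ⊢
      exact this
    rw [e1, ← conj_pow_eq]
    refine (hwk g⁻¹ _ (one_le_pow_of_one_le' (one_le_abs x) n)).trans ?_
    rw [← pow_add]
    exact hx _
  · intro x hx y hy
    exact small_of_le hx hy (abs_sup_le _ _)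
  · intro x hx y hy
    exact small_of_le hx hy (abs_inf_le _ _)
  · intro x hx y hy z h1 h2
    refine small_of_le hx hy (sup_le ?_ ?_)
    · exact h2.trans (le_sup_left.trans le_sup_right)
    · exact (inv_le_inv_iff.mpr h1).trans (le_sup_right.trans le_sup_left)

end Chain

/-- The Heisenberg group from a chain with a central commutator. -/
theorem heis_of_central (hV : IsVar V) {K : Type} [Group K] [Lattice K] (vK : V K)
    (hwk : ∀ p q : K, 1 ≤ q → p⁻¹ * q * p ≤ q * q) (htot : ∀ x y : K, x ≤ y ∨ y ≤ x)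
    {g h : K} (h1h : 1 < h) (hhg : h ≤ g) (hc1 : g * h * g⁻¹ * h⁻¹ ≠ 1)
    (hcen : ∀ r : K, Commute (g * h * g⁻¹ * h⁻¹) r) : V Heis := by
  haveI := hV.left vK
  haveI := hV.right vK
  have h1g : 1 < g := h1h.trans_le hhg
  set c : K := g * h * g⁻¹ * h⁻¹ with hc
  have hgc : g * h = c * h * g := by rw [hc]; group
  have hhc : h * g = c⁻¹ * g * h := by
    rw [hc]; group
  -- powers of the commutator are small
  have hsmall : ∀ n : ℕ, c ^ n ≤ h := by
    intro n
    have h1 := hwk (g ^ (-(n : ℤ))) h h1h.le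
    have h2 := comm_zpow_aux hgc (hcen g) (hcen h) n 1
    rw [zpow_one, mul_one] at h2
    rw [zpow_neg, inv_inv, h2, zpow_natCast, zpow_natCast, mul_inv_cancel_right] at h1
    exact (mul_le_mul_iff_right h).mp h1
  have hsmall' : ∀ n : ℕ, c⁻¹ ^ n ≤ g := by
    intro n
    have h1 := hwk (h ^ (-(n : ℤ))) g h1g.le
    have h2 := comm_zpow_aux hhc ((hcen h).inv_left) ((hcen g).inv_left) n 1
    rw [zpow_one, mul_one] at h2
    rw [zpow_neg, inv_inv, h2, zpow_natCast, zpow_natCast, mul_inv_cancel_right] at h1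
    exact (mul_le_mul_iff_right g).mp h1
  have hpow : ∀ {N m : ℕ}, N ≤ m → h ^ N ≤ g ^ m := fun hNm =>
    (pow_le_pow_left' hhg _).trans (pow_le_pow_right' h1g.le hNm)
  rcases htot c 1 with hle | hle
  · -- negative commutator
    have hc2 : 1 < c⁻¹ := one_lt_inv'.mpr (lt_of_le_of_ne hle hc1)
    have hrel : ∀ m : ℕ, (g ^ m * h) * g = c⁻¹ * g * (g ^ m * h) := by
      intro m
      have e1 : Commute c⁻¹ (g ^ m) := (hcen (g ^ m)).inv_left
      calc (g ^ m * h) * g = g ^ m * (h * g) := by rw [mul_assoc]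
        _ = g ^ m * (c⁻¹ * g * h) := by rw [hhc]
        _ = (g ^ m * c⁻¹) * g * h := by simp only [mul_assoc]
        _ = (c⁻¹ * g ^ m) * g * h := by rw [e1.eq]
        _ = c⁻¹ * (g ^ m * g) * h := by simp only [mul_assoc]
        _ = c⁻¹ * (g * g ^ m) * h := by rw [← pow_succ, ← pow_succ']
        _ = c⁻¹ * g * (g ^ m * h) := by simp only [mul_assoc]
    refine hV.transfer Heis.total (fun m : ℕ => psi (g ^ m * h) g c⁻¹ (hrel m)
      ((hcen _).inv_left) ((hcen _).inv_left)) ?_ vK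
    intro p hp
    filter_upwards [eventually_ge_atTop (p.y.natAbs + 2)] with m hm
    refine psi_pos hc2 hsmall' p hp ?_
    refine (pow_le_pow_right' h1g.le hm).trans ?_
    exact le_mul_of_one_le_right' h1h.le
  · -- positive commutator
    have hc2 : 1 < c := lt_of_le_of_ne hle (Ne.symm hc1)
    have hrel : ∀ m : ℕ, g ^ m * h = c ^ m * h * g ^ m := by
      intro m
      have h2 := comm_zpow_aux hgc (hcen g) (hcen h) m 1
      rw [zpow_one, mul_one, zpow_natCast, zpow_natCast] at h2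
      exact h2
    refine hV.transfer Heis.total (fun m : ℕ => psi (g ^ m) h (c ^ m) (hrel m)
      ((hcen _).pow_left m) ((hcen _).pow_left m)) ?_ vK
    intro p hp
    filter_upwards [eventually_ge_atTop (p.y.natAbs + 2)] with m hm
    have hm0 : m ≠ 0 := by omega
    refine psi_pos (one_lt_pow' hc2 hm0) (fun n => ?_) p hp (hpow hm)
    rw [← pow_mul]
    exact hsmall _

/-- **Step 4**: the Heisenberg group lies in every nonabelian variety with the amalgamation
property. -/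
theorem heis_mem (hV : IsVar V) (hA : Amalg V) {G : Type} [Group G] [Lattice G] (vG : V G)
    {x y : G} (hxy : x * y ≠ y * x) : V Heis := by
  haveI := hV.left vG
  haveI := hV.right vG
  have hw : x * y * x⁻¹ * y⁻¹ ≠ 1 := by
    intro h
    rw [mul_inv_eq_one, mul_inv_eq_iff_eq_mul] at h
    exact hxy h
  obtain ⟨K, _, _, π, vK, htot, psup, pinf, -, hπ⟩ := exists_chain hV hA vG hw
  haveI := hV.left vK
  haveI := hV.right vK
  have hwk : ∀ p q : K, 1 ≤ q → p⁻¹ * q * p ≤ q * q := fun p q hq => weak hV hA vK q p hq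
  have hpq : π x * π y ≠ π y * π x := by
    intro h
    apply hπ
    rw [map_mul, map_mul, map_mul, map_inv, map_inv, h]; group
  -- choose noncommuting positive elements
  have hpos : ∃ g h : K, 1 < h ∧ h ≤ g ∧ g * h ≠ h * g := by
    have key : ∀ p q : K, 1 < p → 1 < q → p * q ≠ q * p → ∃ g h : K, 1 < h ∧ h ≤ g ∧
        g * h ≠ h * g := by
      intro p q hp hq hpq
      rcases htot p q with h | h
      · exact ⟨q, p, hp, h, fun h => hpq h.symm⟩
      · exact ⟨p, q, hq, h, hpq⟩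
    have hp1 : π x ≠ 1 := by intro h; rw [h] at hpq; simp at hpq
    have hq1 : π y ≠ 1 := by intro h; rw [h] at hpq; simp at hpq
    have hsign : ∀ p : K, p ≠ 1 → 1 < p ∨ 1 < p⁻¹ := by
      intro p hp
      rcases htot 1 p with h | h
      · exact Or.inl (lt_of_le_of_ne h (Ne.symm hp))
      · right
        exact one_lt_inv'.mpr (lt_of_le_of_ne h hp)
    rcases hsign _ hp1 with hp | hp <;> rcases hsign _ hq1 with hq | hq
    · exact key _ _ hp hq hpq
    · refine key _ _ hp hq ?_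
      intro h
      exact hpq ((Commute.inv_right_iff (a := π x) (b := π y)).mp h)
    · refine key _ _ hp hq ?_
      intro h
      exact hpq ((Commute.inv_left_iff (a := π x) (b := π y)).mp h)
    · refine key _ _ hp hq ?_
      intro h
      exact hpq ((Commute.inv_inv_iff (a := π x) (b := π y)).mp h)
  obtain ⟨g, h, h1h, hhg, hgh⟩ := hpos
  set c : K := h⁻¹ * (g⁻¹⁻¹ * h * g⁻¹) with hc
  have hc1 : c ≠ 1 := by
    intro h1
    apply hgh
    rw [hc, inv_inv, inv_mul_eq_one, eq_mul_inv_iff_mul_eq] at h1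
    exact h1.symm
  set a := c ⊔ c⁻¹ with ha
  have ha1 : 1 ≤ a := one_le_abs c
  have ha2 : ¬ a ^ 2 ≤ a := by
    intro h
    have h3 : a = 1 := eq_one_of_pow_le ha1 (m := 1) (n := 2) (by omega) (by simpa using h)
    apply hc1
    apply le_antisymm
    · rw [← h3]; exact le_sup_left
    · rw [← inv_le_one', ← h3]; exact le_sup_right
  have hah : ∀ m : ℕ, a ^ m ≤ h := fun m => wk3 htot hwk g⁻¹ h h1h.le m
  have hN := small_ideal htot hwk a ha1
  haveI hNn : (small htot a ha1).Normal := hN.normal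
  letI : Lattice (K ⧸ small htot a ha1) := quotLattice _ hN
  have vQ : V (K ⧸ small htot a ha1) := hV.quotient vK _ hN
  haveI := hV.left vQ
  haveI := hV.right vQ
  have hcN : c ∉ small htot a ha1 := by
    intro h; exact ha2 (h 2)
  have hhN : h ∉ small htot a ha1 := by
    intro h'
    have h2 := h' 1
    rw [pow_one, abs_of_one_le h1h.le] at h2
    exact ha2 ((hah 2).trans h2)
  have acen : ∀ r : K ⧸ small htot a ha1, Commute ((a : K) : K ⧸ small htot a ha1) r := by
    intro r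
    obtain ⟨r, rfl⟩ := QuotientGroup.mk_surjective r
    have h1 : a⁻¹ * (r⁻¹ * a * r) ∈ small htot a ha1 := fun n => wk3 htot hwk r a ha1 n
    have h2 := QuotientGroup.eq.mpr h1
    rw [QuotientGroup.mk_mul, QuotientGroup.mk_mul, QuotientGroup.mk_inv] at h2
    rw [Commute, SemiconjBy]
    calc (a : K ⧸ small htot a ha1) * r = (r : K ⧸ small htot a ha1) * ((r : K ⧸ small htot a ha1)⁻¹ * a * r) := by group
      _ = r * a := by rw [← h2]
  have ccen : ∀ r : K ⧸ small htot a ha1, Commute ((c : K) : K ⧸ small htot a ha1) r := by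
    intro r
    rcases htot 1 c with h1 | h1
    · have e : ((a : K) : K ⧸ small htot a ha1) = (c : K) :=
        congrArg (fun z : K => (z : K ⧸ small htot a ha1)) (abs_of_one_le h1)
      have h2 := acen r
      rwa [e] at h2
    · have e : ((a : K) : K ⧸ small htot a ha1) = (c⁻¹ : K) :=
        congrArg (fun z : K => (z : K ⧸ small htot a ha1)) (abs_of_le_one h1)
      have h2 := acen r
      rw [e, QuotientGroup.mk_inv] at h2
      exact (Commute.inv_left_iff).mp h2
  have e1 : ((g : K) : K ⧸ small htot a ha1) * h * (g : K ⧸ small htot a ha1)⁻¹ *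
      (h : K ⧸ small htot a ha1)⁻¹ = c := by
    have h1 : ((g : K) : K ⧸ small htot a ha1) * h * (g : K ⧸ small htot a ha1)⁻¹ *
      (h : K ⧸ small htot a ha1)⁻¹ = (h : K ⧸ small htot a ha1) * c * (h : K ⧸ small htot a ha1)⁻¹ := by
      rw [← QuotientGroup.mk_inv, ← QuotientGroup.mk_inv, ← QuotientGroup.mk_mul,
        ← QuotientGroup.mk_mul, ← QuotientGroup.mk_mul, ← QuotientGroup.mk_mul,
        ← QuotientGroup.mk_mul]
      congr 1
      rw [hc]; group
    rw [h1, ← (ccen h).eq]; group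
  refine heis_of_central hV vQ (fun p q hq => weak hV hA vQ q p hq) ?_ (g := (g : K ⧸ small htot a ha1))
    (h := (h : K ⧸ small htot a ha1)) ?_ ?_ ?_ ?_
  · intro p q
    obtain ⟨p, rfl⟩ := QuotientGroup.mk_surjective p
    obtain ⟨q, rfl⟩ := QuotientGroup.mk_surjective q
    rcases htot p q with h1 | h1
    · left
      rw [← sup_eq_right]
      change ((p ⊔ q : K) : K ⧸ small htot a ha1) = _
      rw [sup_eq_right.mpr h1]
    · right
      rw [← sup_eq_right]
      change ((q ⊔ p : K) : K ⧸ small htot a ha1) = _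
      rw [sup_eq_right.mpr h1]
  · refine lt_of_le_of_ne ?_ ?_
    · rw [← sup_eq_right]
      change ((1 ⊔ h : K) : K ⧸ small htot a ha1) = _
      rw [sup_eq_right.mpr h1h.le]
    · intro h1
      exact hhN ((QuotientGroup.eq_one_iff h).mp h1.symm)
  · rw [← sup_eq_right]
    change ((h ⊔ g : K) : K ⧸ small htot a ha1) = _
    rw [sup_eq_right.mpr hhg]
  · rw [e1]
    intro h1
    exact hcN ((QuotientGroup.eq_one_iff c).mp h1)
  · rw [e1]; exact ccen

end Pool.Agent.Helper6.AP
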