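import Pool.Agent.Helper6.AP6

set_option autoImplicit false
set_option linter.unusedSectionVars false
set_option linter.style.haveILetI false

open Filter

namespace Pool.Agent.Helper6.AP

open LVar

variable {V : ∀ (α : Type) [Group α] [Lattice α], Prop}

/-- Positive cones of abelian groups. -/
structure ACone (A : Type) [AddCommGroup A] where
  Pos : A → Prop
  add : ∀ x y, Pos x → Pos y → Pos (x + y)
  not_zero : ¬ Pos 0
  tri : ∀ x, x = 0 ∨ Pos x ∨ Pos (-x)

section Ext

variable {A : Type} [AddCommGroup A]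

/-- The group of order automorphisms. -/
def OAut (C : ACone A) : Subgroup (Equiv.Perm A) where
  carrier := {T | (∀ x y, T (x + y) = T x + T y) ∧ ∀ x, C.Pos x ↔ C.Pos (T x)}
  one_mem' := ⟨fun _ _ => rfl, fun _ => Iff.rfl⟩
  mul_mem' := by
    intro S T hS hT
    refine ⟨fun x y => ?_, fun x => ?_⟩
    · change S (T (x + y)) = S (T x) + S (T y)
      rw [hT.1, hS.1]
    · change _ ↔ C.Pos (S (T x))
      rw [hT.2 x, hS.2 (T x)]
  inv_mem' := by
    intro T hT
    refine ⟨fun x y => ?_, fun x => ?_⟩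
    · apply T.injective
      rw [hT.1]
      change (T * T⁻¹) (x + y) = (T * T⁻¹) x + (T * T⁻¹) y
      rw [mul_inv_cancel]; rfl
    · rw [hT.2 (T⁻¹ x)]
      change _ ↔ C.Pos ((T * T⁻¹) x)
      rw [mul_inv_cancel]; rfl

/-- An additive automorphism preserving positivity. -/
def mkOAut (C : ACone A) (T : A ≃+ A) (h : ∀ x, C.Pos x → C.Pos (T x)) : OAut C :=
  ⟨T.toEquiv, fun x y => map_add T x y, fun x => ⟨h x, fun hx => by
    change C.Pos (T x) at hx
    rcases C.tri x with h1 | h1 | h1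
    · rw [h1, map_zero] at hx; exact absurd hx C.not_zero
    · exact h1
    · have h2 := C.add _ _ hx (h _ h1)
      rw [map_neg, add_neg_cancel] at h2
      exact absurd h2 C.not_zero⟩⟩

@[simp] theorem mkOAut_apply (C : ACone A) (T : A ≃+ A) (h : ∀ x, C.Pos x → C.Pos (T x)) (x : A) :
    (mkOAut C T h : Equiv.Perm A) x = T x := rfl

@[simp] theorem OAut.map_zero {C : ACone A} (T : OAut C) : (T : Equiv.Perm A) 0 = 0 := by
  have := T.2.1 0 0
  rw [add_zero] at this
  exact left_eq_add.mp this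

/-- The abelian ordered group of a cone, written multiplicatively. -/
def Bs (_C : ACone A) : Type := Multiplicative A

instance (C : ACone A) : CommGroup (Bs C) := inferInstanceAs (CommGroup (Multiplicative A))

/-- The element of `Bs C` given by `a`. -/
def Bs.of (C : ACone A) (a : A) : Bs C := Multiplicative.ofAdd a

/-- The additive form of an element of `Bs C`. -/
def Bs.val {C : ACone A} (x : Bs C) : A := Multiplicative.toAdd x

@[simp] theorem Bs.val_of (C : ACone A) (a : A) : (Bs.of C a).val = a := rfl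
@[simp] theorem Bs.val_mul {C : ACone A} (x y : Bs C) : (x * y).val = x.val + y.val := rfl
@[simp] theorem Bs.val_one {C : ACone A} : (1 : Bs C).val = 0 := rfl
@[simp] theorem Bs.val_inv {C : ACone A} (x : Bs C) : (x⁻¹).val = -x.val := rfl

/-- The cone of `Bs C`. -/
def Bs.cone (C : ACone A) : Cone (Bs C) where
  Pos x := C.Pos x.val
  mul x y hx hy := C.add _ _ hx hy
  not_one := C.not_zero
  conj g x hx := by
    have : g * x * g⁻¹ = x := by rw [mul_comm g x, mul_inv_cancel_right]
    rw [this]; exact hx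
  tri x := C.tri x.val

noncomputable instance (C : ACone A) : LinearOrder (Bs C) := (Bs.cone C).order
instance (C : ACone A) : MulLeftMono (Bs C) := (Bs.cone C).mulLeftMono
instance (C : ACone A) : MulRightMono (Bs C) := (Bs.cone C).mulRightMono

theorem Bs.one_lt_iff {C : ACone A} (x : Bs C) : 1 < x ↔ C.Pos x.val := by
  change (Bs.cone C).Pos (1⁻¹ * x) ↔ _
  rw [inv_one, one_mul]
  exact Iff.rfl

/-- The lexicographic extension of an ordered abelian group by an automorphism. -/
@[ext] structure Ext (C : ACone A) (T : OAut C) where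
  a : A
  k : ℤ

namespace Ext

variable {C : ACone A} {T : OAut C}

/-- Action of powers. -/
def pw (T : OAut C) (k : ℤ) : A →+ A :=
  AddMonoidHom.mk' (fun x => ((T ^ k : OAut C) : Equiv.Perm A) x) (T ^ k : OAut C).2.1

theorem pw_zero (T : OAut C) (x : A) : pw T 0 x = x := by
  simp [pw]

theorem pw_add (T : OAut C) (k l : ℤ) (x : A) : pw T (k + l) x = pw T k (pw T l x) := by
  change ((T ^ (k + l) : OAut C) : Equiv.Perm A) x = _
  rw [zpow_add]
  rfl

theorem pw_one (T : OAut C) (x : A) : pw T 1 x = (T : Equiv.Perm A) x := by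
  simp [pw]

theorem pw_pos (T : OAut C) (k : ℤ) (x : A) : C.Pos x ↔ C.Pos (pw T k x) :=
  (T ^ k : OAut C).2.2 x

instance : Mul (Ext C T) := ⟨fun x y => ⟨x.a + pw T x.k y.a, x.k + y.k⟩⟩
instance : One (Ext C T) := ⟨⟨0, 0⟩⟩
instance : Inv (Ext C T) := ⟨fun x => ⟨-pw T (-x.k) x.a, -x.k⟩⟩

@[simp] theorem mul_a (x y : Ext C T) : (x * y).a = x.a + pw T x.k y.a := rfl
@[simp] theorem mul_k (x y : Ext C T) : (x * y).k = x.k + y.k := rfl
@[simp] theorem one_a : (1 : Ext C T).a = 0 := rfl
@[simp] theorem one_k : (1 : Ext C T).k = 0 := rfl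
@[simp] theorem inv_a (x : Ext C T) : (x⁻¹).a = -pw T (-x.k) x.a := rfl
@[simp] theorem inv_k (x : Ext C T) : (x⁻¹).k = -x.k := rfl

instance : Group (Ext C T) := Group.ofLeftAxioms
  (by
    intro x y z
    ext
    · simp only [mul_a, mul_k, map_add, pw_add, add_assoc]
    · simp only [mul_k, add_assoc])
  (by
    intro x
    ext
    · simp only [mul_a, one_a, one_k, pw_zero, zero_add]
    · simp only [mul_k, one_k, zero_add])
  (by
    intro x
    ext
    · simp only [mul_a, inv_a, inv_k, one_a, neg_add_cancel]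
    · simp only [mul_k, inv_k, one_k, neg_add_cancel])

/-- The lexicographic cone. -/
def cone : Cone (Ext C T) where
  Pos x := 0 < x.k ∨ (x.k = 0 ∧ C.Pos x.a)
  mul x y hx hy := by
    simp only [mul_a, mul_k]
    rcases hx with hx | ⟨hx, hx'⟩ <;> rcases hy with hy | ⟨hy, hy'⟩
    · left; omega
    · left; omega
    · left; omega
    · right
      refine ⟨by omega, ?_⟩
      rw [hx, pw_zero]
      exact C.add _ _ hx' hy'
  not_one := by
    rintro (h | ⟨_, h⟩)
    · exact lt_irrefl _ h
    · exact C.not_zero h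
  conj g x hx := by
    rcases hx with hx | ⟨hx, hx'⟩
    · left
      simpa using hx
    · right
      refine ⟨by simp [hx], ?_⟩
      have e : (g * x * g⁻¹).a = pw T g.k x.a := by
        simp only [mul_a, mul_k, inv_a, hx, add_zero, map_neg]
        rw [← pw_add, add_neg_cancel, pw_zero]
        abel
      rw [e]
      exact (pw_pos T g.k x.a).mp hx'
  tri x := by
    rcases lt_trichotomy x.k 0 with h | h | h
    · right; right; left; simpa using h
    · rcases C.tri x.a with h1 | h1 | h1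
      · left; ext
        · exact h1
        · exact h
      · right; left; right; exact ⟨h, h1⟩
      · right; right; right
        refine ⟨by simp [h], ?_⟩
        simp only [inv_a, h, neg_zero, pw_zero]
        exact h1
    · right; left; left; exact h

noncomputable instance : LinearOrder (Ext C T) := cone.order
instance : MulLeftMono (Ext C T) := cone.mulLeftMono
instance : MulRightMono (Ext C T) := cone.mulRightMono

theorem one_lt_iff (x : Ext C T) : 1 < x ↔ 0 < x.k ∨ (x.k = 0 ∧ C.Pos x.a) := by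
  change cone.Pos (1⁻¹ * x) ↔ _
  rw [inv_one, one_mul]
  exact Iff.rfl

theorem total (x y : Ext C T) : x ≤ y ∨ y ≤ x := le_total x y

theorem conj_zpow_aux {K : Type*} [Group K] (T : OAut C) (α : A → K) (τ : K)
    (h : ∀ a, τ * α a * τ⁻¹ = α ((T : Equiv.Perm A) a)) (k : ℤ) :
    ∀ a, τ ^ k * α a * (τ ^ k)⁻¹ = α (pw T k a) := by
  have h' : ∀ a, τ⁻¹ * α a * τ = α (pw T (-1) a) := by
    intro a
    have h1 := h (pw T (-1) a)
    rw [← pw_one, ← pw_add, add_neg_cancel, pw_zero] at h1
    rw [← h1]; group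
  induction k with
  | zero => intro a; simp [pw_zero]
  | succ n ih =>
    intro a
    rw [zpow_add, zpow_one, pw_add, ← ih, pw_one, ← h]; group
  | pred n ih =>
    intro a
    rw [sub_eq_add_neg, zpow_add, pw_add, ← ih, ← h']; group

/-- Homomorphisms out of `Ext C T`. -/
def lift {K : Type*} [Group K] (α : A → K) (hα : ∀ a b, α (a + b) = α a * α b) (τ : K)
    (h : ∀ a, τ * α a * τ⁻¹ = α ((T : Equiv.Perm A) a)) : Ext C T →* K :=
  MonoidHom.mk' (fun x => α x.a * τ ^ x.k) (by
    intro x y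
    have h1 := conj_zpow_aux T α τ h x.k y.a
    rw [mul_a, mul_k, hα, ← h1, zpow_add]
    group)

@[simp] theorem lift_apply {K : Type*} [Group K] (α : A → K) (hα : ∀ a b, α (a + b) = α a * α b)
    (τ : K) (h : ∀ a, τ * α a * τ⁻¹ = α ((T : Equiv.Perm A) a)) (x : Ext C T) :
    lift α hα τ h x = α x.a * τ ^ x.k := rfl

/-- The embedding of the base. -/
def base : Bs C →* Ext C T := MonoidHom.mk' (fun x => ⟨x.val, 0⟩) (by
  intro x y
  ext
  · simp [pw_zero]
  · simp)

@[simp] theorem base_a (x : Bs C) : (base x : Ext C T).a = x.val := rfl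
@[simp] theorem base_k (x : Bs C) : (base x : Ext C T).k = 0 := rfl

theorem base_lemb : LEmb (base : Bs C →* Ext C T) := by
  refine lemb_of_pos (fun x y => le_total x y) _ ?_
  intro x hx
  rw [one_lt_iff]
  exact Or.inr ⟨rfl, (Bs.one_lt_iff x).mp hx⟩

end Ext

/-- **Step 5**: the set of automorphisms `T` with `Ext C T` in the variety is closed under
products. -/
theorem monoid_step (hV : IsVar V) (hA : Amalg V) {C : ACone A} {T₁ T₂ : OAut C}
    (h₁ : V (Ext C T₁)) (h₂ : V (Ext C T₂)) : V (Ext C (T₁ * T₂)) := by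
  have vB : V (Bs C) := hV.of_lemb (Ext.base_lemb (T := T₁)) h₁
  obtain ⟨D, _, _, vD, h, k, hh, hk, hhk⟩ :=
    hA.hom (Ext.base (T := T₁)) (Ext.base (T := T₂)) Ext.base_lemb Ext.base_lemb vB h₁ h₂
  haveI := hV.left vD
  haveI := hV.right vD
  let t₁ : Ext C T₁ := ⟨0, 1⟩
  let t₂ : Ext C T₂ := ⟨0, 1⟩
  let α : A → D := fun a => h (Ext.base (Bs.of C a))
  have hα : ∀ a b, α (a + b) = α a * α b := by
    intro a b
    change h (Ext.base (Bs.of C (a + b))) = _
    rw [← map_mul, ← map_mul]; rfl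
  have r1 : ∀ a, h t₁ * α a * (h t₁)⁻¹ = α ((T₁ : Equiv.Perm A) a) := by
    intro a
    change h t₁ * h (Ext.base (Bs.of C a)) * (h t₁)⁻¹ = h (Ext.base (Bs.of C _))
    rw [← map_inv, ← map_mul, ← map_mul]
    congr 1
    ext
    · simp [t₁, Ext.pw_one]
    · simp [t₁]
  have r2 : ∀ a, k t₂ * α a * (k t₂)⁻¹ = α ((T₂ : Equiv.Perm A) a) := by
    intro a
    change k t₂ * h (Ext.base (Bs.of C a)) * (k t₂)⁻¹ = h (Ext.base (Bs.of C _))
    rw [hhk, hhk, ← map_inv, ← map_mul, ← map_mul]
    congr 1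
    ext
    · simp [t₂, Ext.pw_one]
    · simp [t₂]
  have r : ∀ a, (h t₁ * k t₂) * α a * (h t₁ * k t₂)⁻¹ =
      α (((T₁ * T₂ : OAut C) : Equiv.Perm A) a) := by
    intro a
    have : (h t₁ * k t₂) * α a * (h t₁ * k t₂)⁻¹ =
      h t₁ * (k t₂ * α a * (k t₂)⁻¹) * (h t₁)⁻¹ := by group
    rw [this, r2, r1]; rfl
  have p1 : 1 ≤ h t₁ := (hh.one_lt ((Ext.one_lt_iff _).mpr (Or.inl one_pos))).le
  have p2 : 1 ≤ k t₂ := (hk.one_lt ((Ext.one_lt_iff _).mpr (Or.inl one_pos))).le
  refine hV.of_lemb (lemb_of_pos Ext.total (Ext.lift α hα (h t₁ * k t₂) r) ?_) vD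
  intro x hx
  rw [Ext.lift_apply]
  rw [Ext.one_lt_iff] at hx
  rcases hx with hx | ⟨hx, hx'⟩
  · have e1 : 1 < α x.a * h t₁ := by
      change 1 < h (Ext.base (Bs.of C x.a)) * h t₁
      rw [← map_mul]
      apply hh.one_lt
      rw [Ext.one_lt_iff]
      left
      simp [t₁]
    refine lt_of_lt_of_le e1 (mul_le_mul' le_rfl ?_)
    have e2 : h t₁ * k t₂ ≤ (h t₁ * k t₂) ^ x.k := by
      have := zmono (one_le_mul p1 p2) (show 1 ≤ x.k by omega)
      rwa [zpow_one] at this
    exact (le_mul_of_one_le_right' p2).trans e2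
  · rw [hx, zpow_zero, mul_one]
    change 1 < h (Ext.base (Bs.of C x.a))
    apply hh.one_lt
    rw [Ext.one_lt_iff]
    exact Or.inr ⟨rfl, hx'⟩

end Ext

end Pool.Agent.Helper6.AP
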