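import Pool.Agent.Helper6.AP7

set_option autoImplicit false
set_option linter.unusedSectionVars false
set_option linter.style.haveILetI false

open Filter

namespace Pool.Agent.Helper6.AP

open LVar

variable {V : ∀ (α : Type) [Group α] [Lattice α], Prop}

namespace Ext

variable {A B : Type} [AddCommGroup A] [AddCommGroup B] {C : ACone A} {T : OAut C}
  {D : ACone B} {S : OAut D}

theorem pw_comm (φ : A →+ B) (h : ∀ a, φ ((T : Equiv.Perm A) a) = (S : Equiv.Perm B) (φ a))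
    (k : ℤ) : ∀ a, φ (pw T k a) = pw S k (φ a) := by
  have h' : ∀ a, φ (pw T (-1) a) = pw S (-1) (φ a) := by
    intro a
    have h1 := h (pw T (-1) a)
    rw [← pw_one, ← pw_add, add_neg_cancel, pw_zero] at h1
    rw [h1, ← pw_one, ← pw_add, neg_add_cancel, pw_zero]
  induction k with
  | zero => intro a; rw [pw_zero, pw_zero]
  | succ n ih =>
    intro a
    rw [pw_add, pw_add, ih, pw_one, pw_one, h]
  | pred n ih =>
    intro a
    rw [sub_eq_add_neg, pw_add, pw_add, ih, h']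

/-- Functoriality. -/
def map (φ : A →+ B) (h : ∀ a, φ ((T : Equiv.Perm A) a) = (S : Equiv.Perm B) (φ a)) :
    Ext C T →* Ext D S := MonoidHom.mk' (fun x => ⟨φ x.a, x.k⟩) (by
  intro x y
  ext
  · rw [mul_a, map_add, pw_comm φ h]; rfl
  · rfl)

@[simp] theorem map_a (φ : A →+ B)
    (h : ∀ a, φ ((T : Equiv.Perm A) a) = (S : Equiv.Perm B) (φ a)) (x : Ext C T) :
    (map φ h x).a = φ x.a := rfl

@[simp] theorem map_k (φ : A →+ B)
    (h : ∀ a, φ ((T : Equiv.Perm A) a) = (S : Equiv.Perm B) (φ a)) (x : Ext C T) :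
    (map φ h x).k = x.k := rfl

theorem zpow_k (x : Ext C T) (n : ℤ) : (x ^ n).k = n * x.k := by
  induction n with
  | zero => simp
  | succ n ih => rw [zpow_add, mul_k, ih, zpow_one]; ring
  | pred n ih => rw [sub_eq_add_neg, zpow_add, mul_k, ih, zpow_neg_one, inv_k]; ring

theorem mem_of_map (hV : IsVar V) (φ : A →+ B)
    (h : ∀ a, φ ((T : Equiv.Perm A) a) = (S : Equiv.Perm B) (φ a))
    (hpos : ∀ a, C.Pos a → D.Pos (φ a)) (vS : V (Ext D S)) : V (Ext C T) := by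
  refine hV.of_lemb (lemb_of_pos total (map φ h) ?_) vS
  intro x hx
  rw [one_lt_iff] at hx ⊢
  rcases hx with hx | ⟨hx, hx'⟩
  · exact Or.inl hx
  · exact Or.inr ⟨hx, hpos _ hx'⟩

end Ext

theorem heis_zpow_x (p : Heis) (n : ℤ) : (p ^ n).x = n * p.x := by
  induction n with
  | zero => simp
  | succ n ih => rw [zpow_add, Heis.mul_x, ih, zpow_one]; ring
  | pred n ih => rw [sub_eq_add_neg, zpow_add, Heis.mul_x, ih, zpow_neg_one, Heis.inv_x]; ring

/-- The lexicographic cone on `ℤ⁴`. -/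
def Z4 : ACone (ℤ × ℤ × ℤ × ℤ) where
  Pos p := 0 < p.1 ∨ (p.1 = 0 ∧ (0 < p.2.1 ∨ (p.2.1 = 0 ∧ (0 < p.2.2.1 ∨
    (p.2.2.1 = 0 ∧ 0 < p.2.2.2)))))
  add := by
    rintro ⟨x, y, z, w⟩ ⟨x', y', z', w'⟩ h h'
    simp only [Prod.mk_add_mk] at h h' ⊢
    omega
  not_zero := by simp
  tri := by
    rintro ⟨x, y, z, w⟩
    simp only [Prod.neg_mk, Prod.mk_eq_zero]
    omega

/-- The automorphism `(x, y, z + x, w + y)`. -/
def R1 : OAut Z4 := mkOAut Z4
  { toFun := fun p => (p.1, p.2.1, p.2.2.1 + p.1, p.2.2.2 + p.2.1)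
    invFun := fun p => (p.1, p.2.1, p.2.2.1 - p.1, p.2.2.2 - p.2.1)
    left_inv := by rintro ⟨x, y, z, w⟩; simp
    right_inv := by rintro ⟨x, y, z, w⟩; simp
    map_add' := by
      rintro ⟨x, y, z, w⟩ ⟨x', y', z', w'⟩
      ext <;> simp <;> ring }
  (by
    rintro ⟨x, y, z, w⟩ h
    simp only [Z4] at h
    change _ ∨ _
    simp only [AddEquiv.coe_mk, Equiv.coe_fn_mk]
    omega)

/-- The automorphism `(x, y, z - x, w)`. -/
def R2 : OAut Z4 := mkOAut Z4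
  { toFun := fun p => (p.1, p.2.1, p.2.2.1 - p.1, p.2.2.2)
    invFun := fun p => (p.1, p.2.1, p.2.2.1 + p.1, p.2.2.2)
    left_inv := by rintro ⟨x, y, z, w⟩; simp
    right_inv := by rintro ⟨x, y, z, w⟩; simp
    map_add' := by
      rintro ⟨x, y, z, w⟩ ⟨x', y', z', w'⟩
      ext <;> simp <;> ring }
  (by
    rintro ⟨x, y, z, w⟩ h
    simp only [Z4] at h
    change _ ∨ _
    simp only [AddEquiv.coe_mk, Equiv.coe_fn_mk]
    omega)

theorem R1_apply (p : ℤ × ℤ × ℤ × ℤ) :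
    (R1 : Equiv.Perm _) p = (p.1, p.2.1, p.2.2.1 + p.1, p.2.2.2 + p.2.1) := rfl

theorem R2_apply (p : ℤ × ℤ × ℤ × ℤ) :
    (R2 : Equiv.Perm _) p = (p.1, p.2.1, p.2.2.1 - p.1, p.2.2.2) := rfl

theorem R12_apply (p : ℤ × ℤ × ℤ × ℤ) :
    ((R1 * R2 : OAut Z4) : Equiv.Perm _) p = (p.1, p.2.1, p.2.2.1, p.2.2.2 + p.2.1) := by
  change (R1 : Equiv.Perm _) ((R2 : Equiv.Perm _) p) = _
  rw [R2_apply, R1_apply]
  simp

theorem ev1 {a : ℤ} (ha : 0 < a) (b : ℤ) : ∀ᶠ n : ℕ in atTop, 0 < (n : ℤ) * a + b := by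
  filter_upwards [eventually_gt_atTop b.natAbs] with n hn
  have h1 : (n : ℤ) ≤ n * a := le_mul_of_one_le_right (by positivity) ha
  omega

theorem ev2 {a : ℤ} (ha : 0 < a) (b c : ℤ) :
    ∀ᶠ n : ℕ in atTop, 0 < (n : ℤ) ^ 2 * a + n * b + c := by
  filter_upwards [eventually_gt_atTop (b.natAbs + c.natAbs)] with n hn
  have h1 : (n : ℤ) ^ 2 ≤ n ^ 2 * a := le_mul_of_one_le_right (by positivity) ha
  have h2 : (b.natAbs : ℤ) + c.natAbs + 1 ≤ n := by exact_mod_cast hn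
  have h3 : -(n * (b.natAbs : ℤ)) ≤ n * b := by
    have : -(b.natAbs : ℤ) ≤ b := by omega
    have := mul_le_mul_of_nonneg_left this (show (0 : ℤ) ≤ n by positivity)
    linarith
  have h4 : -(c.natAbs : ℤ) ≤ c := by omega
  have h5 : (c.natAbs : ℤ) ≤ n * (c.natAbs : ℤ) := by
    apply le_mul_of_one_le_left (by positivity)
    omega
  have h6 := mul_le_mul_of_nonneg_left h2 (show (0 : ℤ) ≤ n by positivity)
  have h7 : (0 : ℤ) < n := by omega
  nlinarith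

/-- The first transfer map. -/
def rho1 (n : ℕ) : Ext Z4 R1 →* Heis :=
  Ext.lift (fun p => ⟨0, n * p.1 + p.2.1, n * p.2.2.1 + p.2.2.2⟩) (by
    rintro ⟨x, y, z, w⟩ ⟨x', y', z', w'⟩
    ext <;> simp <;> ring) ⟨1, 0, 0⟩ (by
    rintro ⟨x, y, z, w⟩
    rw [R1_apply]
    ext <;> simp
    ring)

theorem rho1_pos (x : Ext Z4 R1) (hx : 1 < x) : ∀ᶠ n in atTop, 1 < rho1 n x := by
  rw [Ext.one_lt_iff] at hx
  rcases hx with hx | ⟨hx, hx'⟩
  · refine Eventually.of_forall fun n => ?_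
    rw [Heis.one_lt_iff]
    left
    rw [rho1, Ext.lift_apply, Heis.mul_x, heis_zpow_x]
    simpa using hx
  · have e : ∀ n, rho1 n x =
        ⟨0, n * x.a.1 + x.a.2.1, n * x.a.2.2.1 + x.a.2.2.2⟩ := by
      intro n
      rw [rho1, Ext.lift_apply, hx, zpow_zero, mul_one]
    rcases hx' with h | ⟨h, h' | ⟨h', h'' | ⟨h'', h'''⟩⟩⟩
    · filter_upwards [ev1 h x.a.2.1] with n hn
      rw [e, Heis.one_lt_iff]
      exact Or.inr ⟨rfl, Or.inl hn⟩
    · refine Eventually.of_forall fun n => ?_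
      rw [e, Heis.one_lt_iff]
      refine Or.inr ⟨rfl, Or.inl ?_⟩
      simpa [h] using h'
    · filter_upwards [ev1 h'' x.a.2.2.2] with n hn
      rw [e, Heis.one_lt_iff]
      refine Or.inr ⟨rfl, Or.inr ⟨?_, hn⟩⟩
      simp [h, h']
    · refine Eventually.of_forall fun n => ?_
      rw [e, Heis.one_lt_iff]
      refine Or.inr ⟨rfl, Or.inr ⟨?_, ?_⟩⟩
      · simp [h, h']
      · simpa [h''] using h'''

/-- The second transfer map. -/
def rho2 (n : ℕ) : Ext Z4 R2 →* Heis :=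
  Ext.lift (fun p => ⟨p.1, 0, n ^ 2 * p.2.1 + n * p.2.2.1 + p.2.2.2⟩) (by
    rintro ⟨x, y, z, w⟩ ⟨x', y', z', w'⟩
    ext <;> simp <;> ring) ⟨n ^ 2, n, 0⟩ (by
    rintro ⟨x, y, z, w⟩
    rw [R2_apply]
    ext <;> simp <;> ring)

theorem rho2_pos (x : Ext Z4 R2) (hx : 1 < x) : ∀ᶠ n in atTop, 1 < rho2 n x := by
  rw [Ext.one_lt_iff] at hx
  rcases hx with hx | ⟨hx, hx'⟩
  · filter_upwards [ev2 hx 0 x.a.1] with n hn
    rw [Heis.one_lt_iff]
    left
    rw [rho2, Ext.lift_apply, Heis.mul_x, heis_zpow_x]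
    simp only
    nlinarith
  · have e : ∀ n, rho2 n x =
        ⟨x.a.1, 0, n ^ 2 * x.a.2.1 + n * x.a.2.2.1 + x.a.2.2.2⟩ := by
      intro n
      rw [rho2, Ext.lift_apply, hx, zpow_zero, mul_one]
    rcases hx' with h | ⟨h, h' | ⟨h', h'' | ⟨h'', h'''⟩⟩⟩
    · refine Eventually.of_forall fun n => ?_
      rw [e, Heis.one_lt_iff]
      exact Or.inl h
    · filter_upwards [ev2 h' x.a.2.2.1 x.a.2.2.2] with n hn
      rw [e, Heis.one_lt_iff]
      exact Or.inr ⟨h, Or.inr ⟨rfl, hn⟩⟩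
    · filter_upwards [ev1 h'' x.a.2.2.2] with n hn
      rw [e, Heis.one_lt_iff]
      refine Or.inr ⟨h, Or.inr ⟨rfl, ?_⟩⟩
      simpa [h'] using hn
    · refine Eventually.of_forall fun n => ?_
      rw [e, Heis.one_lt_iff]
      refine Or.inr ⟨h, Or.inr ⟨rfl, ?_⟩⟩
      simpa [h', h''] using h'''

/-- Step 6a. -/
theorem z4_mem (hV : IsVar V) (hA : Amalg V) (vH : V Heis) : V (Ext Z4 (R1 * R2)) :=
  monoid_step hV hA
    (hV.transfer Ext.total rho1 rho1_pos vH) (hV.transfer Ext.total rho2 rho2_pos vH)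

end Pool.Agent.Helper6.AP
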