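import Pool.Agent.Helper6.AP8

set_option autoImplicit false
set_option linter.unusedSectionVars false
set_option linter.style.haveILetI false

open Filter

namespace Pool.Agent.Helper6.AP

open LVar

variable {V : ∀ (α : Type) [Group α] [Lattice α], Prop}

/-- The cone on finitely supported functions in which the highest index dominates. -/
def FC : ACone (ℕ →₀ ℤ) where
  Pos f := ∃ i, 0 < f i ∧ ∀ j, i < j → f j = 0
  add := by
    rintro f g ⟨i, h1, h2⟩ ⟨j, h3, h4⟩
    rcases lt_trichotomy i j with h | h | h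
    · refine ⟨j, ?_, fun k hk => ?_⟩
      · rw [Finsupp.add_apply, h2 j h, zero_add]; exact h3
      · rw [Finsupp.add_apply, h2 k (h.trans hk), h4 k hk, zero_add]
    · subst h
      refine ⟨i, ?_, fun k hk => ?_⟩
      · rw [Finsupp.add_apply]; omega
      · rw [Finsupp.add_apply, h2 k hk, h4 k hk, zero_add]
    · refine ⟨i, ?_, fun k hk => ?_⟩
      · rw [Finsupp.add_apply, h4 i h, add_zero]; exact h1
      · rw [Finsupp.add_apply, h2 k hk, h4 k (h.trans hk), zero_add]
  not_zero := by
    rintro ⟨i, h, -⟩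
    exact lt_irrefl _ h
  tri := by
    intro f
    by_cases hf : f = 0
    · exact Or.inl hf
    right
    have hs : f.support.Nonempty := Finsupp.support_nonempty_iff.mpr hf
    have h1 : f (f.support.max' hs) ≠ 0 := Finsupp.mem_support_iff.mp (f.support.max'_mem hs)
    have h2 : ∀ j, f.support.max' hs < j → f j = 0 := by
      intro j hj
      by_contra h
      exact absurd (f.support.le_max' j (Finsupp.mem_support_iff.mpr h)) (not_le.mpr hj)
    rcases lt_or_gt_of_ne h1 with h | h
    · right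
      refine ⟨f.support.max' hs, ?_, fun j hj => ?_⟩
      · rw [Finsupp.neg_apply]; omega
      · rw [Finsupp.neg_apply, h2 j hj, neg_zero]
    · left
      exact ⟨_, h, h2⟩

/-- The automorphism adding the entry at `l + 1` to the entry at `l`. -/
noncomputable def El (l : ℕ) : OAut FC := mkOAut FC
  { toFun := fun f => f + Finsupp.single l (f (l + 1))
    invFun := fun f => f - Finsupp.single l (f (l + 1))
    left_inv := by
      intro f
      have : (f + Finsupp.single l (f (l + 1))) (l + 1) = f (l + 1) := by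
        rw [Finsupp.add_apply, Finsupp.single_eq_of_ne (by omega), add_zero]
      simp only [this, add_sub_cancel_right]
    right_inv := by
      intro f
      have : (f - Finsupp.single l (f (l + 1))) (l + 1) = f (l + 1) := by
        rw [Finsupp.sub_apply, Finsupp.single_eq_of_ne (by omega), sub_zero]
      simp only [this, sub_add_cancel]
    map_add' := by
      intro f g
      rw [Finsupp.add_apply, Finsupp.single_add]
      abel }
  (by
    rintro f ⟨i, h1, h2⟩
    have key : ∀ j, i ≤ j → (f + Finsupp.single l (f (l + 1))) j = f j := by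
      intro j hj
      rw [Finsupp.add_apply]
      by_cases h : l = j
      · subst h
        rw [h2 (l + 1) (by omega), Finsupp.single_zero]; simp
      · rw [Finsupp.single_eq_of_ne (Ne.symm h), add_zero]
    refine ⟨i, ?_, fun j hj => ?_⟩
    · change 0 < (f + Finsupp.single l (f (l + 1))) i
      rw [key i le_rfl]; exact h1
    · change (f + Finsupp.single l (f (l + 1))) j = 0
      rw [key j hj.le]; exact h2 j hj)

theorem El_apply (l : ℕ) (f : ℕ →₀ ℤ) :
    (El l : Equiv.Perm _) f = f + Finsupp.single l (f (l + 1)) := rfl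

/-- The weighted sum. -/
noncomputable def wsum (w : ℕ → ℤ) : (ℕ →₀ ℤ) →+ ℤ :=
  Finsupp.liftAddHom (fun i => (AddMonoidHom.mulRight (w i)))

theorem wsum_apply (w : ℕ → ℤ) (f : ℕ →₀ ℤ) : wsum w f = f.sum (fun i c => c * w i) := rfl

theorem wsum_single (w : ℕ → ℤ) (i : ℕ) (c : ℤ) : wsum w (Finsupp.single i c) = c * w i := by
  rw [wsum_apply, Finsupp.sum_single_index (by ring)]

theorem wsum_zero (w : ℕ → ℤ) (f : ℕ →₀ ℤ) (h : ∀ i, f i = 0 ∨ w i = 0) : wsum w f = 0 := by
  rw [wsum_apply, Finsupp.sum]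
  apply Finset.sum_eq_zero
  intro i _
  rcases h i with h | h <;> rw [h] <;> ring

theorem wsum_pos (w : ℕ → ℤ) (f : ℕ →₀ ℤ) (i : ℕ) (h1 : 0 < f i) (h2 : ∀ j, i < j → f j = 0)
    (hw : ∀ j, 0 ≤ w j) (hi : 0 < w i) (N : ℕ) (hN : ∑ j ∈ f.support, |f j| < N)
    (hNw : ∀ j, j < i → N * w j ≤ w i) : 0 < wsum w f := by
  have hm : i ∈ f.support := Finsupp.mem_support_iff.mpr h1.ne'
  have e : (N : ℤ) * wsum w f = N * (f i * w i) + ∑ j ∈ f.support.erase i, f j * (N * w j) := by
    rw [wsum_apply, Finsupp.sum, ← Finset.add_sum_erase _ _ hm, mul_add, Finset.mul_sum]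
    congr 1
    apply Finset.sum_congr rfl
    intro j _
    ring
  have h3 : -(∑ j ∈ f.support.erase i, |f j| * w i) ≤ ∑ j ∈ f.support.erase i, f j * (N * w j) := by
    rw [← Finset.sum_neg_distrib]
    apply Finset.sum_le_sum
    intro j hj
    have hji : j < i := by
      by_contra hcon
      rcases (not_lt.mp hcon).lt_or_eq with h | h
      · exact Finsupp.mem_support_iff.mp (Finset.mem_of_mem_erase hj) (h2 j h)
      · exact Finset.ne_of_mem_erase hj h.symm
    have h4 := hNw j hji
    have h5 : 0 ≤ N * w j := mul_nonneg (by positivity) (hw j)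
    have h6 : |f j * (N * w j)| ≤ |f j| * w i := by
      rw [abs_mul, abs_of_nonneg h5]
      exact mul_le_mul_of_nonneg_left h4 (abs_nonneg _)
    exact (abs_le.mp h6).1
  have h7 : ∑ j ∈ f.support.erase i, |f j| * w i ≤ (∑ j ∈ f.support, |f j|) * w i := by
    rw [← Finset.sum_mul]
    apply mul_le_mul_of_nonneg_right _ hi.le
    exact Finset.sum_le_sum_of_subset_of_nonneg (Finset.erase_subset _ _)
      (fun _ _ _ => abs_nonneg _)
  have h8 : (∑ j ∈ f.support, |f j|) * w i < N * w i := mul_lt_mul_of_pos_right hN hi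
  have h9 : (N : ℤ) * w i ≤ N * (f i * w i) := by
    apply mul_le_mul_of_nonneg_left _ (by positivity)
    exact le_mul_of_one_le_left hi.le h1
  have h10 : 0 < (N : ℤ) * wsum w f := by rw [e]; linarith
  by_contra hcon
  have := mul_nonpos_of_nonneg_of_nonpos (show (0 : ℤ) ≤ N by positivity) (not_lt.mp hcon)
  linarith

/-- The first weight. -/
def w1 (l N i : ℕ) : ℤ := if l + 1 < i then (N : ℤ) ^ (i - (l + 2)) else 0
/-- The second weight. -/
def w2 (l N i : ℕ) : ℤ := if i = l + 1 then (N : ℤ) ^ l else 0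
/-- The fourth weight. -/
def w4 (_l N i : ℕ) : ℤ := if i ≤ _l then (N : ℤ) ^ i else 0

/-- The additive part of the transfer map. -/
noncomputable def aN (l N : ℕ) : (ℕ →₀ ℤ) →+ ℤ × ℤ × ℤ × ℤ :=
  AddMonoidHom.prod (wsum (w1 l N)) (AddMonoidHom.prod (wsum (w2 l N))
    (AddMonoidHom.prod 0 (wsum (w4 l N))))

theorem aN_apply (l N : ℕ) (f : ℕ →₀ ℤ) :
    aN l N f = (wsum (w1 l N) f, wsum (w2 l N) f, 0, wsum (w4 l N) f) := rfl

theorem wsum_w2 (l N : ℕ) (f : ℕ →₀ ℤ) : wsum (w2 l N) f = f (l + 1) * N ^ l := by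
  rw [wsum_apply, Finsupp.sum, Finset.sum_eq_single (l + 1)]
  · rw [w2, if_pos rfl]
  · intro b _ hb
    rw [w2, if_neg hb, mul_zero]
  · intro h
    rw [Finsupp.notMem_support_iff.mp h, zero_mul]

theorem aN_comm (l N : ℕ) (f : ℕ →₀ ℤ) :
    aN l N ((El l : Equiv.Perm _) f) = ((R1 * R2 : OAut Z4) : Equiv.Perm _) (aN l N f) := by
  rw [R12_apply, El_apply, map_add, aN_apply l N (Finsupp.single _ _), wsum_single, wsum_single,
    wsum_single, aN_apply]
  simp only [Prod.mk_add_mk, wsum_w2]
  rw [w1, if_neg (by omega), w2, if_neg (by omega), w4, if_pos le_rfl]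
  simp

theorem wN_pos {l : ℕ} (f : ℕ →₀ ℤ) (hf : FC.Pos f) :
    ∀ᶠ N in atTop, Z4.Pos (aN l N f) := by
  obtain ⟨i, h1, h2⟩ := hf
  obtain ⟨M, hM⟩ : ∃ M : ℕ, ∑ j ∈ f.support, |f j| < M :=
    ⟨(∑ j ∈ f.support, |f j|).natAbs + 1, by
      have := Int.le_natAbs (a := ∑ j ∈ f.support, |f j|)
      rw [Nat.cast_add, Nat.cast_one]; linarith⟩
  filter_upwards [eventually_ge_atTop (M + 1)] with N hN
  have hN' : ∑ j ∈ f.support, |f j| < (N : ℤ) := by
    have : (M : ℤ) + 1 ≤ N := by exact_mod_cast hN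
    omega
  have hN1 : (1 : ℤ) ≤ N := by
    have : 1 ≤ N := by omega
    exact_mod_cast this
  rw [aN_apply]
  rcases lt_trichotomy i (l + 1) with h | h | h
  · have e1 : wsum (w1 l N) f = 0 := by
      apply wsum_zero
      intro j
      by_cases hj : l + 1 < j
      · exact Or.inl (h2 j (by omega))
      · right; rw [w1, if_neg hj]
    have e2 : wsum (w2 l N) f = 0 := by
      rw [wsum_w2, h2 (l + 1) h, zero_mul]
    refine Or.inr ⟨e1, Or.inr ⟨e2, Or.inr ⟨rfl, ?_⟩⟩⟩
    refine wsum_pos _ f i h1 h2 ?_ ?_ N hN' ?_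
    · intro j; rw [w4]; split_ifs <;> positivity
    · rw [w4, if_pos (by omega)]; positivity
    · intro j hj
      rw [w4, w4, if_pos (by omega), if_pos (by omega), ← pow_succ']
      exact pow_le_pow_right₀ hN1 (by omega)
  · have e1 : wsum (w1 l N) f = 0 := by
      apply wsum_zero
      intro j
      by_cases hj : l + 1 < j
      · exact Or.inl (h2 j (by omega))
      · right; rw [w1, if_neg hj]
    refine Or.inr ⟨e1, Or.inl ?_⟩
    simp only [wsum_w2]
    rw [← h]
    positivity
  · refine Or.inl ?_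
    refine wsum_pos _ f i h1 h2 ?_ ?_ N hN' ?_
    · intro j; rw [w1]; split_ifs <;> positivity
    · rw [w1, if_pos (by omega)]; positivity
    · intro j hj
      rw [w1, w1, if_pos h]
      split_ifs with hj'
      · rw [← pow_succ']
        exact pow_le_pow_right₀ hN1 (by omega)
      · rw [mul_zero]; positivity

theorem El_mem (hV : IsVar V) (v4 : V (Ext Z4 (R1 * R2))) (l : ℕ) : V (Ext FC (El l)) := by
  refine hV.transfer Ext.total (fun N => Ext.map (aN l N) (aN_comm l N)) ?_ v4
  intro x hx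
  rw [Ext.one_lt_iff] at hx
  rcases hx with hx | ⟨hx, hx'⟩
  · refine Eventually.of_forall fun N => ?_
    rw [Ext.one_lt_iff]
    exact Or.inl hx
  · filter_upwards [wN_pos x.a hx'] with N hN
    rw [Ext.one_lt_iff]
    exact Or.inr ⟨hx, hN⟩

/-- The products of the elementary automorphisms. -/
noncomputable def Tn : ℕ → OAut FC
  | 0 => El 0
  | n + 1 => El (n + 1) * Tn n

theorem Tn_apply (n : ℕ) (f : ℕ →₀ ℤ) (l : ℕ) :
    ((Tn n : OAut FC) : Equiv.Perm _) f l = f l + if l ≤ n then f (l + 1) else 0 := by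
  induction n generalizing l with
  | zero =>
    change (El 0 : Equiv.Perm _) f l = _
    rw [El_apply, Finsupp.add_apply]
    by_cases h : l = 0
    · subst h; simp
    · rw [Finsupp.single_eq_of_ne h, if_neg (by omega)]
  | succ n ih =>
    change ((El (n + 1) : Equiv.Perm _) ((Tn n : Equiv.Perm _) f)) l = _
    rw [El_apply, Finsupp.add_apply, ih l, ih (n + 1 + 1), if_neg (show ¬ n + 1 + 1 ≤ n by omega),
      add_zero]
    by_cases h : l = n + 1
    · subst h
      rw [Finsupp.single_eq_same, if_neg (by omega), if_pos le_rfl, add_zero]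
    · rw [Finsupp.single_eq_of_ne h, add_zero]
      by_cases h' : l ≤ n
      · rw [if_pos h', if_pos (by omega)]
      · rw [if_neg h', if_neg (by omega)]

theorem Tn_mem (hV : IsVar V) (hA : Amalg V) (v4 : V (Ext Z4 (R1 * R2))) (n : ℕ) :
    V (Ext FC (Tn n)) := by
  induction n with
  | zero => exact El_mem hV v4 0
  | succ n ih => exact monoid_step hV hA (El_mem hV v4 (n + 1)) ih

end Pool.Agent.Helper6.AP
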