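import Pool.Agent.Helper6.LVarHeis

set_option autoImplicit false
set_option linter.unusedSectionVars false
set_option linter.style.haveILetI false

open Filter

namespace Pool.Agent.Helper6.LVar

section Psi

variable {K : Type*} [Group K]

theorem comm_zpow_aux {A B C : K} (h : A * B = C * B * A) (hA : Commute C A) (hB : Commute C B)
    (x y : ℤ) : A ^ x * B ^ y = C ^ (x * y) * B ^ y * A ^ x := by
  have h1 : A * B ^ y * A⁻¹ = C ^ y * B ^ y := by
    rw [← conj_zpow]
    have : A * B * A⁻¹ = C * B := by rw [h]; group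
    rw [this, hB.mul_zpow]
  have h2 : B ^ y * A * (B ^ y)⁻¹ = (C ^ y)⁻¹ * A := by
    have h3 : A * B ^ y = C ^ y * B ^ y * A := by
      rw [← h1]; group
    have h4 : B ^ y * A = (C ^ y)⁻¹ * (A * B ^ y) := by
      rw [h3]; group
    rw [h4]; group
  have h5 : B ^ y * A ^ x * (B ^ y)⁻¹ = (C ^ y)⁻¹ ^ x * A ^ x := by
    rw [← conj_zpow, h2]
    exact ((hA.zpow_left y).inv_left).mul_zpow x
  have h6 : A ^ x * B ^ y = ((C ^ y)⁻¹ ^ x)⁻¹ * (B ^ y * A ^ x * (B ^ y)⁻¹) * B ^ y := by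
    rw [h5]; group
  have h7 : ((C ^ y)⁻¹ ^ x)⁻¹ = C ^ (x * y) := by
    rw [inv_zpow, inv_inv, ← zpow_mul, mul_comm]
  rw [h6, h7]
  group

/-- The homomorphism from the Heisenberg group given by `A`, `B`. -/
def psi (A B C : K) (h : A * B = C * B * A) (hA : Commute C A) (hB : Commute C B) :
    Heis →* K where
  toFun p := B ^ p.y * A ^ p.x * C ^ p.z
  map_one' := by simp
  map_mul' p q := by
    have e1 := comm_zpow_aux h hA hB p.x q.y
    have c1 : C ^ p.z * B ^ q.y = B ^ q.y * C ^ p.z := (hB.zpow_zpow p.z q.y).eq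
    have c2 : C ^ p.z * A ^ q.x = A ^ q.x * C ^ p.z := (hA.zpow_zpow p.z q.x).eq
    have c3 : C ^ (p.x * q.y) * B ^ q.y = B ^ q.y * C ^ (p.x * q.y) :=
      (hB.zpow_zpow _ q.y).eq
    have c4 : C ^ (p.x * q.y) * A ^ p.x = A ^ p.x * C ^ (p.x * q.y) :=
      (hA.zpow_zpow _ p.x).eq
    have c5 : C ^ (p.x * q.y) * A ^ q.x = A ^ q.x * C ^ (p.x * q.y) :=
      (hA.zpow_zpow _ q.x).eq
    simp only [Heis.mul_x, Heis.mul_y, Heis.mul_z, zpow_add]
    calc B ^ p.y * B ^ q.y * (A ^ p.x * A ^ q.x) * (C ^ p.z * C ^ q.z * C ^ (p.x * q.y))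
        = B ^ p.y * B ^ q.y * A ^ p.x * A ^ q.x * C ^ (p.x * q.y) * C ^ p.z * C ^ q.z := by
          have : C ^ p.z * C ^ q.z * C ^ (p.x * q.y) = C ^ (p.x * q.y) * C ^ p.z * C ^ q.z := by
            rw [← zpow_add, ← zpow_add, ← zpow_add, ← zpow_add]
            congr 1; ring
          rw [this]
          simp only [mul_assoc]
      _ = B ^ p.y * (C ^ (p.x * q.y) * B ^ q.y * A ^ p.x) * A ^ q.x * C ^ p.z * C ^ q.z := by
          have : B ^ p.y * (C ^ (p.x * q.y) * B ^ q.y * A ^ p.x) * A ^ q.x =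
              B ^ p.y * B ^ q.y * A ^ p.x * A ^ q.x * C ^ (p.x * q.y) := by
            rw [c3, mul_assoc (B ^ q.y), c4]
            simp only [mul_assoc]
            rw [c5]
          rw [this]
      _ = B ^ p.y * (A ^ p.x * B ^ q.y) * A ^ q.x * C ^ p.z * C ^ q.z := by rw [← e1]
      _ = B ^ p.y * A ^ p.x * C ^ p.z * (B ^ q.y * A ^ q.x * C ^ q.z) := by
          have : B ^ p.y * A ^ p.x * C ^ p.z * (B ^ q.y * A ^ q.x * C ^ q.z) =
              B ^ p.y * A ^ p.x * (C ^ p.z * B ^ q.y) * A ^ q.x * C ^ q.z := by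
            simp only [mul_assoc]
          rw [this, c1]
          have : B ^ p.y * A ^ p.x * (B ^ q.y * C ^ p.z) * A ^ q.x * C ^ q.z =
              B ^ p.y * A ^ p.x * B ^ q.y * (C ^ p.z * A ^ q.x) * C ^ q.z := by
            simp only [mul_assoc]
          rw [this, c2]
          simp only [mul_assoc]

end Psi

section Pos

variable {K : Type*} [Group K] [Lattice K] [MulLeftMono K] [MulRightMono K]

theorem zmono {a : K} (ha : 1 ≤ a) {m n : ℤ} (h : m ≤ n) : a ^ m ≤ a ^ n := by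
  have h1 : a ^ n = a ^ m * a ^ (n - m) := by rw [← zpow_add]; congr 1; ring
  rw [h1]
  have h2 : 1 ≤ a ^ (n - m) := by
    obtain ⟨k, hk⟩ := Int.eq_ofNat_of_zero_le (sub_nonneg.mpr h)
    rw [hk, zpow_natCast]
    exact one_le_pow_of_one_le' ha k
  exact le_mul_of_one_le_right' h2

theorem psi_pos {A B C : K} (hC : 1 < C) (hBC : ∀ n : ℕ, C ^ n ≤ B) (p : Heis) (hp : 1 < p)
    (hAB : B ^ (p.y.natAbs + 2) ≤ A) : 1 < B ^ p.y * A ^ p.x * C ^ p.z := by
  have hCB : C ≤ B := by simpa using hBC 1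
  have hB : 1 < B := hC.trans_le hCB
  have hA : 1 ≤ A := (one_le_pow_of_one_le' hB.le _).trans hAB
  rw [Heis.one_lt_iff] at hp
  have hz : B⁻¹ ≤ C ^ p.z := by
    have h1 : C ^ (-(p.z.natAbs : ℤ)) ≤ C ^ p.z := zmono hC.le (by omega)
    refine le_trans ?_ h1
    rw [zpow_neg, zpow_natCast]
    exact inv_le_inv_iff.mpr (hBC _)
  rcases hp with h | ⟨h1, h2 | ⟨h2, h3⟩⟩
  · have h1 : B ^ (-(p.y.natAbs : ℤ)) ≤ B ^ p.y := zmono hB.le (by omega)
    have h2 : B ^ (((p.y.natAbs + 2 : ℕ) : ℤ)) ≤ A ^ p.x := by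
      rw [zpow_natCast]
      refine hAB.trans ?_
      have := zmono hA (show (1 : ℤ) ≤ p.x by omega)
      rwa [zpow_one] at this
    have h3 := mul_le_mul' (mul_le_mul' h1 h2) hz
    refine lt_of_lt_of_le hB (le_trans (le_of_eq ?_) h3)
    rw [← zpow_add, ← zpow_neg_one, ← zpow_add]
    have : -(p.y.natAbs : ℤ) + ((p.y.natAbs + 2 : ℕ) : ℤ) + -1 = 1 := by push_cast; ring
    rw [this, zpow_one]
  · rw [h1, zpow_zero, mul_one]
    have h3 : C * C ^ (p.z.natAbs : ℤ) ≤ B ^ p.y := by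
      have h4 : C * C ^ (p.z.natAbs : ℤ) = C ^ (p.z.natAbs + 1) := by
        rw [zpow_natCast, pow_succ']
      rw [h4]
      refine (hBC _).trans ?_
      have := zmono hB.le (show (1 : ℤ) ≤ p.y by omega)
      rwa [zpow_one] at this
    have h5 : C ^ (-(p.z.natAbs : ℤ)) ≤ C ^ p.z := zmono hC.le (by omega)
    have h6 := mul_le_mul' h3 h5
    refine lt_of_lt_of_le hC (le_trans (le_of_eq ?_) h6)
    rw [mul_assoc, ← zpow_add]; simp
  · rw [h1, h2, zpow_zero, zpow_zero, one_mul, one_mul]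
    have := zmono hC.le (show (1 : ℤ) ≤ p.z by omega)
    rw [zpow_one] at this
    exact hC.trans_le this

/-- A nonabelian chain with the laws of the Heisenberg group satisfies only identities of it. -/
theorem heis_of_chain (htot : ∀ x y : K, x ≤ y ∨ y ≤ x)
    (hcl : ∀ p q r : K, (p * q * p⁻¹ * q⁻¹) * r = r * (p * q * p⁻¹ * q⁻¹))
    (hwk : ∀ p q : K, 1 ≤ q → p⁻¹ * q * p ≤ q * q)
    (hna : ∃ p q : K, p * q ≠ q * p) (E : Set (LTerm × LTerm)) (hE : Satisfies E K) :
    Satisfies E Heis := by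
  -- choose noncommuting positive elements
  have hpos : ∃ g h : K, 1 < h ∧ h < g ∧ g * h ≠ h * g := by
    obtain ⟨p, q, hpq⟩ := hna
    have key : ∀ p q : K, 1 < p → 1 < q → p * q ≠ q * p → ∃ g h : K, 1 < h ∧ h < g ∧
        g * h ≠ h * g := by
      intro p q hp hq hpq
      rcases htot p q with h | h
      · refine ⟨q, p, hp, lt_of_le_of_ne h ?_, fun h => hpq h.symm⟩
        rintro rfl; exact hpq rfl
      · refine ⟨p, q, hq, lt_of_le_of_ne h ?_, hpq⟩
        rintro rfl; exact hpq rfl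
    have hp1 : p ≠ 1 := by rintro rfl; simp at hpq
    have hq1 : q ≠ 1 := by rintro rfl; simp at hpq
    have hsign : ∀ p : K, p ≠ 1 → 1 < p ∨ 1 < p⁻¹ := by
      intro p hp
      rcases htot 1 p with h | h
      · exact Or.inl (lt_of_le_of_ne h (Ne.symm hp))
      · right
        exact one_lt_inv'.mpr (lt_of_le_of_ne h hp)
    rcases hsign p hp1 with hp | hp <;> rcases hsign q hq1 with hq | hq
    · exact key p q hp hq hpq
    · refine key p q⁻¹ hp hq ?_
      intro h
      exact hpq ((Commute.inv_right_iff (a := p) (b := q)).mp h)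
    · refine key p⁻¹ q hp hq ?_
      intro h
      exact hpq ((Commute.inv_left_iff (a := p) (b := q)).mp h)
    · refine key p⁻¹ q⁻¹ hp hq ?_
      intro h
      exact hpq ((Commute.inv_inv_iff (a := p) (b := q)).mp h)
  obtain ⟨g, h, h1h, hhg, hgh⟩ := hpos
  have h1g : 1 < g := h1h.trans hhg
  set c : K := g * h * g⁻¹ * h⁻¹ with hc
  have hcen : ∀ r : K, Commute c r := fun r => hcl g h r
  have hc1 : c ≠ 1 := by
    intro h1
    apply hgh
    rw [hc, mul_inv_eq_one, mul_inv_eq_iff_eq_mul] at h1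
    exact h1
  have hgc : g * h = c * h * g := by rw [hc]; group
  have hhc : h * g = c⁻¹ * g * h := by
    rw [hc]; group
  -- powers of the commutator are small
  have hsmall : ∀ n : ℕ, c ^ n ≤ h := by
    intro n
    have h1 := hwk (g ^ (-(n : ℤ))) h h1h.le
    have h2 := comm_zpow_aux hgc (hcen g) (hcen h) n 1
    rw [zpow_one, mul_one] at h2
    rw [zpow_neg, inv_inv, h2, zpow_natCast, zpow_natCast, mul_inv_cancel_right] at h1
    exact (mul_le_mul_iff_right h).mp h1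
  have hsmall' : ∀ n : ℕ, c⁻¹ ^ n ≤ g := by
    intro n
    have h1 := hwk (h ^ (-(n : ℤ))) g h1g.le
    have h2 := comm_zpow_aux hhc ((hcen h).inv_left) ((hcen g).inv_left) n 1
    rw [zpow_one, mul_one] at h2
    rw [zpow_neg, inv_inv, h2, zpow_natCast, zpow_natCast, mul_inv_cancel_right] at h1
    exact (mul_le_mul_iff_right g).mp h1
  have hpow : ∀ {N m : ℕ}, N ≤ m → h ^ N ≤ g ^ m := fun hNm =>
    (pow_le_pow_left' hhg.le _).trans (pow_le_pow_right' h1g.le hNm)
  rcases htot c 1 with hle | hle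
  · -- negative commutator
    have hc2 : 1 < c⁻¹ := one_lt_inv'.mpr (lt_of_le_of_ne hle hc1)
    have hrel : ∀ m : ℕ, (g ^ m * h) * g = c⁻¹ * g * (g ^ m * h) := by
      intro m
      have e1 : Commute c⁻¹ (g ^ m) := (hcen (g ^ m)).inv_left
      calc (g ^ m * h) * g = g ^ m * (h * g) := by rw [mul_assoc]
        _ = g ^ m * (c⁻¹ * g * h) := by rw [hhc]
        _ = (g ^ m * c⁻¹) * g * h := by simp only [mul_assoc]
        _ = (c⁻¹ * g ^ m) * g * h := by rw [e1.eq]
        _ = c⁻¹ * (g ^ m * g) * h := by simp only [mul_assoc]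
        _ = c⁻¹ * (g * g ^ m) * h := by rw [← pow_succ, ← pow_succ']
        _ = c⁻¹ * g * (g ^ m * h) := by simp only [mul_assoc]
    refine transfer_top (F := atTop) Heis.total (fun m : ℕ => psi (g ^ m * h) g c⁻¹ (hrel m)
      ((hcen _).inv_left) ((hcen _).inv_left)) ?_ E hE
    intro p hp
    filter_upwards [eventually_ge_atTop (p.y.natAbs + 2)] with m hm
    refine psi_pos hc2 hsmall' p hp ?_
    refine (pow_le_pow_right' h1g.le hm).trans ?_
    exact le_mul_of_one_le_right' h1h.le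
  · -- positive commutator
    have hc2 : 1 < c := lt_of_le_of_ne hle (Ne.symm hc1)
    have hrel : ∀ m : ℕ, g ^ m * h = c ^ m * h * g ^ m := by
      intro m
      have h2 := comm_zpow_aux hgc (hcen g) (hcen h) m 1
      rw [zpow_one, mul_one, zpow_natCast, zpow_natCast] at h2
      exact h2
    refine transfer_top (F := atTop) Heis.total (fun m : ℕ => psi (g ^ m) h (c ^ m) (hrel m)
      ((hcen _).pow_left m) ((hcen _).pow_left m)) ?_ E hE
    intro p hp
    filter_upwards [eventually_ge_atTop (p.y.natAbs + 2)] with m hm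
    have hm0 : m ≠ 0 := by omega
    refine psi_pos (one_lt_pow' hc2 hm0) (fun n => ?_) p hp (hpow hm)
    rw [← pow_mul]
    exact hsmall _

end Pos

/-! ### Prime quotients -/

section Prime

variable {G : Type*} [Group G] [Lattice G] [MulLeftMono G] [MulRightMono G]

theorem inf_mul_le_aux {a b c : G} (ha : 1 ≤ a) (hb : 1 ≤ b) (hc : 1 ≤ c) :
    a ⊓ (b * c) ≤ (a ⊓ b) * (a ⊓ c) := by
  rw [inf_mul, mul_inf, mul_inf]
  refine le_inf (le_inf ?_ ?_) (le_inf ?_ ?_)
  · exact inf_le_left.trans (le_mul_of_one_le_right' ha)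
  · exact inf_le_left.trans (le_mul_of_one_le_right' hc)
  · exact inf_le_left.trans (le_mul_of_one_le_left' hb)
  · exact inf_le_right

theorem inf_pow_eq_one {a b : G} (ha : 1 ≤ a) (hb : 1 ≤ b) (h : a ⊓ b = 1) (n : ℕ) :
    a ⊓ b ^ n = 1 := by
  induction n with
  | zero => rw [pow_zero]; exact inf_eq_right.mpr ha
  | succ n ih =>
    apply le_antisymm
    · rw [pow_succ]
      refine (inf_mul_le_aux ha (one_le_pow_of_one_le' hb n) hb).trans ?_
      rw [ih, h, one_mul]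
    · exact le_inf ha (one_le_pow_of_one_le' hb _)

theorem inf_pow_pow_eq_one {a b : G} (ha : 1 ≤ a) (hb : 1 ≤ b) (h : a ⊓ b = 1) (m n : ℕ) :
    a ^ m ⊓ b ^ n = 1 := by
  have h1 := inf_pow_eq_one ha hb h n
  rw [inf_comm] at h1 ⊢
  exact inf_pow_eq_one (one_le_pow_of_one_le' hb n) ha h1 m

theorem pos_inf_neg (z : G) : (z ⊔ 1) ⊓ (z⁻¹ ⊔ 1) = 1 := by
  have h1 : z ⊔ 1 = z * (z⁻¹ ⊔ 1) := by
    rw [mul_sup, mul_inv_cancel, mul_one, sup_comm]
  have h2 : (z ⊔ 1) ⊓ (z⁻¹ ⊔ 1) = (z ⊓ 1) * (z⁻¹ ⊔ 1) := by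
    rw [inf_mul, ← h1, one_mul]
  rw [h2]
  have h3 : z⁻¹ ⊔ 1 = (z ⊓ 1)⁻¹ := by
    rw [inv_inf, inv_one]
  rw [h3, mul_inv_cancel]

/-- If every convex `ℓ`-subgroup is normal, then every nontrivial element survives in a
totally ordered quotient. -/
theorem exists_prime_quot (hham : ∀ N : Subgroup G, IsCvx N → N.Normal) {w : G} (hw : w ≠ 1) :
    ∃ (P : Subgroup G) (hP : IsLIdeal P), w ∉ P ∧
      letI := quotLattice P hP
      ∀ x y : G ⧸ P, x ≤ y ∨ y ≤ x := by
  classical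
  -- Zorn
  have hbot : IsCvx (⊥ : Subgroup G) := by
    refine ⟨?_, ?_, ?_⟩
    · intro x hx y hy
      rw [Subgroup.mem_bot.mp hx, Subgroup.mem_bot.mp hy, sup_idem]
      exact Subgroup.one_mem _
    · intro x hx y hy
      rw [Subgroup.mem_bot.mp hx, Subgroup.mem_bot.mp hy, inf_idem]
      exact Subgroup.one_mem _
    · intro x hx y hy g h1 h2
      rw [Subgroup.mem_bot.mp hx] at h1
      rw [Subgroup.mem_bot.mp hy] at h2
      exact Subgroup.mem_bot.mpr (le_antisymm h2 h1)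
  obtain ⟨P, hmax⟩ : ∃ P : Subgroup G, Maximal (fun N : Subgroup G => IsCvx N ∧ w ∉ N) P := by
    have := zorn_le_nonempty₀ {N : Subgroup G | IsCvx N ∧ w ∉ N} (fun C hC hchain N0 hN0 => by
      refine ⟨sSup C, ⟨?_, ?_⟩, fun N hN => le_sSup hN⟩
      · have hdir : DirectedOn (· ≤ ·) C := hchain.directedOn
        have hmem : ∀ x, x ∈ sSup C ↔ ∃ N ∈ C, x ∈ N := fun x =>
          Subgroup.mem_sSup_of_directedOn ⟨N0, hN0⟩ hdir
        refine ⟨?_, ?_, ?_⟩
        · intro x hx y hy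
          rw [hmem] at hx hy ⊢
          obtain ⟨A, hA, hxA⟩ := hx
          obtain ⟨B, hB, hyB⟩ := hy
          rcases hchain.total hA hB with h | h
          · exact ⟨B, hB, (hC hB).1.sup_mem _ (h hxA) _ hyB⟩
          · exact ⟨A, hA, (hC hA).1.sup_mem _ hxA _ (h hyB)⟩
        · intro x hx y hy
          rw [hmem] at hx hy ⊢
          obtain ⟨A, hA, hxA⟩ := hx
          obtain ⟨B, hB, hyB⟩ := hy
          rcases hchain.total hA hB with h | h
          · exact ⟨B, hB, (hC hB).1.inf_mem _ (h hxA) _ hyB⟩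
          · exact ⟨A, hA, (hC hA).1.inf_mem _ hxA _ (h hyB)⟩
        · intro x hx y hy g h1 h2
          rw [hmem] at hx hy ⊢
          obtain ⟨A, hA, hxA⟩ := hx
          obtain ⟨B, hB, hyB⟩ := hy
          rcases hchain.total hA hB with h | h
          · exact ⟨B, hB, (hC hB).1.convex _ (h hxA) _ hyB g h1 h2⟩
          · exact ⟨A, hA, (hC hA).1.convex _ hxA _ (h hyB) g h1 h2⟩
      · intro hcon
        have := (Subgroup.mem_sSup_of_directedOn ⟨N0, hN0⟩ hchain.directedOn).mp hcon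
        obtain ⟨N, hN, hwN⟩ := this
        exact (hC hN).2 hwN) ⊥ ⟨hbot, fun h => hw (Subgroup.mem_bot.mp h)⟩
    obtain ⟨P, _, hP⟩ := this
    exact ⟨P, hP⟩
  have hPc : IsCvx P := hmax.1.1
  have hwP : w ∉ P := hmax.1.2
  haveI hPn : P.Normal := hham P hPc
  have hPI : IsLIdeal P := ⟨hPn, hPc.sup_mem, hPc.inf_mem, hPc.convex⟩
  refine ⟨P, hPI, hwP, ?_⟩
  letI : Lattice (G ⧸ P) := quotLattice P hPI
  haveI : MulLeftMono (G ⧸ P) := quotLattice_mulLeftMono P hPI
  haveI : MulRightMono (G ⧸ P) := quotLattice_mulRightMono P hPI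
  -- primality
  have hprime : ∀ x y : G ⧸ P, 1 ≤ x → 1 ≤ y → x ⊓ y = 1 → x = 1 ∨ y = 1 := by
    intro x y hx hy hxy
    by_contra hcon
    push Not at hcon
    have key : ∀ x : G ⧸ P, 1 ≤ x → x ≠ 1 → ∃ n : ℕ,
        (x ^ n)⁻¹ ≤ (w : G ⧸ P) ∧ (w : G ⧸ P) ≤ x ^ n := by
      intro x hx hx1
      have hcv := cyc_cvx x
      have hcm : IsCvx ((cyc x).comap (QuotientGroup.mk' P)) := by
        refine ⟨?_, ?_, ?_⟩
        · intro a ha b hb
          exact hcv.sup_mem _ ha _ hb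
        · intro a ha b hb
          exact hcv.inf_mem _ ha _ hb
        · intro a ha b hb g h1 h2
          have m1 : QuotientGroup.mk' P a ≤ QuotientGroup.mk' P g := by
            rw [← sup_eq_right]
            change QuotientGroup.mk' P (a ⊔ g) = _
            rw [sup_eq_right.mpr h1]
          have m2 : QuotientGroup.mk' P g ≤ QuotientGroup.mk' P b := by
            rw [← sup_eq_right]
            change QuotientGroup.mk' P (g ⊔ b) = _
            rw [sup_eq_right.mpr h2]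
          exact hcv.convex _ ha _ hb _ m1 m2
      have hle : P ≤ (cyc x).comap (QuotientGroup.mk' P) := by
        intro a ha
        change QuotientGroup.mk' P a ∈ cyc x
        have : QuotientGroup.mk' P a = 1 := (QuotientGroup.eq_one_iff a).mpr ha
        rw [this]
        exact Subgroup.one_mem _
      have hwmem : w ∈ (cyc x).comap (QuotientGroup.mk' P) := by
        by_contra hw2
        have heq : (cyc x).comap (QuotientGroup.mk' P) ≤ P := hmax.2 ⟨hcm, hw2⟩ hle
        obtain ⟨x', rfl⟩ := QuotientGroup.mk'_surjective P x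
        have : x' ∈ P := heq (self_mem_cyc _)
        exact hx1 ((QuotientGroup.eq_one_iff x').mpr this)
      obtain ⟨n, h1, h2⟩ := hwmem
      have e : x ⊔ x⁻¹ = x := sup_eq_left.mpr ((inv_le_one'.mpr hx).trans hx)
      rw [e] at h1 h2
      exact ⟨n, h1, h2⟩
    obtain ⟨n, n1, n2⟩ := key x hx hcon.1
    obtain ⟨m, m1, m2⟩ := key y hy hcon.2
    have hinf := inf_pow_pow_eq_one hx hy hxy n m
    have hw1 : (w : G ⧸ P) ≤ 1 := by
      rw [← hinf]; exact le_inf n2 m2
    have hw2 : 1 ≤ (w : G ⧸ P) := by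
      have : (x ^ n)⁻¹ ⊔ (y ^ m)⁻¹ = 1 := by
        rw [← inv_inf, hinf, inv_one]
      rw [← this]
      exact sup_le n1 m1
    exact hwP ((QuotientGroup.eq_one_iff w).mp (le_antisymm hw1 hw2))
  intro x y
  rcases hprime (x * y⁻¹ ⊔ 1) ((x * y⁻¹)⁻¹ ⊔ 1) le_sup_right le_sup_right (pos_inf_neg _) with h | h
  · left
    have : x * y⁻¹ ≤ 1 := sup_eq_right.mp h
    rwa [mul_inv_le_iff_le_mul, one_mul] at this
  · right
    have : (x * y⁻¹)⁻¹ ≤ 1 := sup_eq_right.mp h
    rw [mul_inv_rev, inv_inv, mul_inv_le_iff_le_mul, one_mul] at this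
    exact this

end Prime

end Pool.Agent.Helper6.LVar
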