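import Mathlib

set_option autoImplicit false

namespace Pool.Agent.Helper6.LVar

/-- Terms in the signature of lattice-ordered groups, in the variables `x_0, x_1, x_2, ...`. -/
inductive LTerm : Type
  | var (i : ℕ) : LTerm
  | one : LTerm
  | mul (s t : LTerm) : LTerm
  | inv (t : LTerm) : LTerm
  | sup (s t : LTerm) : LTerm
  | inf (s t : LTerm) : LTerm

/-- The value of a term when the variable `x_i` has the value `v i`. -/
def LTerm.eval {G : Type*} [Group G] [Lattice G] (v : ℕ → G) : LTerm → G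
  | .var i => v i
  | .one => 1
  | .mul s t => LTerm.eval v s * LTerm.eval v t
  | .inv t => (LTerm.eval v t)⁻¹
  | .sup s t => LTerm.eval v s ⊔ LTerm.eval v t
  | .inf s t => LTerm.eval v s ⊓ LTerm.eval v t

/-- An identity is a pair `(s, t)` of terms, read as `s = t`.
`Satisfies E G`: every identity of the set `E` holds in `G`. -/
def Satisfies (E : Set (LTerm × LTerm)) (G : Type*) [Group G] [Lattice G] : Prop :=
  ∀ e ∈ E, ∀ v : ℕ → G, e.1.eval v = e.2.eval v

/-- `N` is an `ℓ`-ideal: a normal subgroup that is also a convex sublattice. -/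
structure IsLIdeal {G : Type*} [Group G] [Lattice G] (N : Subgroup G) : Prop where
  normal : N.Normal
  sup_mem : ∀ x ∈ N, ∀ y ∈ N, x ⊔ y ∈ N
  inf_mem : ∀ x ∈ N, ∀ y ∈ N, x ⊓ y ∈ N
  convex : ∀ x ∈ N, ∀ y ∈ N, ∀ g : G, x ≤ g → g ≤ y → g ∈ N

/-- `G` has an `ℓ`-ideal `N` such that `N` satisfies all identities in `E₁` (they hold for all
assignments with values in `N`) and the quotient `ℓ`-group `G ⧸ N` satisfies all identities in
`E₂`; here `G ⧸ N` carries the lattice structure for which the quotient map is a homomorphism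
of lattices. -/
def InProduct (E₁ E₂ : Set (LTerm × LTerm)) (G : Type*) [Group G] [Lattice G] : Prop :=
  ∃ (N : Subgroup G) (_ : N.Normal), IsLIdeal N ∧
    (∀ e ∈ E₁, ∀ v : ℕ → G, (∀ i, v i ∈ N) → e.1.eval v = e.2.eval v) ∧
    ∃ _ : Lattice (G ⧸ N),
      (∀ x y : G, ((x ⊔ y : G) : G ⧸ N) = (x : G ⧸ N) ⊔ (y : G ⧸ N)) ∧
      (∀ x y : G, ((x ⊓ y : G) : G ⧸ N) = (x : G ⧸ N) ⊓ (y : G ⧸ N)) ∧
      Satisfies E₂ (G ⧸ N)

end Pool.Agent.Helper6.LVar
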