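import Pool.Agent.Helper6.LVarVars

set_option autoImplicit false

namespace Pool.Agent.Helper6.LVar

/-- A variety of `ℓ`-groups, given by a set `E` of identities, has finite rank if it is also
defined by identities in the variables `x_0, ..., x_{n-1}`, for some positive `n`. -/
def FiniteRank (E : Set (LTerm × LTerm)) : Prop :=
  ∃ n : ℕ, 0 < n ∧ ∃ E' : Set (LTerm × LTerm), (∀ e ∈ E', e.1.VarsLT n ∧ e.2.VarsLT n) ∧
    ∀ (G : Type) [Group G] [Lattice G] [MulLeftMono G] [MulRightMono G],
      Satisfies E G ↔ Satisfies E' G

/-- The variety defined by `E'` is contained in the variety defined by `E`. -/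
def SubvarietyOf (E' E : Set (LTerm × LTerm)) : Prop :=
  ∀ (G : Type) [Group G] [Lattice G] [MulLeftMono G] [MulRightMono G],
    Satisfies E' G → Satisfies E G

end Pool.Agent.Helper6.LVar
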