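import Pool.Agent.Helper6.LVarQ

set_option autoImplicit false
set_option linter.unusedSectionVars false
set_option linter.style.haveILetI false

namespace Pool.Agent.Helper6.LVar

/-- The scaling factor `1 + 1/(n+1)`. -/
def lam (n : ℕ) : ℚ := 1 + 1 / ((n : ℚ) + 1)

theorem lam_gt (n : ℕ) : 1 < lam n := by
  unfold lam
  have : (0 : ℚ) < 1 / ((n : ℚ) + 1) := by positivity
  linarith

theorem lam_pos (n : ℕ) : 0 < lam n := by linarith [lam_gt n]

theorem lam_ne (n : ℕ) : lam n ≠ 0 := (lam_pos n).ne'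

/-- The underlying set of the `n`-th group: the second component is a function `ℤ → ℚ`. -/
@[ext] structure GN (n : ℕ) where
  q : Q
  f : ℤ → ℚ

/-- The action of `Q` on functions. -/
def act (n : ℕ) (q : Q) (f : ℤ → ℚ) : ℤ → ℚ := fun m => lam n ^ (q.c + q.l * m) * f (m - q.k)

theorem act_mul (n : ℕ) (p q : Q) (f : ℤ → ℚ) : act n (p * q) f = act n p (act n q f) := by
  funext m
  simp only [act, Q.mul_c, Q.mul_l, Q.mul_k]
  rw [← mul_assoc, ← zpow_add₀ (lam_ne n)]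
  congr 2
  · ring
  · ring

theorem act_one (n : ℕ) (f : ℤ → ℚ) : act n 1 f = f := by
  funext m
  simp [act]

theorem act_add (n : ℕ) (q : Q) (f g : ℤ → ℚ) : act n q (f + g) = act n q f + act n q g := by
  funext m
  simp only [act, Pi.add_apply]
  ring

theorem act_neg (n : ℕ) (q : Q) (f : ℤ → ℚ) : act n q (-f) = -act n q f := by
  funext m
  simp only [act, Pi.neg_apply]
  ring

theorem act_zero (n : ℕ) (q : Q) : act n q 0 = 0 := by
  funext m
  simp [act]

theorem act_mono (n : ℕ) (q : Q) {f g : ℤ → ℚ} (h : f ≤ g) : act n q f ≤ act n q g := by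
  intro m
  exact mul_le_mul_of_nonneg_left (h _) (zpow_nonneg (lam_pos n).le _)

namespace GN

variable {n : ℕ}

instance : Mul (GN n) := ⟨fun x y => ⟨x.q * y.q, x.f + act n x.q y.f⟩⟩
instance : One (GN n) := ⟨⟨1, 0⟩⟩
instance : Inv (GN n) := ⟨fun x => ⟨x.q⁻¹, -act n x.q⁻¹ x.f⟩⟩

@[simp] theorem mul_q (x y : GN n) : (x * y).q = x.q * y.q := rfl
@[simp] theorem mul_f (x y : GN n) : (x * y).f = x.f + act n x.q y.f := rfl
@[simp] theorem one_q : (1 : GN n).q = 1 := rfl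
@[simp] theorem one_f : (1 : GN n).f = 0 := rfl
@[simp] theorem inv_q (x : GN n) : (x⁻¹).q = x.q⁻¹ := rfl
@[simp] theorem inv_f (x : GN n) : (x⁻¹).f = -act n x.q⁻¹ x.f := rfl

instance : Group (GN n) := Group.ofLeftAxioms
  (by
    intro x y z
    ext1
    · simp [mul_assoc]
    · simp [act_add, act_mul, add_assoc])
  (by intro x; ext1 <;> simp [act_one])
  (by intro x; ext1 <;> simp [act_one])

instance : LE (GN n) := ⟨fun x y => x.q < y.q ∨ (x.q = y.q ∧ x.f ≤ y.f)⟩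

theorem le_def (x y : GN n) : x ≤ y ↔ x.q < y.q ∨ (x.q = y.q ∧ x.f ≤ y.f) := Iff.rfl

instance : PartialOrder (GN n) where
  le_refl x := Or.inr ⟨rfl, le_rfl⟩
  le_trans x y z h1 h2 := by
    rcases h1 with h1 | ⟨h1, h1'⟩ <;> rcases h2 with h2 | ⟨h2, h2'⟩
    · exact Or.inl (h1.trans h2)
    · exact Or.inl (h2 ▸ h1)
    · exact Or.inl (h1 ▸ h2)
    · exact Or.inr ⟨h1.trans h2, h1'.trans h2'⟩
  le_antisymm x y h1 h2 := by
    rcases h1 with h1 | ⟨h1, h1'⟩ <;> rcases h2 with h2 | ⟨h2, h2'⟩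
    · exact absurd h1 h2.asymm
    · exact absurd h1 (h2 ▸ lt_irrefl _)
    · exact absurd h2 (h1 ▸ lt_irrefl _)
    · exact GN.ext h1 (le_antisymm h1' h2')

open Classical in
noncomputable instance : Lattice (GN n) where
  sup x y := if x.q < y.q then y else if y.q < x.q then x else ⟨x.q, x.f ⊔ y.f⟩
  inf x y := if x.q < y.q then x else if y.q < x.q then y else ⟨x.q, x.f ⊓ y.f⟩
  le_sup_left x y := by
    rcases lt_trichotomy x.q y.q with h | h | h
    · rw [if_pos h]; exact Or.inl h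
    · rw [if_neg (by rw [h]; exact lt_irrefl _), if_neg (by rw [h]; exact lt_irrefl _)]
      exact Or.inr ⟨rfl, le_sup_left⟩
    · rw [if_neg h.asymm, if_pos h]
  le_sup_right x y := by
    rcases lt_trichotomy x.q y.q with h | h | h
    · rw [if_pos h]
    · rw [if_neg (by rw [h]; exact lt_irrefl _), if_neg (by rw [h]; exact lt_irrefl _)]
      exact Or.inr ⟨h.symm, le_sup_right⟩
    · rw [if_neg h.asymm, if_pos h]; exact Or.inl h
  sup_le x y z h1 h2 := by
    rcases lt_trichotomy x.q y.q with h | h | h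
    · rw [if_pos h]; exact h2
    · rw [if_neg (by rw [h]; exact lt_irrefl _), if_neg (by rw [h]; exact lt_irrefl _)]
      rcases h1 with h1 | ⟨h1, h1'⟩
      · exact Or.inl h1
      · rcases h2 with h2 | ⟨h2, h2'⟩
        · rw [← h, h1] at h2
          exact absurd h2 (lt_irrefl _)
        · exact Or.inr ⟨h1, sup_le h1' h2'⟩
    · rw [if_neg h.asymm, if_pos h]; exact h1
  inf_le_left x y := by
    rcases lt_trichotomy x.q y.q with h | h | h
    · rw [if_pos h]
    · rw [if_neg (by rw [h]; exact lt_irrefl _), if_neg (by rw [h]; exact lt_irrefl _)]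
      exact Or.inr ⟨rfl, inf_le_left⟩
    · rw [if_neg h.asymm, if_pos h]; exact Or.inl h
  inf_le_right x y := by
    rcases lt_trichotomy x.q y.q with h | h | h
    · rw [if_pos h]; exact Or.inl h
    · rw [if_neg (by rw [h]; exact lt_irrefl _), if_neg (by rw [h]; exact lt_irrefl _)]
      exact Or.inr ⟨h, inf_le_right⟩
    · rw [if_neg h.asymm, if_pos h]
  le_inf x y z h1 h2 := by
    rcases lt_trichotomy y.q z.q with h | h | h
    · rw [if_pos h]; exact h1
    · rw [if_neg (by rw [h]; exact lt_irrefl _), if_neg (by rw [h]; exact lt_irrefl _)]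
      rcases h1 with h1 | ⟨h1, h1'⟩
      · exact Or.inl h1
      · rcases h2 with h2 | ⟨h2, h2'⟩
        · rw [h1, h] at h2
          exact absurd h2 (lt_irrefl _)
        · exact Or.inr ⟨h1, le_inf h1' h2'⟩
    · rw [if_neg h.asymm, if_pos h]; exact h2

theorem sup_q (x y : GN n) : (x ⊔ y).q = x.q ⊔ y.q := by
  change (if x.q < y.q then y else if y.q < x.q then x else ⟨x.q, x.f ⊔ y.f⟩ : GN n).q = _
  rcases lt_trichotomy x.q y.q with h | h | h
  · rw [if_pos h, sup_eq_right.mpr h.le]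
  · rw [if_neg (by rw [h]; exact lt_irrefl _), if_neg (by rw [h]; exact lt_irrefl _)]
    rw [h, sup_idem]
  · rw [if_neg h.asymm, if_pos h, sup_eq_left.mpr h.le]

theorem inf_q (x y : GN n) : (x ⊓ y).q = x.q ⊓ y.q := by
  change (if x.q < y.q then x else if y.q < x.q then y else ⟨x.q, x.f ⊓ y.f⟩ : GN n).q = _
  rcases lt_trichotomy x.q y.q with h | h | h
  · rw [if_pos h, inf_eq_left.mpr h.le]
  · rw [if_neg (by rw [h]; exact lt_irrefl _), if_neg (by rw [h]; exact lt_irrefl _)]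
    rw [h, inf_idem]
  · rw [if_neg h.asymm, if_pos h, inf_eq_right.mpr h.le]

instance : MulLeftMono (GN n) := ⟨fun x y z h => by
  rcases h with h | ⟨h, h'⟩
  · exact Or.inl (Q.mul_lt_left _ _ _ h)
  · refine Or.inr ⟨?_, ?_⟩
    · change x.q * y.q = x.q * z.q
      rw [h]
    · change x.f + act n x.q y.f ≤ x.f + act n x.q z.f
      exact add_le_add le_rfl (act_mono n _ h')⟩

instance : MulRightMono (GN n) := ⟨fun x y z h => by
  rcases h with h | ⟨h, h'⟩
  · exact Or.inl (Q.mul_lt_right _ _ _ h)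
  · refine Or.inr ⟨?_, ?_⟩
    · change y.q * x.q = z.q * x.q
      rw [h]
    · change y.f + act n y.q x.f ≤ z.f + act n z.q x.f
      rw [h]
      exact add_le_add h' le_rfl⟩

/-- The projection to `Q`. -/
def χ : GN n →* Q where
  toFun := GN.q
  map_one' := rfl
  map_mul' _ _ := rfl

/-- The inclusion of `Q`. -/
def ι : Q →* GN n where
  toFun q := ⟨q, 0⟩
  map_one' := rfl
  map_mul' x y := by
    ext1
    · rfl
    · simp [act_zero]

theorem ι_sup (x y : Q) : (ι (x ⊔ y) : GN n) = ι x ⊔ ι y := by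
  change (⟨x ⊔ y, 0⟩ : GN n) = if x < y then ⟨y, 0⟩ else if y < x then ⟨x, 0⟩ else ⟨x, 0 ⊔ 0⟩
  rcases lt_trichotomy x y with h | h | h
  · rw [if_pos h, sup_eq_right.mpr h.le]
  · rw [if_neg (by rw [h]; exact lt_irrefl _), if_neg (by rw [h]; exact lt_irrefl _)]
    rw [h, sup_idem, sup_idem]
  · rw [if_neg h.asymm, if_pos h, sup_eq_left.mpr h.le]

theorem ι_inf (x y : Q) : (ι (x ⊓ y) : GN n) = ι x ⊓ ι y := by
  change (⟨x ⊓ y, 0⟩ : GN n) = if x < y then ⟨x, 0⟩ else if y < x then ⟨y, 0⟩ else ⟨x, 0 ⊓ 0⟩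
  rcases lt_trichotomy x y with h | h | h
  · rw [if_pos h, inf_eq_left.mpr h.le]
  · rw [if_neg (by rw [h]; exact lt_irrefl _), if_neg (by rw [h]; exact lt_irrefl _)]
    rw [h, inf_idem, inf_idem]
  · rw [if_neg h.asymm, if_pos h, inf_eq_right.mpr h.le]

theorem χ_wval (s t c d : GN n) : (wval s t c d).q = wval s.q t.q c.q d.q :=
  (wval_hom (χ (n := n)) sup_q inf_q s t c d).symm

theorem wval_ι (s t c d : Q) : (wval (ι s) (ι t) (ι c) (ι d) : GN n) = ι (wval s t c d) :=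
  wval_hom (ι (n := n)) ι_sup ι_inf s t c d

end GN

/-! ### The weakly abelian law -/

/-- The weakly abelian identity `x⁻¹ (y ∨ 1) x ∨ (y ∨ 1)² = (y ∨ 1)²`. -/
def weakAb : LTerm × LTerm :=
  (.sup (.mul (.mul (.inv (.var 0)) (.sup (.var 1) .one)) (.var 0))
    (.mul (.sup (.var 1) .one) (.sup (.var 1) .one)),
   .mul (.sup (.var 1) .one) (.sup (.var 1) .one))

theorem weakAb_iff {G : Type*} [Group G] [Lattice G] (v : ℕ → G) :
    weakAb.1.eval v = weakAb.2.eval v ↔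
      (v 0)⁻¹ * (v 1 ⊔ 1) * v 0 ≤ (v 1 ⊔ 1) * (v 1 ⊔ 1) :=
  sup_eq_right

/-- The identity `w = 1`. -/
def wOne : LTerm × LTerm := (LTerm.w, .one)

theorem wOne_iff {G : Type*} [Group G] [Lattice G] (v : ℕ → G) :
    wOne.1.eval v = wOne.2.eval v ↔ wval (v 0) (v 1) (v 2) (v 3) = 1 := Iff.rfl

/-! ### `GN n` is not in the product -/

theorem GN_not_inProduct (n : ℕ) : ¬ InProduct {weakAb} {wOne} (GN n) := by
  rintro ⟨N, hNn, hN, hW, L, hs, hi, hw⟩
  -- `z ∈ N`
  have hz : (GN.ι Q.z : GN n) ∈ N := by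
    rw [← wval_Q_eq, ← GN.wval_ι, ← QuotientGroup.eq_one_iff]
    have h1 := wval_hom (QuotientGroup.mk' N) hs hi (GN.ι (⟨1, 0, 0, 0, 0⟩ : Q) : GN n)
      (GN.ι ⟨0, 1, 0, 0, 0⟩) (GN.ι ⟨0, 0, 1, 0, 0⟩) (GN.ι ⟨0, 0, 0, 1, 0⟩)
    have h2 := (wOne_iff _).mp (hw wOne rfl (fun i => QuotientGroup.mk' N
      (match i with
      | 0 => (GN.ι (⟨1, 0, 0, 0, 0⟩ : Q) : GN n)
      | 1 => GN.ι ⟨0, 1, 0, 0, 0⟩
      | 2 => GN.ι ⟨0, 0, 1, 0, 0⟩
      | _ => GN.ι ⟨0, 0, 0, 1, 0⟩)))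
    exact h1.symm.trans h2
  set m : GN n := ⟨1, fun _ => 1⟩ with hm
  have h1m : (1 : GN n) ≤ m := Or.inr ⟨rfl, fun _ => zero_le_one⟩
  have hmz : m ≤ GN.ι Q.z := by
    left
    change (1 : Q) < Q.z
    rw [Q.lt_iff]; simp [Q.z]
  have hmN : m ∈ N := hN.convex _ N.one_mem _ hz _ h1m hmz
  have hzj : ∀ j : ℕ, ((GN.ι Q.z : GN n) ^ j).q.k = 0 ∧ ((GN.ι Q.z : GN n) ^ j).q.l = 0 ∧
      ((GN.ι Q.z : GN n) ^ j).q.c = j := by
    intro j
    induction j with
    | zero => simp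
    | succ j ih =>
      obtain ⟨h1, h2, h3⟩ := ih
      rw [pow_succ]
      have e : (GN.ι Q.z : GN n).q = Q.z := rfl
      refine ⟨?_, ?_, ?_⟩
      · rw [GN.mul_q, Q.mul_k, h1, e]; rfl
      · rw [GN.mul_q, Q.mul_l, h2, e]; rfl
      · rw [GN.mul_q, Q.mul_c, h1, h3, e]
        simp [Q.z]
  -- the law
  have hlaw : ∀ j : ℕ, lam n ^ j ≤ 2 := by
    intro j
    have hx : ((GN.ι Q.z : GN n) ^ j)⁻¹ ∈ N := N.inv_mem (N.pow_mem hz j)
    have h := (weakAb_iff _).mp (hW weakAb rfl (fun i => match i with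
      | 0 => ((GN.ι Q.z : GN n) ^ j)⁻¹
      | _ => m) (by
        intro i
        rcases i with _ | i
        · exact hx
        · exact hmN))
    change (((GN.ι Q.z : GN n) ^ j)⁻¹)⁻¹ * (m ⊔ 1) * ((GN.ι Q.z : GN n) ^ j)⁻¹ ≤
      (m ⊔ 1) * (m ⊔ 1) at h
    rw [sup_eq_left.mpr h1m, inv_inv] at h
    set g := (GN.ι Q.z : GN n) ^ j with hg
    obtain ⟨g1, g2, g3⟩ := hzj j
    have hq : (g * m * g⁻¹).q = (m * m).q := by
      simp [hm]
    rcases h with h | ⟨_, h⟩
    · rw [hq] at h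
      exact absurd h (lt_irrefl _)
    · have h0 := h 0
      have hlhs : (g * m * g⁻¹).f 0 = lam n ^ j := by
        simp only [GN.mul_f, GN.inv_f, GN.mul_q, act_mul, act_neg, Pi.add_apply, Pi.neg_apply]
        have e1 : act n m.q (act n g.q⁻¹ g.f) = act n g.q⁻¹ g.f := by
          rw [hm]; exact act_one n _
        rw [e1, ← act_mul, mul_inv_cancel, act_one]
        have e2 : act n g.q m.f 0 = lam n ^ j := by
          simp only [act, hm]
          rw [g3, g2]
          simp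
        rw [e2]; ring
      have hrhs : (m * m).f 0 = 2 := by
        simp only [GN.mul_f, hm, act_one, Pi.add_apply]
        norm_num
      rw [hlhs, hrhs] at h0
      exact h0
  obtain ⟨j, hj⟩ := pow_unbounded_of_one_lt 2 (lam_gt n)
  exact absurd (hlaw j) (not_le.mpr hj)

end Pool.Agent.Helper6.LVar
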