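import Pool.Agent.Helper6.LVarHeis

set_option autoImplicit false
set_option linter.unusedSectionVars false
set_option linter.style.haveILetI false

open Filter

namespace Pool.Agent.Helper6.LVar

/-! ### Leading positivity -/

/-- The entry of `f` at the index of largest key in the support is positive. -/
def LP {ι : Type*} (κ : ι → ℤ) (f : ι → ℤ) : Prop := ∃ i, 0 < f i ∧ ∀ j, κ i < κ j → f j = 0

theorem LP.add {ι : Type*} {κ : ι → ℤ} (hκ : Function.Injective κ) {f g : ι → ℤ}
    (hf : LP κ f) (hg : LP κ g) : LP κ (f + g) := by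
  obtain ⟨i, hi, hi'⟩ := hf
  obtain ⟨j, hj, hj'⟩ := hg
  rcases lt_trichotomy (κ i) (κ j) with h | h | h
  · refine ⟨j, ?_, fun k hk => ?_⟩
    · rw [Pi.add_apply, hi' j h]; omega
    · rw [Pi.add_apply, hi' k (h.trans hk), hj' k hk, add_zero]
  · have := hκ h
    subst this
    refine ⟨i, ?_, fun k hk => ?_⟩
    · rw [Pi.add_apply]; omega
    · rw [Pi.add_apply, hi' k hk, hj' k hk, add_zero]
  · refine ⟨i, ?_, fun k hk => ?_⟩
    · rw [Pi.add_apply, hj' i h]; omega
    · rw [Pi.add_apply, hi' k hk, hj' k (h.trans hk), add_zero]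

theorem LP.not_zero {ι : Type*} {κ : ι → ℤ} : ¬ LP κ (0 : ι → ℤ) := by
  rintro ⟨i, hi, _⟩
  exact lt_irrefl _ hi

theorem LP.tri {ι : Type*} [Finite ι] {κ : ι → ℤ} (hκ : Function.Injective κ) (f : ι → ℤ) :
    f = 0 ∨ LP κ f ∨ LP κ (-f) := by
  classical
  haveI := Fintype.ofFinite ι
  by_cases hf : f = 0
  · exact Or.inl hf
  · right
    have hne : (Finset.univ.filter fun i => f i ≠ 0).Nonempty := by
      by_contra h
      apply hf
      funext i
      by_contra hi
      exact h ⟨i, by simpa using hi⟩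
    obtain ⟨i, hi, hmax⟩ := Finset.exists_max_image _ κ hne
    rw [Finset.mem_filter] at hi
    have hz : ∀ j, κ i < κ j → f j = 0 := by
      intro j hj
      by_contra h
      have := hmax j (by simp [h])
      omega
    rcases lt_trichotomy (f i) 0 with h | h | h
    · right
      exact ⟨i, by rw [Pi.neg_apply]; omega, fun j hj => by rw [Pi.neg_apply, hz j hj, neg_zero]⟩
    · exact absurd h hi.2
    · left
      exact ⟨i, h, hz⟩

/-! ### The grid group -/

/-- The underlying set of the grid group. -/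
@[ext] structure GG (n : ℕ) where
  a : Fin n → ℤ
  b : Fin n → ℤ
  c : Fin n × Fin n → ℤ

/-- The bilinear map. -/
def tz {n : ℕ} (a b : Fin n → ℤ) : Fin n × Fin n → ℤ := fun p => a p.1 * b p.2

namespace GG

variable {n : ℕ}

instance : Mul (GG n) := ⟨fun g h => ⟨g.a + h.a, g.b + h.b, g.c + h.c + tz g.a h.b⟩⟩
instance : One (GG n) := ⟨⟨0, 0, 0⟩⟩
instance : Inv (GG n) := ⟨fun g => ⟨-g.a, -g.b, -g.c + tz g.a g.b⟩⟩

@[simp] theorem mul_a (g h : GG n) : (g * h).a = g.a + h.a := rfl
@[simp] theorem mul_b (g h : GG n) : (g * h).b = g.b + h.b := rfl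
@[simp] theorem mul_c (g h : GG n) : (g * h).c = g.c + h.c + tz g.a h.b := rfl
@[simp] theorem one_a : (1 : GG n).a = 0 := rfl
@[simp] theorem one_b : (1 : GG n).b = 0 := rfl
@[simp] theorem one_c : (1 : GG n).c = 0 := rfl
@[simp] theorem inv_a (g : GG n) : (g⁻¹).a = -g.a := rfl
@[simp] theorem inv_b (g : GG n) : (g⁻¹).b = -g.b := rfl
@[simp] theorem inv_c (g : GG n) : (g⁻¹).c = -g.c + tz g.a g.b := rfl

@[simp] theorem tz_apply (a b : Fin n → ℤ) (p : Fin n × Fin n) : tz a b p = a p.1 * b p.2 := rfl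

instance : Group (GG n) := Group.ofLeftAxioms
  (by
    intro p q r
    ext i
    · simp [add_assoc]
    · simp [add_assoc]
    · simp; ring)
  (by
    intro p
    ext i
    · simp
    · simp
    · simp)
  (by
    intro p
    ext i
    · simp
    · simp
    · simp)

/-- The cone of the grid group, for given keys. -/
def cone (κI κJ : Fin n → ℤ) (κP : Fin n × Fin n → ℤ) (hI : Function.Injective κI)
    (hJ : Function.Injective κJ) (hP : Function.Injective κP) : Cone (GG n) where
  Pos g := LP κI g.a ∨ (g.a = 0 ∧ (LP κJ g.b ∨ (g.b = 0 ∧ LP κP g.c)))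
  mul g h hg hh := by
    simp only [mul_a, mul_b, mul_c]
    rcases hg with h1 | ⟨h1, h1' | ⟨h1', h1''⟩⟩ <;> rcases hh with h2 | ⟨h2, h2' | ⟨h2', h2''⟩⟩
    · left; exact h1.add hI h2
    · left; rw [h2, add_zero]; exact h1
    · left; rw [h2, add_zero]; exact h1
    · left; rw [h1, zero_add]; exact h2
    · right; exact ⟨by rw [h1, h2, add_zero], Or.inl (h1'.add hJ h2')⟩
    · right; exact ⟨by rw [h1, h2, add_zero], Or.inl (by rw [h2', add_zero]; exact h1')⟩
    · left; rw [h1, zero_add]; exact h2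
    · right; exact ⟨by rw [h1, h2, add_zero], Or.inl (by rw [h1', zero_add]; exact h2')⟩
    · right; refine ⟨by rw [h1, h2, add_zero], Or.inr ⟨by rw [h1', h2', add_zero], ?_⟩⟩
      have e : tz g.a h.b = 0 := by
        funext p; simp [h1]
      rw [e, add_zero]
      exact h1''.add hP h2''
  not_one := by
    rintro (h | ⟨_, h | ⟨_, h⟩⟩)
    · exact LP.not_zero h
    · exact LP.not_zero h
    · exact LP.not_zero h
  conj g x h := by
    have e1 : (g * x * g⁻¹).a = x.a := by simp
    have e2 : (g * x * g⁻¹).b = x.b := by simp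
    rw [e1, e2]
    rcases h with h | ⟨h1, h2 | ⟨h2, h3⟩⟩
    · exact Or.inl h
    · exact Or.inr ⟨h1, Or.inl h2⟩
    · refine Or.inr ⟨h1, Or.inr ⟨h2, ?_⟩⟩
      have e3 : (g * x * g⁻¹).c = x.c := by
        funext p
        simp [h1, h2]
        ring
      rw [e3]; exact h3
  tri g := by
    rcases LP.tri hI g.a with h | h | h
    · rcases LP.tri hJ g.b with h' | h' | h'
      · rcases LP.tri hP g.c with h'' | h'' | h''
        · left; exact GG.ext h h' h''
        · right; left; right; exact ⟨h, Or.inr ⟨h', h''⟩⟩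
        · right; right; right
          refine ⟨by rw [inv_a, h, neg_zero], Or.inr ⟨by rw [inv_b, h', neg_zero], ?_⟩⟩
          have e : (g⁻¹).c = -g.c := by
            funext p; simp [h]
          rw [e]; exact h''
      · right; left; right; exact ⟨h, Or.inl h'⟩
      · right; right; right; exact ⟨by rw [inv_a, h, neg_zero], Or.inl h'⟩
    · right; left; left; exact h
    · right; right; left; exact h

/-- The homomorphisms to the Heisenberg group. -/
def Phi (X Y : Fin n → ℤ) : GG n →* Heis where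
  toFun g := ⟨∑ i, g.a i * X i, ∑ j, g.b j * Y j, ∑ p : Fin n × Fin n, g.c p * (X p.1 * Y p.2)⟩
  map_one' := by
    ext <;> simp
  map_mul' g h := by
    ext
    · simp [add_mul, Finset.sum_add_distrib]
    · simp [add_mul, Finset.sum_add_distrib]
    · simp only [mul_c, Pi.add_apply, add_mul, Finset.sum_add_distrib, Heis.mul_z, tz_apply]
      congr 1
      rw [Finset.sum_mul_sum, Fintype.sum_prod_type]
      apply Finset.sum_congr rfl
      intro i _
      apply Finset.sum_congr rfl
      intro j _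
      ring

end GG

/-! ### Asymptotics -/

theorem poly_pos {ι : Type*} [Fintype ι] (c : ι → ℤ) (e : ι → ℕ) (i₀ : ι) (h0 : 0 < c i₀)
    (h : ∀ i, i ≠ i₀ → c i ≠ 0 → e i < e i₀) :
    ∀ᶠ M : ℕ in atTop, 0 < ∑ i, c i * (M : ℤ) ^ e i := by
  classical
  set s : ℤ := ∑ i, |c i| with hs
  filter_upwards [eventually_ge_atTop (s.toNat + 1)] with M hM
  have hMs : s < (M : ℤ) := by omega
  have hs0 : 0 ≤ s := Finset.sum_nonneg fun i _ => abs_nonneg _
  have hM0 : (0 : ℤ) < M := by omega
  have hpow : (0 : ℤ) < (M : ℤ) ^ e i₀ := by positivity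
  rw [← Finset.add_sum_erase _ _ (Finset.mem_univ i₀)]
  have h1 : ∀ i ∈ Finset.univ.erase i₀, -(|c i| * (M : ℤ) ^ e i₀) ≤ (M : ℤ) * (c i * (M : ℤ) ^ e i) := by
    intro i hi
    have hne := Finset.ne_of_mem_erase hi
    by_cases hc : c i = 0
    · rw [hc]; simp
    · have hlt := h i hne hc
      have h2 : (M : ℤ) * (M : ℤ) ^ e i ≤ (M : ℤ) ^ e i₀ := by
        rw [← pow_succ']
        exact pow_le_pow_right₀ (by omega) hlt
      have h3 : (0 : ℤ) ≤ (M : ℤ) * (M : ℤ) ^ e i := by positivity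
      have h4 : -|c i| ≤ c i := neg_abs_le _
      have h5 : (M : ℤ) * (c i * (M : ℤ) ^ e i) = c i * ((M : ℤ) * (M : ℤ) ^ e i) := by ring
      rw [h5]
      have h6 : -|c i| * ((M : ℤ) * (M : ℤ) ^ e i) ≤ c i * ((M : ℤ) * (M : ℤ) ^ e i) :=
        mul_le_mul_of_nonneg_right h4 h3
      have h7 : |c i| * ((M : ℤ) * (M : ℤ) ^ e i) ≤ |c i| * (M : ℤ) ^ e i₀ :=
        mul_le_mul_of_nonneg_left h2 (abs_nonneg _)
      linarith
  have h2 := Finset.sum_le_sum h1
  rw [← Finset.mul_sum, Finset.sum_neg_distrib, ← Finset.sum_mul] at h2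
  have h3 : ∑ i ∈ Finset.univ.erase i₀, |c i| ≤ s - |c i₀| := by
    rw [hs, ← Finset.add_sum_erase _ _ (Finset.mem_univ i₀)]
    linarith
  have h4 : (∑ i ∈ Finset.univ.erase i₀, |c i|) * (M : ℤ) ^ e i₀ ≤ (s - |c i₀|) * (M : ℤ) ^ e i₀ :=
    mul_le_mul_of_nonneg_right h3 hpow.le
  have h5 : 0 < (M : ℤ) * (c i₀ * (M : ℤ) ^ e i₀ +
      ∑ i ∈ Finset.univ.erase i₀, c i * (M : ℤ) ^ e i) := by
    rw [mul_add]
    have h6 : (M : ℤ) * (M : ℤ) ^ e i₀ ≤ (M : ℤ) * (c i₀ * (M : ℤ) ^ e i₀) := by
      apply mul_le_mul_of_nonneg_left _ hM0.le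
      nlinarith
    have h7 : s * (M : ℤ) ^ e i₀ < (M : ℤ) * (M : ℤ) ^ e i₀ :=
      mul_lt_mul_of_pos_right hMs hpow
    have h8 : 0 ≤ |c i₀| * (M : ℤ) ^ e i₀ := by positivity
    linarith
  exact (mul_pos_iff_of_pos_left hM0).mp h5

/-! ### The weights -/

/-- The numbers `B_k = 20^k`. -/
def BB {n : ℕ} (k : Fin n) : ℤ := 20 ^ (k : ℕ)

theorem BB_unique : ∀ (n : ℕ) (v : Fin n → ℤ), (∀ k, |v k| < 20) → ∑ k, v k * BB k = 0 →
    ∀ k, v k = 0 := by
  intro n
  induction n with
  | zero => intro v _ _ k; exact k.elim0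
  | succ n ih =>
    intro v hv hsum
    rw [Fin.sum_univ_succ] at hsum
    have e1 : ∑ i : Fin n, v i.succ * BB i.succ = 20 * ∑ i : Fin n, v i.succ * BB i := by
      rw [Finset.mul_sum]
      apply Finset.sum_congr rfl
      intro i _
      simp only [BB, Fin.val_succ, pow_succ]
      ring
    have e0 : BB (0 : Fin (n + 1)) = 1 := by simp [BB]
    rw [e1, e0, mul_one] at hsum
    have h0 : v 0 = 0 := by
      have := hv 0
      rw [abs_lt] at this
      omega
    have h1 : ∑ i : Fin n, v i.succ * BB i = 0 := by omega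
    have h2 := ih (fun i => v i.succ) (fun i => hv i.succ) h1
    intro k
    refine Fin.cases h0 (fun i => h2 i) k

section Weights

variable {N : ℕ}

/-- Kronecker delta. -/
def dl (i k : Fin (N + 3)) : ℤ := if k = i then 1 else 0

theorem dl_self (i : Fin (N + 3)) : dl i i = 1 := by simp [dl]

theorem dl_ne {i k : Fin (N + 3)} (h : k ≠ i) : dl i k = 0 := by simp [dl, h]

theorem dl_nonneg (i k : Fin (N + 3)) : 0 ≤ dl i k := by
  unfold dl; split_ifs <;> norm_num

theorem dl_le (i k : Fin (N + 3)) : dl i k ≤ 1 := by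
  unfold dl; split_ifs <;> norm_num

theorem sum_dl (i : Fin (N + 3)) : ∑ k, dl i k * BB k = BB i := by
  simp [dl]

theorem succ_ne (i : Fin (N + 3)) : i + 1 ≠ i := by
  intro h
  have : (1 : Fin (N + 3)) = 0 := by
    have h2 : i + 1 = i + 0 := by rw [h, add_zero]
    exact add_left_cancel h2
  exact absurd this (by rw [Fin.ext_iff]; simp)

theorem succ2_ne (i : Fin (N + 3)) : i + 1 + 1 ≠ i := by
  intro h
  have : (1 + 1 : Fin (N + 3)) = 0 := by
    have h2 : i + (1 + 1) = i + 0 := by rw [← add_assoc, h, add_zero]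
    exact add_left_cancel h2
  rw [Fin.ext_iff, Fin.val_add] at this
  simp only [Fin.val_one', Fin.val_zero] at this
  rw [Nat.mod_eq_of_lt (by omega : 1 < N + 3), Nat.mod_eq_of_lt (by omega : 1 + 1 < N + 3)] at this
  omega

/-- Row weights. -/
def xw (i : Fin (N + 3)) : ℤ := (∑ k : Fin (N + 3), BB k) - BB i - BB (i + 1)

/-- Column weights. -/
def yw (j : Fin (N + 3)) : ℤ := BB j

/-- The additive weight on the grid. -/
def fw (p : Fin (N + 3) × Fin (N + 3)) : ℤ := xw p.1 + yw p.2

/-- The key on the grid. -/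
def kw (p : Fin (N + 3) × Fin (N + 3)) : ℤ := 2 * fw p + if p.1 = p.2 then 1 else 0

theorem BB_pos (k : Fin (N + 3)) : 0 < BB k := by unfold BB; positivity

theorem xw_nonneg (i : Fin (N + 3)) : 0 ≤ xw i := by
  unfold xw
  have h := Finset.sum_le_sum_of_subset_of_nonneg (s := {i, i + 1}) (t := Finset.univ)
    (f := fun k : Fin (N + 3) => BB k) (Finset.subset_univ _) (fun k _ _ => (BB_pos k).le)
  rw [Finset.sum_pair (succ_ne i).symm] at h
  linarith

theorem yw_nonneg (j : Fin (N + 3)) : 0 ≤ yw j := (BB_pos j).le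

/-- The vector of a grid point. -/
def vec (i j k : Fin (N + 3)) : ℤ := dl j k - dl i k - dl (i + 1) k

theorem fw_eq (i j : Fin (N + 3)) : fw (i, j) = (∑ k : Fin (N + 3), BB k) + ∑ k, vec i j k * BB k := by
  simp only [vec, sub_mul, Finset.sum_sub_distrib, sum_dl, fw, xw, yw]
  ring

theorem vec_eq_of_fw_eq {i j i' j' : Fin (N + 3)} (h : fw (i, j) = fw (i', j')) (k : Fin (N + 3)) :
    vec i j k = vec i' j' k := by
  rw [fw_eq, fw_eq] at h
  have h1 : ∑ k, (vec i j k - vec i' j' k) * BB k = 0 := by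
    simp only [sub_mul, Finset.sum_sub_distrib]
    linarith
  have h2 := BB_unique _ (fun k => vec i j k - vec i' j' k) (by
    intro k
    have a1 := dl_nonneg j k
    have a2 := dl_nonneg i k
    have a3 := dl_nonneg (i + 1) k
    have a4 := dl_nonneg j' k
    have a5 := dl_nonneg i' k
    have a6 := dl_nonneg (i' + 1) k
    have b1 := dl_le j k
    have b2 := dl_le i k
    have b3 := dl_le (i + 1) k
    have b4 := dl_le j' k
    have b5 := dl_le i' k
    have b6 := dl_le (i' + 1) k
    rw [abs_lt]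
    unfold vec
    constructor <;> linarith) h1 k
  linarith

theorem vec_at_i {i j : Fin (N + 3)} (h : i ≠ j) : vec i j i = -1 := by
  unfold vec
  rw [dl_ne h, dl_self, dl_ne (succ_ne i).symm]
  norm_num

theorem mem_of_vec_neg {i j k : Fin (N + 3)} (h : vec i j k = -1) : k = i ∨ k = i + 1 := by
  by_contra hcon
  push Not at hcon
  unfold vec at h
  rw [dl_ne hcon.1, dl_ne hcon.2] at h
  have := dl_nonneg j k
  omega

theorem fw_nondiag {i j i' j' : Fin (N + 3)} (hij : i ≠ j) (hij' : i' ≠ j')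
    (h : fw (i, j) = fw (i', j')) : i = i' ∧ j = j' := by
  have hv := vec_eq_of_fw_eq h
  have h1 := mem_of_vec_neg ((hv i).symm.trans (vec_at_i hij))
  have h2 := mem_of_vec_neg ((hv i').trans (vec_at_i hij'))
  have hi : i = i' := by
    rcases h1 with h1 | h1
    · exact h1
    · rcases h2 with h2 | h2
      · exact h2.symm
      · exfalso
        rw [h1] at h2
        exact succ2_ne i' h2.symm
  subst hi
  refine ⟨rfl, ?_⟩
  by_contra hne
  have h3 := hv j
  unfold vec at h3
  rw [dl_self, dl_ne hne] at h3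
  omega

theorem fw_diag {i i' : Fin (N + 3)} (h : fw (i, i) = fw (i', i')) : i = i' := by
  have hv := vec_eq_of_fw_eq h (i + 1)
  unfold vec at hv
  have h1 : dl i (i + 1) - dl i (i + 1) = 0 := sub_self _
  have h2 : dl i' (i + 1) - dl i' (i + 1) = 0 := sub_self _
  rw [h1, h2, dl_self] at hv
  by_contra hne
  have h3 : i + 1 ≠ i' + 1 := fun h => hne (add_right_cancel h)
  rw [dl_ne h3] at hv
  omega

theorem fw_tie {k i j : Fin (N + 3)} (hij : i ≠ j) (h : fw (k, k) = fw (i, j)) :
    i = k + 1 ∧ j = k + 1 + 1 := by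
  have hv := vec_eq_of_fw_eq h
  have h1 := (hv i).trans (vec_at_i hij)
  unfold vec at h1
  have h2 : dl k i - dl k i = 0 := sub_self _
  rw [h2] at h1
  have hi : i = k + 1 := by
    by_contra hne
    rw [dl_ne hne] at h1
    omega
  refine ⟨hi, ?_⟩
  have h3 := hv j
  unfold vec at h3
  rw [sub_self (dl k j), dl_self, dl_ne hij.symm] at h3
  rw [← hi] at h3
  rw [dl_ne hij.symm] at h3
  by_contra hne
  rw [← hi] at hne
  rw [dl_ne hne] at h3
  omega

theorem fw_tie' (k : Fin (N + 3)) : fw (k, k) = fw (k + 1, k + 1 + 1) := by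
  simp only [fw, xw, yw]
  ring

theorem xw_injective : Function.Injective (xw (N := N)) := by
  intro i i' h
  by_contra hne
  -- choose a column different from both rows
  have hex : ∃ j : Fin (N + 3), i ≠ j ∧ i' ≠ j := by
    have hcard : ({i, i'} : Finset (Fin (N + 3))).card < (Finset.univ : Finset (Fin (N + 3))).card := by
      rw [Finset.card_univ, Fintype.card_fin]
      exact lt_of_le_of_lt Finset.card_le_two (by omega)
    obtain ⟨j, _, hj⟩ := Finset.exists_mem_notMem_of_card_lt_card hcard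
    rw [Finset.mem_insert, Finset.mem_singleton, not_or] at hj
    exact ⟨j, fun h => hj.1 h.symm, fun h => hj.2 h.symm⟩
  obtain ⟨j, h1, h2⟩ := hex
  exact hne (fw_nondiag (j := j) (j' := j) h1 h2 (by simp only [fw]; rw [h])).1

theorem yw_injective : Function.Injective (yw (N := N)) := by
  intro i j h
  unfold yw BB at h
  have h2 : (20 : ℕ) ^ (i : ℕ) = 20 ^ (j : ℕ) := by exact_mod_cast h
  exact Fin.ext (Nat.pow_right_injective (by norm_num) h2)

theorem kw_injective : Function.Injective (kw (N := N)) := by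
  rintro ⟨i, j⟩ ⟨i', j'⟩ h
  unfold kw at h
  simp only at h
  by_cases h1 : i = j <;> by_cases h2 : i' = j'
  · rw [if_pos h1, if_pos h2] at h
    subst h1 h2
    have h3 := fw_diag (i := i) (i' := i') (by omega)
    rw [h3]
  · rw [if_pos h1, if_neg h2] at h
    omega
  · rw [if_neg h1, if_pos h2] at h
    omega
  · rw [if_neg h1, if_neg h2] at h
    obtain ⟨e1, e2⟩ := fw_nondiag h1 h2 (by omega)
    rw [e1, e2]

theorem kw_lt {p q : Fin (N + 3) × Fin (N + 3)} (h : kw q < kw p) :
    fw q < fw p ∨ (fw q = fw p ∧ ∃ k, p = (k, k) ∧ q = (k + 1, k + 1 + 1)) := by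
  obtain ⟨i, j⟩ := p
  obtain ⟨i', j'⟩ := q
  unfold kw at h
  simp only at h
  by_cases h1 : i = j <;> by_cases h2 : i' = j'
  · rw [if_pos h1, if_pos h2] at h
    left; omega
  · rw [if_pos h1, if_neg h2] at h
    rcases lt_or_eq_of_le (show fw (i', j') ≤ fw (i, j) by omega) with h3 | h3
    · exact Or.inl h3
    · right
      refine ⟨h3, i, by rw [h1], ?_⟩
      subst h1
      obtain ⟨e1, e2⟩ := fw_tie h2 h3.symm
      rw [e1, e2]
  · rw [if_neg h1, if_pos h2] at h
    left; omega
  · rw [if_neg h1, if_neg h2] at h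
    left; omega

theorem kw_tie_lt (k : Fin (N + 3)) : kw (k + 1, k + 1 + 1) < kw (k, k) := by
  unfold kw
  rw [← fw_tie', if_pos rfl, if_neg (succ_ne (k + 1)).symm]
  omega

end Weights

end Pool.Agent.Helper6.LVar
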