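import Pool.Agent.Helper6.LVarRank

set_option autoImplicit false
set_option linter.unusedSectionVars false
set_option linter.style.haveILetI false

open Filter

namespace Pool.Agent.Helper6.LVar

theorem one_lt_inv_mul' {K : Type*} [Group K] [PartialOrder K] [MulLeftMono K] {x y : K} :
    1 < x⁻¹ * y ↔ x < y := by
  rw [lt_inv_mul_iff_mul_lt, mul_one]

/-! ### The transfer lemma -/

section Transfer

variable {K H : Type*} [Group K] [Lattice K] [MulLeftMono K] [MulRightMono K]
  [Group H] [Lattice H] [MulLeftMono H] [MulRightMono H]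

theorem transfer_eval (htot : ∀ x y : K, x ≤ y ∨ y ≤ x) (K0 : Subgroup K) {ι : Type*}
    {F : Filter ι} (ψ : ι → K0 →* H)
    (hψ : ∀ k : K0, 1 < (k : K) → ∀ᶠ m in F, 1 < ψ m k) (v : ℕ → K0) (t : LTerm) :
    ∃ k : K0, (k : K) = t.eval (fun i => (v i : K)) ∧
      ∀ᶠ m in F, t.eval (fun i => ψ m (v i)) = ψ m k := by
  have hmono : ∀ k k' : K0, (k : K) ≤ k' → ∀ᶠ m in F, ψ m k ≤ ψ m k' := by
    intro k k' h
    rcases h.lt_or_eq with h | h
    · have h1 : (1 : K) < ((k⁻¹ * k' : K0) : K) := by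
        rw [Subgroup.coe_mul, Subgroup.coe_inv]
        exact one_lt_inv_mul'.mpr h
      filter_upwards [hψ _ h1] with m hm
      rw [map_mul, map_inv] at hm
      exact (one_lt_inv_mul'.mp hm).le
    · have : k = k' := Subtype.ext h
      subst this
      exact Eventually.of_forall fun _ => le_rfl
  induction t with
  | var i => exact ⟨v i, rfl, Eventually.of_forall fun _ => rfl⟩
  | one => exact ⟨1, rfl, Eventually.of_forall fun m => (map_one (ψ m)).symm⟩
  | mul s t hs ht =>
    obtain ⟨k, hk, hk'⟩ := hs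
    obtain ⟨l, hl, hl'⟩ := ht
    refine ⟨k * l, ?_, ?_⟩
    · rw [Subgroup.coe_mul, hk, hl]; rfl
    · filter_upwards [hk', hl'] with m h1 h2
      rw [map_mul, ← h1, ← h2]; rfl
  | inv t ht =>
    obtain ⟨k, hk, hk'⟩ := ht
    refine ⟨k⁻¹, ?_, ?_⟩
    · rw [Subgroup.coe_inv, hk]; rfl
    · filter_upwards [hk'] with m h1
      rw [map_inv, ← h1]; rfl
  | sup s t hs ht =>
    obtain ⟨k, hk, hk'⟩ := hs
    obtain ⟨l, hl, hl'⟩ := ht
    rcases htot (k : K) (l : K) with h | h
    · refine ⟨l, ?_, ?_⟩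
      · change (l : K) = _ ⊔ _
        rw [← hk, ← hl, sup_eq_right.mpr h]
      · filter_upwards [hk', hl', hmono k l h] with m h1 h2 h3
        change _ ⊔ _ = _
        rw [h1, h2, sup_eq_right.mpr h3]
    · refine ⟨k, ?_, ?_⟩
      · change (k : K) = _ ⊔ _
        rw [← hk, ← hl, sup_eq_left.mpr h]
      · filter_upwards [hk', hl', hmono l k h] with m h1 h2 h3
        change _ ⊔ _ = _
        rw [h1, h2, sup_eq_left.mpr h3]
  | inf s t hs ht =>
    obtain ⟨k, hk, hk'⟩ := hs
    obtain ⟨l, hl, hl'⟩ := ht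
    rcases htot (k : K) (l : K) with h | h
    · refine ⟨k, ?_, ?_⟩
      · change (k : K) = _ ⊓ _
        rw [← hk, ← hl, inf_eq_left.mpr h]
      · filter_upwards [hk', hl', hmono k l h] with m h1 h2 h3
        change _ ⊓ _ = _
        rw [h1, h2, inf_eq_left.mpr h3]
    · refine ⟨l, ?_, ?_⟩
      · change (l : K) = _ ⊓ _
        rw [← hk, ← hl, inf_eq_right.mpr h]
      · filter_upwards [hk', hl', hmono l k h] with m h1 h2 h3
        change _ ⊓ _ = _
        rw [h1, h2, inf_eq_right.mpr h3]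

/-- If a subgroup `K0` of a chain has homomorphisms to `H` that are eventually strictly positive
on every positive element, then `K0` satisfies all identities of `H`. -/
theorem transfer (htot : ∀ x y : K, x ≤ y ∨ y ≤ x) (K0 : Subgroup K) {ι : Type*}
    {F : Filter ι} [F.NeBot] (ψ : ι → K0 →* H)
    (hψ : ∀ k : K0, 1 < (k : K) → ∀ᶠ m in F, 1 < ψ m k) (e : LTerm × LTerm)
    (he : ∀ v : ℕ → H, e.1.eval v = e.2.eval v) (v : ℕ → K) (hv : ∀ i, v i ∈ K0) :
    e.1.eval v = e.2.eval v := by
  obtain ⟨k, hk, hk'⟩ := transfer_eval htot K0 ψ hψ (fun i => ⟨v i, hv i⟩) e.1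
  obtain ⟨l, hl, hl'⟩ := transfer_eval htot K0 ψ hψ (fun i => ⟨v i, hv i⟩) e.2
  change (k : K) = e.1.eval v at hk
  change (l : K) = e.2.eval v at hl
  rw [← hk, ← hl]
  have heq : ∀ᶠ m in F, ψ m k = ψ m l := by
    filter_upwards [hk', hl'] with m h1 h2
    rw [← h1, ← h2]
    exact he _
  by_contra hne
  have key : ∀ k l : K0, (k : K) < l → ¬ ∀ᶠ m in F, ψ m k = ψ m l := by
    intro k l h hcon
    have h1 : (1 : K) < ((k⁻¹ * l : K0) : K) := by
      rw [Subgroup.coe_mul, Subgroup.coe_inv]
      exact one_lt_inv_mul'.mpr h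
    obtain ⟨m, h2, h3⟩ := ((hψ _ h1).and hcon).exists
    rw [map_mul, map_inv, h3, inv_mul_cancel] at h2
    exact lt_irrefl _ h2
  rcases htot (k : K) (l : K) with h | h
  · exact key k l (lt_of_le_of_ne h hne) heq
  · exact key l k (lt_of_le_of_ne h (Ne.symm hne)) (heq.mono fun _ h => h.symm)

/-- The version for the whole group. -/
theorem transfer_top (htot : ∀ x y : K, x ≤ y ∨ y ≤ x) {ι : Type*}
    {F : Filter ι} [F.NeBot] (ψ : ι → K →* H)
    (hψ : ∀ k : K, 1 < k → ∀ᶠ m in F, 1 < ψ m k) (E : Set (LTerm × LTerm))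
    (hE : Satisfies E H) : Satisfies E K := fun e he v =>
  transfer htot ⊤ (F := F) (fun m => (ψ m).comp (Subgroup.subtype ⊤)) (fun k hk => hψ k hk) e
    (hE e he) v (fun _ => Subgroup.mem_top _)

end Transfer

/-! ### Positive cones -/

/-- A positive cone of a totally ordered group. -/
structure Cone (G : Type*) [Group G] where
  Pos : G → Prop
  mul : ∀ x y, Pos x → Pos y → Pos (x * y)
  not_one : ¬ Pos 1
  conj : ∀ g x, Pos x → Pos (g * x * g⁻¹)
  tri : ∀ x, x = 1 ∨ Pos x ∨ Pos x⁻¹

/-- The linear order of a positive cone. -/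
@[reducible] noncomputable def Cone.order {G : Type*} [Group G] (C : Cone G) : LinearOrder G where
  le x y := x = y ∨ C.Pos (x⁻¹ * y)
  lt x y := C.Pos (x⁻¹ * y)
  le_refl x := Or.inl rfl
  le_trans x y z h1 h2 := by
    rcases h1 with rfl | h1
    · exact h2
    · rcases h2 with rfl | h2
      · exact Or.inr h1
      · right
        have := C.mul _ _ h1 h2
        rwa [mul_assoc, mul_inv_cancel_left] at this
  lt_iff_le_not_ge x y := by
    constructor
    · intro h
      refine ⟨Or.inr h, ?_⟩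
      rintro (rfl | h')
      · rw [inv_mul_cancel] at h
        exact C.not_one h
      · have := C.mul _ _ h h'
        rw [mul_assoc, mul_inv_cancel_left, inv_mul_cancel] at this
        exact C.not_one this
    · rintro ⟨h | h, h'⟩
      · exact absurd (Or.inl h.symm) h'
      · exact h
  le_antisymm x y h1 h2 := by
    rcases h1 with h1 | h1
    · exact h1
    · rcases h2 with h2 | h2
      · exact h2.symm
      · have := C.mul _ _ h1 h2
        rw [mul_assoc, mul_inv_cancel_left, inv_mul_cancel] at this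
        exact absurd this C.not_one
  le_total x y := by
    rcases C.tri (x⁻¹ * y) with h | h | h
    · left; left
      rw [inv_mul_eq_one] at h; exact h
    · left; right; exact h
    · right; right
      rw [mul_inv_rev, inv_inv] at h; exact h
  toDecidableLE := Classical.decRel _
  toDecidableEq := Classical.decEq _
  toDecidableLT := Classical.decRel _

theorem Cone.mulLeftMono {G : Type*} [Group G] (C : Cone G) :
    letI := C.order
    MulLeftMono G := by
  letI := C.order
  constructor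
  intro g x y h
  rcases h with h | h
  · subst h; exact le_rfl
  · right
    change C.Pos ((g * x)⁻¹ * (g * y))
    have e : (g * x)⁻¹ * (g * y) = x⁻¹ * y := by group
    rw [e]; exact h

theorem Cone.mulRightMono {G : Type*} [Group G] (C : Cone G) :
    letI := C.order
    MulRightMono G := by
  letI := C.order
  constructor
  intro g x y h
  rcases h with h | h
  · subst h; exact le_rfl
  · right
    change C.Pos ((x * g)⁻¹ * (y * g))
    have e : (x * g)⁻¹ * (y * g) = g⁻¹ * (x⁻¹ * y) * (g⁻¹)⁻¹ := by group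
    rw [e]; exact C.conj _ _ h

/-! ### The Heisenberg group -/

/-- The Heisenberg group over the integers. -/
@[ext] structure Heis where
  x : ℤ
  y : ℤ
  z : ℤ

namespace Heis

instance : Mul Heis := ⟨fun p q => ⟨p.x + q.x, p.y + q.y, p.z + q.z + p.x * q.y⟩⟩
instance : One Heis := ⟨⟨0, 0, 0⟩⟩
instance : Inv Heis := ⟨fun p => ⟨-p.x, -p.y, -p.z + p.x * p.y⟩⟩

@[simp] theorem mul_x (p q : Heis) : (p * q).x = p.x + q.x := rfl
@[simp] theorem mul_y (p q : Heis) : (p * q).y = p.y + q.y := rfl
@[simp] theorem mul_z (p q : Heis) : (p * q).z = p.z + q.z + p.x * q.y := rfl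
@[simp] theorem one_x : (1 : Heis).x = 0 := rfl
@[simp] theorem one_y : (1 : Heis).y = 0 := rfl
@[simp] theorem one_z : (1 : Heis).z = 0 := rfl
@[simp] theorem inv_x (p : Heis) : (p⁻¹).x = -p.x := rfl
@[simp] theorem inv_y (p : Heis) : (p⁻¹).y = -p.y := rfl
@[simp] theorem inv_z (p : Heis) : (p⁻¹).z = -p.z + p.x * p.y := rfl

instance : Group Heis := Group.ofLeftAxioms
  (by intro p q r; ext <;> simp <;> ring)
  (by intro p; ext <;> simp)
  (by intro p; ext <;> simp)

/-- The lexicographic positive cone. -/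
def cone : Cone Heis where
  Pos p := 0 < p.x ∨ (p.x = 0 ∧ (0 < p.y ∨ (p.y = 0 ∧ 0 < p.z)))
  mul p q h1 h2 := by
    simp only [mul_x, mul_y, mul_z]
    rcases h1 with h1 | ⟨h1, h1' | ⟨h1', h1''⟩⟩ <;> rcases h2 with h2 | ⟨h2, h2' | ⟨h2', h2''⟩⟩
    · left; omega
    · left; omega
    · left; omega
    · left; omega
    · right; exact ⟨by omega, Or.inl (by omega)⟩
    · right; exact ⟨by omega, Or.inl (by omega)⟩
    · left; omega
    · right; exact ⟨by omega, Or.inl (by omega)⟩
    · right; refine ⟨by omega, Or.inr ⟨by omega, ?_⟩⟩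
      rw [h1]; omega
  not_one := by simp
  conj g p h := by
    have e1 : (g * p * g⁻¹).x = p.x := by simp
    have e2 : (g * p * g⁻¹).y = p.y := by simp
    have e3 : (g * p * g⁻¹).z = p.z + g.x * p.y - p.x * g.y := by simp; ring
    rw [e1, e2, e3]
    rcases h with h | ⟨h1, h2 | ⟨h2, h3⟩⟩
    · exact Or.inl h
    · exact Or.inr ⟨h1, Or.inl h2⟩
    · refine Or.inr ⟨h1, Or.inr ⟨h2, ?_⟩⟩
      rw [h1, h2]; omega
  tri p := by
    simp only [inv_x, inv_y, inv_z]
    rcases lt_trichotomy p.x 0 with h | h | h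
    · right; right; left; omega
    · rcases lt_trichotomy p.y 0 with h' | h' | h'
      · right; right; right; exact ⟨by omega, Or.inl (by omega)⟩
      · rcases lt_trichotomy p.z 0 with h'' | h'' | h''
        · right; right; right
          refine ⟨by omega, Or.inr ⟨by omega, ?_⟩⟩
          rw [h]; omega
        · left; ext <;> assumption
        · right; left; right; exact ⟨h, Or.inr ⟨h', h''⟩⟩
      · right; left; right; exact ⟨h, Or.inl h'⟩
    · right; left; left; exact h

noncomputable instance : LinearOrder Heis := cone.order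
instance : MulLeftMono Heis := cone.mulLeftMono
instance : MulRightMono Heis := cone.mulRightMono

theorem one_lt_iff (p : Heis) :
    1 < p ↔ 0 < p.x ∨ (p.x = 0 ∧ (0 < p.y ∨ (p.y = 0 ∧ 0 < p.z))) := by
  change cone.Pos (1⁻¹ * p) ↔ _
  rw [inv_one, one_mul]
  exact Iff.rfl

theorem total (p q : Heis) : p ≤ q ∨ q ≤ p := le_total p q

/-- The weakly abelian law. -/
theorem weak (p q : Heis) (hq : 1 ≤ q) : p⁻¹ * q * p ≤ q * q := by
  rcases hq.lt_or_eq with h | h
  · apply le_of_lt
    rw [← one_lt_inv_mul', one_lt_iff]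
    rw [one_lt_iff] at h
    have e1 : ((p⁻¹ * q * p)⁻¹ * (q * q)).x = q.x := by simp
    have e2 : ((p⁻¹ * q * p)⁻¹ * (q * q)).y = q.y := by simp
    have e3 : ((p⁻¹ * q * p)⁻¹ * (q * q)).z = q.z + p.x * q.y - q.x * p.y := by simp; ring
    rw [e1, e2, e3]
    rcases h with h | ⟨h1, h2 | ⟨h2, h3⟩⟩
    · exact Or.inl h
    · exact Or.inr ⟨h1, Or.inl h2⟩
    · refine Or.inr ⟨h1, Or.inr ⟨h2, ?_⟩⟩
      rw [h1, h2]; omega
  · rw [← h]; simp

/-- The group is nilpotent of class two. -/
theorem class2 (p q r : Heis) : (p * q * p⁻¹ * q⁻¹) * r = r * (p * q * p⁻¹ * q⁻¹) := by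
  ext
  · simp
  · simp
  · simp; ring

end Heis

end Pool.Agent.Helper6.LVar
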