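import Pool.Agent.Helper6.LVarGrid

set_option autoImplicit false
set_option linter.unusedSectionVars false
set_option linter.style.haveILetI false

open Filter

namespace Pool.Agent.Helper6.LVar

section Local

variable {N : ℕ}

/-- Row exponents. -/
def exI (k0 i : Fin (N + 3)) : ℕ :=
  (((N + 3 : ℕ) : ℤ) * xw i + (((k0 - i : Fin (N + 3)) : ℕ) : ℤ)).toNat

/-- Column exponents. -/
def exJ (j : Fin (N + 3)) : ℕ := (((N + 3 : ℕ) : ℤ) * yw j).toNat

theorem exI_cast (k0 i : Fin (N + 3)) :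
    (exI k0 i : ℤ) = ((N + 3 : ℕ) : ℤ) * xw i + (((k0 - i : Fin (N + 3)) : ℕ) : ℤ) := by
  unfold exI
  apply Int.toNat_of_nonneg
  have := mul_nonneg (show (0 : ℤ) ≤ ((N + 3 : ℕ) : ℤ) by positivity) (xw_nonneg i)
  omega

theorem exJ_cast (j : Fin (N + 3)) : (exJ j : ℤ) = ((N + 3 : ℕ) : ℤ) * yw j := by
  unfold exJ
  apply Int.toNat_of_nonneg
  exact mul_nonneg (by positivity) (yw_nonneg j)

theorem exI_lt {k0 i i' : Fin (N + 3)} (h : xw i < xw i') : exI k0 i < exI k0 i' := by
  have h1 := exI_cast k0 i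
  have h2 := exI_cast k0 i'
  have h3 := (k0 - i).2
  have h4 : ((N + 3 : ℕ) : ℤ) * (xw i + 1) ≤ ((N + 3 : ℕ) : ℤ) * xw i' :=
    mul_le_mul_of_nonneg_left (by omega) (by positivity)
  have h5 : (((k0 - i : Fin (N + 3)) : ℕ) : ℤ) < ((N + 3 : ℕ) : ℤ) := by exact_mod_cast h3
  have h6 : (0 : ℤ) ≤ (((k0 - i' : Fin (N + 3)) : ℕ) : ℤ) := by positivity
  have h7 : (exI k0 i : ℤ) < exI k0 i' := by
    rw [h1, h2]; linarith
  exact_mod_cast h7

theorem exJ_lt {j j' : Fin (N + 3)} (h : yw j < yw j') : exJ j < exJ j' := by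
  have h1 := exJ_cast j
  have h2 := exJ_cast j'
  have h4 : ((N + 3 : ℕ) : ℤ) * yw j < ((N + 3 : ℕ) : ℤ) * yw j' :=
    mul_lt_mul_of_pos_left h (by positivity)
  have h7 : (exJ j : ℤ) < exJ j' := by
    rw [h1, h2]; exact h4
  exact_mod_cast h7

theorem ex_lt {k0 : Fin (N + 3)} {p q : Fin (N + 3) × Fin (N + 3)} (h : kw q < kw p)
    (hp : p ≠ (k0, k0)) : exI k0 q.1 + exJ q.2 < exI k0 p.1 + exJ p.2 := by
  have a1 := exI_cast k0 q.1
  have a2 := exJ_cast q.2
  have a3 := exI_cast k0 p.1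
  have a4 := exJ_cast p.2
  have a5 : (exI k0 q.1 : ℤ) + exJ q.2 = ((N + 3 : ℕ) : ℤ) * fw q +
      (((k0 - q.1 : Fin (N + 3)) : ℕ) : ℤ) := by
    rw [a1, a2, fw]; ring
  have a6 : (exI k0 p.1 : ℤ) + exJ p.2 = ((N + 3 : ℕ) : ℤ) * fw p +
      (((k0 - p.1 : Fin (N + 3)) : ℕ) : ℤ) := by
    rw [a3, a4, fw]; ring
  have goal : (exI k0 q.1 : ℤ) + exJ q.2 < (exI k0 p.1 : ℤ) + exJ p.2 := by
    rw [a5, a6]
    rcases kw_lt h with h1 | ⟨h1, k, hk, hk'⟩
    · have h4 : ((N + 3 : ℕ) : ℤ) * (fw q + 1) ≤ ((N + 3 : ℕ) : ℤ) * fw p :=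
        mul_le_mul_of_nonneg_left (by omega) (by positivity)
      have h5 : (((k0 - q.1 : Fin (N + 3)) : ℕ) : ℤ) < ((N + 3 : ℕ) : ℤ) := by
        exact_mod_cast (k0 - q.1).2
      have h6 : (0 : ℤ) ≤ (((k0 - p.1 : Fin (N + 3)) : ℕ) : ℤ) := by positivity
      linarith
    · rw [h1]
      subst hk hk'
      have hne : k0 - k ≠ 0 := by
        intro h2
        apply hp
        rw [sub_eq_zero] at h2
        rw [h2]
      have h3 : k0 - (k + 1) = (k0 - k) - 1 := sub_add_eq_sub_sub _ _ _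
      have h4 : ((k0 - (k + 1) : Fin (N + 3)) : ℕ) = ((k0 - k : Fin (N + 3)) : ℕ) - 1 := by
        rw [h3, Fin.val_sub_one_of_ne_zero hne]
      have h5 : 0 < ((k0 - k : Fin (N + 3)) : ℕ) := by
        rcases Nat.eq_zero_or_pos ((k0 - k : Fin (N + 3)) : ℕ) with h6 | h6
        · exact absurd (Fin.ext h6) hne
        · exact h6
      change _ + (((k0 - (k + 1) : Fin (N + 3)) : ℕ) : ℤ) < _ + (((k0 - k : Fin (N + 3)) : ℕ) : ℤ)
      rw [h4]
      omega
  exact_mod_cast goal

/-- The cone of the grid group. -/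
def gcone (N : ℕ) : Cone (GG (N + 3)) := GG.cone xw yw kw xw_injective yw_injective kw_injective

theorem Phi_pos (k0 : Fin (N + 3)) (g : GG (N + 3)) (hg : (gcone N).Pos g)
    (hlead : ¬ (g.c (k0, k0) ≠ 0 ∧ ∀ q, kw (k0, k0) < kw q → g.c q = 0)) :
    ∀ᶠ M : ℕ in atTop,
      1 < GG.Phi (fun i => (M : ℤ) ^ exI k0 i) (fun j => (M : ℤ) ^ exJ j) g := by
  rcases hg with ⟨i0, h1, h2⟩ | ⟨ha, ⟨j0, h1, h2⟩ | ⟨hb, p0, h1, h2⟩⟩
  · have := poly_pos g.a (fun i => exI k0 i) i0 h1 (by
      intro i hi hc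
      apply exI_lt
      rcases lt_trichotomy (xw i) (xw i0) with h | h | h
      · exact h
      · exact absurd (xw_injective h) hi
      · exact absurd (h2 i h) hc)
    filter_upwards [this] with M hM
    rw [Heis.one_lt_iff]
    exact Or.inl hM
  · have := poly_pos g.b (fun j => exJ j) j0 h1 (by
      intro i hi hc
      apply exJ_lt
      rcases lt_trichotomy (yw i) (yw j0) with h | h | h
      · exact h
      · exact absurd (yw_injective h) hi
      · exact absurd (h2 i h) hc)
    filter_upwards [this] with M hM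
    rw [Heis.one_lt_iff]
    refine Or.inr ⟨?_, Or.inl hM⟩
    change ∑ i, g.a i * (M : ℤ) ^ exI k0 i = 0
    rw [ha]; simp
  · have := poly_pos g.c (fun p => exI k0 p.1 + exJ p.2) p0 h1 (by
      intro p hp hc
      apply ex_lt
      · rcases lt_trichotomy (kw p) (kw p0) with h | h | h
        · exact h
        · exact absurd (kw_injective h) hp
        · exact absurd (h2 p h) hc
      · intro hp0
        apply hlead
        rw [← hp0]
        exact ⟨h1.ne', h2⟩)
    filter_upwards [this] with M hM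
    rw [Heis.one_lt_iff]
    refine Or.inr ⟨?_, Or.inr ⟨?_, ?_⟩⟩
    · change ∑ i, g.a i * (M : ℤ) ^ exI k0 i = 0
      rw [ha]; simp
    · change ∑ j, g.b j * (M : ℤ) ^ exJ j = 0
      rw [hb]; simp
    · change 0 < ∑ p : Fin (N + 3) × Fin (N + 3), g.c p * ((M : ℤ) ^ exI k0 p.1 * (M : ℤ) ^ exJ p.2)
      simp only [← pow_add]
      exact hM

end Local

/-! ### Subgroups generated by few elements -/

section Span

open Submodule

variable {n : ℕ} (r : ℕ) (v : ℕ → GG n)

/-- span of the first components -/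
def SA : Submodule ℤ (Fin n → ℤ) := span ℤ (Set.range fun i : Fin r => (v i).a)

/-- span of the second components -/
def SB : Submodule ℤ (Fin n → ℤ) := span ℤ (Set.range fun i : Fin r => (v i).b)

/-- spanning family for the third components -/
def fam : Fin r ⊕ Fin r × Fin r → (Fin n × Fin n → ℤ) :=
  Sum.elim (fun i => (v i).c) (fun ij => tz (v ij.1).a (v ij.2).b)

/-- span for the third components -/
def SC : Submodule ℤ (Fin n × Fin n → ℤ) := span ℤ (Set.range (fam r v))

theorem tz_mem {a b : Fin n → ℤ} (ha : a ∈ SA r v) (hb : b ∈ SB r v) : tz a b ∈ SC r v := by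
  induction ha using span_induction with
  | mem a ha =>
    obtain ⟨i, rfl⟩ := ha
    induction hb using span_induction with
    | mem b hb =>
      obtain ⟨j, rfl⟩ := hb
      exact subset_span ⟨Sum.inr (i, j), rfl⟩
    | zero =>
      have e : tz (v i).a (0 : Fin n → ℤ) = 0 := by funext p; simp [tz]
      rw [e]; exact zero_mem _
    | add b b' _ _ h1 h2 =>
      have e : tz (v i).a (b + b') = tz (v i).a b + tz (v i).a b' := by
        funext p; simp [tz, mul_add]
      rw [e]; exact add_mem h1 h2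
    | smul c b _ h1 =>
      have e : tz (v i).a (c • b) = c • tz (v i).a b := by
        funext p; simp [tz]; ring
      rw [e]; exact smul_mem _ _ h1
  | zero =>
    have e : tz (0 : Fin n → ℤ) b = 0 := by funext p; simp [tz]
    rw [e]; exact zero_mem _
  | add a a' _ _ h1 h2 =>
    have e : tz (a + a') b = tz a b + tz a' b := by
      funext p; simp [tz, add_mul]
    rw [e]; exact add_mem h1 h2
  | smul c a _ h1 =>
    have e : tz (c • a) b = c • tz a b := by
      funext p; simp [tz, mul_assoc]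
    rw [e]; exact smul_mem _ _ h1

/-- A subgroup that contains `v 0, ..., v (r-1)`. -/
def KK : Subgroup (GG n) where
  carrier := {g | g.a ∈ SA r v ∧ g.b ∈ SB r v ∧ g.c ∈ SC r v}
  mul_mem' := by
    rintro g h ⟨g1, g2, g3⟩ ⟨h1, h2, h3⟩
    exact ⟨add_mem g1 h1, add_mem g2 h2, add_mem (add_mem g3 h3) (tz_mem r v g1 h2)⟩
  one_mem' := ⟨zero_mem _, zero_mem _, zero_mem _⟩
  inv_mem' := by
    rintro g ⟨g1, g2, g3⟩
    exact ⟨neg_mem g1, neg_mem g2, add_mem (neg_mem g3) (tz_mem r v g1 g2)⟩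

theorem mem_KK {i : ℕ} (hi : i < r) : v i ∈ KK r v :=
  ⟨subset_span ⟨⟨i, hi⟩, rfl⟩, subset_span ⟨⟨i, hi⟩, rfl⟩, subset_span ⟨Sum.inl ⟨i, hi⟩, rfl⟩⟩

end Span

section Lead

open Submodule

theorem exists_no_lead {N : ℕ} (r : ℕ) (v : ℕ → GG (N + 3)) (hN : r + r * r < N + 3) :
    ∃ k0 : Fin (N + 3), ∀ ζ ∈ SC r v,
      ¬ (ζ (k0, k0) ≠ 0 ∧ ∀ q, kw (k0, k0) < kw q → ζ q = 0) := by
  classical
  by_contra hcon
  push Not at hcon
  choose d hd hd1 hd2 using hcon
  have hli : LinearIndependent ℤ d := by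
    rw [Fintype.linearIndependent_iff]
    intro g hg
    by_contra hne
    push Not at hne
    obtain ⟨k1, hk1⟩ := hne
    obtain ⟨k, hk, hmax⟩ := Finset.exists_max_image
      (Finset.univ.filter fun k : Fin (N + 3) => g k ≠ 0)
      (fun k => kw (k, k)) ⟨k1, by simp [hk1]⟩
    rw [Finset.mem_filter] at hk
    have h1 := congrFun hg (k, k)
    rw [Finset.sum_apply] at h1
    rw [Finset.sum_eq_single k] at h1
    · simp only [Pi.smul_apply, smul_eq_mul, Pi.zero_apply, mul_eq_zero] at h1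
      rcases h1 with h1 | h1
      · exact hk.2 h1
      · exact hd1 k h1
    · intro j _ hjk
      by_cases hgj : g j = 0
      · rw [hgj]; simp
      · have h2 := hmax j (by simp [hgj])
        have h3 : kw (j, j) < kw (k, k) := by
          refine lt_of_le_of_ne h2 ?_
          intro h4
          have := kw_injective h4
          exact hjk (Prod.ext_iff.mp this).1
        simp only [Pi.smul_apply, smul_eq_mul]
        rw [hd2 j (k, k) h3, mul_zero]
    · intro h; exact absurd (Finset.mem_univ k) h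
  have h1 := linearIndependent_le_span_aux' d hli (Set.range (fam r v)) (by
    rintro _ ⟨k, rfl⟩
    exact hd k)
  have h2 : Fintype.card (Set.range (fam r v)) ≤ Fintype.card (Fin r ⊕ Fin r × Fin r) :=
    Fintype.card_range_le (fam r v)
  simp only [Fintype.card_sum, Fintype.card_prod, Fintype.card_fin] at h1 h2
  omega

end Lead

/-- The grid group satisfies all identities of the Heisenberg group in few variables. -/
theorem grid_local {N : ℕ} (r : ℕ) (hN : r + r * r < N + 3) (e : LTerm × LTerm)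
    (he1 : e.1.VarsLT r) (he2 : e.2.VarsLT r)
    (he : ∀ v : ℕ → Heis, e.1.eval v = e.2.eval v) :
    letI := (gcone N).order
    ∀ v : ℕ → GG (N + 3), e.1.eval v = e.2.eval v := by
  letI := (gcone N).order
  haveI := (gcone N).mulLeftMono
  haveI := (gcone N).mulRightMono
  intro v
  obtain ⟨k0, hk0⟩ := exists_no_lead r v hN
  set v' : ℕ → GG (N + 3) := fun i => if i < r then v i else 1 with hv'
  have h1 : e.1.eval v' = e.2.eval v' := by
    refine transfer (fun x y => le_total x y) (KK r v) (F := atTop)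
      (fun M : ℕ => (GG.Phi (fun i => (M : ℤ) ^ exI k0 i) (fun j => (M : ℤ) ^ exJ j)).comp
        (KK r v).subtype) ?_ e he v' ?_
    · intro k hk
      have hpos : (gcone N).Pos (k : GG (N + 3)) := by
        have : (gcone N).Pos (1⁻¹ * (k : GG (N + 3))) := hk
        rwa [inv_one, one_mul] at this
      exact Phi_pos k0 k hpos (hk0 _ k.2.2.2)
    · intro i
      simp only [hv']
      split_ifs with hi
      · exact mem_KK r v hi
      · exact Subgroup.one_mem _
  have h2 : ∀ i < r, v i = v' i := by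
    intro i hi
    simp only [hv', if_pos hi]
  rw [eval_congr he1 h2, eval_congr he2 h2]
  exact h1

end Pool.Agent.Helper6.LVar
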