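import Pool.Agent.Helper6.LVarLocal

set_option autoImplicit false
set_option linter.unusedSectionVars false
set_option linter.style.haveILetI false

open Filter

namespace Pool.Agent.Helper6.LVar

/-- `s c s⁻¹ c⁻¹` -/
def comT (s c : LTerm) : LTerm := .mul (.mul (.mul s c) (.inv s)) (.inv c)

/-! ### Meets of terms -/

/-- The meet of `w ∨ 1` over the words of a nonempty list. -/
def meetT (w0 : LTerm) : List LTerm → LTerm
  | [] => .sup w0 .one
  | w :: l => .inf (.sup w .one) (meetT w0 l)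

theorem one_le_meetT {G : Type*} [Group G] [Lattice G] (v : ℕ → G) (w0 : LTerm) (l : List LTerm) :
    1 ≤ (meetT w0 l).eval v := by
  induction l with
  | nil => exact le_sup_right
  | cons w l ih => exact le_inf le_sup_right ih

theorem meetT_eq_one {G : Type*} [Group G] [Lattice G] (v : ℕ → G) (w0 : LTerm) (l : List LTerm)
    (h : ∃ w ∈ l, w.eval v ≤ 1) : (meetT w0 l).eval v = 1 := by
  apply le_antisymm _ (one_le_meetT v w0 l)
  induction l with
  | nil => simp at h
  | cons w l ih =>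
    obtain ⟨w', hw', hle⟩ := h
    rcases List.mem_cons.mp hw' with h1 | h1
    · subst h1
      refine inf_le_left.trans ?_
      exact sup_le hle le_rfl
    · exact inf_le_right.trans (ih ⟨w', h1, hle⟩)

theorem one_lt_meetT {G : Type*} [Group G] [Lattice G] (htot : ∀ x y : G, x ≤ y ∨ y ≤ x)
    (v : ℕ → G) (w0 : LTerm) (l : List LTerm) (h0 : 1 < w0.eval v)
    (h : ∀ w ∈ l, 1 < w.eval v) : 1 < (meetT w0 l).eval v := by
  induction l with
  | nil => exact lt_of_lt_of_le h0 le_sup_left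
  | cons w l ih =>
    have h1 : 1 < w.eval v ⊔ 1 := lt_of_lt_of_le (h w List.mem_cons_self) le_sup_left
    have h2 := ih (fun w' hw' => h w' (List.mem_cons_of_mem _ hw'))
    change 1 < (w.eval v ⊔ 1) ⊓ (meetT w0 l).eval v
    rcases htot (w.eval v ⊔ 1) ((meetT w0 l).eval v) with h3 | h3
    · rw [inf_eq_left.mpr h3]; exact h1
    · rw [inf_eq_right.mpr h3]; exact h2

section Words

variable {N : ℕ}

/-- `[a_i, b_j]` -/
def w1 (i j : Fin (N + 3)) : LTerm := comT (.var i) (.var ((N + 3) + j))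

/-- `[a_p, b_q] [a_i, a_k]` -/
def w2 (i k p q : Fin (N + 3)) : LTerm := .mul (w1 p q) (comT (.var i) (.var k))

/-- `[a_p, b_q] [b_i, b_k]` -/
def w3 (i k p q : Fin (N + 3)) : LTerm :=
  .mul (w1 p q) (comT (.var ((N + 3) + i)) (.var ((N + 3) + k)))

/-- `[a_k, b_k] [a_{k+1}, b_{k+2}]^{-4}` -/
def w4 (k : Fin (N + 3)) : LTerm :=
  .mul (w1 k k) (.inv (.mul (.mul (w1 (k + 1) (k + 1 + 1)) (w1 (k + 1) (k + 1 + 1)))
    (.mul (w1 (k + 1) (k + 1 + 1)) (w1 (k + 1) (k + 1 + 1)))))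

/-- All words. -/
noncomputable def words (N : ℕ) : List LTerm :=
  (Finset.univ : Finset (Fin (N + 3) × Fin (N + 3) × Fin (N + 3) × Fin (N + 3))).toList.flatMap
    fun t => [w1 t.1 t.2.1, w2 t.1 t.2.1 t.2.2.1 t.2.2.2, w3 t.1 t.2.1 t.2.2.1 t.2.2.2, w4 t.1]

theorem w1_mem (i j : Fin (N + 3)) : w1 i j ∈ words N :=
  List.mem_flatMap.mpr ⟨(i, j, i, j), by simp, by simp⟩

theorem w2_mem (i k p q : Fin (N + 3)) : w2 i k p q ∈ words N :=
  List.mem_flatMap.mpr ⟨(i, k, p, q), by simp, by simp⟩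

theorem w3_mem (i k p q : Fin (N + 3)) : w3 i k p q ∈ words N :=
  List.mem_flatMap.mpr ⟨(i, k, p, q), by simp, by simp⟩

theorem w4_mem (k : Fin (N + 3)) : w4 k ∈ words N :=
  List.mem_flatMap.mpr ⟨(k, k, k, k), by simp, by simp⟩

/-- The identity that separates the grid group from the Heisenberg group. -/
noncomputable def sepId (N : ℕ) : LTerm × LTerm := (meetT (w1 (0 : Fin (N + 3)) 0) (words N), .one)

/-! ### The identity holds in the Heisenberg group -/

theorem heis_com (g h : Heis) : (g * h * g⁻¹ * h⁻¹).x = 0 ∧ (g * h * g⁻¹ * h⁻¹).y = 0 ∧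
    (g * h * g⁻¹ * h⁻¹).z = g.x * h.y - h.x * g.y := by
  refine ⟨by simp, by simp, ?_⟩
  simp; ring

theorem heis_center_pos {g : Heis} (hx : g.x = 0) (hy : g.y = 0) (h : 1 < g) : 0 < g.z := by
  rw [Heis.one_lt_iff] at h
  rcases h with h | ⟨_, h | ⟨_, h⟩⟩
  · omega
  · omega
  · exact h

theorem near_rank_one {n : ℕ} (x u v y : Fin n → ℤ)
    (h2 : ∀ i k p q, 0 < (x p * y q - v q * u p) + (x i * u k - x k * u i))
    (h3 : ∀ i k p q, 0 < (x p * y q - v q * u p) + (v i * y k - v k * y i))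
    (i j k l : Fin n) :
    (x i * y j - v j * u i) * (x k * y l - v l * u k) ≤
      2 * ((x i * y l - v l * u i) * (x k * y j - v j * u k)) := by
  set α := x i * u k - x k * u i with hα
  set β := v j * y l - v l * y j with hβ
  have e : (x i * y j - v j * u i) * (x k * y l - v l * u k) -
      (x i * y l - v l * u i) * (x k * y j - v j * u k) = α * β := by
    rw [hα, hβ]; ring
  have a1 : |α| < x i * y l - v l * u i := by
    have b1 := h2 i k i l
    have b2 := h2 k i i l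
    rw [abs_lt]; constructor <;> rw [hα] <;> linarith
  have a2 : |β| < x k * y j - v j * u k := by
    have b1 := h3 j l k j
    have b2 := h3 l j k j
    rw [abs_lt]; constructor <;> rw [hβ] <;> linarith
  have a3 : α * β ≤ |α| * |β| := by
    rw [← abs_mul]; exact le_abs_self _
  have a4 : |α| * |β| ≤ (x i * y l - v l * u i) * (x k * y j - v j * u k) :=
    mul_le_mul a1.le a2.le (abs_nonneg _) ((abs_nonneg _).trans a1.le)
  linarith

theorem no_cycle {N : ℕ} (Z : Fin (N + 3) → Fin (N + 3) → ℤ) (hpos : ∀ i j, 0 < Z i j)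
    (hr : ∀ i j k l, Z i j * Z k l ≤ 2 * (Z i l * Z k j))
    (h4 : ∀ k, 4 * Z (k + 1) (k + 1 + 1) < Z k k) : False := by
  have p1 : ∏ k, (Z k k * Z 0 0) ≤ ∏ k, (2 * (Z k 0 * Z 0 k)) :=
    Finset.prod_le_prod (fun k _ => (mul_pos (hpos _ _) (hpos _ _)).le) (fun k _ => hr k k 0 0)
  have p2 : ∏ k, (Z k 0 * Z 0 (k + 1)) ≤ ∏ k, (2 * (Z k (k + 1) * Z 0 0)) :=
    Finset.prod_le_prod (fun k _ => (mul_pos (hpos _ _) (hpos _ _)).le)
      (fun k _ => hr k 0 0 (k + 1))
  have p3 : ∏ k, (4 * Z (k + 1) (k + 1 + 1)) < ∏ k, Z k k :=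
    Finset.prod_lt_prod_of_nonempty (fun k _ => mul_pos (by norm_num) (hpos _ _))
      (fun k _ => h4 k) Finset.univ_nonempty
  have e1 : ∏ k : Fin (N + 3), Z 0 (k + 1) = ∏ k, Z 0 k :=
    Fintype.prod_equiv (Equiv.addRight (1 : Fin (N + 3))) _ _ (fun k => rfl)
  have e2 : ∏ k : Fin (N + 3), Z (k + 1) (k + 1 + 1) = ∏ k, Z k (k + 1) :=
    Fintype.prod_equiv (Equiv.addRight (1 : Fin (N + 3))) _ _ (fun k => rfl)
  simp only [Finset.prod_mul_distrib, Finset.prod_const] at p1 p2 p3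
  rw [e1] at p2
  rw [e2] at p3
  set A := ∏ k, Z k k
  set B := ∏ k, Z k 0
  set C := ∏ k, Z 0 k
  set D := ∏ k : Fin (N + 3), Z k (k + 1)
  set n := (Finset.univ : Finset (Fin (N + 3))).card
  have hZ : 0 < Z 0 0 ^ n := pow_pos (hpos 0 0) n
  have h2n : (0 : ℤ) < 2 ^ n := by positivity
  have h5 : A * Z 0 0 ^ n ≤ 2 ^ n * (2 ^ n * (D * Z 0 0 ^ n)) :=
    p1.trans (mul_le_mul_of_nonneg_left p2 h2n.le)
  have h6 : (2 : ℤ) ^ n * (2 ^ n * (D * Z 0 0 ^ n)) = (4 ^ n * D) * Z 0 0 ^ n := by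
    have : (4 : ℤ) ^ n = 2 ^ n * 2 ^ n := by
      rw [← mul_pow]; norm_num
    rw [this]; ring
  rw [h6] at h5
  have h7 := le_of_mul_le_mul_right h5 hZ
  exact absurd p3 (not_lt.mpr h7)

theorem sepId_heis (N : ℕ) (v : ℕ → Heis) : (sepId N).1.eval v = (sepId N).2.eval v := by
  change (meetT _ (words N)).eval v = 1
  apply meetT_eq_one
  by_contra hcon
  push Not at hcon
  have hc : ∀ w ∈ words N, 1 < w.eval v := hcon
  have c1 : ∀ i j : Fin (N + 3), ((w1 i j).eval v).x = 0 ∧ ((w1 i j).eval v).y = 0 ∧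
      ((w1 i j).eval v).z = (v i).x * (v ((N + 3) + j)).y - (v ((N + 3) + j)).x * (v i).y :=
    fun i j => heis_com _ _
  have h1 : ∀ i j : Fin (N + 3),
      0 < (v i).x * (v ((N + 3) + j)).y - (v ((N + 3) + j)).x * (v i).y := by
    intro i j
    have := heis_center_pos (c1 i j).1 (c1 i j).2.1 (hc _ (w1_mem i j))
    rwa [(c1 i j).2.2] at this
  have h2 : ∀ i k p q : Fin (N + 3),
      0 < ((v p).x * (v ((N + 3) + q)).y - (v ((N + 3) + q)).x * (v p).y) +
        ((v i).x * (v k).y - (v k).x * (v i).y) := by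
    intro i k p q
    obtain ⟨a1, a2, a3⟩ := c1 p q
    obtain ⟨b1, b2, b3⟩ := heis_com (v i) (v k)
    have h := hc _ (w2_mem i k p q)
    have e1 : (w2 i k p q).eval v = (w1 p q).eval v * (v i * v k * (v i)⁻¹ * (v k)⁻¹) := rfl
    rw [e1] at h
    have := heis_center_pos (by rw [Heis.mul_x, a1, b1, add_zero])
      (by rw [Heis.mul_y, a2, b2, add_zero]) h
    rw [Heis.mul_z, a1, zero_mul, add_zero, a3, b3] at this
    exact this
  have h3 : ∀ i k p q : Fin (N + 3),
      0 < ((v p).x * (v ((N + 3) + q)).y - (v ((N + 3) + q)).x * (v p).y) +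
        ((v ((N + 3) + i)).x * (v ((N + 3) + k)).y - (v ((N + 3) + k)).x * (v ((N + 3) + i)).y) := by
    intro i k p q
    obtain ⟨a1, a2, a3⟩ := c1 p q
    obtain ⟨b1, b2, b3⟩ := heis_com (v ((N + 3) + i)) (v ((N + 3) + k))
    have h := hc _ (w3_mem i k p q)
    have e1 : (w3 i k p q).eval v = (w1 p q).eval v * (v ((N + 3) + i) * v ((N + 3) + k) *
        (v ((N + 3) + i))⁻¹ * (v ((N + 3) + k))⁻¹) := rfl
    rw [e1] at h
    have := heis_center_pos (by rw [Heis.mul_x, a1, b1, add_zero])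
      (by rw [Heis.mul_y, a2, b2, add_zero]) h
    rw [Heis.mul_z, a1, zero_mul, add_zero, a3, b3] at this
    exact this
  have h4 : ∀ k : Fin (N + 3),
      4 * ((v (k + 1 : Fin (N + 3))).x * (v ((N + 3) + (k + 1 + 1 : Fin (N + 3)))).y -
        (v ((N + 3) + (k + 1 + 1 : Fin (N + 3)))).x * (v (k + 1 : Fin (N + 3))).y) <
      (v k).x * (v ((N + 3) + k)).y - (v ((N + 3) + k)).x * (v k).y := by
    intro k
    obtain ⟨a1, a2, a3⟩ := c1 k k
    obtain ⟨b1, b2, b3⟩ := c1 (k + 1) (k + 1 + 1)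
    have h := hc _ (w4_mem k)
    have e1 : (w4 k).eval v = (w1 k k).eval v * (((w1 (k + 1) (k + 1 + 1)).eval v *
      (w1 (k + 1) (k + 1 + 1)).eval v) * ((w1 (k + 1) (k + 1 + 1)).eval v *
      (w1 (k + 1) (k + 1 + 1)).eval v))⁻¹ := rfl
    rw [e1] at h
    set g := (w1 k k).eval v
    set g' := (w1 (k + 1) (k + 1 + 1)).eval v
    have := heis_center_pos (by simp [a1, b1]) (by simp [a2, b2]) h
    simp only [Heis.mul_z, Heis.inv_z, Heis.mul_x, Heis.mul_y, a1, b1, b2] at this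
    rw [a3, b3] at this
    linarith
  exact no_cycle (fun i j => (v i).x * (v ((N + 3) + j)).y - (v ((N + 3) + j)).x * (v i).y) h1
    (near_rank_one (fun i => (v i).x) (fun i => (v i).y) (fun j => (v ((N + 3) + j)).x)
      (fun j => (v ((N + 3) + j)).y) h2 h3) h4

/-! ### The identity fails in the grid group -/

/-- The witnessing assignment. -/
def wit (N : ℕ) : ℕ → GG (N + 3) := fun t =>
  if h : t < N + 3 then ⟨Pi.single ⟨t, h⟩ 1, 0, 0⟩
  else if h : t - (N + 3) < N + 3 then ⟨0, Pi.single ⟨t - (N + 3), h⟩ 1, 0⟩ else 1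

theorem wit_a (i : Fin (N + 3)) : wit N i = ⟨Pi.single i 1, 0, 0⟩ := by
  unfold wit
  rw [dif_pos i.2]

theorem wit_b (j : Fin (N + 3)) : wit N ((N + 3) + j) = ⟨0, Pi.single j 1, 0⟩ := by
  unfold wit
  rw [dif_neg (by omega), dif_pos (by have := j.2; omega)]
  congr 2
  apply Fin.ext
  simp

theorem gg_com {n : ℕ} (g h : GG n) : (g * h * g⁻¹ * h⁻¹).a = 0 ∧ (g * h * g⁻¹ * h⁻¹).b = 0 ∧
    (g * h * g⁻¹ * h⁻¹).c = tz g.a h.b - tz h.a g.b := by
  refine ⟨?_, ?_, ?_⟩
  · funext i; simp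
  · funext i; simp
  · funext p; simp; ring

theorem gg_pos (g : GG (N + 3)) (ha : g.a = 0) (hb : g.b = 0) (h : LP kw g.c) :
    letI := (gcone N).order
    1 < g := by
  letI := (gcone N).order
  change (gcone N).Pos (1⁻¹ * g)
  rw [inv_one, one_mul]
  exact Or.inr ⟨ha, Or.inr ⟨hb, h⟩⟩

theorem w1_wit (i j : Fin (N + 3)) :
    letI := (gcone N).order
    ((w1 i j).eval (wit N)).a = 0 ∧ ((w1 i j).eval (wit N)).b = 0 ∧
      ((w1 i j).eval (wit N)).c = fun p => if p = (i, j) then 1 else 0 := by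
  letI := (gcone N).order
  have e : (w1 i j).eval (wit N) = wit N i * wit N ((N + 3) + j) * (wit N i)⁻¹ *
    (wit N ((N + 3) + j))⁻¹ := rfl
  obtain ⟨h1, h2, h3⟩ := gg_com (wit N i) (wit N ((N + 3) + j))
  rw [e]
  refine ⟨h1, h2, ?_⟩
  rw [h3, wit_a, wit_b]
  funext p
  obtain ⟨p1, p2⟩ := p
  simp only [tz, Pi.sub_apply, Pi.zero_apply, zero_mul, mul_zero, sub_zero, Prod.mk.injEq]
  by_cases h4 : p1 = i <;> by_cases h5 : p2 = j <;> simp [h4, h5]

theorem LP_ind (p0 : Fin (N + 3) × Fin (N + 3)) :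
    LP kw (fun p => if p = p0 then (1 : ℤ) else 0) := by
  refine ⟨p0, by simp, fun q hq => ?_⟩
  have : q ≠ p0 := by rintro rfl; exact lt_irrefl _ hq
  simp [this]

theorem sepId_grid (N : ℕ) :
    letI := (gcone N).order
    ¬ ∀ v : ℕ → GG (N + 3), (sepId N).1.eval v = (sepId N).2.eval v := by
  letI := (gcone N).order
  haveI := (gcone N).mulLeftMono
  haveI := (gcone N).mulRightMono
  intro hcon
  have h := hcon (wit N)
  have h1 : 1 < (meetT (w1 (0 : Fin (N + 3)) 0) (words N)).eval (wit N) := by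
    apply one_lt_meetT (fun x y => le_total x y)
    · obtain ⟨a1, a2, a3⟩ := w1_wit (0 : Fin (N + 3)) 0
      apply gg_pos _ a1 a2
      rw [a3]; exact LP_ind _
    · intro w hw
      obtain ⟨⟨i, k, p, q⟩, _, hw⟩ := List.mem_flatMap.mp hw
      simp only [List.mem_cons, List.not_mem_nil, or_false] at hw
      rcases hw with rfl | rfl | rfl | rfl
      · obtain ⟨a1, a2, a3⟩ := w1_wit i k
        apply gg_pos _ a1 a2
        rw [a3]; exact LP_ind _
      · obtain ⟨a1, a2, a3⟩ := w1_wit p q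
        obtain ⟨b1, b2, b3⟩ := gg_com (wit N i) (wit N k)
        have e : (w2 i k p q).eval (wit N) = (w1 p q).eval (wit N) *
          (wit N i * wit N k * (wit N i)⁻¹ * (wit N k)⁻¹) := rfl
        rw [e]
        apply gg_pos
        · rw [GG.mul_a, a1, b1, add_zero]
        · rw [GG.mul_b, a2, b2, add_zero]
        · have e2 : ((w1 p q).eval (wit N) * (wit N i * wit N k * (wit N i)⁻¹ * (wit N k)⁻¹)).c =
              ((w1 p q).eval (wit N)).c := by
            rw [GG.mul_c, a1, b3, wit_a, wit_a]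
            funext s
            simp
          rw [e2, a3]; exact LP_ind _
      · obtain ⟨a1, a2, a3⟩ := w1_wit p q
        obtain ⟨b1, b2, b3⟩ := gg_com (wit N ((N + 3) + i)) (wit N ((N + 3) + k))
        have e : (w3 i k p q).eval (wit N) = (w1 p q).eval (wit N) *
          (wit N ((N + 3) + i) * wit N ((N + 3) + k) * (wit N ((N + 3) + i))⁻¹ *
            (wit N ((N + 3) + k))⁻¹) := rfl
        rw [e]
        apply gg_pos
        · rw [GG.mul_a, a1, b1, add_zero]
        · rw [GG.mul_b, a2, b2, add_zero]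
        · have e2 : ((w1 p q).eval (wit N) * (wit N ((N + 3) + i) * wit N ((N + 3) + k) *
              (wit N ((N + 3) + i))⁻¹ * (wit N ((N + 3) + k))⁻¹)).c =
              ((w1 p q).eval (wit N)).c := by
            rw [GG.mul_c, a1, b3, wit_b, wit_b]
            funext s
            simp
          rw [e2, a3]; exact LP_ind _
      · obtain ⟨a1, a2, a3⟩ := w1_wit i i
        obtain ⟨b1, b2, b3⟩ := w1_wit (i + 1) (i + 1 + 1)
        have e : (w4 i).eval (wit N) = (w1 i i).eval (wit N) *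
          (((w1 (i + 1) (i + 1 + 1)).eval (wit N) * (w1 (i + 1) (i + 1 + 1)).eval (wit N)) *
          ((w1 (i + 1) (i + 1 + 1)).eval (wit N) *
            (w1 (i + 1) (i + 1 + 1)).eval (wit N)))⁻¹ := rfl
        rw [e]
        set g := (w1 i i).eval (wit N)
        set g' := (w1 (i + 1) (i + 1 + 1)).eval (wit N)
        apply gg_pos
        · simp [a1, b1]
        · simp [a2, b2]
        · have e2 : (g * (g' * g' * (g' * g'))⁻¹).c = fun p => g.c p - 4 * g'.c p := by
            funext s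
            simp [a1, b1]
            ring
          rw [e2, a3, b3]
          refine ⟨(i, i), ?_, ?_⟩
          · have h5 : ((i, i) : Fin (N + 3) × Fin (N + 3)) ≠ (i + 1, i + 1 + 1) := by
              intro h6
              exact succ_ne i (Prod.ext_iff.mp h6).1.symm
            simp [h5]
          · intro s hs
            have h5 : s ≠ (i, i) := by rintro rfl; exact lt_irrefl _ hs
            have h6 : s ≠ (i + 1, i + 1 + 1) := by
              rintro rfl
              exact absurd (kw_tie_lt i) (not_lt.mpr hs.le)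
            simp [h5, h6]
  have h2 : (meetT (w1 (0 : Fin (N + 3)) 0) (words N)).eval (wit N) = 1 := h
  rw [h2] at h1
  exact lt_irrefl _ h1

end Words

end Pool.Agent.Helper6.LVar
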