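import Pool.Agent.Helper6.LVarG

set_option autoImplicit false
set_option linter.unusedSectionVars false
set_option linter.style.haveILetI false

open Filter

namespace Pool.Agent.Helper6.LVar

/-- The image of an `ℓ`-ideal in a quotient is an `ℓ`-ideal. -/
theorem IsLIdeal.map_quot {G : Type*} [Group G] [Lattice G] [MulLeftMono G] [MulRightMono G]
    (N₁ N₂ : Subgroup G) [N₁.Normal] (h₁ : IsLIdeal N₁) (h₂ : IsLIdeal N₂) :
    letI := quotLattice N₁ h₁
    IsLIdeal (N₂.map (QuotientGroup.mk' N₁)) := by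
  letI := quotLattice N₁ h₁
  refine ⟨?_, ?_, ?_, ?_⟩
  · exact h₂.normal.map _ (QuotientGroup.mk'_surjective N₁)
  · rintro _ ⟨x, hx, rfl⟩ _ ⟨y, hy, rfl⟩
    exact ⟨x ⊔ y, h₂.sup_mem x hx y hy, rfl⟩
  · rintro _ ⟨x, hx, rfl⟩ _ ⟨y, hy, rfl⟩
    exact ⟨x ⊓ y, h₂.inf_mem x hx y hy, rfl⟩
  · rintro _ ⟨x, hx, rfl⟩ _ ⟨y, hy, rfl⟩ g hxg hgy
    obtain ⟨g, rfl⟩ := QuotientGroup.mk'_surjective N₁ g
    refine ⟨(g ⊔ x) ⊓ (y ⊔ x), ?_, ?_⟩
    · exact h₂.convex x hx (y ⊔ x) (h₂.sup_mem y hy x hx) _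
        (le_inf le_sup_right le_sup_right) inf_le_right
    · have e : QuotientGroup.mk' N₁ ((g ⊔ x) ⊓ (y ⊔ x)) =
          (QuotientGroup.mk' N₁ g ⊔ QuotientGroup.mk' N₁ x) ⊓
          (QuotientGroup.mk' N₁ y ⊔ QuotientGroup.mk' N₁ x) := rfl
      rw [e, sup_eq_left.mpr hxg, sup_eq_left.mpr (hxg.trans hgy), inf_eq_left.mpr hgy]

theorem Q.le_c {x y : Q} (h : x ≤ y) (hk : x.k = y.k) (hl : x.l = y.l) (ha : x.a = y.a)
    (hb : x.b = y.b) : x.c ≤ y.c := by
  rcases h.lt_or_eq with h | h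
  · exact (Q.lt_c h hk hl ha hb).le
  · rw [h]

theorem GN.le_q {n : ℕ} {x y : GN n} (h : x ≤ y) : x.q ≤ y.q := by
  rcases h with h | ⟨h, _⟩
  · exact h.le
  · exact h.le

/-- The product of all `GN n`. -/
abbrev P : Type := (n : ℕ) → GN n

instance : MulLeftMono P := ⟨fun _ _ _ h n => mul_le_mul' le_rfl (h n)⟩

instance : MulRightMono P := ⟨fun _ _ _ h n => mul_le_mul' (h n) le_rfl⟩

/-- Elements which are eventually trivial. -/
def N1 : Subgroup P where
  carrier := {x | ∀ᶠ n in atTop, x n = 1}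
  mul_mem' := by
    intro x y hx hy
    filter_upwards [hx, hy] with n h1 h2
    rw [Pi.mul_apply, h1, h2, one_mul]
  one_mem' := Filter.Eventually.of_forall fun _ => rfl
  inv_mem' := by
    intro x hx
    filter_upwards [hx] with n h1
    rw [Pi.inv_apply, h1, inv_one]

theorem mem_N1 (x : P) : x ∈ N1 ↔ ∀ᶠ n in atTop, x n = 1 := Iff.rfl

theorem N1_ideal : IsLIdeal N1 := by
  refine ⟨⟨?_⟩, ?_, ?_, ?_⟩
  · intro x hx g
    rw [mem_N1] at hx ⊢
    filter_upwards [hx] with n h1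
    rw [Pi.mul_apply, Pi.mul_apply, Pi.inv_apply, h1, mul_one, mul_inv_cancel]
  · intro x hx y hy
    rw [mem_N1] at hx hy ⊢
    filter_upwards [hx, hy] with n h1 h2
    rw [Pi.sup_apply, h1, h2, sup_idem]
  · intro x hx y hy
    rw [mem_N1] at hx hy ⊢
    filter_upwards [hx, hy] with n h1 h2
    rw [Pi.inf_apply, h1, h2, inf_idem]
  · intro x hx y hy g hxg hgy
    rw [mem_N1] at hx hy ⊢
    filter_upwards [hx, hy] with n h1 h2
    exact le_antisymm (h2 ▸ hgy n) (h1 ▸ hxg n)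

instance : N1.Normal := N1_ideal.normal

/-- The bounded part of the center of `Q`. -/
def bdd (J : ℕ) (q : Q) : Prop := q.k = 0 ∧ q.l = 0 ∧ q.a = 0 ∧ q.b = 0 ∧ |q.c| ≤ J

theorem bdd_mul {J J' : ℕ} {p q : Q} (hp : bdd J p) (hq : bdd J' q) : bdd (J + J') (p * q) := by
  obtain ⟨h1, h2, h3, h4, h5⟩ := hp
  obtain ⟨g1, g2, g3, g4, g5⟩ := hq
  refine ⟨by simp [h1, g1], by simp [h2, g2], by simp [h3, g3], by simp [h4, g4], ?_⟩
  rw [Q.mul_c, h1, zero_mul, sub_zero]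
  push_cast
  exact (abs_add_le _ _).trans (add_le_add h5 g5)

theorem bdd_inv {J : ℕ} {p : Q} (hp : bdd J p) : bdd J p⁻¹ := by
  obtain ⟨h1, h2, h3, h4, h5⟩ := hp
  refine ⟨by simp [h1], by simp [h2], by simp [h3], by simp [h4], ?_⟩
  rw [Q.inv_c, h1, zero_mul, sub_zero, abs_neg]
  exact h5

theorem bdd_mono {J J' : ℕ} (h : J ≤ J') {p : Q} (hp : bdd J p) : bdd J' p := by
  obtain ⟨h1, h2, h3, h4, h5⟩ := hp
  refine ⟨h1, h2, h3, h4, h5.trans ?_⟩
  exact_mod_cast h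

theorem bdd_conj {J : ℕ} {p : Q} (hp : bdd J p) (g : Q) : g * p * g⁻¹ = p := by
  obtain ⟨h1, h2, h3, h4, h5⟩ := hp
  ext
  · simp
  · simp
  · have h2s : (2 : ℚ) ^ g.k ≠ 0 := by positivity
    simp [h1, h3]; field_simp; ring
  · have h2s : (2 : ℚ) ^ g.l ≠ 0 := by positivity
    simp [h2, h4]; field_simp; ring
  · simp [h1, h2]; ring

theorem bdd_convex {J : ℕ} {x y g : Q} (hx : bdd J x) (hy : bdd J y) (h1 : x ≤ g) (h2 : g ≤ y) :
    bdd J g := by
  obtain ⟨x1, x2, x3, x4, x5⟩ := hx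
  obtain ⟨y1, y2, y3, y4, y5⟩ := hy
  have gk : g.k = 0 := le_antisymm (y1 ▸ Q.le_k h2) (x1 ▸ Q.le_k h1)
  have gl : g.l = 0 := le_antisymm (y2 ▸ Q.le_l h2 (gk.trans y1.symm))
    (x2 ▸ Q.le_l h1 (x1.trans gk.symm))
  have ga : g.a = 0 := le_antisymm (y3 ▸ Q.le_a h2 (gk.trans y1.symm) (gl.trans y2.symm))
    (x3 ▸ Q.le_a h1 (x1.trans gk.symm) (x2.trans gl.symm))
  have gb : g.b = 0 := le_antisymm
    (y4 ▸ Q.le_b h2 (gk.trans y1.symm) (gl.trans y2.symm) (ga.trans y3.symm))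
    (x4 ▸ Q.le_b h1 (x1.trans gk.symm) (x2.trans gl.symm) (x3.trans ga.symm))
  refine ⟨gk, gl, ga, gb, ?_⟩
  have c1 := Q.le_c h1 (x1.trans gk.symm) (x2.trans gl.symm) (x3.trans ga.symm)
    (x4.trans gb.symm)
  have c2 := Q.le_c h2 (gk.trans y1.symm) (gl.trans y2.symm) (ga.trans y3.symm)
    (gb.trans y4.symm)
  rw [abs_le] at x5 y5 ⊢
  omega

/-- Elements which are eventually in a bounded part of the center, modulo the second component. -/
def N2 : Subgroup P where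
  carrier := {x | ∃ J : ℕ, ∀ᶠ n in atTop, bdd J (x n).q}
  mul_mem' := by
    rintro x y ⟨J, hx⟩ ⟨J', hy⟩
    refine ⟨J + J', ?_⟩
    filter_upwards [hx, hy] with n h1 h2
    exact bdd_mul h1 h2
  one_mem' := ⟨0, Filter.Eventually.of_forall fun _ => ⟨rfl, rfl, rfl, rfl, by
    rw [Pi.one_apply, GN.one_q, Q.one_c]; simp⟩⟩
  inv_mem' := by
    rintro x ⟨J, hx⟩
    refine ⟨J, ?_⟩
    filter_upwards [hx] with n h1
    exact bdd_inv h1

theorem mem_N2 (x : P) : x ∈ N2 ↔ ∃ J : ℕ, ∀ᶠ n in atTop, bdd J (x n).q := Iff.rfl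

theorem N2_ideal : IsLIdeal N2 := by
  refine ⟨⟨?_⟩, ?_, ?_, ?_⟩
  · rintro x ⟨J, hx⟩ g
    refine ⟨J, ?_⟩
    filter_upwards [hx] with n h1
    rw [Pi.mul_apply, Pi.mul_apply, Pi.inv_apply, GN.mul_q, GN.mul_q, GN.inv_q, bdd_conj h1]
    exact h1
  · rintro x ⟨J, hx⟩ y ⟨J', hy⟩
    refine ⟨max J J', ?_⟩
    filter_upwards [hx, hy] with n h1 h2
    rw [Pi.sup_apply, GN.sup_q]
    rcases le_total (x n).q (y n).q with h | h
    · rw [sup_eq_right.mpr h]; exact bdd_mono (le_max_right _ _) h2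
    · rw [sup_eq_left.mpr h]; exact bdd_mono (le_max_left _ _) h1
  · rintro x ⟨J, hx⟩ y ⟨J', hy⟩
    refine ⟨max J J', ?_⟩
    filter_upwards [hx, hy] with n h1 h2
    rw [Pi.inf_apply, GN.inf_q]
    rcases le_total (x n).q (y n).q with h | h
    · rw [inf_eq_left.mpr h]; exact bdd_mono (le_max_left _ _) h1
    · rw [inf_eq_right.mpr h]; exact bdd_mono (le_max_right _ _) h2
  · rintro x ⟨J, hx⟩ y ⟨J', hy⟩ g hxg hgy
    refine ⟨max J J', ?_⟩
    filter_upwards [hx, hy] with n h1 h2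
    exact bdd_convex (bdd_mono (le_max_left _ _) h1) (bdd_mono (le_max_right _ _) h2)
      (GN.le_q (hxg n)) (GN.le_q (hgy n))

theorem wval_mem_N2 (s t c d : P) : wval s t c d ∈ N2 := by
  refine ⟨1, Filter.Eventually.of_forall fun n => ?_⟩
  have e := wval_hom (Pi.evalMonoidHom GN n) (fun _ _ => rfl) (fun _ _ => rfl) s t c d
  simp only [Pi.evalMonoidHom_apply] at e
  rw [← e, GN.χ_wval]
  have h1 : bdd 1 (1 : Q) := ⟨rfl, rfl, rfl, rfl, by simp⟩
  have h2 : bdd 1 Q.z := ⟨rfl, rfl, rfl, rfl, by simp [Q.z]⟩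
  have h3 := one_le_wval_Q (s n).q (t n).q (c n).q (d n).q
  have h4 := wval_Q_le (s n).q (t n).q (c n).q (d n).q
  generalize wval (s n).q (t n).q (c n).q (d n).q = g at h3 h4 ⊢
  exact bdd_convex h1 h2 h3 h4

/-- For large `n`, bounded powers of `lam n` are at most `2`. -/
theorem lam_pow_le (J : ℕ) : ∀ᶠ n in atTop, lam n ^ J ≤ 2 := by
  filter_upwards [eventually_ge_atTop (2 * J)] with n hn
  have hx0 : (0 : ℚ) < (n : ℚ) + 1 := by positivity
  have hx : (J : ℚ) * (1 / ((n : ℚ) + 1)) ≤ 1 / 2 := by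
    rw [mul_one_div, div_le_div_iff₀ hx0 (by norm_num)]
    have : (2 * J : ℚ) ≤ n := by exact_mod_cast hn
    linarith
  set x : ℚ := 1 / ((n : ℚ) + 1) with hxdef
  have hx1 : 0 < x := by positivity
  have hx2 : x ≤ 1 := by
    rw [hxdef, div_le_one hx0]
    have : (0 : ℚ) ≤ n := by positivity
    linarith
  have h1 : 1 / 2 ≤ (1 - x) ^ J := by
    have h := one_add_mul_le_pow (show (-2 : ℚ) ≤ -x by linarith) J
    have e : 1 + -x = 1 - x := by ring
    rw [e] at h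
    linarith
  have h2 : (1 + x) ^ J * (1 - x) ^ J ≤ 1 := by
    rw [← mul_pow]
    apply pow_le_one₀
    · have : (1 + x) * (1 - x) = (1 - x) * (1 + x) := by ring
      rw [this]
      exact mul_nonneg (by linarith) (by linarith)
    · nlinarith
  have h3 : 0 ≤ (1 + x) ^ J := by positivity
  have h4 : (1 + x) ^ J * (1 / 2) ≤ (1 + x) ^ J * (1 - x) ^ J := mul_le_mul_of_nonneg_left h1 h3
  change (1 + x) ^ J ≤ 2
  linarith

/-- The weakly abelian law for bounded elements, when `lam n ^ J ≤ 2`. -/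
theorem weak_GN {n J : ℕ} (hJ : lam n ^ J ≤ 2) {x y : GN n} (hx : bdd J x.q) (hy : bdd J y.q) :
    x⁻¹ * (y ⊔ 1) * x ≤ (y ⊔ 1) * (y ⊔ 1) := by
  have h1y : (1 : GN n) ≤ y ⊔ 1 := le_sup_right
  set p := y ⊔ 1 with hp
  have hpq : bdd J p.q := by
    rw [hp, GN.sup_q]
    rcases le_total y.q (1 : GN n).q with h | h
    · rw [sup_eq_right.mpr h]; exact ⟨rfl, rfl, rfl, rfl, by simp⟩
    · rw [sup_eq_left.mpr h]; exact hy
  have hconj : (x⁻¹ * p * x).q = p.q := by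
    have := bdd_conj hpq x.q⁻¹
    rw [inv_inv] at this
    exact this
  rcases h1y with h | ⟨h, h'⟩
  · left
    rw [hconj, GN.mul_q]
    change (1 : Q) < p.q at h
    have := Q.mul_lt_left p.q 1 p.q h
    rwa [mul_one] at this
  · have hpq1 : p.q = 1 := h.symm
    right
    refine ⟨?_, ?_⟩
    · rw [hconj, GN.mul_q, hpq1, mul_one]
    · change (0 : ℤ → ℚ) ≤ p.f at h'
      have e1 : (x⁻¹ * p * x).f = act n x.q⁻¹ p.f := by
        simp only [GN.mul_f, GN.inv_f, GN.mul_q, GN.inv_q, hpq1, mul_one]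
        abel
      have e2 : (p * p).f = p.f + p.f := by
        simp only [GN.mul_f, hpq1, act_one]
      rw [e1, e2]
      intro m
      obtain ⟨x1, x2, x3, x4, x5⟩ := hx
      have hpm : 0 ≤ p.f m := h' m
      have e3 : act n x.q⁻¹ p.f m = lam n ^ (-x.q.c) * p.f m := by
        simp only [act, Q.inv_c, Q.inv_l, Q.inv_k, x1, x2]
        simp
      rw [e3, Pi.add_apply]
      have h4 : lam n ^ (-x.q.c) ≤ 2 := by
        have h5 : lam n ^ (-x.q.c) ≤ lam n ^ (J : ℤ) := by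
          apply zpow_le_zpow_right₀ (lam_gt n).le
          rw [abs_le] at x5
          omega
        rw [zpow_natCast] at h5
        exact h5.trans hJ
      have := mul_le_mul_of_nonneg_right h4 hpm
      linarith

/-- The reduced product is in the product variety. -/
theorem Ginf_inProduct :
    letI := quotLattice N1 N1_ideal
    InProduct {weakAb} {wOne} (P ⧸ N1) := by
  letI : Lattice (P ⧸ N1) := quotLattice N1 N1_ideal
  haveI : MulLeftMono (P ⧸ N1) := quotLattice_mulLeftMono N1 N1_ideal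
  haveI : MulRightMono (P ⧸ N1) := quotLattice_mulRightMono N1 N1_ideal
  have hN := IsLIdeal.map_quot N1 N2 N1_ideal N2_ideal
  haveI hn := hN.normal
  letI : Lattice ((P ⧸ N1) ⧸ (N2.map (QuotientGroup.mk' N1))) := quotLattice _ hN
  refine ⟨N2.map (QuotientGroup.mk' N1), hn, hN, ?_, quotLattice _ hN, fun _ _ => rfl,
    fun _ _ => rfl, ?_⟩
  · intro e he v hv
    rw [Set.mem_singleton_iff] at he
    subst he
    rw [weakAb_iff]
    obtain ⟨x, hx, hx'⟩ := hv 0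
    obtain ⟨y, hy, hy'⟩ := hv 1
    rw [← hx', ← hy', ← sup_eq_right]
    change QuotientGroup.mk' N1 ((x⁻¹ * (y ⊔ 1) * x) ⊔ ((y ⊔ 1) * (y ⊔ 1))) =
      QuotientGroup.mk' N1 ((y ⊔ 1) * (y ⊔ 1))
    apply QuotientGroup.eq.mpr
    rw [mem_N1]
    obtain ⟨J, hJ⟩ := hx
    obtain ⟨J', hJ'⟩ := hy
    filter_upwards [hJ, hJ', lam_pow_le (max J J')] with n h1 h2 h3
    have h := weak_GN h3 (bdd_mono (le_max_left _ _) h1) (bdd_mono (le_max_right _ _) h2)
    rw [← sup_eq_right] at h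
    have e : ((x⁻¹ * (y ⊔ 1) * x) ⊔ ((y ⊔ 1) * (y ⊔ 1))) n =
      ((x n)⁻¹ * (y n ⊔ 1) * (x n)) ⊔ ((y n ⊔ 1) * (y n ⊔ 1)) := rfl
    rw [Pi.mul_apply, Pi.inv_apply, e, h]
    change ((y n ⊔ 1) * (y n ⊔ 1))⁻¹ * ((y n ⊔ 1) * (y n ⊔ 1)) = 1
    rw [inv_mul_cancel]
  · intro e he v
    rw [Set.mem_singleton_iff] at he
    subst he
    rw [wOne_iff]
    obtain ⟨s, hs⟩ := QuotientGroup.mk'_surjective _ (v 0)
    obtain ⟨t, ht⟩ := QuotientGroup.mk'_surjective _ (v 1)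
    obtain ⟨c, hc⟩ := QuotientGroup.mk'_surjective _ (v 2)
    obtain ⟨d, hd⟩ := QuotientGroup.mk'_surjective _ (v 3)
    obtain ⟨s, rfl⟩ := QuotientGroup.mk'_surjective _ s
    obtain ⟨t, rfl⟩ := QuotientGroup.mk'_surjective _ t
    obtain ⟨c, rfl⟩ := QuotientGroup.mk'_surjective _ c
    obtain ⟨d, rfl⟩ := QuotientGroup.mk'_surjective _ d
    rw [← hs, ← ht, ← hc, ← hd]
    rw [wval_hom (QuotientGroup.mk' (N2.map (QuotientGroup.mk' N1))) (fun _ _ => rfl)
      (fun _ _ => rfl)]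
    rw [wval_hom (QuotientGroup.mk' N1) (fun _ _ => rfl) (fun _ _ => rfl)]
    apply (QuotientGroup.eq_one_iff _).mpr
    exact ⟨_, wval_mem_N2 s t c d, rfl⟩

/-- Identities true in the reduced product are eventually true. -/
theorem eventually_of_Ginf (e : LTerm × LTerm)
    (h : letI := quotLattice N1 N1_ideal; Satisfies {e} (P ⧸ N1)) :
    ∀ᶠ n in atTop, Satisfies {e} (GN n) := by
  letI : Lattice (P ⧸ N1) := quotLattice N1 N1_ideal
  by_contra hcon
  have hfreq : ∃ᶠ n in atTop, ∃ v : ℕ → GN n, e.1.eval v ≠ e.2.eval v := by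
    rw [Filter.not_eventually] at hcon
    refine hcon.mono ?_
    intro n hn
    simp only [Satisfies, Set.mem_singleton_iff, forall_eq, not_forall] at hn
    exact hn
  classical
  let V : ℕ → P := fun i n => if hv : ∃ v : ℕ → GN n, e.1.eval v ≠ e.2.eval v
    then hv.choose i else 1
  have h1 := h e rfl (fun i => QuotientGroup.mk' N1 (V i))
  rw [eval_hom (QuotientGroup.mk' N1) (fun _ _ => rfl) (fun _ _ => rfl),
    eval_hom (QuotientGroup.mk' N1) (fun _ _ => rfl) (fun _ _ => rfl)] at h1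
  have h2 := QuotientGroup.eq.mp h1
  rw [mem_N1] at h2
  obtain ⟨n, hn, hn2⟩ := (hfreq.and_eventually h2).exists
  have e1 : ∀ t : LTerm, t.eval V n = t.eval (fun i => V i n) := fun t =>
    (eval_hom (Pi.evalMonoidHom GN n) (fun _ _ => rfl) (fun _ _ => rfl) V t).symm
  rw [Pi.mul_apply, Pi.inv_apply, e1, e1, inv_mul_eq_one] at hn2
  have e2 : (fun i => V i n) = hn.choose := by
    funext i
    simp only [V, dif_pos hn]
  rw [e2] at hn2
  exact hn.choose_spec hn2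

/-- **Products of finitely based varieties of `ℓ`-groups need not be finitely based.** -/
theorem main : ∃ E₁ E₂ : Set (LTerm × LTerm), E₁.Finite ∧ E₂.Finite ∧
    ¬ ∃ E : Set (LTerm × LTerm), E.Finite ∧
      ∀ (G : Type) [Group G] [Lattice G] [MulLeftMono G] [MulRightMono G],
        Satisfies E G ↔ InProduct E₁ E₂ G := by
  refine ⟨{weakAb}, {wOne}, Set.finite_singleton _, Set.finite_singleton _, ?_⟩
  rintro ⟨E, hE, h⟩
  letI : Lattice (P ⧸ N1) := quotLattice N1 N1_ideal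
  haveI : MulLeftMono (P ⧸ N1) := quotLattice_mulLeftMono N1 N1_ideal
  haveI : MulRightMono (P ⧸ N1) := quotLattice_mulRightMono N1 N1_ideal
  have h1 : Satisfies E (P ⧸ N1) := (h (P ⧸ N1)).mpr Ginf_inProduct
  have h2 : ∀ e ∈ E, ∀ᶠ n in atTop, Satisfies {e} (GN n) := by
    intro e he
    apply eventually_of_Ginf
    intro e' he' v
    rw [Set.mem_singleton_iff] at he'
    subst he'
    exact h1 e' he v
  have h3 : ∀ᶠ n in atTop, ∀ e ∈ E, Satisfies {e} (GN n) := (Filter.eventually_all_finite hE).mpr h2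
  obtain ⟨n, hn⟩ := h3.exists
  apply GN_not_inProduct n
  rw [← h]
  intro e he v
  exact hn e he e rfl v

end Pool.Agent.Helper6.LVar
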