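import Pool.Agent.Helper6.LVarQuot

set_option autoImplicit false
set_option linter.unusedSectionVars false
set_option linter.style.haveILetI false

namespace Pool.Agent.Helper6.LVar

/-- The underlying set of the totally ordered group used in the construction. -/
@[ext] structure Q where
  k : ℤ
  l : ℤ
  a : ℚ
  b : ℚ
  c : ℤ

namespace Q

instance : Mul Q := ⟨fun x y => ⟨x.k + y.k, x.l + y.l, x.a + 2 ^ x.k * y.a,
  x.b + 2 ^ x.l * y.b, x.c + y.c - x.k * y.l⟩⟩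
instance : One Q := ⟨⟨0, 0, 0, 0, 0⟩⟩
instance : Inv Q := ⟨fun x => ⟨-x.k, -x.l, -(2 ^ (-x.k) * x.a), -(2 ^ (-x.l) * x.b),
  -x.c - x.k * x.l⟩⟩

@[simp] theorem mul_k (x y : Q) : (x * y).k = x.k + y.k := rfl
@[simp] theorem mul_l (x y : Q) : (x * y).l = x.l + y.l := rfl
@[simp] theorem mul_a (x y : Q) : (x * y).a = x.a + 2 ^ x.k * y.a := rfl
@[simp] theorem mul_b (x y : Q) : (x * y).b = x.b + 2 ^ x.l * y.b := rfl
@[simp] theorem mul_c (x y : Q) : (x * y).c = x.c + y.c - x.k * y.l := rfl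
@[simp] theorem one_k : (1 : Q).k = 0 := rfl
@[simp] theorem one_l : (1 : Q).l = 0 := rfl
@[simp] theorem one_a : (1 : Q).a = 0 := rfl
@[simp] theorem one_b : (1 : Q).b = 0 := rfl
@[simp] theorem one_c : (1 : Q).c = 0 := rfl
@[simp] theorem inv_k (x : Q) : (x⁻¹).k = -x.k := rfl
@[simp] theorem inv_l (x : Q) : (x⁻¹).l = -x.l := rfl
@[simp] theorem inv_a (x : Q) : (x⁻¹).a = -(2 ^ (-x.k) * x.a) := rfl
@[simp] theorem inv_b (x : Q) : (x⁻¹).b = -(2 ^ (-x.l) * x.b) := rfl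
@[simp] theorem inv_c (x : Q) : (x⁻¹).c = -x.c - x.k * x.l := rfl

instance : Group Q := Group.ofLeftAxioms
  (by
    intro x y z
    ext
    · simp; ring
    · simp; ring
    · simp [zpow_add₀]; ring
    · simp [zpow_add₀]; ring
    · simp; ring)
  (by intro x; ext <;> simp)
  (by
    intro x
    ext
    · simp
    · simp
    · simp
    · simp
    · simp; ring)

/-- The lexicographic code of an element. -/
def code (x : Q) : ℤ ×ₗ ℤ ×ₗ ℚ ×ₗ ℚ ×ₗ ℤ := toLex (x.k, toLex (x.l, toLex (x.a, toLex (x.b, x.c))))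

theorem code_injective : Function.Injective code := by
  intro x y h
  simp only [code, EmbeddingLike.apply_eq_iff_eq, Prod.mk.injEq] at h
  obtain ⟨h1, h2, h3, h4, h5⟩ := h
  ext <;> assumption

noncomputable instance : LinearOrder Q := LinearOrder.lift' code code_injective

theorem lt_iff (x y : Q) : x < y ↔ x.k < y.k ∨ (x.k = y.k ∧ (x.l < y.l ∨ (x.l = y.l ∧
    (x.a < y.a ∨ (x.a = y.a ∧ (x.b < y.b ∨ (x.b = y.b ∧ x.c < y.c))))))) := by
  change code x < code y ↔ _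
  simp only [code, Prod.Lex.toLex_lt_toLex]

theorem mul_lt_left (x y z : Q) (h : y < z) : x * y < x * z := by
  rw [lt_iff] at h ⊢
  have hk : (0 : ℚ) < 2 ^ x.k := by positivity
  have hl : (0 : ℚ) < 2 ^ x.l := by positivity
  simp only [mul_k, mul_l, mul_a, mul_b, mul_c]
  rcases h with h | ⟨h1, h | ⟨h2, h | ⟨h3, h | ⟨h4, h⟩⟩⟩⟩
  · left; omega
  · right; refine ⟨by omega, ?_⟩; left; omega
  · right; refine ⟨by omega, ?_⟩; right; refine ⟨by omega, ?_⟩; left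
    have := mul_lt_mul_of_pos_left h hk
    linarith
  · right; refine ⟨by omega, ?_⟩; right; refine ⟨by omega, ?_⟩; right
    refine ⟨by rw [h3], ?_⟩; left
    have := mul_lt_mul_of_pos_left h hl
    linarith
  · right; refine ⟨by omega, ?_⟩; right; refine ⟨by omega, ?_⟩; right
    refine ⟨by rw [h3], ?_⟩; right
    refine ⟨by rw [h4], ?_⟩
    rw [h2]; omega

theorem mul_lt_right (x y z : Q) (h : y < z) : y * x < z * x := by
  rw [lt_iff] at h ⊢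
  simp only [mul_k, mul_l, mul_a, mul_b, mul_c]
  rcases h with h | ⟨h1, h | ⟨h2, h | ⟨h3, h | ⟨h4, h⟩⟩⟩⟩
  · left; omega
  · right; refine ⟨by omega, ?_⟩; left; omega
  · right; refine ⟨by omega, ?_⟩; right; refine ⟨by omega, ?_⟩; left
    rw [h1]; linarith
  · right; refine ⟨by omega, ?_⟩; right; refine ⟨by omega, ?_⟩; right
    refine ⟨by rw [h3, h1], ?_⟩; left
    rw [h2]; linarith
  · right; refine ⟨by omega, ?_⟩; right; refine ⟨by omega, ?_⟩; right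
    refine ⟨by rw [h3, h1], ?_⟩; right
    refine ⟨by rw [h4, h2], ?_⟩
    rw [h1]; omega

instance : MulLeftMono Q := ⟨fun x y z h => by
  rcases h.lt_or_eq with h | h
  · exact (mul_lt_left x y z h).le
  · rw [h]⟩

instance : MulRightMono Q := ⟨fun x y z h => by
  rcases h.lt_or_eq with h | h
  · exact (mul_lt_right x y z h).le
  · rw [h]⟩

instance : MulLeftStrictMono Q := ⟨fun x y z h => mul_lt_left x y z h⟩

instance : MulRightStrictMono Q := ⟨fun x y z h => mul_lt_right x y z h⟩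

/-- The absolute value. -/
noncomputable def ab (x : Q) : Q := x ⊔ x⁻¹

theorem ab_cases (x : Q) : (ab x = x ∧ 1 ≤ x) ∨ (ab x = x⁻¹ ∧ x < 1) := by
  rcases le_or_gt 1 x with h | h
  · left
    refine ⟨?_, h⟩
    apply sup_eq_left.mpr
    exact (Left.inv_le_one_iff.mpr h).trans h
  · right
    refine ⟨?_, h⟩
    apply sup_eq_right.mpr
    exact h.le.trans (Left.one_le_inv_iff.mpr h.le)

theorem one_le_ab (x : Q) : 1 ≤ ab x := by
  rcases ab_cases x with ⟨h, h'⟩ | ⟨h, h'⟩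
  · rw [h]; exact h'
  · rw [h]; exact Left.one_le_inv_iff.mpr h'.le

theorem le_k {x y : Q} (h : x ≤ y) : x.k ≤ y.k := by
  rcases h.lt_or_eq with h | h
  · rw [lt_iff] at h; omega
  · rw [h]

theorem le_l {x y : Q} (h : x ≤ y) (hk : x.k = y.k) : x.l ≤ y.l := by
  rcases h.lt_or_eq with h | h
  · rw [lt_iff] at h; omega
  · rw [h]

theorem le_a {x y : Q} (h : x ≤ y) (hk : x.k = y.k) (hl : x.l = y.l) : x.a ≤ y.a := by
  rcases h.lt_or_eq with h | h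
  · rw [lt_iff] at h
    rcases h with h | ⟨h1, h | ⟨h2, h | ⟨h3, h | ⟨h4, h⟩⟩⟩⟩
    · omega
    · omega
    · exact h.le
    · exact h3.le
    · exact h3.le
  · rw [h]

theorem le_b {x y : Q} (h : x ≤ y) (hk : x.k = y.k) (hl : x.l = y.l) (ha : x.a = y.a) :
    x.b ≤ y.b := by
  rcases h.lt_or_eq with h | h
  · rw [lt_iff] at h
    rcases h with h | ⟨h1, h | ⟨h2, h | ⟨h3, h | ⟨h4, h⟩⟩⟩⟩
    · omega
    · omega
    · exact absurd h (by rw [ha]; exact lt_irrefl _)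
    · exact h.le
    · exact h4.le
  · rw [h]

theorem lt_c {x y : Q} (h : x < y) (hk : x.k = y.k) (hl : x.l = y.l) (ha : x.a = y.a)
    (hb : x.b = y.b) : x.c < y.c := by
  rw [lt_iff] at h
  rcases h with h | ⟨h1, h | ⟨h2, h | ⟨h3, h | ⟨h4, h⟩⟩⟩⟩
  · omega
  · omega
  · exact absurd h (by rw [ha]; exact lt_irrefl _)
  · exact absurd h (by rw [hb]; exact lt_irrefl _)
  · exact h

theorem ab_k (x : Q) : (ab x).k = |x.k| := by
  have h1 := le_k (one_le_ab x)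
  rcases ab_cases x with ⟨h, _⟩ | ⟨h, _⟩
  · rw [h] at h1 ⊢; rw [one_k] at h1; rw [abs_of_nonneg h1]
  · rw [h] at h1 ⊢; rw [one_k, inv_k] at h1; rw [inv_k, abs_of_nonpos (by omega)]

theorem ab_l (x : Q) (hk : x.k = 0) : (ab x).l = |x.l| := by
  have hk' : (1 : Q).k = (ab x).k := by rw [ab_k, hk]; rfl
  have h1 := le_l (one_le_ab x) hk'
  rcases ab_cases x with ⟨h, _⟩ | ⟨h, _⟩
  · rw [h] at h1 ⊢; rw [one_l] at h1; rw [abs_of_nonneg h1]
  · rw [h] at h1 ⊢; rw [one_l, inv_l] at h1; rw [inv_l, abs_of_nonpos (by omega)]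

theorem ab_a (x : Q) (hk : x.k = 0) (hl : x.l = 0) : (ab x).a = |x.a| := by
  have hk' : (1 : Q).k = (ab x).k := by rw [ab_k, hk]; rfl
  have hl' : (1 : Q).l = (ab x).l := by rw [ab_l x hk, hl]; rfl
  have h1 := le_a (one_le_ab x) hk' hl'
  rcases ab_cases x with ⟨h, _⟩ | ⟨h, _⟩
  · rw [h] at h1 ⊢; rw [one_a] at h1; rw [abs_of_nonneg h1]
  · rw [h] at h1 ⊢; rw [one_a, inv_a] at h1; rw [inv_a]
    simp only [hk, neg_zero, zpow_zero, one_mul] at h1 ⊢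
    rw [abs_of_nonpos (by linarith)]

theorem ab_b (x : Q) (hk : x.k = 0) (hl : x.l = 0) (ha : x.a = 0) : (ab x).b = |x.b| := by
  have hk' : (1 : Q).k = (ab x).k := by rw [ab_k, hk]; rfl
  have hl' : (1 : Q).l = (ab x).l := by rw [ab_l x hk, hl]; rfl
  have ha' : (1 : Q).a = (ab x).a := by rw [ab_a x hk hl, ha]; simp
  have h1 := le_b (one_le_ab x) hk' hl' ha'
  rcases ab_cases x with ⟨h, _⟩ | ⟨h, _⟩
  · rw [h] at h1 ⊢; rw [one_b] at h1; rw [abs_of_nonneg h1]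
  · rw [h] at h1 ⊢; rw [one_b, inv_b] at h1; rw [inv_b]
    simp only [hl, neg_zero, zpow_zero, one_mul] at h1 ⊢
    rw [abs_of_nonpos (by linarith)]

theorem ab_c (x : Q) (hk : x.k = 0) (hl : x.l = 0) (ha : x.a = 0) (hb : x.b = 0) :
    (ab x).c = |x.c| := by
  have hk' : (1 : Q).k = (ab x).k := by rw [ab_k, hk]; rfl
  have hl' : (1 : Q).l = (ab x).l := by rw [ab_l x hk, hl]; rfl
  have ha' : (1 : Q).a = (ab x).a := by rw [ab_a x hk hl, ha]; simp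
  have hb' : (1 : Q).b = (ab x).b := by rw [ab_b x hk hl ha, hb]; simp
  have h1 : (0 : ℤ) ≤ (ab x).c := by
    rcases (one_le_ab x).lt_or_eq with h | h
    · exact (lt_c h hk' hl' ha' hb').le
    · rw [← h]; exact le_rfl
  rcases ab_cases x with ⟨h, _⟩ | ⟨h, _⟩
  · rw [h] at h1 ⊢; rw [abs_of_nonneg h1]
  · rw [h] at h1 ⊢; rw [inv_c] at h1 ⊢
    simp only [hk, zero_mul, sub_zero] at h1 ⊢
    rw [abs_of_nonpos (by omega)]

/-- Comparison of `|r|^3 < |c|` in the components. -/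
theorem comp_k {r c : Q} (h : ab r * ab r * ab r < ab c) : 3 * |r.k| ≤ |c.k| := by
  have := le_k h.le
  simp only [mul_k, ab_k] at this
  omega

theorem comp_l {r c : Q} (h : ab r * ab r * ab r < ab c) (hr : r.k = 0) (hc : c.k = 0) :
    3 * |r.l| ≤ |c.l| := by
  have := le_l h.le (by simp only [mul_k, ab_k, hr, hc]; simp)
  simp only [mul_l, ab_l r hr, ab_l c hc] at this
  omega

theorem comp_a {r c : Q} (h : ab r * ab r * ab r < ab c) (hr : r.k = 0) (hc : c.k = 0)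
    (hr' : r.l = 0) (hc' : c.l = 0) : 3 * |r.a| ≤ |c.a| := by
  have := le_a h.le (by simp only [mul_k, ab_k, hr, hc]; simp)
    (by simp only [mul_l, ab_l r hr, ab_l c hc, hr', hc']; simp)
  simp only [mul_a, mul_k, ab_k, hr, ab_a r hr hr', ab_a c hc hc'] at this
  simp only [abs_zero, zpow_zero, one_mul, add_zero] at this
  linarith

theorem comp_b {r c : Q} (h : ab r * ab r * ab r < ab c) (hr : r.k = 0) (hc : c.k = 0)
    (hr' : r.l = 0) (hc' : c.l = 0) (hra : r.a = 0) (hca : c.a = 0) : 3 * |r.b| ≤ |c.b| := by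
  have := le_b h.le (by simp only [mul_k, ab_k, hr, hc]; simp)
    (by simp only [mul_l, ab_l r hr, ab_l c hc, hr', hc']; simp)
    (by simp only [mul_a, mul_k, ab_k, hr, ab_a r hr hr', ab_a c hc hc', hra, hca]; simp)
  simp only [mul_b, mul_l, ab_l r hr, hr', ab_b r hr hr' hra, ab_b c hc hc' hca] at this
  simp only [abs_zero, zpow_zero, one_mul, add_zero] at this
  linarith

theorem comp_c {r c : Q} (h : ab r * ab r * ab r < ab c) (hr : r.k = 0) (hc : c.k = 0)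
    (hr' : r.l = 0) (hc' : c.l = 0) (hra : r.a = 0) (hca : c.a = 0) (hrb : r.b = 0)
    (hcb : c.b = 0) : 3 * |r.c| < |c.c| := by
  have := lt_c h (by simp only [mul_k, ab_k, hr, hc]; simp)
    (by simp only [mul_l, ab_l r hr, ab_l c hc, hr', hc']; simp)
    (by simp only [mul_a, mul_k, ab_k, hr, ab_a r hr hr', ab_a c hc hc', hra, hca]; simp)
    (by simp only [mul_b, mul_l, ab_l r hr, hr', ab_b r hr hr' hra, ab_b c hc hc' hca, hrb,
          hcb]; simp)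
  simp only [mul_c, mul_k, ab_k, hr, ab_c r hr hr' hra hrb, ab_c c hc hc' hca hcb] at this
  simp only [abs_zero, zero_mul, sub_zero, add_zero] at this
  linarith

theorem zpow_eq_one_of {k : ℤ} (h1 : (5 / 3 : ℚ) ≤ 2 ^ k) (h2 : (2 : ℚ) ^ k ≤ 7 / 3) : k = 1 := by
  rcases lt_trichotomy k 1 with h | h | h
  · have : (2 : ℚ) ^ k ≤ 2 ^ (0 : ℤ) := zpow_le_zpow_right₀ (by norm_num) (by omega)
    rw [zpow_zero] at this
    linarith
  · exact h
  · have : (2 : ℚ) ^ (2 : ℤ) ≤ 2 ^ k := zpow_le_zpow_right₀ (by norm_num) (by omega)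
    norm_num at this
    linarith

theorem zpow_eq_zero_of {k : ℤ} (h1 : (2 / 3 : ℚ) ≤ 2 ^ k) (h2 : (2 : ℚ) ^ k ≤ 4 / 3) : k = 0 := by
  rcases lt_trichotomy k 0 with h | h | h
  · have : (2 : ℚ) ^ k ≤ 2 ^ (-1 : ℤ) := zpow_le_zpow_right₀ (by norm_num) (by omega)
    norm_num at this
    linarith
  · exact h
  · have : (2 : ℚ) ^ (1 : ℤ) ≤ 2 ^ k := zpow_le_zpow_right₀ (by norm_num) (by omega)
    norm_num at this
    linarith

theorem double_aux {k : ℤ} {a : ℚ} (ha : a ≠ 0) (h : 3 * |2 * a - 2 ^ k * a| ≤ |a|) : k = 1 := by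
  have h1 : |2 * a - 2 ^ k * a| = |2 - (2 : ℚ) ^ k| * |a| := by
    rw [← abs_mul]; congr 1; ring
  have h2 : 0 < |a| := abs_pos.mpr ha
  rw [h1] at h
  have h3 : 3 * |2 - (2 : ℚ) ^ k| ≤ 1 := by
    by_contra hcon
    push Not at hcon
    have := mul_lt_mul_of_pos_right hcon h2
    linarith
  have h4 : |2 - (2 : ℚ) ^ k| ≤ 1 / 3 := by linarith
  rw [abs_le] at h4
  exact zpow_eq_one_of (by linarith) (by linarith)

theorem comm_aux {k : ℤ} {a : ℚ} (ha : a ≠ 0) (h : 3 * |2 ^ k * a - a| ≤ |a|) : k = 0 := by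
  have h1 : |2 ^ k * a - a| = |(2 : ℚ) ^ k - 1| * |a| := by
    rw [← abs_mul]; congr 1; ring
  have h2 : 0 < |a| := abs_pos.mpr ha
  rw [h1] at h
  have h3 : 3 * |(2 : ℚ) ^ k - 1| ≤ 1 := by
    by_contra hcon
    push Not at hcon
    have := mul_lt_mul_of_pos_right hcon h2
    linarith
  have h4 : |(2 : ℚ) ^ k - 1| ≤ 1 / 3 := by linarith
  rw [abs_le] at h4
  exact zpow_eq_zero_of (by linarith) (by linarith)

/-- The doubling test. -/
theorem double_test {s c : Q}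
    (h : ab ((c * c) * (s * c * s⁻¹)⁻¹) * ab ((c * c) * (s * c * s⁻¹)⁻¹) *
      ab ((c * c) * (s * c * s⁻¹)⁻¹) < ab c) :
    c.k = 0 ∧ c.l = 0 ∧ ((c.a ≠ 0 ∧ s.k = 1) ∨ (c.a = 0 ∧ c.b ≠ 0 ∧ s.l = 1)) := by
  set r := (c * c) * (s * c * s⁻¹)⁻¹ with hr
  have hrk : r.k = c.k := by rw [hr]; simp
  have h1 := comp_k h
  rw [hrk] at h1
  have hck : c.k = 0 := by
    have : |c.k| ≤ 0 := by have := abs_nonneg c.k; omega
    exact abs_nonpos_iff.mp this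
  have hrl : r.l = c.l := by rw [hr]; simp
  have h2 := comp_l h (by rw [hrk, hck]) hck
  rw [hrl] at h2
  have hcl : c.l = 0 := by
    have : |c.l| ≤ 0 := by have := abs_nonneg c.l; omega
    exact abs_nonpos_iff.mp this
  refine ⟨hck, hcl, ?_⟩
  have hra : r.a = 2 * c.a - 2 ^ s.k * c.a := by
    have h2s : (2 : ℚ) ^ s.k ≠ 0 := by positivity
    rw [hr]; simp [hck]; field_simp; ring
  have hrb : r.b = 2 * c.b - 2 ^ s.l * c.b := by
    have h2s : (2 : ℚ) ^ s.l ≠ 0 := by positivity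
    rw [hr]; simp [hcl]; field_simp; ring
  have hrc : r.c = c.c := by
    rw [hr]; simp [hck, hcl]; ring
  have h3 := comp_a h (by rw [hrk, hck]) hck (by rw [hrl, hcl]) hcl
  by_cases ha : c.a = 0
  · right
    refine ⟨ha, ?_⟩
    have hra0 : r.a = 0 := by rw [hra, ha]; ring
    have h4 := comp_b h (by rw [hrk, hck]) hck (by rw [hrl, hcl]) hcl hra0 ha
    by_cases hb : c.b = 0
    · exfalso
      have hrb0 : r.b = 0 := by rw [hrb, hb]; ring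
      have h5 := comp_c h (by rw [hrk, hck]) hck (by rw [hrl, hcl]) hcl hra0 ha hrb0 hb
      rw [hrc] at h5
      have := abs_nonneg c.c
      omega
    · refine ⟨hb, ?_⟩
      rw [hrb] at h4
      exact double_aux hb h4
  · left
    refine ⟨ha, ?_⟩
    rw [hra] at h3
    exact double_aux ha h3

/-- The commutator test. -/
theorem comm_test {s c : Q} (hck : c.k = 0) (hcl : c.l = 0)
    (h : ab (s * c * s⁻¹ * c⁻¹) * ab (s * c * s⁻¹ * c⁻¹) * ab (s * c * s⁻¹ * c⁻¹) < ab c) :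
    (c.a ≠ 0 → s.k = 0) ∧ (c.a = 0 → c.b ≠ 0 → s.l = 0) := by
  set r := s * c * s⁻¹ * c⁻¹ with hr
  have hrk : r.k = 0 := by rw [hr]; simp
  have hrl : r.l = 0 := by rw [hr]; simp
  have hra : r.a = 2 ^ s.k * c.a - c.a := by
    have h2s : (2 : ℚ) ^ s.k ≠ 0 := by positivity
    rw [hr]; simp [hck]; field_simp; ring
  have hrb : r.b = 2 ^ s.l * c.b - c.b := by
    have h2s : (2 : ℚ) ^ s.l ≠ 0 := by positivity
    rw [hr]; simp [hcl]; field_simp; ring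
  have h3 := comp_a h hrk hck hrl hcl
  refine ⟨fun ha => ?_, fun ha hb => ?_⟩
  · rw [hra] at h3
    exact comm_aux ha h3
  · have h4 := comp_b h hrk hck hrl hcl (by rw [hra, ha]; ring) ha
    rw [hrb] at h4
    exact comm_aux hb h4

/-- The element `z`. -/
def z : Q := ⟨0, 0, 0, 0, 1⟩

theorem dbl_comp (s c : Q) (hck : c.k = 0) (hcl : c.l = 0) :
    ((c * c) * (s * c * s⁻¹)⁻¹).k = 0 ∧ ((c * c) * (s * c * s⁻¹)⁻¹).l = 0 ∧
    ((c * c) * (s * c * s⁻¹)⁻¹).a = 2 * c.a - 2 ^ s.k * c.a ∧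
    ((c * c) * (s * c * s⁻¹)⁻¹).b = 2 * c.b - 2 ^ s.l * c.b ∧
    ((c * c) * (s * c * s⁻¹)⁻¹).c = c.c := by
  refine ⟨by simp [hck], by simp [hcl], ?_, ?_, ?_⟩
  · have h2s : (2 : ℚ) ^ s.k ≠ 0 := by positivity
    simp [hck]; field_simp; ring
  · have h2s : (2 : ℚ) ^ s.l ≠ 0 := by positivity
    simp [hcl]; field_simp; ring
  · simp [hck, hcl]; ring

theorem v_eq {s t : Q} (hs : s.k = 1 ∧ s.l = 0) (ht : t.k = 0 ∧ t.l = 1) :
    ab (((s * t * s⁻¹ * t⁻¹) * (s * t * s⁻¹ * t⁻¹)) *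
      ((s * t) * (s * t * s⁻¹ * t⁻¹) * (s * t)⁻¹)⁻¹) = z := by
  obtain ⟨h1, h2⟩ := hs
  obtain ⟨h3, h4⟩ := ht
  set u := s * t * s⁻¹ * t⁻¹ with hu
  have uk : u.k = 0 := by rw [hu]; simp
  have ul : u.l = 0 := by rw [hu]; simp
  have uc : u.c = -1 := by rw [hu]; simp [h1, h2, h3, h4]; ring
  obtain ⟨vk, vl, va, vb, vc⟩ := dbl_comp (s * t) u uk ul
  have va' : ((u * u) * (s * t * u * (s * t)⁻¹)⁻¹).a = 0 := by
    rw [va, mul_k, h1, h3]; norm_num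
  have vb' : ((u * u) * (s * t * u * (s * t)⁻¹)⁻¹).b = 0 := by
    rw [vb, mul_l, h2, h4]; norm_num
  ext
  · rw [ab_k, vk]; simp [z]
  · rw [ab_l _ vk, vl]; simp [z]
  · rw [ab_a _ vk vl, va']; simp [z]
  · rw [ab_b _ vk vl va', vb']; simp [z]
  · rw [ab_c _ vk vl va' vb', vc, uc]; simp [z]

theorem v_eq' {s t : Q} (hs : s.k = 0 ∧ s.l = 1) (ht : t.k = 1 ∧ t.l = 0) :
    ab (((s * t * s⁻¹ * t⁻¹) * (s * t * s⁻¹ * t⁻¹)) *
      ((s * t) * (s * t * s⁻¹ * t⁻¹) * (s * t)⁻¹)⁻¹) = z := by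
  obtain ⟨h1, h2⟩ := hs
  obtain ⟨h3, h4⟩ := ht
  set u := s * t * s⁻¹ * t⁻¹ with hu
  have uk : u.k = 0 := by rw [hu]; simp
  have ul : u.l = 0 := by rw [hu]; simp
  have uc : u.c = 1 := by rw [hu]; simp [h1, h2, h3, h4]
  obtain ⟨vk, vl, va, vb, vc⟩ := dbl_comp (s * t) u uk ul
  have va' : ((u * u) * (s * t * u * (s * t)⁻¹)⁻¹).a = 0 := by
    rw [va, mul_k, h1, h3]; norm_num
  have vb' : ((u * u) * (s * t * u * (s * t)⁻¹)⁻¹).b = 0 := by
    rw [vb, mul_l, h2, h4]; norm_num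
  ext
  · rw [ab_k, vk]; simp [z]
  · rw [ab_l _ vk, vl]; simp [z]
  · rw [ab_a _ vk vl, va']; simp [z]
  · rw [ab_b _ vk vl va', vb']; simp [z]
  · rw [ab_c _ vk vl va' vb', vc, uc]; simp [z]

/-- If all four tests are passed, then `|v| = z`. -/
theorem key {s t c d : Q}
    (h11 : ab ((c * c) * (s * c * s⁻¹)⁻¹) * ab ((c * c) * (s * c * s⁻¹)⁻¹) *
      ab ((c * c) * (s * c * s⁻¹)⁻¹) < ab c)
    (h12 : ab (t * c * t⁻¹ * c⁻¹) * ab (t * c * t⁻¹ * c⁻¹) * ab (t * c * t⁻¹ * c⁻¹) < ab c)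
    (h21 : ab (s * d * s⁻¹ * d⁻¹) * ab (s * d * s⁻¹ * d⁻¹) * ab (s * d * s⁻¹ * d⁻¹) < ab d)
    (h22 : ab ((d * d) * (t * d * t⁻¹)⁻¹) * ab ((d * d) * (t * d * t⁻¹)⁻¹) *
      ab ((d * d) * (t * d * t⁻¹)⁻¹) < ab d) :
    ab (((s * t * s⁻¹ * t⁻¹) * (s * t * s⁻¹ * t⁻¹)) *
      ((s * t) * (s * t * s⁻¹ * t⁻¹) * (s * t)⁻¹)⁻¹) = z := by
  obtain ⟨ck, cl, hc⟩ := double_test h11
  obtain ⟨dk, dl, hd⟩ := double_test h22
  obtain ⟨e1, e2⟩ := comm_test ck cl h12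
  obtain ⟨f1, f2⟩ := comm_test dk dl h21
  rcases hc with ⟨ca, sk⟩ | ⟨ca, cb, sl⟩
  · have tk := e1 ca
    rcases hd with ⟨da, tk'⟩ | ⟨da, db, tl⟩
    · omega
    · have sl := f2 da db
      exact v_eq ⟨sk, sl⟩ ⟨tk, tl⟩
  · have tl := e2 ca cb
    rcases hd with ⟨da, tk⟩ | ⟨da, db, tl'⟩
    · have sk := f1 da
      exact v_eq' ⟨sk, sl⟩ ⟨tk, tl⟩
    · omega

theorem one_le_z : (1 : Q) ≤ z := by
  apply le_of_lt
  rw [lt_iff]
  simp [z]

end Q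

/-! ### The word `w` -/

/-- The semantic value of the test `T(c,r) = (|c| |r|⁻³) ∨ 1`. -/
def tval {G : Type*} [Group G] [Lattice G] (c r : G) : G :=
  ((c ⊔ c⁻¹) * ((r ⊔ r⁻¹) * (r ⊔ r⁻¹) * (r ⊔ r⁻¹))⁻¹) ⊔ 1

/-- The semantic value of the word `w`. -/
def wval {G : Type*} [Group G] [Lattice G] (s t c d : G) : G :=
  ((((s * t * s⁻¹ * t⁻¹) * (s * t * s⁻¹ * t⁻¹)) *
      ((s * t) * (s * t * s⁻¹ * t⁻¹) * (s * t)⁻¹)⁻¹) ⊔
    (((s * t * s⁻¹ * t⁻¹) * (s * t * s⁻¹ * t⁻¹)) *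
      ((s * t) * (s * t * s⁻¹ * t⁻¹) * (s * t)⁻¹)⁻¹)⁻¹) ⊓
  ((tval c ((c * c) * (s * c * s⁻¹)⁻¹) ⊓ tval c (t * c * t⁻¹ * c⁻¹)) ⊓
   (tval d (s * d * s⁻¹ * d⁻¹) ⊓ tval d ((d * d) * (t * d * t⁻¹)⁻¹)))

theorem one_le_wval_Q (s t c d : Q) : 1 ≤ wval s t c d := by
  refine le_inf (Q.one_le_ab _) (le_inf (le_inf ?_ ?_) (le_inf ?_ ?_)) <;> exact le_sup_right

theorem tval_Q {c r : Q} (h : ¬ tval c r ≤ 1) : Q.ab r * Q.ab r * Q.ab r < Q.ab c := by
  by_contra hcon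
  push Not at hcon
  apply h
  refine sup_le ?_ le_rfl
  rw [mul_inv_le_iff_le_mul, one_mul]
  exact hcon

theorem wval_Q_le (s t c d : Q) : wval s t c d ≤ Q.z := by
  by_cases h11 : tval c ((c * c) * (s * c * s⁻¹)⁻¹) ≤ 1
  · exact ((inf_le_right.trans (inf_le_left.trans inf_le_left)).trans h11).trans Q.one_le_z
  by_cases h12 : tval c (t * c * t⁻¹ * c⁻¹) ≤ 1
  · exact ((inf_le_right.trans (inf_le_left.trans inf_le_right)).trans h12).trans Q.one_le_z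
  by_cases h21 : tval d (s * d * s⁻¹ * d⁻¹) ≤ 1
  · exact ((inf_le_right.trans (inf_le_right.trans inf_le_left)).trans h21).trans Q.one_le_z
  by_cases h22 : tval d ((d * d) * (t * d * t⁻¹)⁻¹) ≤ 1
  · exact ((inf_le_right.trans (inf_le_right.trans inf_le_right)).trans h22).trans Q.one_le_z
  refine inf_le_left.trans ?_
  exact (Q.key (tval_Q h11) (tval_Q h12) (tval_Q h21) (tval_Q h22)).le

namespace LTerm

/-- `|t| = t ∨ t⁻¹` -/
def absT (t : LTerm) : LTerm := .sup t (.inv t)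

/-- The test term. -/
def tT (c r : LTerm) : LTerm :=
  .sup (.mul (absT c) (.inv (.mul (.mul (absT r) (absT r)) (absT r)))) .one

/-- `c² (s c s⁻¹)⁻¹` -/
def dbl (s c : LTerm) : LTerm := .mul (.mul c c) (.inv (.mul (.mul s c) (.inv s)))

/-- `s c s⁻¹ c⁻¹` -/
def com (s c : LTerm) : LTerm := .mul (.mul (.mul s c) (.inv s)) (.inv c)

/-- The word `w`. -/
def w : LTerm :=
  .inf (absT (dbl (.mul (.var 0) (.var 1)) (com (.var 0) (.var 1))))
    (.inf (.inf (tT (.var 2) (dbl (.var 0) (.var 2))) (tT (.var 2) (com (.var 1) (.var 2))))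
      (.inf (tT (.var 3) (com (.var 0) (.var 3))) (tT (.var 3) (dbl (.var 1) (.var 3)))))

theorem eval_w {G : Type*} [Group G] [Lattice G] (v : ℕ → G) :
    w.eval v = wval (v 0) (v 1) (v 2) (v 3) := rfl

end LTerm

theorem wval_hom {G H : Type*} [Group G] [Lattice G] [Group H] [Lattice H] (π : G →* H)
    (hs : ∀ x y, π (x ⊔ y) = π x ⊔ π y) (hi : ∀ x y, π (x ⊓ y) = π x ⊓ π y) (s t c d : G) :
    wval (π s) (π t) (π c) (π d) = π (wval s t c d) := by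
  simp only [wval, tval, map_mul, map_inv, map_one, hs, hi]

/-- The value `z` is taken. -/
theorem wval_Q_eq : wval (⟨1, 0, 0, 0, 0⟩ : Q) ⟨0, 1, 0, 0, 0⟩ ⟨0, 0, 1, 0, 0⟩ ⟨0, 0, 0, 1, 0⟩
    = Q.z := by
  apply le_antisymm (wval_Q_le _ _ _ _)
  have hv := Q.v_eq (s := (⟨1, 0, 0, 0, 0⟩ : Q)) (t := ⟨0, 1, 0, 0, 0⟩) ⟨rfl, rfl⟩ ⟨rfl, rfl⟩
  refine le_inf hv.ge ?_
  have h11 : ((⟨0, 0, 1, 0, 0⟩ : Q) * ⟨0, 0, 1, 0, 0⟩) *
      ((⟨1, 0, 0, 0, 0⟩ : Q) * ⟨0, 0, 1, 0, 0⟩ * (⟨1, 0, 0, 0, 0⟩ : Q)⁻¹)⁻¹ = 1 := by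
    ext <;> (simp; try norm_num)
  have h12 : (⟨0, 1, 0, 0, 0⟩ : Q) * ⟨0, 0, 1, 0, 0⟩ * (⟨0, 1, 0, 0, 0⟩ : Q)⁻¹ *
      (⟨0, 0, 1, 0, 0⟩ : Q)⁻¹ = 1 := by
    ext <;> simp
  have h21 : (⟨1, 0, 0, 0, 0⟩ : Q) * ⟨0, 0, 0, 1, 0⟩ * (⟨1, 0, 0, 0, 0⟩ : Q)⁻¹ *
      (⟨0, 0, 0, 1, 0⟩ : Q)⁻¹ = 1 := by
    ext <;> simp
  have h22 : ((⟨0, 0, 0, 1, 0⟩ : Q) * ⟨0, 0, 0, 1, 0⟩) *
      ((⟨0, 1, 0, 0, 0⟩ : Q) * ⟨0, 0, 0, 1, 0⟩ * (⟨0, 1, 0, 0, 0⟩ : Q)⁻¹)⁻¹ = 1 := by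
    ext <;> (simp; try norm_num)
  have hc : Q.z ≤ tval (⟨0, 0, 1, 0, 0⟩ : Q) 1 := by
    refine le_trans ?_ le_sup_left
    simp only [inv_one, sup_idem, mul_one]
    refine le_trans ?_ le_sup_left
    apply le_of_lt
    rw [Q.lt_iff]
    simp [Q.z]
  have hd : Q.z ≤ tval (⟨0, 0, 0, 1, 0⟩ : Q) 1 := by
    refine le_trans ?_ le_sup_left
    simp only [inv_one, sup_idem, mul_one]
    refine le_trans ?_ le_sup_left
    apply le_of_lt
    rw [Q.lt_iff]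
    simp [Q.z]
  rw [h11, h12, h21, h22]
  exact le_inf (le_inf hc hc) (le_inf hd hd)

end Pool.Agent.Helper6.LVar
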