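import Pool.Agent.Helper6.LVarDefs

set_option autoImplicit false
set_option linter.unusedSectionVars false
set_option linter.style.haveILetI false

namespace Pool.Agent.Helper6.LVar

theorem eval_hom {G H : Type*} [Group G] [Lattice G] [Group H] [Lattice H] (π : G →* H)
    (hs : ∀ x y, π (x ⊔ y) = π x ⊔ π y) (hi : ∀ x y, π (x ⊓ y) = π x ⊓ π y)
    (v : ℕ → G) (t : LTerm) :
    t.eval (fun i => π (v i)) = π (t.eval v) := by
  induction t with
  | var i => rfl
  | one => simp [LTerm.eval]
  | mul s t h1 h2 => simp [LTerm.eval, h1, h2]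
  | inv t h1 => simp [LTerm.eval, h1]
  | sup s t h1 h2 => simp [LTerm.eval, h1, h2, hs]
  | inf s t h1 h2 => simp [LTerm.eval, h1, h2, hi]

section Quot

variable {G : Type*} [Group G] [Lattice G] [MulLeftMono G] [MulRightMono G]

theorem sup_congr_aux {N : Subgroup G} (hN : IsLIdeal N) {x x' y y' : G}
    (hx : x⁻¹ * x' ∈ N) (hy : y⁻¹ * y' ∈ N) : (x ⊔ y)⁻¹ * (x' ⊔ y') ∈ N := by
  set n := x⁻¹ * x' with hn
  set m := y⁻¹ * y' with hm
  set p := (n ⊔ n⁻¹) ⊔ (m ⊔ m⁻¹) with hp
  have hpN : p ∈ N :=
    hN.sup_mem _ (hN.sup_mem _ hx _ (N.inv_mem hx)) _ (hN.sup_mem _ hy _ (N.inv_mem hy))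
  have hx' : x' = x * n := by rw [hn]; group
  have hy' : y' = y * m := by rw [hm]; group
  have hx'' : x = x' * n⁻¹ := by rw [hn]; group
  have hy'' : y = y' * m⁻¹ := by rw [hm]; group
  have n1 : n ≤ p := le_sup_left.trans le_sup_left
  have n2 : n⁻¹ ≤ p := le_sup_right.trans le_sup_left
  have m1 : m ≤ p := le_sup_left.trans le_sup_right
  have m2 : m⁻¹ ≤ p := le_sup_right.trans le_sup_right
  have h1 : x' ⊔ y' ≤ (x ⊔ y) * p := by
    apply sup_le
    · rw [hx']; exact mul_le_mul' le_sup_left n1
    · rw [hy']; exact mul_le_mul' le_sup_right m1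
  have h2 : x ⊔ y ≤ (x' ⊔ y') * p := by
    apply sup_le
    · rw [hx'']; exact mul_le_mul' le_sup_left n2
    · rw [hy'']; exact mul_le_mul' le_sup_right m2
  refine hN.convex _ (N.inv_mem hpN) _ hpN _ ?_ ?_
  · rw [le_inv_mul_iff_mul_le]
    exact mul_inv_le_iff_le_mul.mpr h2
  · rw [inv_mul_le_iff_le_mul]; exact h1

theorem inf_congr_aux {N : Subgroup G} (hN : IsLIdeal N) {x x' y y' : G}
    (hx : x⁻¹ * x' ∈ N) (hy : y⁻¹ * y' ∈ N) : (x ⊓ y)⁻¹ * (x' ⊓ y') ∈ N := by
  set n := x⁻¹ * x' with hn
  set m := y⁻¹ * y' with hm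
  set p := (n ⊔ n⁻¹) ⊔ (m ⊔ m⁻¹) with hp
  have hpN : p ∈ N :=
    hN.sup_mem _ (hN.sup_mem _ hx _ (N.inv_mem hx)) _ (hN.sup_mem _ hy _ (N.inv_mem hy))
  have hx' : x' = x * n := by rw [hn]; group
  have hy' : y' = y * m := by rw [hm]; group
  have hx'' : x = x' * n⁻¹ := by rw [hn]; group
  have hy'' : y = y' * m⁻¹ := by rw [hm]; group
  have n1 : n ≤ p := le_sup_left.trans le_sup_left
  have n2 : n⁻¹ ≤ p := le_sup_right.trans le_sup_left
  have m1 : m ≤ p := le_sup_left.trans le_sup_right
  have m2 : m⁻¹ ≤ p := le_sup_right.trans le_sup_right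
  have h1 : (x' ⊓ y') * p⁻¹ ≤ x ⊓ y := by
    apply le_inf
    · rw [mul_inv_le_iff_le_mul]
      refine inf_le_left.trans ?_
      rw [hx']; exact mul_le_mul' le_rfl n1
    · rw [mul_inv_le_iff_le_mul]
      refine inf_le_right.trans ?_
      rw [hy']; exact mul_le_mul' le_rfl m1
  have h2 : (x ⊓ y) * p⁻¹ ≤ x' ⊓ y' := by
    apply le_inf
    · rw [mul_inv_le_iff_le_mul]
      refine inf_le_left.trans ?_
      conv_lhs => rw [hx'']
      exact mul_le_mul' le_rfl n2
    · rw [mul_inv_le_iff_le_mul]
      refine inf_le_right.trans ?_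
      conv_lhs => rw [hy'']
      exact mul_le_mul' le_rfl m2
  refine hN.convex _ (N.inv_mem hpN) _ hpN _ ?_ ?_
  · rw [le_inv_mul_iff_mul_le]
    exact h2
  · rw [inv_mul_le_iff_le_mul, ← mul_inv_le_iff_le_mul]; exact h1

/-- The supremum operation on the quotient by an `ℓ`-ideal. -/
def quotSup (N : Subgroup G) (hN : IsLIdeal N) : G ⧸ N → G ⧸ N → G ⧸ N :=
  Quotient.map₂ (fun x y : G => x ⊔ y) (by
    intro x x' hx y y' hy
    exact QuotientGroup.leftRel_apply.mpr (sup_congr_aux hN
      (QuotientGroup.leftRel_apply.mp hx) (QuotientGroup.leftRel_apply.mp hy)))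

/-- The infimum operation on the quotient by an `ℓ`-ideal. -/
def quotInf (N : Subgroup G) (hN : IsLIdeal N) : G ⧸ N → G ⧸ N → G ⧸ N :=
  Quotient.map₂ (fun x y : G => x ⊓ y) (by
    intro x x' hx y y' hy
    exact QuotientGroup.leftRel_apply.mpr (inf_congr_aux hN
      (QuotientGroup.leftRel_apply.mp hx) (QuotientGroup.leftRel_apply.mp hy)))

theorem quotSup_mk (N : Subgroup G) (hN : IsLIdeal N) (x y : G) :
    quotSup N hN (x : G ⧸ N) (y : G ⧸ N) = ((x ⊔ y : G) : G ⧸ N) := rfl

theorem quotInf_mk (N : Subgroup G) (hN : IsLIdeal N) (x y : G) :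
    quotInf N hN (x : G ⧸ N) (y : G ⧸ N) = ((x ⊓ y : G) : G ⧸ N) := rfl

/-- The lattice structure on the quotient by an `ℓ`-ideal. -/
@[reducible] def quotLattice (N : Subgroup G) (hN : IsLIdeal N) : Lattice (G ⧸ N) :=
  @Lattice.mk' (G ⧸ N) ⟨quotSup N hN⟩ ⟨quotInf N hN⟩
    (by
      intro a b
      induction a using QuotientGroup.induction_on
      induction b using QuotientGroup.induction_on
      change quotSup N hN _ _ = quotSup N hN _ _
      rw [quotSup_mk, quotSup_mk, sup_comm])
    (by
      intro a b c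
      induction a using QuotientGroup.induction_on
      induction b using QuotientGroup.induction_on
      induction c using QuotientGroup.induction_on
      change quotSup N hN (quotSup N hN _ _) _ = quotSup N hN _ (quotSup N hN _ _)
      rw [quotSup_mk, quotSup_mk, quotSup_mk, quotSup_mk, sup_assoc])
    (by
      intro a b
      induction a using QuotientGroup.induction_on
      induction b using QuotientGroup.induction_on
      change quotInf N hN _ _ = quotInf N hN _ _
      rw [quotInf_mk, quotInf_mk, inf_comm])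
    (by
      intro a b c
      induction a using QuotientGroup.induction_on
      induction b using QuotientGroup.induction_on
      induction c using QuotientGroup.induction_on
      change quotInf N hN (quotInf N hN _ _) _ = quotInf N hN _ (quotInf N hN _ _)
      rw [quotInf_mk, quotInf_mk, quotInf_mk, quotInf_mk, inf_assoc])
    (by
      intro a b
      induction a using QuotientGroup.induction_on
      induction b using QuotientGroup.induction_on
      change quotSup N hN _ (quotInf N hN _ _) = _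
      rw [quotInf_mk, quotSup_mk, sup_inf_self])
    (by
      intro a b
      induction a using QuotientGroup.induction_on
      induction b using QuotientGroup.induction_on
      change quotInf N hN _ (quotSup N hN _ _) = _
      rw [quotSup_mk, quotInf_mk, inf_sup_self])

theorem quotLattice_sup (N : Subgroup G) (hN : IsLIdeal N) (x y : G) :
    letI := quotLattice N hN
    ((x ⊔ y : G) : G ⧸ N) = (x : G ⧸ N) ⊔ (y : G ⧸ N) := rfl

theorem quotLattice_inf (N : Subgroup G) (hN : IsLIdeal N) (x y : G) :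
    letI := quotLattice N hN
    ((x ⊓ y : G) : G ⧸ N) = (x : G ⧸ N) ⊓ (y : G ⧸ N) := rfl

theorem quotLattice_mulLeftMono (N : Subgroup G) [N.Normal] (hN : IsLIdeal N) :
    letI := quotLattice N hN
    MulLeftMono (G ⧸ N) := by
  letI := quotLattice N hN
  constructor
  intro c a b hab
  induction a using QuotientGroup.induction_on with | _ a => ?_
  induction b using QuotientGroup.induction_on with | _ b => ?_
  induction c using QuotientGroup.induction_on with | _ c => ?_
  rw [← sup_eq_right] at hab ⊢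
  change ((c * a : G) : G ⧸ N) ⊔ ((c * b : G) : G ⧸ N) = ((c * b : G) : G ⧸ N)
  rw [← quotLattice_sup N hN, ← mul_sup, QuotientGroup.mk_mul, quotLattice_sup N hN, hab]
  rfl

theorem quotLattice_mulRightMono (N : Subgroup G) [N.Normal] (hN : IsLIdeal N) :
    letI := quotLattice N hN
    MulRightMono (G ⧸ N) := by
  letI := quotLattice N hN
  constructor
  intro c a b hab
  induction a using QuotientGroup.induction_on with | _ a => ?_
  induction b using QuotientGroup.induction_on with | _ b => ?_
  induction c using QuotientGroup.induction_on with | _ c => ?_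
  rw [← sup_eq_right] at hab ⊢
  change ((a * c : G) : G ⧸ N) ⊔ ((b * c : G) : G ⧸ N) = ((b * c : G) : G ⧸ N)
  rw [← quotLattice_sup N hN, ← sup_mul, QuotientGroup.mk_mul, quotLattice_sup N hN, hab]
  rfl

end Quot

end Pool.Agent.Helper6.LVar
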