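import Pool.Agent.Helper6.LVarDefs

set_option autoImplicit false

namespace Pool.Agent.Helper6.LVar

/-- Every variable `x_i` occurring in the term has index `i < n`. -/
def LTerm.VarsLT (n : ℕ) : LTerm → Prop
  | .var i => i < n
  | .one => True
  | .mul s t => LTerm.VarsLT n s ∧ LTerm.VarsLT n t
  | .inv t => LTerm.VarsLT n t
  | .sup s t => LTerm.VarsLT n s ∧ LTerm.VarsLT n t
  | .inf s t => LTerm.VarsLT n s ∧ LTerm.VarsLT n t

end Pool.Agent.Helper6.LVar
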