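import Pool.Agent.Helper6.LVarQuot
import Pool.Agent.Helper6.LVarVars

set_option autoImplicit false
set_option linter.unusedSectionVars false
set_option linter.style.haveILetI false

namespace Pool.Agent.Helper6.LVar

/-- Substitution. -/
def LTerm.subst (σ : ℕ → LTerm) : LTerm → LTerm
  | .var i => σ i
  | .one => .one
  | .mul s t => .mul (LTerm.subst σ s) (LTerm.subst σ t)
  | .inv t => .inv (LTerm.subst σ t)
  | .sup s t => .sup (LTerm.subst σ s) (LTerm.subst σ t)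
  | .inf s t => .inf (LTerm.subst σ s) (LTerm.subst σ t)

theorem eval_subst {G : Type*} [Group G] [Lattice G] (v : ℕ → G) (σ : ℕ → LTerm) (t : LTerm) :
    (t.subst σ).eval v = t.eval (fun i => (σ i).eval v) := by
  induction t with
  | var i => rfl
  | one => rfl
  | mul s t h1 h2 => simp [LTerm.eval, LTerm.subst, h1, h2]
  | inv t h1 => simp [LTerm.eval, LTerm.subst, h1]
  | sup s t h1 h2 => simp [LTerm.eval, LTerm.subst, h1, h2]
  | inf s t h1 h2 => simp [LTerm.eval, LTerm.subst, h1, h2]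

theorem varsLT_subst {n m : ℕ} (σ : ℕ → LTerm) (t : LTerm) (ht : t.VarsLT n)
    (hσ : ∀ i < n, (σ i).VarsLT m) : (t.subst σ).VarsLT m := by
  induction t with
  | var i => exact hσ i ht
  | one => exact trivial
  | mul s t h1 h2 => exact ⟨h1 ht.1, h2 ht.2⟩
  | inv t h1 => exact h1 ht
  | sup s t h1 h2 => exact ⟨h1 ht.1, h2 ht.2⟩
  | inf s t h1 h2 => exact ⟨h1 ht.1, h2 ht.2⟩

theorem eval_congr {G : Type*} [Group G] [Lattice G] {n : ℕ} {v v' : ℕ → G} {t : LTerm}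
    (ht : t.VarsLT n) (h : ∀ i < n, v i = v' i) : t.eval v = t.eval v' := by
  induction t with
  | var i => exact h i ht
  | one => rfl
  | mul s t h1 h2 => simp [LTerm.eval, h1 ht.1, h2 ht.2]
  | inv t h1 => simp [LTerm.eval, h1 ht]
  | sup s t h1 h2 => simp [LTerm.eval, h1 ht.1, h2 ht.2]
  | inf s t h1 h2 => simp [LTerm.eval, h1 ht.1, h2 ht.2]

theorem eval_one {G : Type*} [Group G] [Lattice G] (t : LTerm) :
    t.eval (fun _ => (1 : G)) = 1 := by
  induction t with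
  | var i => rfl
  | one => rfl
  | mul s t h1 h2 => simp [LTerm.eval, h1, h2]
  | inv t h1 => simp [LTerm.eval, h1]
  | sup s t h1 h2 => simp [LTerm.eval, h1, h2]
  | inf s t h1 h2 => simp [LTerm.eval, h1, h2]

/-- Convex `ℓ`-subgroups. -/
structure IsCvx {G : Type*} [Group G] [Lattice G] (N : Subgroup G) : Prop where
  sup_mem : ∀ x ∈ N, ∀ y ∈ N, x ⊔ y ∈ N
  inf_mem : ∀ x ∈ N, ∀ y ∈ N, x ⊓ y ∈ N
  convex : ∀ x ∈ N, ∀ y ∈ N, ∀ g : G, x ≤ g → g ≤ y → g ∈ N

/-- Terms for powers. -/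
def LTerm.pow (t : LTerm) : ℕ → LTerm
  | 0 => .one
  | n + 1 => .mul (LTerm.pow t n) t

theorem eval_pow {G : Type*} [Group G] [Lattice G] (v : ℕ → G) (t : LTerm) (m : ℕ) :
    (t.pow m).eval v = (t.eval v) ^ m := by
  induction m with
  | zero => simp [LTerm.pow, LTerm.eval]
  | succ m ih => simp [LTerm.pow, LTerm.eval, ih, pow_succ]

theorem varsLT_pow {n : ℕ} {t : LTerm} (ht : t.VarsLT n) (m : ℕ) : (t.pow m).VarsLT n := by
  induction m with
  | zero => exact trivial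
  | succ m ih => exact ⟨ih, ht⟩

/-- The term `|w|`, where `w = s t⁻¹` with the variables shifted by `n`. -/
def absW (n : ℕ) (e : LTerm × LTerm) : LTerm :=
  let w : LTerm := .mul (e.1.subst fun i => .var (n + i)) (.inv (e.2.subst fun i => .var (n + i)))
  .sup w (.inv w)

theorem eval_absW {G : Type*} [Group G] [Lattice G] (n : ℕ) (e : LTerm × LTerm) (v : ℕ → G) :
    (absW n e).eval v =
      (e.1.eval (fun i => v (n + i)) * (e.2.eval (fun i => v (n + i)))⁻¹) ⊔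
      (e.1.eval (fun i => v (n + i)) * (e.2.eval (fun i => v (n + i)))⁻¹)⁻¹ := by
  simp only [absW, LTerm.eval, eval_subst]

/-- The truncated variable `(x_i ∧ |w|^m) ∨ |w|^{-m}`. -/
def trunc (n : ℕ) (e : LTerm × LTerm) (m i : ℕ) : LTerm :=
  .sup (.inf (.var i) ((absW n e).pow m)) (.inv ((absW n e).pow m))

/-- The identities of the product variety. -/
def prodIds (n : ℕ) (E₁ E₂ : Set (LTerm × LTerm)) : Set (LTerm × LTerm) :=
  {f | ∃ d ∈ E₁, ∃ e ∈ E₂, ∃ m : ℕ, f = (d.1.subst (trunc n e m), d.2.subst (trunc n e m))}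

theorem prodIds_varsLT {n₁ n₂ : ℕ} {E₁ E₂ : Set (LTerm × LTerm)}
    (h₁ : ∀ e ∈ E₁, e.1.VarsLT n₁ ∧ e.2.VarsLT n₁)
    (h₂ : ∀ e ∈ E₂, e.1.VarsLT n₂ ∧ e.2.VarsLT n₂) :
    ∀ f ∈ prodIds n₁ E₁ E₂, f.1.VarsLT (n₁ + n₂) ∧ f.2.VarsLT (n₁ + n₂) := by
  rintro f ⟨d, hd, e, he, m, rfl⟩
  have hs : ∀ t : LTerm, t.VarsLT n₂ → (t.subst fun i => .var (n₁ + i)).VarsLT (n₁ + n₂) := by
    intro t ht
    apply varsLT_subst _ _ ht
    intro i hi
    exact Nat.add_lt_add_left hi n₁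
  have hw : (absW n₁ e).VarsLT (n₁ + n₂) :=
    ⟨⟨hs _ (h₂ e he).1, hs _ (h₂ e he).2⟩, ⟨hs _ (h₂ e he).1, hs _ (h₂ e he).2⟩⟩
  have ht : ∀ i < n₁, (trunc n₁ e m i).VarsLT (n₁ + n₂) := by
    intro i hi
    exact ⟨⟨Nat.lt_add_right n₂ hi, varsLT_pow hw m⟩, varsLT_pow hw m⟩
  exact ⟨varsLT_subst _ _ (h₁ d hd).1 ht, varsLT_subst _ _ (h₁ d hd).2 ht⟩

section

variable {G : Type*} [Group G] [Lattice G] [MulLeftMono G] [MulRightMono G]

theorem one_le_abs' (w : G) : 1 ≤ w ⊔ w⁻¹ := one_le_mabs w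

/-- The convex `ℓ`-subgroup generated by `w`: all `x` with `|w|^{-m} ≤ x ≤ |w|^m` for some `m`. -/
def cyc (w : G) : Subgroup G where
  carrier := {x | ∃ m : ℕ, ((w ⊔ w⁻¹) ^ m)⁻¹ ≤ x ∧ x ≤ (w ⊔ w⁻¹) ^ m}
  mul_mem' := by
    rintro x y ⟨m, h1, h2⟩ ⟨m', h3, h4⟩
    refine ⟨m + m', ?_, ?_⟩
    · rw [add_comm, pow_add, mul_inv_rev]
      exact mul_le_mul' h1 h3
    · rw [pow_add]
      exact mul_le_mul' h2 h4
  one_mem' := ⟨0, by simp, by simp⟩
  inv_mem' := by
    rintro x ⟨m, h1, h2⟩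
    exact ⟨m, inv_le_inv_iff.mpr h2, inv_le'.mp h1⟩

theorem mem_cyc (w x : G) : x ∈ cyc w ↔ ∃ m : ℕ, ((w ⊔ w⁻¹) ^ m)⁻¹ ≤ x ∧ x ≤ (w ⊔ w⁻¹) ^ m :=
  Iff.rfl

theorem pow_abs_mono (w : G) {m m' : ℕ} (h : m ≤ m') : (w ⊔ w⁻¹) ^ m ≤ (w ⊔ w⁻¹) ^ m' :=
  pow_le_pow_right' (one_le_abs' w) h

theorem bd_mono {w x : G} {m m' : ℕ} (h : m ≤ m')
    (hx : ((w ⊔ w⁻¹) ^ m)⁻¹ ≤ x ∧ x ≤ (w ⊔ w⁻¹) ^ m) :
    ((w ⊔ w⁻¹) ^ m')⁻¹ ≤ x ∧ x ≤ (w ⊔ w⁻¹) ^ m' :=
  ⟨(inv_le_inv_iff.mpr (pow_abs_mono w h)).trans hx.1, hx.2.trans (pow_abs_mono w h)⟩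

theorem cyc_cvx (w : G) : IsCvx (cyc w) := by
  refine ⟨?_, ?_, ?_⟩
  · rintro x ⟨m, hx⟩ y ⟨m', hy⟩
    have h1 := bd_mono (le_max_left m m') hx
    have h2 := bd_mono (le_max_right m m') hy
    exact ⟨max m m', h1.1.trans le_sup_left, sup_le h1.2 h2.2⟩
  · rintro x ⟨m, hx⟩ y ⟨m', hy⟩
    have h1 := bd_mono (le_max_left m m') hx
    have h2 := bd_mono (le_max_right m m') hy
    exact ⟨max m m', le_inf h1.1 h2.1, inf_le_left.trans h1.2⟩
  · rintro x ⟨m, hx⟩ y ⟨m', hy⟩ g hxg hgy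
    have h1 := bd_mono (le_max_left m m') hx
    have h2 := bd_mono (le_max_right m m') hy
    exact ⟨max m m', h1.1.trans hxg, hgy.trans h2.2⟩

theorem self_mem_cyc (w : G) : w ∈ cyc w := by
  refine ⟨1, ?_, ?_⟩
  · rw [pow_one]
    exact inv_le'.mp le_sup_right
  · rw [pow_one]
    exact le_sup_left

/-- The smallest convex `ℓ`-subgroup containing all `C i`. -/
def gen {I : Type*} (C : I → Subgroup G) : Subgroup G :=
  sInf {K | IsCvx K ∧ ∀ i, C i ≤ K}

theorem mem_gen {I : Type*} (C : I → Subgroup G) (x : G) :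
    x ∈ gen C ↔ ∀ K : Subgroup G, IsCvx K → (∀ i, C i ≤ K) → x ∈ K := by
  simp only [gen, Subgroup.mem_sInf, Set.mem_ofPred_eq, and_imp]

theorem gen_cvx {I : Type*} (C : I → Subgroup G) : IsCvx (gen C) := by
  refine ⟨?_, ?_, ?_⟩
  · intro x hx y hy
    rw [mem_gen] at *
    intro K hK hC
    exact hK.sup_mem _ (hx K hK hC) _ (hy K hK hC)
  · intro x hx y hy
    rw [mem_gen] at *
    intro K hK hC
    exact hK.inf_mem _ (hx K hK hC) _ (hy K hK hC)
  · intro x hx y hy g h1 h2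
    rw [mem_gen] at *
    intro K hK hC
    exact hK.convex _ (hx K hK hC) _ (hy K hK hC) g h1 h2

theorem le_gen {I : Type*} (C : I → Subgroup G) (i : I) : C i ≤ gen C := by
  intro x hx
  rw [mem_gen]
  intro K _ hC
  exact hC i hx

/-- Conjugation as a homomorphism preserving the lattice operations. -/
theorem conj_sup (g x y : G) : MulAut.conj g (x ⊔ y) = MulAut.conj g x ⊔ MulAut.conj g y := by
  simp only [MulAut.conj_apply, mul_sup, sup_mul]

theorem conj_inf (g x y : G) : MulAut.conj g (x ⊓ y) = MulAut.conj g x ⊓ MulAut.conj g y := by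
  simp only [MulAut.conj_apply, mul_inf, inf_mul]

/-- The preimage of a convex `ℓ`-subgroup under conjugation. -/
theorem IsCvx.comap_conj {K : Subgroup G} (hK : IsCvx K) (g : G) :
    IsCvx (K.comap (MulAut.conj g).toMonoidHom) := by
  refine ⟨?_, ?_, ?_⟩
  · intro x hx y hy
    have := hK.sup_mem _ hx _ hy
    change MulAut.conj g x ⊔ MulAut.conj g y ∈ K at this
    rw [← conj_sup] at this
    exact this
  · intro x hx y hy
    have := hK.inf_mem _ hx _ hy
    change MulAut.conj g x ⊓ MulAut.conj g y ∈ K at this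
    rw [← conj_inf] at this
    exact this
  · intro x hx y hy z h1 h2
    refine hK.convex _ hx _ hy _ ?_ ?_
    · change g * x * g⁻¹ ≤ g * z * g⁻¹
      exact mul_le_mul' (mul_le_mul' le_rfl h1) le_rfl
    · change g * z * g⁻¹ ≤ g * y * g⁻¹
      exact mul_le_mul' (mul_le_mul' le_rfl h2) le_rfl

theorem conj_mem_cyc {w x : G} (g : G) (hx : x ∈ cyc w) :
    MulAut.conj g x ∈ cyc (MulAut.conj g w) := by
  obtain ⟨m, h1, h2⟩ := hx
  refine ⟨m, ?_, ?_⟩
  · rw [← map_inv, ← conj_sup, ← map_pow, ← map_inv]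
    exact mul_le_mul' (mul_le_mul' le_rfl h1) le_rfl
  · rw [← map_inv, ← conj_sup, ← map_pow]
    exact mul_le_mul' (mul_le_mul' le_rfl h2) le_rfl

end

/-- The value `w` of an identity at an assignment. -/
def wv {G : Type*} [Group G] [Lattice G] (e : LTerm × LTerm) (v : ℕ → G) : G :=
  e.1.eval v * (e.2.eval v)⁻¹

theorem eval_trunc {G : Type*} [Group G] [Lattice G] (n : ℕ) (e : LTerm × LTerm) (m i : ℕ)
    (v : ℕ → G) :
    (trunc n e m i).eval v =
      (v i ⊓ (wv e (fun i => v (n + i)) ⊔ (wv e (fun i => v (n + i)))⁻¹) ^ m) ⊔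
      ((wv e (fun i => v (n + i)) ⊔ (wv e (fun i => v (n + i)))⁻¹) ^ m)⁻¹ := by
  simp only [trunc, LTerm.eval, eval_pow, eval_absW, wv]

theorem satisfies_of_inProduct {G : Type*} [Group G] [Lattice G] [MulLeftMono G] [MulRightMono G]
    (n : ℕ) (E₁ E₂ : Set (LTerm × LTerm)) (h : InProduct E₁ E₂ G) :
    Satisfies (prodIds n E₁ E₂) G := by
  obtain ⟨N, hNn, hN, h1, L, hs, hi, h2⟩ := h
  rintro f ⟨d, hd, e, he, m, rfl⟩ v
  change (d.1.subst _).eval v = (d.2.subst _).eval v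
  rw [eval_subst, eval_subst]
  apply h1 d hd
  intro i
  rw [eval_trunc]
  set w := wv e (fun i => v (n + i)) with hw
  have hwN : w ∈ N := by
    have h3 := h2 e he (fun i => QuotientGroup.mk' N (v (n + i)))
    rw [eval_hom (QuotientGroup.mk' N) hs hi, eval_hom (QuotientGroup.mk' N) hs hi] at h3
    rw [hw, ← QuotientGroup.eq_one_iff]
    change QuotientGroup.mk' N (_ * _⁻¹) = 1
    rw [map_mul, map_inv, h3, mul_inv_cancel]
  have hp : (w ⊔ w⁻¹) ^ m ∈ N := N.pow_mem (hN.sup_mem _ hwN _ (N.inv_mem hwN)) m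
  refine hN.convex _ (N.inv_mem hp) _ hp _ le_sup_right (sup_le inf_le_right ?_)
  have h1w : 1 ≤ (w ⊔ w⁻¹) ^ m := one_le_pow_of_one_le' (one_le_abs' w) m
  exact (inv_le_one'.mpr h1w).trans h1w

/-- The statement of the torsion theorem. -/
def TorsionThm (G : Type*) [Group G] [Lattice G] (I : Type*) : Prop :=
  ∀ (C : I → Subgroup G), (∀ i, IsCvx (C i)) → ∀ (h : ℕ → G),
    (∀ x, ∀ K : Subgroup G, IsCvx K → (∀ i, C i ≤ K) → h x ∈ K) →
    ∀ p q : LTerm, p.eval h ≠ q.eval h → ∃ i, ∃ h' : ℕ → G, (∀ x, h' x ∈ C i) ∧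
      p.eval h' ≠ q.eval h'

theorem inProduct_of_satisfies {G : Type*} [Group G] [Lattice G] [MulLeftMono G] [MulRightMono G]
    (n : ℕ) (E₁ E₂ : Set (LTerm × LTerm)) (h₁ : ∀ e ∈ E₁, e.1.VarsLT n ∧ e.2.VarsLT n)
    (R : TorsionThm G (Option (E₂ × (ℕ → G)))) (h : Satisfies (prodIds n E₁ E₂) G) :
    InProduct E₁ E₂ G := by
  classical
  let C : Option (E₂ × (ℕ → G)) → Subgroup G := fun o => match o with
    | none => ⊥
    | some j => cyc (wv j.1.1 j.2)
  have hC : ∀ i, IsCvx (C i) := by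
    intro i
    rcases i with _ | j
    · refine ⟨?_, ?_, ?_⟩
      · intro x hx y hy
        rw [Subgroup.mem_bot.mp hx, Subgroup.mem_bot.mp hy, sup_idem]
        exact Subgroup.one_mem _
      · intro x hx y hy
        rw [Subgroup.mem_bot.mp hx, Subgroup.mem_bot.mp hy, inf_idem]
        exact Subgroup.one_mem _
      · intro x hx y hy g h1 h2
        rw [Subgroup.mem_bot.mp hx] at h1
        rw [Subgroup.mem_bot.mp hy] at h2
        exact Subgroup.mem_bot.mpr (le_antisymm h2 h1)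
    · exact cyc_cvx _
  have hNn : (gen C).Normal := by
    refine ⟨fun x hx g => ?_⟩
    rw [mem_gen] at hx ⊢
    intro K hK hCK
    refine hx _ (hK.comap_conj g) ?_
    intro i y hy
    rcases i with _ | j
    · rw [Subgroup.mem_bot.mp hy]; exact Subgroup.one_mem _
    · change MulAut.conj g y ∈ K
      apply hCK (some (j.1, fun i => MulAut.conj g (j.2 i)))
      change MulAut.conj g y ∈ cyc (wv j.1.1 (fun i => MulAut.conj g (j.2 i)))
      have e1 : wv j.1.1 (fun i => MulAut.conj g (j.2 i)) = MulAut.conj g (wv j.1.1 j.2) := by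
        have e2 : ∀ t : LTerm, t.eval (fun i => MulAut.conj g (j.2 i)) =
            MulAut.conj g (t.eval j.2) := fun t =>
          eval_hom (MulAut.conj g).toMonoidHom (conj_sup g) (conj_inf g) j.2 t
        simp only [wv, e2, map_mul, map_inv]
      rw [e1]
      exact conj_mem_cyc g hy
  have hNc := gen_cvx C
  have hN : IsLIdeal (gen C) := ⟨hNn, hNc.sup_mem, hNc.inf_mem, hNc.convex⟩
  letI : Lattice (G ⧸ gen C) := quotLattice _ hN
  refine ⟨gen C, hNn, hN, ?_, quotLattice _ hN, fun _ _ => rfl, fun _ _ => rfl, ?_⟩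
  · intro d hd v hv
    by_contra hne
    obtain ⟨i, h', hh', hne'⟩ := R C hC v (fun x => (mem_gen C (v x)).mp (hv x)) d.1 d.2 hne
    rcases i with _ | j
    · have e1 : h' = fun _ => 1 := by
        funext x
        exact Subgroup.mem_bot.mp (hh' x)
      rw [e1, eval_one, eval_one] at hne'
      exact hne' rfl
    · apply hne'
      have hb : ∀ x, ∃ m : ℕ, ((wv j.1.1 j.2 ⊔ (wv j.1.1 j.2)⁻¹) ^ m)⁻¹ ≤ h' x ∧
        h' x ≤ (wv j.1.1 j.2 ⊔ (wv j.1.1 j.2)⁻¹) ^ m := fun x => hh' x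
      choose b hb using hb
      set m := (Finset.range n).sup b with hm
      let y : ℕ → G := fun i => if i < n then h' i else j.2 (i - n)
      have hy : (fun i => y (n + i)) = j.2 := by
        funext i
        simp only [y]
        rw [if_neg (by omega), Nat.add_sub_cancel_left]
      have h3 := h _ ⟨d, hd, j.1.1, j.1.2, m, rfl⟩ y
      change (d.1.subst _).eval y = (d.2.subst _).eval y at h3
      rw [eval_subst, eval_subst] at h3
      have h4 : ∀ i < n, (trunc n j.1.1 m i).eval y = h' i := by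
        intro i hi
        rw [eval_trunc, hy]
        have h5 := bd_mono (Finset.le_sup (f := b) (Finset.mem_range.mpr hi)) (hb i)
        have h6 : y i = h' i := by simp only [y]; rw [if_pos hi]
        rw [h6, inf_eq_left.mpr h5.2, sup_eq_left.mpr h5.1]
      rw [eval_congr (h₁ d hd).1 h4, eval_congr (h₁ d hd).2 h4] at h3
      exact h3
  · intro e he v
    have hl : ∃ u : ℕ → G, v = fun i => QuotientGroup.mk' (gen C) (u i) := by
      choose u hu using fun i => QuotientGroup.mk'_surjective (gen C) (v i)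
      exact ⟨u, funext fun i => (hu i).symm⟩
    obtain ⟨u, rfl⟩ := hl
    rw [eval_hom (QuotientGroup.mk' (gen C)) (fun _ _ => rfl) (fun _ _ => rfl),
      eval_hom (QuotientGroup.mk' (gen C)) (fun _ _ => rfl) (fun _ _ => rfl)]
    have hmem : wv e u ∈ gen C := le_gen C (some (⟨e, he⟩, u)) (self_mem_cyc _)
    have h5 : QuotientGroup.mk' (gen C) (wv e u) = 1 := (QuotientGroup.eq_one_iff _).mpr hmem
    rw [wv, map_mul, map_inv, mul_inv_eq_one] at h5
    exact h5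

end Pool.Agent.Helper6.LVar
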