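import Pool.Agent.Helper6.LVarCover
import Pool.Agent.Helper6.LVarNA
import Pool.Agent.Helper6.LVarFR

set_option autoImplicit false
set_option linter.unusedSectionVars false
set_option linter.style.haveILetI false

open Filter

namespace Pool.Agent.Helper6.LVar

universe u

/-! ### Gordan's theorem for finitely generated abelian groups -/

theorem exists_functional {A : Type u} [AddCommGroup A] [Module.Finite ℤ A] (s : A)
    (hs : ∀ k : ℕ, 0 < k → k • s ≠ 0) : ∃ g : A →+ ℤ, 0 < g s := by
  set T := Submodule.torsion ℤ A with hT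
  have hne : (Submodule.Quotient.mk s : A ⧸ T) ≠ 0 := by
    intro h
    rw [Submodule.Quotient.mk_eq_zero, hT, Submodule.mem_torsion_iff] at h
    obtain ⟨⟨a, ha⟩, h⟩ := h
    have ha0 : a ≠ 0 := nonZeroDivisors.ne_zero ha
    have h' : a • s = 0 := h
    have h2 : (a.natAbs : ℤ) • s = 0 := by
      rcases Int.natAbs_eq a with h3 | h3
      · rw [← h3]; exact h'
      · have h4 : (a.natAbs : ℤ) = -a := by omega
        rw [h4, neg_smul, h', neg_zero]
    rw [natCast_zsmul] at h2
    exact hs _ (Int.natAbs_pos.mpr ha0) h2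
  have hdual : ¬ ∀ f : Module.Dual ℤ (A ⧸ T), f (Submodule.Quotient.mk s) = 0 := by
    intro h
    exact hne ((Module.forall_dual_apply_eq_zero_iff ℤ _).mp h)
  push Not at hdual
  obtain ⟨f, hf⟩ := hdual
  set g : A →+ ℤ := (f.comp T.mkQ).toAddMonoidHom with hg
  have hgs : g s ≠ 0 := hf
  rcases lt_or_gt_of_ne hgs with h | h
  · exact ⟨-g, by rw [AddMonoidHom.neg_apply]; omega⟩
  · exact ⟨g, h⟩

theorem gordan {ι : Type*} [DecidableEq ι] (T : Finset ι) :
    ∀ (A : Type u) [AddCommGroup A] [Module.Finite ℤ A] (s : ι → A),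
      (∃ ψ : A →+ ℤ, ∀ i ∈ T, 0 < ψ (s i)) ∨
      (∃ c : ι → ℕ, (∃ i ∈ T, c i ≠ 0) ∧ ∑ i ∈ T, c i • s i = 0) := by
  induction T using Finset.induction_on with
  | empty => intro A _ _ s; left; exact ⟨0, by simp⟩
  | insert a T ha ih =>
    intro A _ _ s
    by_cases htor : ∃ k : ℕ, 0 < k ∧ k • s a = 0
    · obtain ⟨k, hk, hk'⟩ := htor
      right
      refine ⟨fun i => if i = a then k else 0, ⟨a, Finset.mem_insert_self _ _, by
        simp only [if_true]; omega⟩, ?_⟩
      rw [Finset.sum_insert ha]
      beta_reduce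
      rw [if_pos rfl, hk', zero_add]
      apply Finset.sum_eq_zero
      intro i hi
      rw [if_neg (by rintro rfl; exact ha hi), zero_smul]
    · push Not at htor
      obtain ⟨g, hg⟩ := exists_functional (s a) htor
      let S : Submodule ℤ A := Submodule.span ℤ {s a}
      rcases ih (A ⧸ S) (fun i => Submodule.Quotient.mk (s i)) with ⟨ψ', hψ'⟩ | ⟨c, hc, hsum⟩
      · left
        set M : ℤ := 1 + ∑ i ∈ T, |g (s i)| with hM
        have hMpos : ∀ i ∈ T, |g (s i)| < M := by
          intro i hi
          have := Finset.single_le_sum (f := fun i => |g (s i)|) (fun i _ => abs_nonneg _) hi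
          omega
        have hM0 : 0 < M := by
          have : 0 ≤ ∑ i ∈ T, |g (s i)| := Finset.sum_nonneg fun i _ => abs_nonneg _
          omega
        refine ⟨M • (ψ'.comp S.mkQ.toAddMonoidHom) + g, ?_⟩
        intro i hi
        rcases Finset.mem_insert.mp hi with rfl | hi
        · have h0 : ψ' (S.mkQ (s i)) = 0 := by
            have : S.mkQ (s i) = 0 := by
              rw [Submodule.mkQ_apply, Submodule.Quotient.mk_eq_zero]
              exact Submodule.mem_span_singleton_self _
            rw [this, map_zero]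
          change 0 < M • ψ' (S.mkQ (s i)) + g (s i)
          rw [h0, smul_zero, zero_add]
          exact hg
        · have h1 : 0 < ψ' (S.mkQ (s i)) := hψ' i hi
          change 0 < M • ψ' (S.mkQ (s i)) + g (s i)
          have h2 := hMpos i hi
          have h3 := neg_abs_le (g (s i))
          rw [smul_eq_mul]
          have h4 : M * 1 ≤ M * ψ' (S.mkQ (s i)) := mul_le_mul_of_nonneg_left (by omega) hM0.le
          linarith
      · have h1 : ∑ i ∈ T, c i • s i ∈ S := by
          rw [← Submodule.Quotient.mk_eq_zero]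
          rw [← Submodule.mkQ_apply, map_sum]
          rw [← hsum]
          apply Finset.sum_congr rfl
          intro i _
          rw [map_nsmul, Submodule.mkQ_apply]
        obtain ⟨μ, hμ⟩ := Submodule.mem_span_singleton.mp h1
        rcases le_or_gt μ 0 with hμ0 | hμ0
        · right
          refine ⟨fun i => if i = a then μ.natAbs else c i, ?_, ?_⟩
          · obtain ⟨i, hi, hci⟩ := hc
            refine ⟨i, Finset.mem_insert_of_mem hi, ?_⟩
            beta_reduce
            rw [if_neg (by rintro rfl; exact ha hi)]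
            exact hci
          · rw [Finset.sum_insert ha]
            beta_reduce
            rw [if_pos rfl]
            have h2 : ∑ x ∈ T, (if x = a then μ.natAbs else c x) • s x = μ • s a := by
              rw [hμ]
              apply Finset.sum_congr rfl
              intro i hi
              rw [if_neg (by rintro rfl; exact ha hi)]
            rw [h2, ← natCast_zsmul, ← add_zsmul]
            have : (μ.natAbs : ℤ) + μ = 0 := by omega
            rw [this, zero_zsmul]
        · rcases ih A s with ⟨ψ, hψ⟩ | ⟨c', hc', hsum'⟩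
          · left
            refine ⟨ψ, ?_⟩
            intro i hi
            rcases Finset.mem_insert.mp hi with rfl | hi
            · have h2 := congrArg ψ hμ
              rw [map_zsmul, map_sum, smul_eq_mul] at h2
              have h3 : 0 < ∑ j ∈ T, ψ (c j • s j) := by
                apply Finset.sum_pos'
                · intro j hj
                  rw [map_nsmul, nsmul_eq_mul]
                  exact mul_nonneg (by positivity) (hψ j hj).le
                · obtain ⟨j, hj, hcj⟩ := hc
                  refine ⟨j, hj, ?_⟩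
                  rw [map_nsmul, nsmul_eq_mul]
                  exact mul_pos (by positivity) (hψ j hj)
              rw [← h2] at h3
              exact (mul_pos_iff_of_pos_left hμ0).mp h3
            · exact hψ i hi
          · right
            refine ⟨fun i => if i = a then 0 else c' i, ?_, ?_⟩
            · obtain ⟨i, hi, hci⟩ := hc'
              refine ⟨i, Finset.mem_insert_of_mem hi, ?_⟩
              beta_reduce
              rw [if_neg (by rintro rfl; exact ha hi)]
              exact hci
            · rw [Finset.sum_insert ha]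
              beta_reduce
              rw [if_pos rfl, zero_smul, zero_add]
              rw [← hsum']
              apply Finset.sum_congr rfl
              intro i hi
              rw [if_neg (by rintro rfl; exact ha hi)]

/-! ### Weinberg's theorem -/

theorem prod_pow_pos {K : Type*} [CommGroup K] [Lattice K] [MulLeftMono K] {ι : Type*}
    [DecidableEq ι] (T : Finset ι) (x : ι → K) (c : ι → ℕ) (hx : ∀ i ∈ T, 1 < x i) :
    1 ≤ ∏ i ∈ T, x i ^ c i ∧ ((∃ i ∈ T, c i ≠ 0) → 1 < ∏ i ∈ T, x i ^ c i) := by
  induction T using Finset.induction_on with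
  | empty => simp
  | insert a T ha ih =>
    have h1 := ih (fun i hi => hx i (Finset.mem_insert_of_mem hi))
    have h2 : 1 < x a := hx a (Finset.mem_insert_self _ _)
    rw [Finset.prod_insert ha]
    refine ⟨one_le_mul (one_le_pow_of_one_le' h2.le _) h1.1, ?_⟩
    rintro ⟨i, hi, hci⟩
    rcases Finset.mem_insert.mp hi with rfl | hi
    · exact one_lt_mul_of_lt_of_le' (one_lt_pow' h2 hci) h1.1
    · exact one_lt_mul_of_le_of_lt' (one_le_pow_of_one_le' h2.le _) (h1.2 ⟨i, hi, hci⟩)

theorem exists_varsLT (t : LTerm) : ∃ n, ∀ m, n ≤ m → t.VarsLT m := by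
  induction t with
  | var i => exact ⟨i + 1, fun m hm => show i < m by omega⟩
  | one => exact ⟨0, fun _ _ => trivial⟩
  | mul s t hs ht =>
    obtain ⟨a, ha⟩ := hs
    obtain ⟨b, hb⟩ := ht
    exact ⟨max a b, fun m hm => ⟨ha m (le_trans (le_max_left _ _) hm),
      hb m (le_trans (le_max_right _ _) hm)⟩⟩
  | inv t ht =>
    obtain ⟨a, ha⟩ := ht
    exact ⟨a, fun m hm => ha m hm⟩
  | sup s t hs ht =>
    obtain ⟨a, ha⟩ := hs
    obtain ⟨b, hb⟩ := ht
    exact ⟨max a b, fun m hm => ⟨ha m (le_trans (le_max_left _ _) hm),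
      hb m (le_trans (le_max_right _ _) hm)⟩⟩
  | inf s t hs ht =>
    obtain ⟨a, ha⟩ := hs
    obtain ⟨b, hb⟩ := ht
    exact ⟨max a b, fun m hm => ⟨ha m (le_trans (le_max_left _ _) hm),
      hb m (le_trans (le_max_right _ _) hm)⟩⟩

/-- Abelian chains satisfy the identities of the integers. -/
theorem chain_of_int {K : Type u} [CommGroup K] [Lattice K] [MulLeftMono K] [MulRightMono K]
    (htot : ∀ x y : K, x ≤ y ∨ y ≤ x) (E : Set (LTerm × LTerm))
    (hE : Satisfies E (Multiplicative ℤ)) : Satisfies E K := by
  classical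
  intro e he v
  obtain ⟨n1, hn1⟩ := exists_varsLT e.1
  obtain ⟨n2, hn2⟩ := exists_varsLT e.2
  set n := max n1 n2 with hn
  let K0 : Subgroup K := Subgroup.closure (v '' (Set.Iio n))
  have hfg : K0.FG := by
    rw [Subgroup.fg_iff]
    exact ⟨_, rfl, (Set.finite_Iio n).image v⟩
  haveI : Group.FG K0 := (Group.fg_iff_subgroup_fg K0).mpr hfg
  haveI : AddGroup.FG (Additive K0) := inferInstance
  haveI : Module.Finite ℤ (Additive K0) := Module.Finite.iff_addGroup_fg.mpr inferInstance
  have hex : ∀ S : Finset K0, ∃ ψ : K0 →* Multiplicative ℤ, ∀ k ∈ S, 1 < (k : K) → 1 < ψ k := by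
    intro S
    rcases gordan (S.filter fun k : K0 => 1 < (k : K)) (Additive K0) (fun k : K0 => Additive.ofMul k) with
      ⟨ψ, hψ⟩ | ⟨c, hc, hsum⟩
    · refine ⟨AddMonoidHom.toMultiplicativeRight ψ, ?_⟩
      intro k hk h1
      exact hψ k (Finset.mem_filter.mpr ⟨hk, h1⟩)
    · exfalso
      have h1 := (prod_pow_pos (S.filter fun k : K0 => 1 < (k : K)) (fun k : K0 => (k : K)) c (by
        intro i hi
        exact (Finset.mem_filter.mp hi).2)).2 hc
      have h2 : (((∏ i ∈ S.filter fun k : K0 => 1 < (k : K), i ^ c i : K0) : K)) =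
          ∏ i ∈ S.filter fun k : K0 => 1 < (k : K), (i : K) ^ c i := by
        rw [Subgroup.val_finsetProd]
        apply Finset.prod_congr rfl
        intro i _
        rw [Subgroup.coe_pow]
      have h3 : (∏ i ∈ S.filter fun k : K0 => 1 < (k : K), i ^ c i : K0) = 1 := by
        apply Additive.ofMul.injective
        rw [ofMul_prod, ofMul_one, ← hsum]
        apply Finset.sum_congr rfl
        intro i _
        rw [ofMul_pow]
      rw [← h2, h3, Subgroup.coe_one] at h1
      exact lt_irrefl _ h1
  choose ψ hψ using hex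
  set v' : ℕ → K := fun i => if i < n then v i else 1 with hv'
  have h1 : e.1.eval v' = e.2.eval v' := by
    refine transfer htot K0 (F := atTop) ψ ?_ e (hE e he) v' ?_
    · intro k hk
      filter_upwards [eventually_ge_atTop {k}] with S hS
      exact hψ S k (hS (Finset.mem_singleton_self k)) hk
    · intro i
      simp only [hv']
      split_ifs with hi
      · exact Subgroup.subset_closure ⟨i, hi, rfl⟩
      · exact Subgroup.one_mem _
  have h2 : ∀ i < n, v i = v' i := by
    intro i hi
    simp only [hv', if_pos hi]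
  rw [eval_congr (hn1 n (le_max_left _ _)) h2, eval_congr (hn2 n (le_max_right _ _)) h2]
  exact h1

/-! ### Quotients -/

section

variable {G : Type u} [Group G] [Lattice G] [MulLeftMono G] [MulRightMono G]

theorem satisfies_quot (E : Set (LTerm × LTerm)) (h : Satisfies E G) (P : Subgroup G)
    (hP : IsLIdeal P) [P.Normal] :
    letI := quotLattice P hP
    Satisfies E (G ⧸ P) := by
  letI := quotLattice P hP
  intro e he v
  choose w hw using fun i => QuotientGroup.mk'_surjective P (v i)
  have hv : v = fun i => QuotientGroup.mk' P (w i) := funext fun i => (hw i).symm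
  rw [hv, eval_hom (QuotientGroup.mk' P) (fun _ _ => rfl) (fun _ _ => rfl),
    eval_hom (QuotientGroup.mk' P) (fun _ _ => rfl) (fun _ _ => rfl), h e he w]

theorem satisfies_of_quots (hham : ∀ N : Subgroup G, IsCvx N → N.Normal)
    (E : Set (LTerm × LTerm))
    (h : ∀ (P : Subgroup G) (hP : IsLIdeal P) (_ : P.Normal), letI := quotLattice P hP
      (∀ x y : G ⧸ P, x ≤ y ∨ y ≤ x) → Satisfies E (G ⧸ P)) : Satisfies E G := by
  intro e he v
  by_contra hne
  have hw : e.1.eval v * (e.2.eval v)⁻¹ ≠ 1 := by
    intro h1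
    exact hne (mul_inv_eq_one.mp h1)
  obtain ⟨P, hP, hwP, htot⟩ := exists_prime_quot hham hw
  letI := quotLattice P hP
  haveI := hP.normal
  have h1 := h P hP hP.normal htot e he (fun i => QuotientGroup.mk' P (v i))
  rw [eval_hom (QuotientGroup.mk' P) (fun _ _ => rfl) (fun _ _ => rfl),
    eval_hom (QuotientGroup.mk' P) (fun _ _ => rfl) (fun _ _ => rfl)] at h1
  apply hwP
  rw [← QuotientGroup.eq_one_iff]
  change QuotientGroup.mk' P (_ * _⁻¹) = 1
  rw [map_mul, map_inv, h1, mul_inv_cancel]

/-- **Weinberg's theorem**: abelian `ℓ`-groups satisfy the identities of the integers. -/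
theorem weinberg (hab : ∀ x y : G, x * y = y * x) (E : Set (LTerm × LTerm))
    (hE : Satisfies E (Multiplicative ℤ)) : Satisfies E G := by
  apply satisfies_of_quots
  · intro N _
    exact ⟨fun n hn g => by rw [hab g n, mul_inv_cancel_right]; exact hn⟩
  · intro P hP hPn
    letI := quotLattice P hP
    haveI : MulLeftMono (G ⧸ P) := quotLattice_mulLeftMono P hP
    haveI : MulRightMono (G ⧸ P) := quotLattice_mulRightMono P hP
    intro htot
    letI : CommGroup (G ⧸ P) := { (inferInstance : Group (G ⧸ P)) with
      mul_comm := by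
        intro x y
        induction x using QuotientGroup.induction_on with | _ x => ?_
        induction y using QuotientGroup.induction_on with | _ y => ?_
        rw [← QuotientGroup.mk_mul, ← QuotientGroup.mk_mul, hab] }
    exact chain_of_int htot E hE

theorem ham_of_weak (hwk : ∀ p q : G, 1 ≤ q → p⁻¹ * q * p ≤ q * q) (N : Subgroup G)
    (hN : IsCvx N) : N.Normal := by
  refine ⟨fun n hn g => ?_⟩
  have h1 : n ⊔ n⁻¹ ∈ N := hN.sup_mem _ hn _ (N.inv_mem hn)
  have h2 := hwk g⁻¹ (n ⊔ n⁻¹) (one_le_abs' n)
  rw [inv_inv] at h2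
  refine hN.convex _ (N.inv_mem (N.mul_mem h1 h1)) _ (N.mul_mem h1 h1) _ ?_ ?_
  · rw [inv_le']
    refine le_trans ?_ h2
    have : (g * n * g⁻¹)⁻¹ = g * n⁻¹ * g⁻¹ := by group
    rw [this]
    exact mul_le_mul' (mul_le_mul' le_rfl le_sup_right) le_rfl
  · refine le_trans ?_ h2
    exact mul_le_mul' (mul_le_mul' le_rfl le_sup_left) le_rfl

end

/-! ### The main theorem -/

/-- All identities of the Heisenberg group. -/
def IdHeis : Set (LTerm × LTerm) := {e | ∀ v : ℕ → Heis, e.1.eval v = e.2.eval v}

theorem heis_sat : Satisfies IdHeis Heis := fun _ he v => he v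

/-- The class-two identity. -/
def cl2 : LTerm × LTerm :=
  (.mul (comT (.var 0) (.var 1)) (.var 2), .mul (.var 2) (comT (.var 0) (.var 1)))

theorem cl2_mem : cl2 ∈ IdHeis := fun v => Heis.class2 (v 0) (v 1) (v 2)

/-- The weakly abelian identity. -/
def wkId : LTerm × LTerm :=
  (.sup (.mul (.mul (.inv (.var 0)) (.sup (.var 1) .one)) (.var 0))
    (.mul (.sup (.var 1) .one) (.sup (.var 1) .one)),
   .mul (.sup (.var 1) .one) (.sup (.var 1) .one))

theorem wkId_mem : wkId ∈ IdHeis := fun v =>
  sup_eq_right.mpr (Heis.weak (v 0) (v 1 ⊔ 1) le_sup_right)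

theorem weak_of_sat {G : Type u} [Group G] [Lattice G] (h : Satisfies IdHeis G) (p q : G)
    (hq : 1 ≤ q) : p⁻¹ * q * p ≤ q * q := by
  have h1 := h _ wkId_mem (fun i => match i with
    | 0 => p
    | _ => q)
  have h2 : p⁻¹ * (q ⊔ 1) * p ≤ (q ⊔ 1) * (q ⊔ 1) := sup_eq_right.mp h1
  rwa [sup_eq_left.mpr hq] at h2

theorem cl2_of_sat {G : Type u} [Group G] [Lattice G] (h : Satisfies IdHeis G) (p q r : G) :
    (p * q * p⁻¹ * q⁻¹) * r = r * (p * q * p⁻¹ * q⁻¹) :=
  h _ cl2_mem (fun i => match i with
    | 0 => p
    | 1 => q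
    | _ => r)

/-- A nonabelian member of the variety of the Heisenberg group generates it. -/
theorem heis_of_nonabelian {G : Type u} [Group G] [Lattice G] [MulLeftMono G] [MulRightMono G]
    (h : Satisfies IdHeis G) (hna : ∃ p q : G, p * q ≠ q * p) (E : Set (LTerm × LTerm))
    (hE : Satisfies E G) : Satisfies E Heis := by
  obtain ⟨p, q, hpq⟩ := hna
  have hw : p * q * p⁻¹ * q⁻¹ ≠ 1 := by
    intro h1
    apply hpq
    rw [mul_inv_eq_one, mul_inv_eq_iff_eq_mul] at h1
    exact h1
  obtain ⟨P, hP, hwP, htot⟩ := exists_prime_quot (ham_of_weak (weak_of_sat h)) hw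
  haveI := hP.normal
  letI := quotLattice P hP
  haveI : MulLeftMono (G ⧸ P) := quotLattice_mulLeftMono P hP
  haveI : MulRightMono (G ⧸ P) := quotLattice_mulRightMono P hP
  have h1 := satisfies_quot IdHeis h P hP
  refine heis_of_chain htot (cl2_of_sat h1) (weak_of_sat h1) ?_ E (satisfies_quot E hE P hP)
  refine ⟨QuotientGroup.mk' P p, QuotientGroup.mk' P q, ?_⟩
  intro h2
  apply hwP
  rw [← QuotientGroup.eq_one_iff]
  change QuotientGroup.mk' P (p * q * p⁻¹ * q⁻¹) = 1
  rw [map_mul, map_mul, map_mul, map_inv, map_inv, h2]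
  group

theorem not_finiteRank_heis : ¬ FiniteRank IdHeis := by
  rintro ⟨n, _, E', hE', h⟩
  have h1 : Satisfies E' Heis := (h Heis).mp heis_sat
  let N := n + n * n
  letI := (gcone N).order
  haveI := (gcone N).mulLeftMono
  haveI := (gcone N).mulRightMono
  have h2 : Satisfies E' (GG (N + 3)) := by
    intro e he v
    exact grid_local (N := N) n (by omega) e (hE' e he).1 (hE' e he).2 (h1 e he) v
  have h3 := (h (GG (N + 3))).mpr h2
  exact sepId_grid N (h3 (sepId N) (sepId_heis N))

theorem finiteRank_of_proper (E' : Set (LTerm × LTerm))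
    (hsub : SubvarietyOf E' IdHeis) (hne : ¬ SubvarietyOf IdHeis E') : FiniteRank E' := by
  have hab : ∀ (G : Type) [Group G] [Lattice G] [MulLeftMono G] [MulRightMono G],
      Satisfies E' G → ∀ x y : G, x * y = y * x := by
    intro G _ _ _ _ hG x y
    by_contra hxy
    apply hne
    intro G' _ _ _ _ hG' e he
    have h1 : Satisfies E' Heis := heis_of_nonabelian (hsub G hG) ⟨x, y, hxy⟩ E' hG
    exact hG' e (h1 e he)
  by_cases hnt : ∃ (G : Type) (_ : Group G) (_ : Lattice G) (_ : MulLeftMono G)
      (_ : MulRightMono G), Satisfies E' G ∧ ∃ x : G, x ≠ 1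
  · obtain ⟨G, _, _, _, _, hG, x, hx⟩ := hnt
    have hx' : 1 < x ⊔ x⁻¹ := by
      refine lt_of_le_of_ne (one_le_abs' x) ?_
      intro h1
      apply hx
      have h2 : x ≤ 1 := h1 ▸ le_sup_left
      have h3 : x⁻¹ ≤ 1 := h1 ▸ le_sup_right
      exact le_antisymm h2 (Left.inv_le_one_iff.mp h3)
    have hZ : Satisfies E' (Multiplicative ℤ) := by
      refine transfer_top (F := (atTop : Filter ℕ)) (fun a b => le_total a b)
        (fun _ => zpowersHom G (x ⊔ x⁻¹)) ?_ E' hG
      intro k hk
      refine Eventually.of_forall fun _ => ?_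
      rw [zpowersHom_apply]
      have hk' : (0 : ℤ) < Multiplicative.toAdd k := hk
      have h1 := zmono hx'.le (show (1 : ℤ) ≤ Multiplicative.toAdd k by omega)
      rw [zpow_one] at h1
      exact hx'.trans_le h1
    refine ⟨2, by norm_num, {(.mul (.var 0) (.var 1), .mul (.var 1) (.var 0))}, ?_, ?_⟩
    · intro e he
      rw [Set.mem_singleton_iff] at he
      subst he
      refine ⟨⟨?_, ?_⟩, ⟨?_, ?_⟩⟩
      · show 0 < 2; norm_num
      · show 1 < 2; norm_num
      · show 1 < 2; norm_num
      · show 0 < 2; norm_num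
    · intro G' _ _ _ _
      constructor
      · intro h e he v
        rw [Set.mem_singleton_iff] at he
        subst he
        exact hab G' h (v 0) (v 1)
      · intro h
        apply weinberg _ E' hZ
        intro a b
        exact h _ rfl (fun i => match i with
          | 0 => a
          | _ => b)
  · refine ⟨1, by norm_num, {(.var 0, .one)}, ?_, ?_⟩
    · intro e he
      rw [Set.mem_singleton_iff] at he
      subst he
      exact ⟨show 0 < 1 by norm_num, trivial⟩
    · intro G' _ _ _ _
      constructor
      · intro h e he v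
        rw [Set.mem_singleton_iff] at he
        subst he
        by_contra hcon
        exact hnt ⟨G', inferInstance, inferInstance, inferInstance, inferInstance, h, v 0, hcon⟩
      · intro h e he v
        have htriv : ∀ a : G', a = 1 := fun a => h _ rfl (fun _ => a)
        rw [htriv (e.1.eval v), htriv (e.2.eval v)]

end Pool.Agent.Helper6.LVar
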