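import Pool.Agent.Helper6.NCDefs
import Pool.Agent.Helper6.AP4

set_option autoImplicit false
set_option linter.unusedSectionVars false
set_option linter.style.haveILetI false

namespace Pool.Agent.Helper6.NC

open LVar AP

/-- The representability law. -/
def RepLaw (G : Type) [Group G] [Lattice G] : Prop :=
  ∀ x y : G, (x ⊔ 1) ⊓ (y * (x⁻¹ ⊔ 1) * y⁻¹) = 1

section

variable {G : Type} [Group G] [Lattice G] [MulLeftMono G] [MulRightMono G]

theorem RepLaw.disj (h : RepLaw G) (u v x : G) (huv : u ⊓ v = 1) : u ⊓ (x⁻¹ * v * x) = 1 := by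
  have hu : 1 ≤ u := by rw [← huv]; exact inf_le_left
  have hv : 1 ≤ v := by rw [← huv]; exact inf_le_right
  have hsup : u ⊔ v = u * v := by
    have h1 : u * (u ⊓ v)⁻¹ * v = u ⊔ v := by
      rw [inv_inf, mul_sup, sup_mul, mul_inv_cancel, one_mul, mul_assoc, inv_mul_cancel, mul_one,
        sup_comm]
    rw [← h1, huv, inv_one, mul_one]
  have hsup' : u ⊔ v = v * u := by
    have h1 : v * (u ⊓ v)⁻¹ * u = u ⊔ v := by
      rw [inv_inf, mul_sup, sup_mul, mul_inv_cancel, one_mul, mul_assoc, inv_mul_cancel, mul_one,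
        sup_comm]
    rw [← h1, huv, inv_one, mul_one]
  have e1 : u * v⁻¹ ⊔ 1 = u := by
    have : u * v⁻¹ ⊔ 1 = (u ⊔ v) * v⁻¹ := by rw [sup_mul, mul_inv_cancel]
    rw [this, hsup, mul_inv_cancel_right]
  have e2 : (u * v⁻¹)⁻¹ ⊔ 1 = v := by
    have : (u * v⁻¹)⁻¹ ⊔ 1 = (v ⊔ u) * u⁻¹ := by
      rw [sup_mul, mul_inv_cancel, mul_inv_rev, inv_inv]
    rw [this, sup_comm, hsup', mul_inv_cancel_right]
  have := h (u * v⁻¹) x⁻¹
  rw [e1, e2, inv_inv] at this
  exact this

theorem RepLaw.map {H : Type} [Group H] [Lattice H] {f : G → H} (hf : IsLHom f)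
    (hs : Function.Surjective f) (h : RepLaw G) : RepLaw H := by
  let φ : G →* H := MonoidHom.mk' f hf.map_mul
  intro x y
  obtain ⟨x, rfl⟩ := hs x
  obtain ⟨y, rfl⟩ := hs y
  have h1 := congrArg φ (h x y)
  have e1 : f 1 = 1 := map_one φ
  have e2 : ∀ z, f z⁻¹ = (f z)⁻¹ := map_inv φ
  change f _ = f 1 at h1
  rw [hf.map_inf, hf.map_sup, hf.map_mul, hf.map_mul, hf.map_sup, e2, e2, e1] at h1
  exact h1

/-- An `ℓ`-group satisfying the representability law has enough totally ordered quotients. -/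
theorem exists_chain_of_law (h0 : RepLaw G) {w : G} (hw : w ≠ 1) :
    ∃ (K : Type) (_ : Group K) (_ : Lattice K) (π : G →* K), IsLGroup K ∧
      (∀ x y : K, x ≤ y ∨ y ≤ x) ∧ (∀ x y, π (x ⊔ y) = π x ⊔ π y) ∧
      (∀ x y, π (x ⊓ y) = π x ⊓ π y) ∧ Function.Surjective π ∧ π w ≠ 1 := by
  classical
  have hbot : IsLIdeal (⊥ : Subgroup G) := by
    refine ⟨inferInstance, ?_, ?_, ?_⟩
    · intro x hx y hy
      rw [Subgroup.mem_bot.mp hx, Subgroup.mem_bot.mp hy, sup_idem]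
      exact Subgroup.one_mem _
    · intro x hx y hy
      rw [Subgroup.mem_bot.mp hx, Subgroup.mem_bot.mp hy, inf_idem]
      exact Subgroup.one_mem _
    · intro x hx y hy g h1 h2
      rw [Subgroup.mem_bot.mp hx] at h1
      rw [Subgroup.mem_bot.mp hy] at h2
      exact Subgroup.mem_bot.mpr (le_antisymm h2 h1)
  obtain ⟨P, hmax⟩ : ∃ P : Subgroup G, Maximal (fun N : Subgroup G => IsLIdeal N ∧ w ∉ N) P := by
    have := zorn_le_nonempty₀ {N : Subgroup G | IsLIdeal N ∧ w ∉ N} (fun C hC hchain N0 hN0 => by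
      have hdir : DirectedOn (· ≤ ·) C := hchain.directedOn
      have hmem : ∀ x, x ∈ sSup C ↔ ∃ N ∈ C, x ∈ N := fun x =>
        Subgroup.mem_sSup_of_directedOn ⟨N0, hN0⟩ hdir
      refine ⟨sSup C, ⟨?_, ?_⟩, fun N hN => le_sSup hN⟩
      · refine ⟨⟨?_⟩, ?_, ?_, ?_⟩
        · intro x hx g
          rw [hmem] at hx ⊢
          obtain ⟨A, hA, hxA⟩ := hx
          exact ⟨A, hA, (hC hA).1.normal.conj_mem x hxA g⟩
        · intro x hx y hy
          rw [hmem] at hx hy ⊢
          obtain ⟨A, hA, hxA⟩ := hx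
          obtain ⟨B, hB, hyB⟩ := hy
          rcases hchain.total hA hB with h | h
          · exact ⟨B, hB, (hC hB).1.sup_mem _ (h hxA) _ hyB⟩
          · exact ⟨A, hA, (hC hA).1.sup_mem _ hxA _ (h hyB)⟩
        · intro x hx y hy
          rw [hmem] at hx hy ⊢
          obtain ⟨A, hA, hxA⟩ := hx
          obtain ⟨B, hB, hyB⟩ := hy
          rcases hchain.total hA hB with h | h
          · exact ⟨B, hB, (hC hB).1.inf_mem _ (h hxA) _ hyB⟩
          · exact ⟨A, hA, (hC hA).1.inf_mem _ hxA _ (h hyB)⟩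
        · intro x hx y hy g h1 h2
          rw [hmem] at hx hy ⊢
          obtain ⟨A, hA, hxA⟩ := hx
          obtain ⟨B, hB, hyB⟩ := hy
          rcases hchain.total hA hB with h | h
          · exact ⟨B, hB, (hC hB).1.convex _ (h hxA) _ hyB g h1 h2⟩
          · exact ⟨A, hA, (hC hA).1.convex _ hxA _ (h hyB) g h1 h2⟩
      · intro hcon
        obtain ⟨N, hN, hwN⟩ := (hmem w).mp hcon
        exact (hC hN).2 hwN) ⊥ ⟨hbot, fun h => hw (Subgroup.mem_bot.mp h)⟩
    obtain ⟨P, _, hP⟩ := this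
    exact ⟨P, hP⟩
  have hPI : IsLIdeal P := hmax.1.1
  have hwP : w ∉ P := hmax.1.2
  haveI hPn : P.Normal := hPI.normal
  letI : Lattice (G ⧸ P) := quotLattice P hPI
  haveI : MulLeftMono (G ⧸ P) := quotLattice_mulLeftMono P hPI
  haveI : MulRightMono (G ⧸ P) := quotLattice_mulRightMono P hPI
  have vQ : RepLaw (G ⧸ P) := h0.map (f := fun x : G => (x : G ⧸ P))
    ⟨fun _ _ => rfl, fun _ _ => rfl, fun _ _ => rfl⟩ QuotientGroup.mk_surjective
  have hrep : ∀ u v x : G ⧸ P, u ⊓ v = 1 → u ⊓ (x⁻¹ * v * x) = 1 :=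
    fun u v x h => vQ.disj u v x h
  have key : ∀ (N : Subgroup (G ⧸ P)), IsLIdeal N → N ≠ ⊥ → (w : G ⧸ P) ∈ N := by
    intro N hN hne
    have hcm : IsLIdeal (N.comap (QuotientGroup.mk' P)) := by
      refine ⟨hN.normal.comap _, ?_, ?_, ?_⟩
      · intro a ha b hb
        exact hN.sup_mem _ ha _ hb
      · intro a ha b hb
        exact hN.inf_mem _ ha _ hb
      · intro a ha b hb g h1 h2
        have m1 : QuotientGroup.mk' P a ≤ QuotientGroup.mk' P g := by
          rw [← sup_eq_right]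
          change QuotientGroup.mk' P (a ⊔ g) = _
          rw [sup_eq_right.mpr h1]
        have m2 : QuotientGroup.mk' P g ≤ QuotientGroup.mk' P b := by
          rw [← sup_eq_right]
          change QuotientGroup.mk' P (g ⊔ b) = _
          rw [sup_eq_right.mpr h2]
        exact hN.convex _ ha _ hb _ m1 m2
    have hle : P ≤ N.comap (QuotientGroup.mk' P) := by
      intro a ha
      change QuotientGroup.mk' P a ∈ N
      have : QuotientGroup.mk' P a = 1 := (QuotientGroup.eq_one_iff a).mpr ha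
      rw [this]
      exact Subgroup.one_mem _
    by_contra hw2
    have heq : N.comap (QuotientGroup.mk' P) ≤ P := hmax.2 ⟨hcm, hw2⟩ hle
    apply hne
    rw [eq_bot_iff]
    intro x hx
    obtain ⟨x', rfl⟩ := QuotientGroup.mk'_surjective P x
    exact Subgroup.mem_bot.mpr ((QuotientGroup.eq_one_iff x').mpr (heq hx))
  have hprime : ∀ x y : G ⧸ P, 1 ≤ x → 1 ≤ y → x ⊓ y = 1 → x = 1 ∨ y = 1 := by
    intro x y hx hy hxy
    by_contra hcon
    push Not at hcon
    have absx : x ⊔ x⁻¹ = x := sup_eq_left.mpr ((inv_le_one'.mpr hx).trans hx)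
    have absy : y ⊔ y⁻¹ = y := sup_eq_left.mpr ((inv_le_one'.mpr hy).trans hy)
    have h1 : (w : G ⧸ P) ∈ polar x hx := by
      refine key _ (polar_ideal hrep x hx) ?_
      intro hbot
      have : y ∈ polar x hx := by rw [mem_polar, absy]; exact hxy
      rw [hbot] at this
      exact hcon.2 (Subgroup.mem_bot.mp this)
    rw [mem_polar] at h1
    have hw1 : (1 : G ⧸ P) ≤ (w : G ⧸ P) ⊔ (w : G ⧸ P)⁻¹ := one_le_mabs _
    have h2 : (w : G ⧸ P) ∈ polar ((w : G ⧸ P) ⊔ (w : G ⧸ P)⁻¹) hw1 := by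
      refine key _ (polar_ideal hrep _ _) ?_
      intro hbot
      have : x ∈ polar ((w : G ⧸ P) ⊔ (w : G ⧸ P)⁻¹) hw1 := by
        rw [mem_polar, absx, inf_comm]; exact h1
      rw [hbot] at this
      exact hcon.1 (Subgroup.mem_bot.mp this)
    rw [mem_polar, inf_idem] at h2
    have h3 : (w : G ⧸ P) = 1 := by
      apply le_antisymm
      · rw [← h2]; exact le_sup_left
      · rw [← inv_le_one', ← h2]; exact le_sup_right
    exact hwP ((QuotientGroup.eq_one_iff w).mp h3)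
  refine ⟨G ⧸ P, inferInstance, quotLattice P hPI, QuotientGroup.mk' P,
    ⟨quotLattice_mulLeftMono P hPI, quotLattice_mulRightMono P hPI⟩, ?_, fun _ _ => rfl,
    fun _ _ => rfl, QuotientGroup.mk'_surjective P, ?_⟩
  · intro x y
    rcases hprime (x * y⁻¹ ⊔ 1) ((x * y⁻¹)⁻¹ ⊔ 1) le_sup_right le_sup_right (pos_inf_neg _)
      with h | h
    · left
      have : x * y⁻¹ ≤ 1 := sup_eq_right.mp h
      rwa [mul_inv_le_iff_le_mul, one_mul] at this
    · right
      have : (x * y⁻¹)⁻¹ ≤ 1 := sup_eq_right.mp h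
      rw [mul_inv_rev, inv_inv, mul_inv_le_iff_le_mul, one_mul] at this
      exact this
  · intro h
    exact hwP ((QuotientGroup.eq_one_iff w).mp h)

theorem RepLaw.of_total (htot : ∀ x y : G, x ≤ y ∨ y ≤ x) : RepLaw G := by
  intro x y
  rcases htot x 1 with h | h
  · rw [sup_eq_right.mpr h]
    apply inf_eq_left.mpr
    have h1 : (1 : G) ≤ x⁻¹ ⊔ 1 := le_sup_right
    have := mul_le_mul' (mul_le_mul' (le_refl y) h1) (le_refl y⁻¹)
    rwa [mul_one, mul_inv_cancel] at this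
  · have h1 : x⁻¹ ⊔ 1 = 1 := sup_eq_right.mpr (inv_le_one'.mpr h)
    rw [h1, mul_one, mul_inv_cancel]
    exact inf_eq_right.mpr le_sup_right

end

theorem representable_of_law {G : Type} [Group G] [Lattice G] (hG : IsLGroup G)
    (h : RepLaw G) : Representable G := by
  haveI := hG.1
  haveI := hG.2
  refine ⟨hG, ?_⟩
  have key : ∀ w : {w : G // w ≠ 1}, ∃ (K : Type) (_ : Group K) (_ : Lattice K) (π : G →* K),
      IsLGroup K ∧
      (∀ x y : K, x ≤ y ∨ y ≤ x) ∧ (∀ x y, π (x ⊔ y) = π x ⊔ π y) ∧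
      (∀ x y, π (x ⊓ y) = π x ⊓ π y) ∧ Function.Surjective π ∧ π w ≠ 1 :=
    fun w => exists_chain_of_law h w.2
  choose K i1 i2 π h1 h2 h3 h4 h5 h6 using key
  refine ⟨{w : G // w ≠ 1}, K, i1, i2, fun i => π i, h1, h2,
    fun i => ⟨map_mul _, h3 i, h4 i⟩, h5, ?_⟩
  intro x y hxy
  by_contra hne
  have hne' : x * y⁻¹ ≠ 1 := fun h => hne (mul_inv_eq_one.mp h)
  apply h6 ⟨x * y⁻¹, hne'⟩
  have := hxy ⟨x * y⁻¹, hne'⟩
  simp only at this ⊢
  rw [map_mul, map_inv, this, mul_inv_cancel]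

theorem law_of_representable {G : Type} [Group G] [Lattice G] (h : Representable G) :
    RepLaw G := by
  obtain ⟨hG, ι, T, i1, i2, f, h1, h2, h3, h4, h5⟩ := h
  intro x y
  apply h5
  intro i
  haveI := (h1 i).1
  haveI := (h1 i).2
  have hT : RepLaw (T i) := RepLaw.of_total (h2 i)
  let φ : G →* T i := MonoidHom.mk' (f i) (h3 i).map_mul
  have e1 : f i 1 = 1 := map_one φ
  have e2 : ∀ z, f i z⁻¹ = (f i z)⁻¹ := map_inv φ
  rw [(h3 i).map_inf, (h3 i).map_sup, (h3 i).map_mul, (h3 i).map_mul, (h3 i).map_sup, e2, e2, e1]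
  exact hT _ _

end Pool.Agent.Helper6.NC
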