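import Pool.Agent.Helper6.LVarCover

set_option autoImplicit false
set_option linter.unusedSectionVars false
set_option linter.style.haveILetI false

namespace Pool.Agent.Helper6.NC

open LVar

section holder

variable {K : Type} [Group K] [Lattice K] [MulLeftMono K] [MulRightMono K]

theorem zlt {s : K} (hs : 1 < s) {a b : ℤ} (h : a < b) : s ^ a < s ^ b := by
  have h1 : s ^ b = s ^ a * s ^ (b - a) := by rw [← zpow_add]; congr 1; ring
  rw [h1]
  apply lt_mul_of_one_lt_right'
  obtain ⟨n, hn⟩ := Int.eq_ofNat_of_zero_le (sub_nonneg.mpr h.le)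
  rw [hn, zpow_natCast]
  apply one_lt_pow' hs
  intro h0
  rw [h0] at hn
  simp at hn
  omega

theorem zle_iff {s : K} (hs : 1 < s) {a b : ℤ} : s ^ a ≤ s ^ b ↔ a ≤ b := by
  constructor
  · intro h
    by_contra hcon
    exact absurd (zlt hs (not_le.mp hcon)) (not_lt_of_ge h)
  · exact zmono hs.le

/-- Membership in the convex subgroup generated by `s`. -/
def InD (s x : K) : Prop := ∃ n : ℕ, s ^ (-(n : ℤ)) ≤ x ∧ x ≤ s ^ (n : ℤ)

theorem InD.one (s : K) : InD s 1 := ⟨0, by simp, by simp⟩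

theorem InD.self {s : K} (hs : 1 < s) : InD s s := ⟨1, by
  rw [Nat.cast_one, zpow_neg_one]
  exact (inv_le_one'.mpr hs.le).trans hs.le, by simp⟩

theorem InD.mul {s x y : K} (hx : InD s x) (hy : InD s y) : InD s (x * y) := by
  obtain ⟨n, h1, h2⟩ := hx
  obtain ⟨m, h3, h4⟩ := hy
  refine ⟨n + m, ?_, ?_⟩
  · have := mul_le_mul' h1 h3
    rw [← zpow_add] at this
    refine le_trans (le_of_eq ?_) this
    congr 1; push_cast; ring
  · have := mul_le_mul' h2 h4
    rw [← zpow_add] at this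
    refine le_trans this (le_of_eq ?_)
    congr 1

theorem InD.inv {s x : K} (hx : InD s x) : InD s x⁻¹ := by
  obtain ⟨n, h1, h2⟩ := hx
  refine ⟨n, ?_, ?_⟩
  · rw [zpow_neg]; exact inv_le_inv_iff.mpr h2
  · have := inv_le_inv_iff.mpr h1
    rwa [← zpow_neg, neg_neg] at this

theorem InD.zpow {s x : K} (hx : InD s x) (n : ℤ) : InD s (x ^ n) := by
  induction n with
  | zero => rw [zpow_zero]; exact InD.one s
  | succ n ih => rw [zpow_add, zpow_one]; exact ih.mul hx
  | pred n ih => rw [sub_eq_add_neg, zpow_add, zpow_neg_one]; exact ih.mul hx.inv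

/-- The set defining the functional. -/
def phiSet (s x : K) : Set ℝ :=
  {r | ∃ n : ℕ, 0 < n ∧ ∃ m : ℤ, r = (m : ℝ) / n ∧ s ^ m ≤ x ^ n}

/-- The functional. -/
noncomputable def phi (s x : K) : ℝ := sSup (phiSet s x)

theorem phi_key {s x : K} (hs : 1 < s) {n n' : ℕ} (hn : 0 < n) (hn' : 0 < n') {m m' : ℤ}
    (h1 : s ^ m ≤ x ^ n) (h2 : x ^ n' ≤ s ^ m') : (m : ℝ) / n ≤ (m' : ℝ) / n' := by
  have h3 : s ^ (m * n') ≤ s ^ (m' * n) := by
    have a1 : (s ^ m) ^ n' ≤ (x ^ n) ^ n' := pow_le_pow_left' h1 n'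
    have a2 : (x ^ n') ^ n ≤ (s ^ m') ^ n := pow_le_pow_left' h2 n
    rw [← pow_mul] at a1 a2
    rw [mul_comm n' n] at a2
    have := a1.trans a2
    rwa [← zpow_natCast, ← zpow_natCast, ← zpow_mul, ← zpow_mul] at this
  rw [zle_iff hs] at h3
  rw [div_le_div_iff₀ (by exact_mod_cast hn) (by exact_mod_cast hn')]
  exact_mod_cast h3

theorem exists_floor (htot : ∀ x y : K, x ≤ y ∨ y ≤ x) {s x : K} (hs : 1 < s) (hx : InD s x)
    (n : ℕ) : ∃ a : ℤ, s ^ a ≤ x ^ n ∧ x ^ n ≤ s ^ (a + 1) := by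
  classical
  have hx' := hx.zpow (n : ℤ)
  rw [zpow_natCast] at hx'
  obtain ⟨N, h1, h2⟩ := hx'
  obtain ⟨a, ha, hmax⟩ := Int.exists_greatest_of_bdd (P := fun a => s ^ a ≤ x ^ n)
    ⟨N, fun z hz => (zle_iff hs).mp (hz.trans h2)⟩ ⟨_, h1⟩
  refine ⟨a, ha, ?_⟩
  rcases htot (x ^ n) (s ^ (a + 1)) with h | h
  · exact h
  · have := hmax _ h
    omega

variable {s : K}

theorem phi_bdd (htot : ∀ x y : K, x ≤ y ∨ y ≤ x) (hs : 1 < s) {x : K} (hx : InD s x) :
    BddAbove (phiSet s x) := by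
  obtain ⟨a, _, h2⟩ := exists_floor htot hs hx 1
  refine ⟨((a + 1 : ℤ) : ℝ) / (1 : ℕ), ?_⟩
  rintro r ⟨n, hn, m, rfl, h⟩
  exact phi_key hs hn one_pos h h2

theorem le_phi (htot : ∀ x y : K, x ≤ y ∨ y ≤ x) (hs : 1 < s) {x : K} (hx : InD s x)
    {n : ℕ} (hn : 0 < n) {m : ℤ} (h : s ^ m ≤ x ^ n) : (m : ℝ) / n ≤ phi s x :=
  le_csSup (phi_bdd htot hs hx) ⟨n, hn, m, rfl, h⟩

theorem phi_le (htot : ∀ x y : K, x ≤ y ∨ y ≤ x) (hs : 1 < s) {x : K} (hx : InD s x)
    {n : ℕ} (hn : 0 < n) {m : ℤ} (h : x ^ n ≤ s ^ m) : phi s x ≤ (m : ℝ) / n := by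
  apply csSup_le
  · obtain ⟨a, h1, _⟩ := exists_floor htot hs hx 1
    exact ⟨_, 1, one_pos, a, rfl, h1⟩
  · rintro r ⟨n', hn', m', rfl, h'⟩
    exact phi_key hs hn' hn h' h

theorem pow_mul_pow_le {x y : K} (h : x * y ≤ y * x) (n : ℕ) :
    x ^ n * y ^ n ≤ (x * y) ^ n ∧ (y * x) ^ n ≤ y ^ n * x ^ n := by
  induction n with
  | zero => simp
  | succ n ih =>
    have h1 : (x * y) ^ n ≤ (y * x) ^ n := pow_le_pow_left' h n
    constructor
    · calc x ^ (n + 1) * y ^ (n + 1) = x * (x ^ n * y ^ n) * y := by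
            rw [pow_succ' x, pow_succ y]; group
        _ ≤ x * (y * x) ^ n * y :=
            mul_le_mul' (mul_le_mul' le_rfl (ih.1.trans h1)) le_rfl
        _ = (x * y) ^ (n + 1) := by
            have : ∀ k : ℕ, x * (y * x) ^ k = (x * y) ^ k * x := by
              intro k
              induction k with
              | zero => simp
              | succ k ihk => rw [pow_succ, ← mul_assoc, ihk, pow_succ]; group
            rw [this, pow_succ]; group
    · calc (y * x) ^ (n + 1) = y * (x * y) ^ n * x := by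
            have : ∀ k : ℕ, y * (x * y) ^ k = (y * x) ^ k * y := by
              intro k
              induction k with
              | zero => simp
              | succ k ihk => rw [pow_succ, ← mul_assoc, ihk, pow_succ]; group
            rw [this, pow_succ]; group
        _ ≤ y * (y ^ n * x ^ n) * x :=
            mul_le_mul' (mul_le_mul' le_rfl (h1.trans ih.2)) le_rfl
        _ = y ^ (n + 1) * x ^ (n + 1) := by
            rw [pow_succ' y, pow_succ x]; group

theorem real_eq_of_bound {a c : ℝ} (h : ∀ n : ℕ, 0 < n → |a| ≤ c / n) : a = 0 := by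
  by_contra hne
  have ha : 0 < |a| := abs_pos.mpr hne
  obtain ⟨n, hn⟩ := exists_nat_gt (c / |a|)
  have h1 := h (n + 1) (Nat.succ_pos n)
  have h2 : (0 : ℝ) < ((n + 1 : ℕ) : ℝ) := by positivity
  rw [le_div_iff₀ h2] at h1
  rw [div_lt_iff₀ ha] at hn
  push_cast at h1
  nlinarith

theorem phi_mul (htot : ∀ x y : K, x ≤ y ∨ y ≤ x) (hs : 1 < s) {x y : K} (hx : InD s x)
    (hy : InD s y) : phi s (x * y) = phi s x + phi s y := by
  have key : phi s (x * y) - (phi s x + phi s y) = 0 := by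
    apply real_eq_of_bound (c := 2)
    intro n hn
    obtain ⟨a, a1, a2⟩ := exists_floor htot hs hx n
    obtain ⟨b, b1, b2⟩ := exists_floor htot hs hy n
    have c1 := le_phi htot hs hx hn a1
    have c2 := phi_le htot hs hx hn a2
    have c3 := le_phi htot hs hy hn b1
    have c4 := phi_le htot hs hy hn b2
    have lo : s ^ (a + b) ≤ (x * y) ^ n := by
      rcases htot (x * y) (y * x) with h | h
      · refine le_trans ?_ (pow_mul_pow_le h n).1
        rw [zpow_add]; exact mul_le_mul' a1 b1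
      · refine le_trans ?_ (pow_le_pow_left' h n)
        refine le_trans ?_ (pow_mul_pow_le h n).1
        rw [add_comm, zpow_add]; exact mul_le_mul' b1 a1
    have hi : (x * y) ^ n ≤ s ^ (a + b + 2) := by
      rcases htot (x * y) (y * x) with h | h
      · refine (pow_le_pow_left' h n).trans ?_
        refine (pow_mul_pow_le h n).2.trans ?_
        have e : a + b + 2 = (b + 1) + (a + 1) := by ring
        rw [e, zpow_add]; exact mul_le_mul' b2 a2
      · refine (pow_mul_pow_le h n).2.trans ?_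
        have e : a + b + 2 = (a + 1) + (b + 1) := by ring
        rw [e, zpow_add]; exact mul_le_mul' a2 b2
    have c5 := le_phi htot hs (hx.mul hy) hn lo
    have c6 := phi_le htot hs (hx.mul hy) hn hi
    have hn' : (0 : ℝ) < n := by exact_mod_cast hn
    rw [div_le_iff₀ hn'] at c1 c3 c5
    rw [le_div_iff₀ hn'] at c2 c4 c6
    rw [le_div_iff₀ hn', ← abs_of_pos hn', ← abs_mul, abs_le]
    push_cast at c1 c2 c3 c4 c5 c6
    constructor <;> linarith
  linarith

theorem phi_one (htot : ∀ x y : K, x ≤ y ∨ y ≤ x) (hs : 1 < s) : phi s (1 : K) = 0 := by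
  have := phi_mul htot hs (InD.one s) (InD.one s)
  rw [mul_one] at this
  linarith

theorem phi_inv (htot : ∀ x y : K, x ≤ y ∨ y ≤ x) (hs : 1 < s) {x : K} (hx : InD s x) :
    phi s x⁻¹ = -phi s x := by
  have := phi_mul htot hs hx hx.inv
  rw [mul_inv_cancel, phi_one htot hs] at this
  linarith

theorem phi_zpow (htot : ∀ x y : K, x ≤ y ∨ y ≤ x) (hs : 1 < s) {x : K} (hx : InD s x)
    (n : ℤ) : phi s (x ^ n) = n * phi s x := by
  induction n with
  | zero => rw [zpow_zero, phi_one htot hs]; simp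
  | succ n ih =>
    rw [zpow_add, zpow_one, phi_mul htot hs (hx.zpow _) hx, ih]; push_cast; ring
  | pred n ih =>
    rw [sub_eq_add_neg, zpow_add, zpow_neg_one, phi_mul htot hs (hx.zpow _) hx.inv, ih,
      phi_inv htot hs hx]
    push_cast; ring

theorem phi_self (htot : ∀ x y : K, x ≤ y ∨ y ≤ x) (hs : 1 < s) : phi s s = 1 := by
  have h : s ^ (1 : ℤ) = s ^ 1 := by rw [zpow_one, pow_one]
  have h1 := le_phi htot hs (InD.self hs) one_pos h.le
  have h2 := phi_le htot hs (InD.self hs) one_pos h.ge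
  norm_num at h1 h2
  linarith

theorem phi_nonneg (htot : ∀ x y : K, x ≤ y ∨ y ≤ x) (hs : 1 < s) {x : K} (hx : InD s x)
    (h : 1 ≤ x) : 0 ≤ phi s x := by
  have := le_phi htot hs hx one_pos (m := 0) (by simpa using h)
  simpa using this

theorem phi_mono (htot : ∀ x y : K, x ≤ y ∨ y ≤ x) (hs : 1 < s) {x y : K} (hx : InD s x)
    (hy : InD s y) (h : x ≤ y) : phi s x ≤ phi s y := by
  have h1 : 1 ≤ x⁻¹ * y := by rwa [le_inv_mul_iff_mul_le, mul_one]
  have h2 := phi_nonneg htot hs (hx.inv.mul hy) h1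
  rw [phi_mul htot hs hx.inv hy, phi_inv htot hs hx] at h2
  linarith

theorem conj_mono {x y : K} (t : K) (h : x ≤ y) : t * x * t⁻¹ ≤ t * y * t⁻¹ :=
  mul_le_mul' (mul_le_mul' le_rfl h) le_rfl

/-- Conjugation rescales the functional. -/
theorem phi_conj (htot : ∀ x y : K, x ≤ y ∨ y ≤ x) (hs : 1 < s) {t : K}
    (ht : InD s (t * s * t⁻¹)) {x : K} (hx : InD s x) :
    InD s (t * x * t⁻¹) ∧ phi s (t * x * t⁻¹) = phi s (t * s * t⁻¹) * phi s x := by
  have hpow : ∀ (z : K) (n : ℤ), t * z ^ n * t⁻¹ = (t * z * t⁻¹) ^ n := fun z n =>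
    (conj_zpow).symm
  have hD : InD s (t * x * t⁻¹) := by
    obtain ⟨n, h1, h2⟩ := hx
    have a1 := conj_mono t h1
    have a2 := conj_mono t h2
    rw [hpow] at a1 a2
    obtain ⟨m, b1, b2⟩ := ht.zpow (-(n : ℤ))
    obtain ⟨m', b3, b4⟩ := ht.zpow (n : ℤ)
    refine ⟨m + m', ?_, ?_⟩
    · refine le_trans ?_ (b1.trans a1)
      exact zmono hs.le (by push_cast; omega)
    · refine (a2.trans b4).trans ?_
      exact zmono hs.le (by push_cast; omega)
  refine ⟨hD, ?_⟩
  have hpos : 0 ≤ phi s (t * s * t⁻¹) := by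
    apply phi_nonneg htot hs ht
    have := conj_mono t hs.le
    rwa [mul_one, mul_inv_cancel] at this
  have key : phi s (t * x * t⁻¹) - phi s (t * s * t⁻¹) * phi s x = 0 := by
    apply real_eq_of_bound (c := phi s (t * s * t⁻¹))
    intro n hn
    obtain ⟨a, a1, a2⟩ := exists_floor htot hs hx n
    have c1 := le_phi htot hs hx hn a1
    have c2 := phi_le htot hs hx hn a2
    have d1 := conj_mono t a1
    have d2 := conj_mono t a2
    rw [← zpow_natCast, hpow, hpow] at d1 d2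
    have e1 := phi_mono htot hs (ht.zpow a) (hD.zpow _) d1
    have e2 := phi_mono htot hs (hD.zpow _) (ht.zpow (a + 1)) d2
    rw [phi_zpow htot hs ht, phi_zpow htot hs hD] at e1 e2
    have hn' : (0 : ℝ) < n := by exact_mod_cast hn
    rw [div_le_iff₀ hn'] at c1
    rw [le_div_iff₀ hn'] at c2
    rw [le_div_iff₀ hn', ← abs_of_pos hn', ← abs_mul, abs_le]
    push_cast at c1 c2 e1 e2
    constructor <;> nlinarith
  linarith

end holder

end Pool.Agent.Helper6.NC
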