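import Pool.Agent.Helper6.NC1
import Pool.Agent.Helper6.NC2
import Pool.Agent.Helper6.AP7

set_option autoImplicit false
set_option linter.unusedSectionVars false
set_option linter.style.haveILetI false

namespace Pool.Agent.Helper6.NC

open LVar AP

/-! ### Order quotients of subgroups of chains -/

section quot

variable {F K T : Type} [Group F] [Group K] [Lattice K] [MulLeftMono K] [MulRightMono K]
  [Group T] [Lattice T] [MulLeftMono T] [MulRightMono T]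

theorem quot_eval (htK : ∀ x y : K, x ≤ y ∨ y ≤ x) (htT : ∀ x y : T, x ≤ y ∨ y ≤ x)
    (α : F →* K) (β : F →* T) (h : ∀ w, 1 < β w → 1 < α w) (v : ℕ → F) (t : LTerm) :
    ∃ w : F, α w = t.eval (fun i => α (v i)) ∧ β w = t.eval (fun i => β (v i)) := by
  have hlt : ∀ w w' : F, β w < β w' → α w < α w' := by
    intro w w' hw
    have h1 : 1 < β (w⁻¹ * w') := by
      rw [map_mul, map_inv]; exact one_lt_inv_mul'.mpr hw
    have h2 := h _ h1
    rw [map_mul, map_inv] at h2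
    exact one_lt_inv_mul'.mp h2
  have hlin : ∀ w w' : F, (α w ≤ α w' ∧ β w ≤ β w') ∨ (α w' ≤ α w ∧ β w' ≤ β w) := by
    intro w w'
    rcases htT (β w) (β w') with h1 | h1
    · rcases h1.lt_or_eq with h2 | h2
      · exact Or.inl ⟨(hlt _ _ h2).le, h1⟩
      · rcases htK (α w) (α w') with h3 | h3
        · exact Or.inl ⟨h3, h1⟩
        · exact Or.inr ⟨h3, h2.ge⟩
    · rcases h1.lt_or_eq with h2 | h2
      · exact Or.inr ⟨(hlt _ _ h2).le, h1⟩
      · rcases htK (α w) (α w') with h3 | h3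
        · exact Or.inl ⟨h3, h2.ge⟩
        · exact Or.inr ⟨h3, h1⟩
  induction t with
  | var i => exact ⟨v i, rfl, rfl⟩
  | one => exact ⟨1, map_one α, map_one β⟩
  | mul s t hs ht =>
    obtain ⟨w, h1, h2⟩ := hs
    obtain ⟨w', h3, h4⟩ := ht
    refine ⟨w * w', ?_, ?_⟩
    · rw [map_mul, h1, h3]; rfl
    · rw [map_mul, h2, h4]; rfl
  | inv t ht =>
    obtain ⟨w, h1, h2⟩ := ht
    refine ⟨w⁻¹, ?_, ?_⟩
    · rw [map_inv, h1]; rfl
    · rw [map_inv, h2]; rfl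
  | sup s t hs ht =>
    obtain ⟨w, h1, h2⟩ := hs
    obtain ⟨w', h3, h4⟩ := ht
    rcases hlin w w' with ⟨h5, h6⟩ | ⟨h5, h6⟩
    · refine ⟨w', ?_, ?_⟩
      · change _ = _ ⊔ _
        rw [← h1, ← h3, sup_eq_right.mpr h5]
      · change _ = _ ⊔ _
        rw [← h2, ← h4, sup_eq_right.mpr h6]
    · refine ⟨w, ?_, ?_⟩
      · change _ = _ ⊔ _
        rw [← h1, ← h3, sup_eq_left.mpr h5]
      · change _ = _ ⊔ _
        rw [← h2, ← h4, sup_eq_left.mpr h6]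
  | inf s t hs ht =>
    obtain ⟨w, h1, h2⟩ := hs
    obtain ⟨w', h3, h4⟩ := ht
    rcases hlin w w' with ⟨h5, h6⟩ | ⟨h5, h6⟩
    · refine ⟨w, ?_, ?_⟩
      · change _ = _ ⊓ _
        rw [← h1, ← h3, inf_eq_left.mpr h5]
      · change _ = _ ⊓ _
        rw [← h2, ← h4, inf_eq_left.mpr h6]
    · refine ⟨w', ?_, ?_⟩
      · change _ = _ ⊓ _
        rw [← h1, ← h3, inf_eq_right.mpr h5]
      · change _ = _ ⊓ _
        rw [← h2, ← h4, inf_eq_right.mpr h6]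

/-- Identities of `K` hold in the image of `β`. -/
theorem quot_satisfies (htK : ∀ x y : K, x ≤ y ∨ y ≤ x) (htT : ∀ x y : T, x ≤ y ∨ y ≤ x)
    (α : F →* K) (β : F →* T) (h : ∀ w, 1 < β w → 1 < α w) {E : Set (LTerm × LTerm)}
    (hE : Satisfies E K) (e : LTerm × LTerm) (he : e ∈ E) (v : ℕ → F) :
    e.1.eval (fun i => β (v i)) = e.2.eval (fun i => β (v i)) := by
  obtain ⟨w, h1, h2⟩ := quot_eval htK htT α β h v e.1
  obtain ⟨w', h3, h4⟩ := quot_eval htK htT α β h v e.2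
  have h5 : α w = α w' := by rw [h1, h3]; exact hE e he _
  have key : ∀ w w' : F, α w = α w' → ¬ β w < β w' := by
    intro w w' h5 h6
    have h1 : 1 < β (w⁻¹ * w') := by
      rw [map_mul, map_inv]; exact one_lt_inv_mul'.mpr h6
    have h2 := h _ h1
    rw [map_mul, map_inv, h5, inv_mul_cancel] at h2
    exact lt_irrefl _ h2
  rw [← h2, ← h4]
  rcases htT (β w) (β w') with h6 | h6
  · rcases h6.lt_or_eq with h7 | h7
    · exact absurd h7 (key _ _ h5)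
    · exact h7
  · rcases h6.lt_or_eq with h7 | h7
    · exact absurd h7 (key _ _ h5.symm)
    · exact h7.symm

end quot

/-! ### Subgroups of chains -/

section sub

variable {T : Type} [Group T] [Lattice T] [MulLeftMono T] [MulRightMono T]

/-- The lattice structure on a subgroup of a chain. -/
@[reducible] def chainLattice (htT : ∀ x y : T, x ≤ y ∨ y ≤ x) (H : Subgroup T) : Lattice H :=
  subLattice H
    (fun x hx y hy => by
      rcases htT x y with h | h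
      · rw [sup_eq_right.mpr h]; exact hy
      · rw [sup_eq_left.mpr h]; exact hx)
    (fun x hx y hy => by
      rcases htT x y with h | h
      · rw [inf_eq_left.mpr h]; exact hx
      · rw [inf_eq_right.mpr h]; exact hy)

theorem chainLattice_isLGroup (htT : ∀ x y : T, x ≤ y ∨ y ≤ x) (H : Subgroup T) :
    letI := chainLattice htT H
    IsLGroup H := by
  letI := chainLattice htT H
  refine ⟨⟨fun c a b hab => ?_⟩, ⟨fun c a b hab => ?_⟩⟩
  · change (c : T) * (a : T) ≤ (c : T) * (b : T)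
    exact mul_le_mul' (le_refl (c : T)) hab
  · change (a : T) * (c : T) ≤ (b : T) * (c : T)
    exact mul_le_mul' hab (le_refl (c : T))

theorem chainLattice_eval (htT : ∀ x y : T, x ≤ y ∨ y ≤ x) (H : Subgroup T) (v : ℕ → H)
    (t : LTerm) :
    letI := chainLattice htT H
    ((t.eval v : H) : T) = t.eval (fun i => (v i : T)) := by
  letI := chainLattice htT H
  exact (eval_hom H.subtype (fun _ _ => rfl) (fun _ _ => rfl) v t).symm

theorem chainLattice_satisfies (htT : ∀ x y : T, x ≤ y ∨ y ≤ x) (H : Subgroup T)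
    (E : Set (LTerm × LTerm))
    (h : ∀ e ∈ E, ∀ v : ℕ → T, (∀ i, v i ∈ H) → e.1.eval v = e.2.eval v) :
    letI := chainLattice htT H
    Satisfies E H := by
  letI := chainLattice htT H
  intro e he v
  apply Subtype.ext
  rw [chainLattice_eval, chainLattice_eval]
  exact h e he _ (fun i => (v i).2)

end sub

/-! ### The groups `ℝ ⋊ ℤ` -/

/-- The positive reals. -/
def RC : ACone ℝ where
  Pos x := 0 < x
  add _ _ := add_pos
  not_zero := lt_irrefl _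
  tri x := by
    rcases lt_trichotomy x 0 with h | h | h
    · right; right; linarith
    · exact Or.inl h
    · exact Or.inr (Or.inl h)

/-- Multiplication by `μ`. -/
noncomputable def MU (μ : ℝ) (hμ : 0 < μ) : OAut RC := mkOAut RC
  { toFun := fun x => μ * x
    invFun := fun x => μ⁻¹ * x
    left_inv := fun x => by
      change μ⁻¹ * (μ * x) = x
      rw [inv_mul_cancel_left₀ hμ.ne']
    right_inv := fun x => by
      change μ * (μ⁻¹ * x) = x
      rw [mul_inv_cancel_left₀ hμ.ne']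
    map_add' := fun x y => mul_add μ x y }
  (fun x hx => mul_pos hμ hx)

theorem pw_MU (μ : ℝ) (hμ : 0 < μ) (k : ℤ) : ∀ x : ℝ, Ext.pw (MU μ hμ) k x = μ ^ k * x := by
  have h1 : ∀ x, Ext.pw (MU μ hμ) 1 x = μ * x := by
    intro x
    rw [Ext.pw_one]; rfl
  have h2 : ∀ x, Ext.pw (MU μ hμ) (-1) x = μ⁻¹ * x := by
    intro x
    have := h1 (Ext.pw (MU μ hμ) (-1) x)
    rw [← Ext.pw_add, add_neg_cancel, Ext.pw_zero] at this
    conv_rhs => rw [this]
    rw [inv_mul_cancel_left₀ hμ.ne']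
  induction k with
  | zero => intro x; rw [Ext.pw_zero, zpow_zero, one_mul]
  | succ n ih =>
    intro x
    rw [Ext.pw_add, h1, ih, zpow_add₀ hμ.ne', zpow_one]; ring
  | pred n ih =>
    intro x
    rw [sub_eq_add_neg, Ext.pw_add, h2, ih, zpow_add₀ hμ.ne', zpow_neg_one]; ring

/-- The ordered group `ℝ ⋊ ℤ`. -/
abbrev TT (μ : ℝ) (hμ : 0 < μ) : Type := Ext RC (MU μ hμ)

/-! ### The order quotient -/

section gam

variable {K : Type} [Group K] [Lattice K] [MulLeftMono K] [MulRightMono K]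

theorem conj_zpow_phi (htot : ∀ x y : K, x ≤ y ∨ y ≤ x) {s t : K} (hs : 1 < s)
    (ht : InD s (t * s * t⁻¹)) (hμ : 0 < phi s (t * s * t⁻¹)) (i : ℤ) :
    ∀ x : K, InD s x → InD s (t ^ i * x * (t ^ i)⁻¹) ∧
      phi s (t ^ i * x * (t ^ i)⁻¹) = phi s (t * s * t⁻¹) ^ i * phi s x := by
  set μ := phi s (t * s * t⁻¹) with hμd
  -- the inverse
  have hinvD : InD s (t⁻¹ * s * t⁻¹⁻¹) := by
    obtain ⟨n, hn⟩ := exists_nat_gt (1 / μ)
    have h1 : s ≤ (t * s * t⁻¹) ^ (n : ℤ) := by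
      rcases htot s ((t * s * t⁻¹) ^ (n : ℤ)) with h | h
      · exact h
      · have := phi_mono htot hs (ht.zpow _) (InD.self hs) h
        rw [phi_self htot hs, phi_zpow htot hs ht, ← hμd] at this
        rw [div_lt_iff₀ hμ] at hn
        push_cast at this
        linarith
    have h2 : t⁻¹ * s * t⁻¹⁻¹ ≤ s ^ (n : ℤ) := by
      have := conj_mono t⁻¹ h1
      refine this.trans (le_of_eq ?_)
      rw [← conj_zpow]
      group
    have h3 : 1 ≤ t⁻¹ * s * t⁻¹⁻¹ := by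
      have := conj_mono t⁻¹ hs.le
      rwa [mul_one, mul_inv_cancel] at this
    refine ⟨n, ?_, h2⟩
    refine le_trans ?_ h3
    have := zmono hs.le (show -(n : ℤ) ≤ 0 by omega)
    rwa [zpow_zero] at this
  have hinvμ : phi s (t⁻¹ * s * t⁻¹⁻¹) = μ⁻¹ := by
    have h1 := (phi_conj htot hs ht hinvD).2
    have e : t * (t⁻¹ * s * t⁻¹⁻¹) * t⁻¹ = s := by group
    rw [e, phi_self htot hs, ← hμd] at h1
    field_simp
    linarith
  induction i with
  | zero =>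
    intro x hx
    simp only [zpow_zero, one_mul, inv_one, mul_one]
    exact ⟨hx, trivial⟩
  | succ n ih =>
    intro x hx
    obtain ⟨h1, h2⟩ := phi_conj htot hs ht hx
    obtain ⟨h3, h4⟩ := ih _ h1
    have e : t ^ ((n : ℤ) + 1) * x * (t ^ ((n : ℤ) + 1))⁻¹ =
        t ^ (n : ℤ) * (t * x * t⁻¹) * (t ^ (n : ℤ))⁻¹ := by
      rw [zpow_add, zpow_one]; group
    rw [e]
    refine ⟨h3, ?_⟩
    rw [h4, h2, ← hμd, zpow_add₀ hμ.ne', zpow_one]; ring
  | pred n ih =>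
    intro x hx
    obtain ⟨h1, h2⟩ := phi_conj htot hs hinvD hx
    obtain ⟨h3, h4⟩ := ih _ h1
    have e : t ^ (-(n : ℤ) - 1) * x * (t ^ (-(n : ℤ) - 1))⁻¹ =
        t ^ (-(n : ℤ)) * (t⁻¹ * x * t⁻¹⁻¹) * (t ^ (-(n : ℤ)))⁻¹ := by
      rw [sub_eq_add_neg, zpow_add, zpow_neg_one]; group
    rw [e]
    refine ⟨h3, ?_⟩
    rw [h4, h2, hinvμ, sub_eq_add_neg, zpow_add₀ hμ.ne', zpow_neg_one]; ring

/-- The pairing subgroup. -/
noncomputable def Gam (htot : ∀ x y : K, x ≤ y ∨ y ≤ x) {s t : K} (hs : 1 < s)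
    (ht : InD s (t * s * t⁻¹)) (hμ : 0 < phi s (t * s * t⁻¹)) :
    Subgroup (K × TT (phi s (t * s * t⁻¹)) hμ) where
  carrier := {z | InD s (z.1 * (t ^ z.2.k)⁻¹) ∧ phi s (z.1 * (t ^ z.2.k)⁻¹) = z.2.a}
  one_mem' := by
    change InD s (1 * (t ^ (0 : ℤ))⁻¹) ∧ phi s (1 * (t ^ (0 : ℤ))⁻¹) = 0
    rw [zpow_zero, inv_one, mul_one]
    exact ⟨InD.one s, phi_one htot hs⟩
  mul_mem' := by
    rintro ⟨x, p⟩ ⟨y, q⟩ ⟨h1, h2⟩ ⟨h3, h4⟩
    change InD s (x * y * (t ^ (p.k + q.k))⁻¹) ∧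
      phi s (x * y * (t ^ (p.k + q.k))⁻¹) = p.a + Ext.pw (MU _ hμ) p.k q.a
    simp only at h1 h2 h3 h4
    have e : x * y * (t ^ (p.k + q.k))⁻¹ =
        (x * (t ^ p.k)⁻¹) * (t ^ p.k * (y * (t ^ q.k)⁻¹) * (t ^ p.k)⁻¹) := by
      rw [add_comm, zpow_add]; group
    obtain ⟨h5, h6⟩ := conj_zpow_phi htot hs ht hμ p.k _ h3
    rw [e]
    refine ⟨h1.mul h5, ?_⟩
    rw [phi_mul htot hs h1 h5, h2, h6, h4, pw_MU]
  inv_mem' := by
    rintro ⟨x, p⟩ ⟨h1, h2⟩
    change InD s (x⁻¹ * (t ^ (-p.k))⁻¹) ∧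
      phi s (x⁻¹ * (t ^ (-p.k))⁻¹) = -Ext.pw (MU _ hμ) (-p.k) p.a
    simp only at h1 h2
    have e : x⁻¹ * (t ^ (-p.k))⁻¹ =
        t ^ (-p.k) * (x * (t ^ p.k)⁻¹)⁻¹ * (t ^ (-p.k))⁻¹ := by
      rw [zpow_neg]; group
    obtain ⟨h5, h6⟩ := conj_zpow_phi htot hs ht hμ (-p.k) _ h1.inv
    rw [e]
    refine ⟨h5, ?_⟩
    rw [h6, phi_inv htot hs h1, h2, pw_MU]; ring

theorem Gam_pos (htot : ∀ x y : K, x ≤ y ∨ y ≤ x) {s t : K} (hs : 1 < s)
    (ht : InD s (t * s * t⁻¹)) (hμ : 0 < phi s (t * s * t⁻¹)) (ht1 : 1 ≤ t)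
    (hμ1 : phi s (t * s * t⁻¹) ≠ 1) (w : Gam htot hs ht hμ)
    (hw : 1 < ((w : K × TT (phi s (t * s * t⁻¹)) hμ)).2) : 1 < (w : K × TT _ hμ).1 := by
  obtain ⟨⟨x, p⟩, h1, h2⟩ := w
  simp only at h1 h2 hw ⊢
  have htD : ¬ InD s t := by
    intro h
    apply hμ1
    rw [phi_mul htot hs (h.mul (InD.self hs)) h.inv, phi_mul htot hs h (InD.self hs),
      phi_inv htot hs h, phi_self htot hs]
    ring
  have hst : ∀ n : ℕ, s ^ (n : ℤ) ≤ t := by
    intro n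
    rcases htot (s ^ (n : ℤ)) t with h | h
    · exact h
    · exfalso
      apply htD
      refine ⟨n, le_trans ?_ ht1, h⟩
      have := zmono hs.le (show -(n : ℤ) ≤ 0 by omega)
      rwa [zpow_zero] at this
  rw [Ext.one_lt_iff] at hw
  rcases hw with hw | ⟨hw, hw'⟩
  · obtain ⟨n, h3, _⟩ := h1
    have h4 : t ≤ t ^ p.k := by
      have := zmono ht1 (show (1 : ℤ) ≤ p.k by omega)
      rwa [zpow_one] at this
    have h5 : s ^ (-(n : ℤ)) * s ^ ((n + 1 : ℕ) : ℤ) ≤ (x * (t ^ p.k)⁻¹) * t ^ p.k :=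
      mul_le_mul' h3 ((hst (n + 1)).trans h4)
    rw [← zpow_add, inv_mul_cancel_right] at h5
    have e : -(n : ℤ) + ((n + 1 : ℕ) : ℤ) = 1 := by push_cast; ring
    rw [e, zpow_one] at h5
    exact lt_of_lt_of_le hs h5
  · rw [hw, zpow_zero, inv_one, mul_one] at h1 h2
    have hpos : 0 < phi s x := by rw [h2]; exact hw'
    rcases htot x 1 with h | h
    · exfalso
      have h3 : 1 ≤ x⁻¹ := one_le_inv'.mpr h
      have h4 := phi_nonneg htot hs h1.inv h3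
      rw [phi_inv htot hs h1] at h4
      linarith
    · refine lt_of_le_of_ne h ?_
      rintro rfl
      rw [phi_one htot hs] at hpos
      exact lt_irrefl _ hpos

/-- The order quotient, as a subgroup of `ℝ ⋊ ℤ`. -/
noncomputable def QG (htot : ∀ x y : K, x ≤ y ∨ y ≤ x) {s t : K} (hs : 1 < s)
    (ht : InD s (t * s * t⁻¹)) (hμ : 0 < phi s (t * s * t⁻¹)) :
    Subgroup (TT (phi s (t * s * t⁻¹)) hμ) :=
  (Gam htot hs ht hμ).map (MonoidHom.snd K (TT (phi s (t * s * t⁻¹)) hμ))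

theorem QG_eval (htot : ∀ x y : K, x ≤ y ∨ y ≤ x) {s t : K} (hs : 1 < s)
    (ht : InD s (t * s * t⁻¹)) (hμ : 0 < phi s (t * s * t⁻¹)) (ht1 : 1 ≤ t)
    (hμ1 : phi s (t * s * t⁻¹) ≠ 1) {E : Set (LTerm × LTerm)} (hE : Satisfies E K) :
    ∀ e ∈ E, ∀ v : ℕ → TT (phi s (t * s * t⁻¹)) hμ, (∀ i, v i ∈ QG htot hs ht hμ) →
      e.1.eval v = e.2.eval v := by
  intro e he v hv
  have hw : ∀ i, ∃ w : Gam htot hs ht hμ, (w : K × TT (phi s (t * s * t⁻¹)) hμ).2 = v i := by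
    intro i
    obtain ⟨w, hw, hwi⟩ := hv i
    exact ⟨⟨w, hw⟩, hwi⟩
  choose w hw using hw
  have h1 := quot_satisfies htot Ext.total
    ((MonoidHom.fst K (TT (phi s (t * s * t⁻¹)) hμ)).comp (Gam htot hs ht hμ).subtype)
    ((MonoidHom.snd K (TT (phi s (t * s * t⁻¹)) hμ)).comp (Gam htot hs ht hμ).subtype)
    (fun w hw => Gam_pos htot hs ht hμ ht1 hμ1 w hw) hE e he w
  have e1 : (fun i => ((MonoidHom.snd K (TT (phi s (t * s * t⁻¹)) hμ)).comp
      (Gam htot hs ht hμ).subtype) (w i)) = v := funext hw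
  rw [e1] at h1
  exact h1

theorem QG_mem1 (htot : ∀ x y : K, x ≤ y ∨ y ≤ x) {s t : K} (hs : 1 < s)
    (ht : InD s (t * s * t⁻¹)) (hμ : 0 < phi s (t * s * t⁻¹)) :
    (⟨1, 0⟩ : TT (phi s (t * s * t⁻¹)) hμ) ∈ QG htot hs ht hμ := by
  refine ⟨(s, ⟨1, 0⟩), ?_, rfl⟩
  change InD s (s * (t ^ (0 : ℤ))⁻¹) ∧ phi s (s * (t ^ (0 : ℤ))⁻¹) = 1
  rw [zpow_zero, inv_one, mul_one]
  exact ⟨InD.self hs, phi_self htot hs⟩

theorem QG_mem2 (htot : ∀ x y : K, x ≤ y ∨ y ≤ x) {s t : K} (hs : 1 < s)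
    (ht : InD s (t * s * t⁻¹)) (hμ : 0 < phi s (t * s * t⁻¹)) :
    (⟨0, 1⟩ : TT (phi s (t * s * t⁻¹)) hμ) ∈ QG htot hs ht hμ := by
  refine ⟨(t, ⟨0, 1⟩), ?_, rfl⟩
  change InD s (t * (t ^ (1 : ℤ))⁻¹) ∧ phi s (t * (t ^ (1 : ℤ))⁻¹) = 0
  rw [zpow_one, mul_inv_cancel]
  exact ⟨InD.one s, phi_one htot hs⟩

end gam

end Pool.Agent.Helper6.NC
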