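import Pool.Agent.Helper6.NC3

set_option autoImplicit false
set_option linter.unusedSectionVars false
set_option linter.style.haveILetI false

namespace Pool.Agent.Helper6.NC

open LVar AP

/-! ### The identities -/

/-- Power terms. -/
def tpow (x : LTerm) : ℕ → LTerm
  | 0 => .one
  | n + 1 => .mul (tpow x n) x

theorem tpow_eval {G : Type} [Group G] [Lattice G] (v : ℕ → G) (x : LTerm) (n : ℕ) :
    (tpow x n).eval v = (x.eval v) ^ n := by
  induction n with
  | zero => rw [pow_zero]; rfl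
  | succ n ih => rw [pow_succ, ← ih]; rfl

/-- The absolute value of the first variable. -/
def absT : LTerm := .sup (.var 0) (.inv (.var 0))
/-- Its conjugate by the second variable. -/
def conT : LTerm := .mul (.mul (.var 1) absT) (.inv (.var 1))

/-- The term of the multiplier identities. -/
def epsT (p q p' q' : ℕ) : LTerm :=
  .inf (.sup (.mul (tpow conT q) (.inv (tpow absT p))) .one)
    (.sup (.mul (tpow absT p') (.inv (tpow conT q'))) .one)

/-- The term of the representability identity. -/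
def repT : LTerm :=
  .inf (.sup (.var 0) .one)
    (.mul (.mul (.var 1) (.sup (.inv (.var 0)) .one)) (.inv (.var 1)))

/-- The value of `epsT`. -/
def eps {G : Type} [Group G] [Lattice G] (p q p' q' : ℕ) (s t : G) : G :=
  ((t * s * t⁻¹) ^ q * (s ^ p)⁻¹ ⊔ 1) ⊓ (s ^ p' * ((t * s * t⁻¹) ^ q')⁻¹ ⊔ 1)

theorem epsT_eval {G : Type} [Group G] [Lattice G] (p q p' q' : ℕ) (v : ℕ → G) :
    (epsT p q p' q').eval v = eps p q p' q' (v 0 ⊔ (v 0)⁻¹) (v 1) := by
  change ((tpow conT q).eval v * ((tpow absT p).eval v)⁻¹ ⊔ 1) ⊓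
    ((tpow absT p').eval v * ((tpow conT q').eval v)⁻¹ ⊔ 1) = _
  rw [tpow_eval, tpow_eval, tpow_eval, tpow_eval]
  rfl

section chain

variable {K : Type} [Group K] [Lattice K] [MulLeftMono K] [MulRightMono K]

theorem eps_eq_one (p q p' q' : ℕ) (s t : K)
    (h : (t * s * t⁻¹) ^ q ≤ s ^ p ∨ s ^ p' ≤ (t * s * t⁻¹) ^ q') : eps p q p' q' s t = 1 := by
  have sup1 : ∀ a b : K, a ≤ b → (a * b⁻¹) ⊔ 1 = 1 := by
    intro a b hab
    exact sup_eq_right.mpr (mul_inv_le_one_iff_le.mpr hab)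
  rw [eps]
  rcases h with h | h
  · rw [sup1 _ _ h]
    exact inf_eq_left.mpr le_sup_right
  · rw [sup1 _ _ h]
    exact inf_eq_right.mpr le_sup_right

theorem eps_ne_one (htot : ∀ x y : K, x ≤ y ∨ y ≤ x) (p q p' q' : ℕ) (s t : K)
    (h1 : s ^ p < (t * s * t⁻¹) ^ q) (h2 : (t * s * t⁻¹) ^ q' < s ^ p') :
    eps p q p' q' s t ≠ 1 := by
  have pos : ∀ a b : K, b < a → 1 < (a * b⁻¹) ⊔ 1 := by
    intro a b hab
    exact lt_of_lt_of_le (lt_mul_inv_iff_mul_lt.mpr (by rwa [one_mul])) le_sup_left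
  have key : ∀ a b : K, 1 < a → 1 < b → 1 < a ⊓ b := by
    intro a b ha hb
    rcases htot a b with h | h
    · rwa [inf_eq_left.mpr h]
    · rwa [inf_eq_right.mpr h]
  exact (key _ _ (pos _ _ h1) (pos _ _ h2)).ne'

theorem eps_fail (htot : ∀ x y : K, x ≤ y ∨ y ≤ x) (p q p' q' : ℕ) (s t : K)
    (h : eps p q p' q' s t ≠ 1) :
    s ^ p < (t * s * t⁻¹) ^ q ∧ (t * s * t⁻¹) ^ q' < s ^ p' := by
  have lt_of : ∀ a b : K, ¬ a ≤ b → b < a := by
    intro a b hab
    rcases htot a b with h | h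
    · exact absurd h hab
    · exact lt_of_le_of_ne h (fun hh => hab hh.ge)
  constructor
  · apply lt_of
    intro h1
    exact h (eps_eq_one p q p' q' s t (Or.inl h1))
  · apply lt_of
    intro h1
    exact h (eps_eq_one p q p' q' s t (Or.inr h1))

end chain

/-! ### The varieties -/

/-- The tuples defining the varieties: rational intervals above `1` avoiding the powers of `l`. -/
def Valid (l : ℝ) (p q p' q' : ℕ) : Prop :=
  0 < q ∧ 0 < q' ∧ q < p ∧ ∀ n : ℕ, 1 ≤ n → ¬ ((p : ℝ) / q ≤ l ^ n ∧ l ^ n ≤ (p' : ℝ) / q')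

/-- The identities. -/
def EX (l : ℝ) : Set (LTerm × LTerm) :=
  {e | e = (repT, .one) ∨ ∃ p q p' q', Valid l p q p' q' ∧ e = (epsT p q p' q', .one)}

/-- The varieties. -/
def VX (l : ℝ) : LClass := fun G _ _ => IsLGroup G ∧ Satisfies (EX l) G

theorem VX_variety (l : ℝ) : IsVariety (VX l) := ⟨EX l, fun _ _ _ => Iff.rfl⟩

theorem VX_repLaw (l : ℝ) {G : Type} [Group G] [Lattice G] (h : VX l G) : RepLaw G := by
  intro x y
  exact h.2 (repT, .one) (Or.inl rfl) (fun i => if i = 0 then x else y)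

theorem VX_sub (l : ℝ) : IsSubvarietyOfR (VX l) :=
  ⟨VX_variety l, fun _ _ _ h => representable_of_law h.1 (VX_repLaw l h)⟩

theorem VX_of {l : ℝ} {G : Type} [Group G] [Lattice G] (hG : IsLGroup G) (hr : RepLaw G)
    (h : ∀ p q p' q', Valid l p q p' q' → ∀ x y : G, eps p q p' q' (x ⊔ x⁻¹) y = 1) :
    VX l G := by
  refine ⟨hG, ?_⟩
  rintro e (rfl | ⟨p, q, p', q', hv, rfl⟩) v
  · exact hr (v 0) (v 1)
  · rw [epsT_eval]
    exact h p q p' q' hv _ _

/-- Intervals around a number that is not a power of `l`. -/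
theorem exists_valid {l : ℝ} (hl : 1 < l) {x : ℝ} (hx : 1 < x)
    (h : ∀ n : ℕ, 1 ≤ n → l ^ n ≠ x) :
    ∃ p q p' q' : ℕ, Valid l p q p' q' ∧ (p : ℝ) / q < x ∧ x < (p' : ℝ) / q' := by
  obtain ⟨n0, h1, h2⟩ := exists_nat_pow_near hx.le hl
  have h3 : l ^ n0 < x := by
    rcases Nat.eq_zero_or_pos n0 with h0 | h0
    · rw [h0, pow_zero]; exact hx
    · exact lt_of_le_of_ne h1 (h n0 h0)
  have h4 : 1 ≤ l ^ n0 := one_le_pow₀ hl.le
  obtain ⟨r, r1, r2⟩ := exists_rat_btwn h3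
  obtain ⟨r', r3, r4⟩ := exists_rat_btwn h2
  have hr : 0 < r := by
    have : (0 : ℝ) < r := by linarith
    exact_mod_cast this
  have hr' : 0 < r' := by
    have : (0 : ℝ) < r' := by linarith
    exact_mod_cast this
  have toNat : ∀ r : ℚ, 0 < r → (r : ℝ) = ((r.num.toNat : ℕ) : ℝ) / ((r.den : ℕ) : ℝ) := by
    intro r hr
    have hn : 0 ≤ r.num := (Rat.num_pos.mpr hr).le
    have e1 : ((r.num.toNat : ℕ) : ℝ) = (r.num : ℝ) := by
      have : ((r.num.toNat : ℕ) : ℤ) = r.num := Int.toNat_of_nonneg hn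
      exact_mod_cast congrArg (fun z : ℤ => (z : ℝ)) this
    rw [e1]
    exact_mod_cast (Rat.num_div_den r).symm
  refine ⟨r.num.toNat, r.den, r'.num.toNat, r'.den, ⟨r.pos, r'.pos, ?_, ?_⟩, ?_, ?_⟩
  · have h5 : (1 : ℝ) < ((r.num.toNat : ℕ) : ℝ) / ((r.den : ℕ) : ℝ) := by
      rw [← toNat r hr]; linarith
    have h6 : (0 : ℝ) < ((r.den : ℕ) : ℝ) := by exact_mod_cast r.pos
    rw [lt_div_iff₀ h6, one_mul] at h5
    exact_mod_cast h5
  · rintro n hn ⟨h5, h6⟩
    rw [← toNat r hr] at h5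
    rw [← toNat r' hr'] at h6
    rcases le_or_gt n n0 with h7 | h7
    · have : l ^ n ≤ l ^ n0 := pow_le_pow_right₀ hl.le h7
      linarith
    · have : l ^ (n0 + 1) ≤ l ^ n := pow_le_pow_right₀ hl.le h7
      linarith
  · rw [← toNat r hr]; exact r2
  · rw [← toNat r' hr']; exact r3

/-! ### The groups `ℝ ⋊ ℤ` and the identities -/

section TT

variable {μ : ℝ} {hμ : 0 < μ}

theorem TT_lt_k {x y : TT μ hμ} (h : x.k < y.k) : x < y := by
  rw [← one_lt_inv_mul', Ext.one_lt_iff]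
  left
  simp only [Ext.mul_k, Ext.inv_k]
  omega

theorem TT_lt_a {x y : TT μ hμ} (hx : x.k = 0) (hy : y.k = 0) (h : x.a < y.a) : x < y := by
  rw [← one_lt_inv_mul', Ext.one_lt_iff]
  right
  refine ⟨by simp [hx, hy], ?_⟩
  change (0 : ℝ) < (x⁻¹ * y).a
  rw [Ext.mul_a, Ext.inv_a, Ext.inv_k, hx, neg_zero, Ext.pw_zero, Ext.pw_zero]
  linarith

theorem TT_pow_k (x : TT μ hμ) (n : ℕ) : (x ^ n).k = n * x.k := by
  induction n with
  | zero => simp
  | succ n ih => rw [pow_succ, Ext.mul_k, ih]; push_cast; ring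

theorem TT_pow_a (x : TT μ hμ) (hx : x.k = 0) (n : ℕ) : (x ^ n).a = n * x.a := by
  induction n with
  | zero => simp
  | succ n ih =>
    rw [pow_succ, Ext.mul_a, ih, TT_pow_k, hx, mul_zero, Ext.pw_zero]; push_cast; ring

theorem TT_conj_k (x y : TT μ hμ) : (y * x * y⁻¹).k = x.k := by
  simp only [Ext.mul_k, Ext.inv_k]; omega

theorem TT_conj_a (x y : TT μ hμ) (hx : x.k = 0) : (y * x * y⁻¹).a = μ ^ y.k * x.a := by
  rw [Ext.mul_a, Ext.mul_a, Ext.mul_k, Ext.inv_a, hx, add_zero, map_neg, ← Ext.pw_add,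
    add_neg_cancel, Ext.pw_zero, pw_MU]
  ring

theorem TT_eps (p q p' q' : ℕ) (hq : 0 < q) (hq' : 0 < q') (hpq : q < p)
    (h : ∀ j : ℤ, μ ^ j < (p : ℝ) / q ∨ (p' : ℝ) / q' < μ ^ j) (x y : TT μ hμ) :
    eps p q p' q' (x ⊔ x⁻¹) y = 1 := by
  apply eps_eq_one
  have hs : 1 ≤ x ⊔ x⁻¹ := by
    rcases Ext.total x 1 with h1 | h1
    · exact le_sup_of_le_right (one_le_inv'.mpr h1)
    · exact le_sup_of_le_left h1
  generalize x ⊔ x⁻¹ = s at hs
  rcases hs.lt_or_eq with hs | hs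
  · rw [Ext.one_lt_iff] at hs
    rcases hs with hs | ⟨hs, hs'⟩
    · left
      apply le_of_lt
      apply TT_lt_k
      rw [TT_pow_k, TT_pow_k, TT_conj_k]
      have : (q : ℤ) < p := by exact_mod_cast hpq
      exact mul_lt_mul_of_pos_right this hs
    · have ha : 0 < s.a := hs'
      have hck : (y * s * y⁻¹).k = 0 := by rw [TT_conj_k, hs]
      have hqr : (0 : ℝ) < q := by exact_mod_cast hq
      have hqr' : (0 : ℝ) < q' := by exact_mod_cast hq'
      rcases h y.k with h1 | h1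
      · left
        apply le_of_lt
        apply TT_lt_a
        · rw [TT_pow_k, hck, mul_zero]
        · rw [TT_pow_k, hs, mul_zero]
        · rw [TT_pow_a _ hck, TT_pow_a _ hs, TT_conj_a _ _ hs]
          rw [lt_div_iff₀ hqr] at h1
          nlinarith
      · right
        apply le_of_lt
        apply TT_lt_a
        · rw [TT_pow_k, hs, mul_zero]
        · rw [TT_pow_k, hck, mul_zero]
        · rw [TT_pow_a _ hck, TT_pow_a _ hs, TT_conj_a _ _ hs]
          rw [div_lt_iff₀ hqr'] at h1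
          nlinarith
  · left
    rw [← hs, mul_one, mul_inv_cancel, one_pow, one_pow]

theorem TT_eps_fail (p q p' q' : ℕ) (hq : 0 < q) (hq' : 0 < q') (j : ℤ)
    (h1 : (p : ℝ) / q < μ ^ j) (h2 : μ ^ j < (p' : ℝ) / q') :
    eps p q p' q' ((⟨1, 0⟩ : TT μ hμ) ⊔ (⟨1, 0⟩ : TT μ hμ)⁻¹) ⟨0, j⟩ ≠ 1 := by
  have hs : (1 : TT μ hμ) ≤ ⟨1, 0⟩ := by
    apply le_of_lt
    apply TT_lt_a
    · rfl
    · rfl
    · exact one_pos
  have hs' : (⟨1, 0⟩ : TT μ hμ) ⊔ (⟨1, 0⟩ : TT μ hμ)⁻¹ = ⟨1, 0⟩ :=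
    sup_eq_left.mpr ((inv_le_one'.mpr hs).trans hs)
  rw [hs']
  have hqr : (0 : ℝ) < q := by exact_mod_cast hq
  have hqr' : (0 : ℝ) < q' := by exact_mod_cast hq'
  rw [div_lt_iff₀ hqr] at h1
  rw [lt_div_iff₀ hqr'] at h2
  have hk : (⟨1, 0⟩ : TT μ hμ).k = 0 := rfl
  have hck : ((⟨0, j⟩ : TT μ hμ) * ⟨1, 0⟩ * (⟨0, j⟩ : TT μ hμ)⁻¹).k = 0 := by
    rw [TT_conj_k]
  apply eps_ne_one Ext.total
  · apply TT_lt_a
    · rw [TT_pow_k, hk, mul_zero]
    · rw [TT_pow_k, hck, mul_zero]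
    · rw [TT_pow_a _ hck, TT_pow_a _ hk, TT_conj_a _ _ hk]
      simp only [mul_one]
      linarith
  · apply TT_lt_a
    · rw [TT_pow_k, hck, mul_zero]
    · rw [TT_pow_k, hk, mul_zero]
    · rw [TT_pow_a _ hck, TT_pow_a _ hk, TT_conj_a _ _ hk]
      simp only [mul_one]
      linarith

end TT

theorem TT_mem_VX {l : ℝ} (hl : 1 < l) (h0 : 0 < l) : VX l (TT l h0) := by
  refine VX_of ⟨inferInstance, inferInstance⟩ (RepLaw.of_total Ext.total) ?_
  rintro p q p' q' ⟨hq, hq', hpq, hv⟩ x y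
  apply TT_eps p q p' q' hq hq' hpq
  intro j
  rcases le_or_gt j 0 with hj | hj
  · left
    have h1 : l ^ j ≤ 1 := by
      have := zpow_le_zpow_right₀ hl.le hj
      rwa [zpow_zero] at this
    have h2 : (1 : ℝ) < (p : ℝ) / q := by
      have hqr : (0 : ℝ) < q := by exact_mod_cast hq
      rw [lt_div_iff₀ hqr, one_mul]
      exact_mod_cast hpq
    linarith
  · obtain ⟨n, hn⟩ := Int.eq_ofNat_of_zero_le hj.le
    have h1 := hv n (by omega)
    rw [hn, zpow_natCast]
    by_contra hcon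
    push Not at hcon
    exact h1 hcon

/-- Distinct parameters give distinct varieties. -/
theorem VX_inj {l m : ℝ} (hl : 1 < l) (hm : 1 < m) (h : VX l = VX m) : l = m := by
  have key : ∀ l m : ℝ, 1 < l → 1 < m → VX l = VX m → ∃ n : ℕ, 1 ≤ n ∧ m ^ n = l := by
    intro l m hl hm h
    have h0 : 0 < l := by linarith
    by_contra hcon
    push Not at hcon
    obtain ⟨p, q, p', q', hv, h1, h2⟩ := exists_valid hm hl hcon
    have h3 : VX m (TT l h0) := by rw [← h]; exact TT_mem_VX hl h0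
    have h4 := h3.2 (epsT p q p' q', .one) (Or.inr ⟨p, q, p', q', hv, rfl⟩)
      (fun i => if i = 0 then ⟨1, 0⟩ else ⟨0, 1⟩)
    rw [epsT_eval] at h4
    exact TT_eps_fail p q p' q' hv.1 hv.2.1 1 (by rwa [zpow_one]) (by rwa [zpow_one]) h4
  obtain ⟨n, hn, h1⟩ := key l m hl hm h
  obtain ⟨k, hk, h2⟩ := key m l hm hl h.symm
  have h3 : m ^ (n * k) = m ^ 1 := by rw [pow_mul, h1, h2, pow_one]
  have h4 : n * k = 1 := (pow_right_injective₀ (by linarith) hm.ne') h3
  have h5 : n = 1 := Nat.eq_one_of_mul_eq_one_right h4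
  rw [← h1, h5, pow_one]

/-- Homomorphic images satisfy the same identities. -/
theorem satisfies_of_surj {G H : Type} [Group G] [Lattice G] [Group H] [Lattice H] {f : G → H}
    (hf : IsLHom f) (hs : Function.Surjective f) {E : Set (LTerm × LTerm)} (h : Satisfies E G) :
    Satisfies E H := by
  let φ : G →* H := MonoidHom.mk' f hf.map_mul
  intro e he v
  choose w hw using fun i => hs (v i)
  have hv : v = fun i => φ (w i) := funext fun i => (hw i).symm
  rw [hv, eval_hom φ hf.map_sup hf.map_inf, eval_hom φ hf.map_sup hf.map_inf, h e he w]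

/-- **The varieties have no covers.** -/
theorem VX_noCover {l : ℝ} (hl : 1 < l) : NoCover (VX l) := by
  rintro W ⟨⟨E, hE⟩, hWR⟩ ⟨⟨hsub, hns⟩, hno⟩
  apply hno
  clear hno
  -- a chain in `W` violating one of the identities
  have hG0 : ∃ (G : Type) (_ : Group G) (_ : Lattice G), W G ∧ ¬ VX l G := by
    by_contra hcon
    push Not at hcon
    exact hns fun G _ _ hG => hcon G _ _ hG
  obtain ⟨G0, _, _, hWG, hVG⟩ := hG0
  have hrep := hWR G0 hWG
  have hlaw := law_of_representable hrep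
  obtain ⟨hG0l, ι, T, i1, i2, f, f1, f2, f3, f4, f5⟩ := hrep
  have hviol : ∃ p q p' q', Valid l p q p' q' ∧ ∃ x y : G0, eps p q p' q' (x ⊔ x⁻¹) y ≠ 1 := by
    by_contra hcon
    push Not at hcon
    exact hVG (VX_of hG0l hlaw hcon)
  obtain ⟨p, q, p', q', hv, x, y, hxy⟩ := hviol
  have hi : ∃ i, f i (eps p q p' q' (x ⊔ x⁻¹) y) ≠ f i 1 := by
    by_contra hcon
    push Not at hcon
    exact hxy (f5 _ _ hcon)
  obtain ⟨i, hi⟩ := hi
  haveI := (f1 i).1
  haveI := (f1 i).2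
  set φ : G0 →* T i := MonoidHom.mk' (f i) (f3 i).map_mul with hφ
  have hφ1 : φ 1 = 1 := map_one φ
  have hKW : Satisfies E (T i) := satisfies_of_surj (f3 i) (f4 i) (((hE G0).mp hWG).2)
  have hi' : eps p q p' q' (φ x ⊔ (φ x)⁻¹) (φ y) ≠ 1 := by
    intro hcon
    apply hi
    change φ (eps p q p' q' (x ⊔ x⁻¹) y) = φ 1
    have ms : ∀ a b, φ (a ⊔ b) = φ a ⊔ φ b := (f3 i).map_sup
    have mi : ∀ a b, φ (a ⊓ b) = φ a ⊓ φ b := (f3 i).map_inf
    rw [hφ1, ← hcon]
    simp only [eps, ms, mi, map_mul, map_inv, map_pow, map_one]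
  have htot := f2 i
  obtain ⟨hf1, hf2⟩ := eps_fail htot p q p' q' _ _ hi'
  have hs1 : 1 ≤ φ x ⊔ (φ x)⁻¹ := by
    rcases htot (φ x) 1 with h1 | h1
    · exact le_sup_of_le_right (one_le_inv'.mpr h1)
    · exact le_sup_of_le_left h1
  generalize φ x ⊔ (φ x)⁻¹ = s at hf1 hf2 hs1 hi'
  generalize φ y = t at hf1 hf2 hi'
  obtain ⟨hq, hq', hpq, hvX⟩ := id hv
  have hs : 1 < s := by
    refine lt_of_le_of_ne hs1 ?_
    rintro rfl
    rw [mul_one, mul_inv_cancel, one_pow, one_pow] at hf1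
    exact lt_irrefl _ hf1
  have hc1 : 1 ≤ t * s * t⁻¹ := by
    have := conj_mono t hs1
    rwa [mul_one, mul_inv_cancel] at this
  have htD : InD s (t * s * t⁻¹) := by
    refine ⟨p', ?_, ?_⟩
    · refine le_trans ?_ hc1
      have := zmono hs1 (show -(p' : ℤ) ≤ 0 by omega)
      rwa [zpow_zero] at this
    · rw [zpow_natCast]
      refine le_trans ?_ hf2.le
      exact le_self_pow hc1 hq'.ne'
  set lam := phi s (t * s * t⁻¹) with hlam
  have hqr : (0 : ℝ) < q := by exact_mod_cast hq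
  have hqr' : (0 : ℝ) < q' := by exact_mod_cast hq'
  have hb1 : (p : ℝ) / q ≤ lam := by
    have h1 : s ^ (p : ℤ) ≤ (t * s * t⁻¹) ^ q := by rw [zpow_natCast]; exact hf1.le
    have := le_phi htot hs htD hq h1
    simpa using this
  have hb2 : lam ≤ (p' : ℝ) / q' := by
    have h1 : (t * s * t⁻¹) ^ q' ≤ s ^ (p' : ℤ) := by rw [zpow_natCast]; exact hf2.le
    have := phi_le htot hs htD hq' h1
    simpa using this
  have hlam1 : 1 < lam := by
    have h2 : (1 : ℝ) < (p : ℝ) / q := by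
      rw [lt_div_iff₀ hqr, one_mul]
      exact_mod_cast hpq
    linarith
  have hlam0 : 0 < lam := by linarith
  have hlamX : ∀ n : ℕ, 1 ≤ n → l ^ n ≠ lam := by
    intro n hn h1
    exact hvX n hn (by rw [h1]; exact ⟨hb1, hb2⟩)
  -- a small interval around `lam`
  obtain ⟨p1, q1, p1', q1', hv1, g1, g2⟩ := exists_valid hl hlam1 hlamX
  obtain ⟨hq1, hq1', hpq1, -⟩ := id hv1
  have hq1r : (0 : ℝ) < q1 := by exact_mod_cast hq1
  have hq1r' : (0 : ℝ) < q1' := by exact_mod_cast hq1'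
  -- a large exponent
  obtain ⟨k, hk, hkb, hkX⟩ : ∃ k : ℕ, 1 ≤ k ∧ (p1' : ℝ) / q1' < lam ^ k ∧
      ∀ n : ℕ, 1 ≤ n → l ^ n ≠ lam ^ k := by
    obtain ⟨k0, hk0⟩ := pow_unbounded_of_one_lt ((p1' : ℝ) / q1') hlam1
    have hk1 : (p1' : ℝ) / q1' < lam ^ (k0 + 1) :=
      hk0.trans_le (pow_le_pow_right₀ hlam1.le (Nat.le_succ k0))
    have hk2 : (p1' : ℝ) / q1' < lam ^ (k0 + 2) :=
      hk0.trans_le (pow_le_pow_right₀ hlam1.le (by omega))
    by_contra hcon
    push Not at hcon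
    obtain ⟨a, ha, ha'⟩ := hcon (k0 + 1) (by omega) hk1
    obtain ⟨b, hb, hb'⟩ := hcon (k0 + 2) (by omega) hk2
    have h1 : l ^ b = l ^ a * lam := by rw [hb', ha', ← pow_succ]
    have hab : a < b := by
      by_contra hcon2
      have h2 : l ^ b ≤ l ^ a := pow_le_pow_right₀ hl.le (not_lt.mp hcon2)
      have h3 : 0 < l ^ a := by positivity
      nlinarith
    have h2 : l ^ b = l ^ a * l ^ (b - a) := by rw [← pow_add]; congr 1; omega
    have h3 : (l ^ a : ℝ) ≠ 0 := by positivity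
    have h4 : l ^ (b - a) = lam := mul_left_cancel₀ h3 (by rw [← h2, h1])
    exact hlamX (b - a) (by omega) h4
  -- a small interval around `lam ^ k`
  have hlamk : 1 < lam ^ k := one_lt_pow₀ hlam1 (by omega)
  obtain ⟨p2, q2, p2', q2', hv2, g3, g4⟩ := exists_valid hl hlamk hkX
  obtain ⟨hq2, hq2', -, -⟩ := id hv2
  -- the element `t'`
  obtain ⟨i', hi1, ht1⟩ : ∃ i' : ℤ, (i' = k ∨ i' = -k) ∧ 1 ≤ t ^ i' := by
    rcases htot t 1 with h1 | h1
    · refine ⟨-k, Or.inr rfl, ?_⟩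
      rw [zpow_neg, zpow_natCast, ← inv_pow]
      exact one_le_pow_of_one_le' (one_le_inv'.mpr h1) k
    · refine ⟨k, Or.inl rfl, ?_⟩
      rw [zpow_natCast]
      exact one_le_pow_of_one_le' h1 k
  obtain ⟨hD', hφ'⟩ := conj_zpow_phi htot hs htD hlam0 i' s (InD.self hs)
  rw [phi_self htot hs, mul_one, ← hlam] at hφ'
  have hμ : 0 < phi s (t ^ i' * s * (t ^ i')⁻¹) := by rw [hφ']; positivity
  have hμ1 : phi s (t ^ i' * s * (t ^ i')⁻¹) ≠ 1 := by
    rw [hφ']
    intro h1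
    have h2 : lam ^ i' = lam ^ (0 : ℤ) := by rw [h1, zpow_zero]
    have h3 := zpow_right_injective₀ hlam0 hlam1.ne' h2
    omega
  let H := QG htot hs hD' hμ
  letI : Lattice H := chainLattice Ext.total H
  have hHl : IsLGroup H := chainLattice_isLGroup Ext.total H
  have hHE : Satisfies E H := chainLattice_satisfies Ext.total H E
    (QG_eval htot hs hD' hμ ht1 hμ1 hKW)
  -- the identity of the small interval holds in `H`
  have hH1 : Satisfies {(epsT p1 q1 p1' q1', LTerm.one)} H := by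
    apply chainLattice_satisfies Ext.total H
    rintro e he v -
    rw [Set.mem_singleton_iff] at he
    subst he
    rw [epsT_eval]
    apply TT_eps p1 q1 p1' q1' hq1 hq1' hpq1
    intro j
    rw [hφ', ← zpow_mul]
    rcases le_or_gt (i' * j) 0 with h1 | h1
    · left
      have h2 : lam ^ (i' * j) ≤ 1 := by
        have := zpow_le_zpow_right₀ hlam1.le h1
        rwa [zpow_zero] at this
      have h3 : (1 : ℝ) < (p1 : ℝ) / q1 := by
        rw [lt_div_iff₀ hq1r, one_mul]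
        exact_mod_cast hpq1
      linarith
    · right
      have h2 : (k : ℤ) ≤ i' * j := by
        rcases hi1 with rfl | rfl
        · have hj : 0 < j := by
            by_contra hcon
            have : (k : ℤ) * j ≤ 0 :=
              mul_nonpos_of_nonneg_of_nonpos (by positivity) (not_lt.mp hcon)
            omega
          nlinarith
        · have hj : j < 0 := by
            by_contra hcon
            have : 0 ≤ (k : ℤ) * j := mul_nonneg (by positivity) (not_lt.mp hcon)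
            linarith
          nlinarith
      have h3 : lam ^ (k : ℤ) ≤ lam ^ (i' * j) := zpow_le_zpow_right₀ hlam1.le h2
      rw [zpow_natCast] at h3
      linarith
  -- `H` violates the identity of the second interval
  have hH2 : ¬ VX l H := by
    intro hcon
    have hm1 := QG_mem1 htot hs hD' hμ
    have hm2 := QG_mem2 htot hs hD' hμ
    obtain ⟨j, hj, hjm⟩ : ∃ j : ℤ, i' * j = k ∧
        (⟨0, j⟩ : TT (phi s (t ^ i' * s * (t ^ i')⁻¹)) hμ) ∈ H := by
      rcases hi1 with h1 | h1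
      · exact ⟨1, by omega, hm2⟩
      · refine ⟨-1, by omega, ?_⟩
        have := H.inv_mem hm2
        have e : (⟨0, 1⟩ : TT (phi s (t ^ i' * s * (t ^ i')⁻¹)) hμ)⁻¹ = ⟨0, -1⟩ := by
          ext
          · simp
          · simp
        rwa [e] at this
    have h1 := hcon.2 (epsT p2 q2 p2' q2', .one) (Or.inr ⟨p2, q2, p2', q2', hv2, rfl⟩)
      (fun i => if i = 0 then ⟨⟨1, 0⟩, hm1⟩ else ⟨⟨0, j⟩, hjm⟩)
    have h2 := congrArg (fun z : H => (z : TT (phi s (t ^ i' * s * (t ^ i')⁻¹)) hμ)) h1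
    simp only at h2
    rw [chainLattice_eval, epsT_eval] at h2
    have e1 : (phi s (t ^ i' * s * (t ^ i')⁻¹)) ^ j = lam ^ k := by
      rw [hφ', ← zpow_mul, hj, zpow_natCast]
    exact TT_eps_fail p2 q2 p2' q2' hq2 hq2' j (by rw [e1]; exact g3) (by rw [e1]; exact g4) h2
  -- `K` violates the identity of the small interval
  have hK1 : eps p1 q1 p1' q1' s t ≠ 1 := by
    have lt_of : ∀ a b : T i, ¬ a ≤ b → b < a := by
      intro a b hab
      rcases htot a b with h | h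
      · exact absurd h hab
      · exact lt_of_le_of_ne h (fun hh => hab hh.ge)
    rw [div_lt_iff₀ hq1r] at g1
    rw [lt_div_iff₀ hq1r'] at g2
    apply eps_ne_one htot
    · apply lt_of
      intro h1
      rw [← zpow_natCast, ← zpow_natCast] at h1
      have := phi_mono htot hs (htD.zpow _) ((InD.self hs).zpow _) h1
      rw [phi_zpow htot hs htD, phi_zpow htot hs (InD.self hs), phi_self htot hs, ← hlam] at this
      push_cast at this
      linarith
    · apply lt_of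
      intro h1
      rw [← zpow_natCast, ← zpow_natCast] at h1
      have := phi_mono htot hs ((InD.self hs).zpow _) (htD.zpow _) h1
      rw [phi_zpow htot hs htD, phi_zpow htot hs (InD.self hs), phi_self htot hs, ← hlam] at this
      push_cast at this
      linarith
  -- the intermediate variety
  let EU : Set (LTerm × LTerm) :=
    {e | (∀ (G : Type) [Group G] [Lattice G], VX l G → Satisfies {e} G) ∧ Satisfies {e} H}
  refine ⟨fun G _ _ => IsLGroup G ∧ Satisfies EU G, ⟨EU, fun _ _ _ => Iff.rfl⟩, ⟨?_, ?_⟩,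
    ⟨?_, ?_⟩⟩
  · intro G _ _ hG
    exact ⟨hG.1, fun e he v => he.1 G hG e rfl v⟩
  · intro hcon
    exact hH2 (hcon H ⟨hHl, fun e he v => he.2 e rfl v⟩)
  · intro G _ _ hG
    rw [hE G]
    refine ⟨hG.1, fun e he v => hG.2 e ⟨?_, ?_⟩ v⟩
    · intro G' _ _ hG' e' he' v'
      rw [Set.mem_singleton_iff] at he'
      subst he'
      exact ((hE G').mp (hsub G' hG')).2 _ he v'
    · intro e' he' v'
      rw [Set.mem_singleton_iff] at he'
      subst he'
      exact hHE _ he v'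
  · intro hcon
    have h1 := hcon (T i) ((hE (T i)).mpr ⟨f1 i, hKW⟩)
    have h2 := h1.2 (epsT p1 q1 p1' q1', .one) ⟨?_, hH1⟩ (fun i => if i = 0 then s else t)
    · rw [epsT_eval] at h2
      have e : s ⊔ s⁻¹ = s := sup_eq_left.mpr ((inv_le_one'.mpr hs1).trans hs1)
      simp only [if_true] at h2
      rw [e] at h2
      exact hK1 h2
    · intro G' _ _ hG' e' he' v'
      rw [Set.mem_singleton_iff] at he'
      subst he'
      exact hG'.2 _ (Or.inr ⟨p1, q1, p1', q1', hv1, rfl⟩) v'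

end Pool.Agent.Helper6.NC
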