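import Pool.Agent.Helper6.NC4

set_option autoImplicit false
set_option linter.unusedSectionVars false
set_option linter.style.haveILetI false

namespace Pool.Agent.Helper6.NC

open LVar AP Cardinal

deriving instance Countable for LTerm

/-- The theory of a class. -/
def Th (V : LClass) : Set (LTerm × LTerm) :=
  {e | ∀ (G : Type) [Group G] [Lattice G], V G → Satisfies {e} G}

theorem variety_ext {V W : LClass} (hV : IsVariety V) (hW : IsVariety W) (h : Th V = Th W) :
    V = W := by
  obtain ⟨E, hE⟩ := hV
  obtain ⟨F, hF⟩ := hW
  have key : ∀ (V W : LClass) (E F : Set (LTerm × LTerm)),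
      (∀ (G : Type) [Group G] [Lattice G], V G ↔ IsLGroup G ∧ Satisfies E G) →
      (∀ (G : Type) [Group G] [Lattice G], W G ↔ IsLGroup G ∧ Satisfies F G) →
      Th V = Th W → ∀ (G : Type) [Group G] [Lattice G], V G → W G := by
    intro V W E F hE hF h G _ _ hG
    rw [hF G]
    refine ⟨((hE G).mp hG).1, fun e he v => ?_⟩
    have h1 : e ∈ Th W := by
      intro G' _ _ hG' e' he' v'
      rw [Set.mem_singleton_iff] at he'
      subst he'
      exact ((hF G').mp hG').2 _ he v'
    rw [← h] at h1
    exact h1 G hG e rfl v
  funext G i j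
  exact propext ⟨key V W E F hE hF h G, key W V F E hF hE h.symm G⟩

/-- The set of subvarieties of `R` without covers. -/
def NN : Set LClass := {V | IsSubvarietyOfR V ∧ NoCover V}

theorem card_NN : Cardinal.mk NN = Cardinal.continuum.{1} := by
  apply le_antisymm
  · have hinj : Function.Injective (fun V : NN => Th V.1) := by
      intro V W h
      exact Subtype.ext (variety_ext V.2.1.1 W.2.1.1 h)
    have h1 := Cardinal.lift_mk_le_lift_mk_of_injective hinj
    have h2 : Cardinal.mk (Set (LTerm × LTerm)) = Cardinal.continuum := by
      haveI : Infinite LTerm := Infinite.of_injective LTerm.var (fun a b h => by simpa using h)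
      rw [Cardinal.mk_set, Cardinal.mk_eq_aleph0, Cardinal.two_power_aleph0]
    rw [h2, Cardinal.lift_continuum] at h1
    simpa using h1
  · have hinj : Function.Injective (fun l : Set.Ioi (1 : ℝ) =>
        (⟨VX l.1, VX_sub l.1, VX_noCover l.2⟩ : NN)) := by
      intro l m h
      exact Subtype.ext (VX_inj l.2 m.2 (congrArg Subtype.val h))
    have h1 := Cardinal.lift_mk_le_lift_mk_of_injective hinj
    rw [Cardinal.mk_Ioi_real, Cardinal.lift_continuum] at h1
    simpa using h1

end Pool.Agent.Helper6.NC
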