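import Pool.Agent.Helper6.LVarDefs

set_option autoImplicit false

namespace Pool.Agent.Helper6.NC

open LVar

/-- `G` is a lattice-ordered group: the lattice order is preserved by left and right
multiplications. -/
def IsLGroup (G : Type) [Group G] [Lattice G] : Prop := MulLeftMono G ∧ MulRightMono G

/-- `f` is a homomorphism of `ℓ`-groups. -/
structure IsLHom {G H : Type} [Group G] [Lattice G] [Group H] [Lattice H] (f : G → H) :
    Prop where
  map_mul : ∀ x y, f (x * y) = f x * f y
  map_sup : ∀ x y, f (x ⊔ y) = f x ⊔ f y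
  map_inf : ∀ x y, f (x ⊓ y) = f x ⊓ f y

/-- The `ℓ`-group `G` is representable: it is a subdirect product of totally ordered groups,
that is, it has homomorphisms onto totally ordered groups `T i` that jointly separate points. -/
def Representable (G : Type) [Group G] [Lattice G] : Prop :=
  IsLGroup G ∧ ∃ (ι : Type) (T : ι → Type) (_ : ∀ i, Group (T i)) (_ : ∀ i, Lattice (T i))
    (f : ∀ i, G → T i),
    (∀ i, IsLGroup (T i)) ∧ (∀ i, ∀ x y : T i, x ≤ y ∨ y ≤ x) ∧
    (∀ i, IsLHom (f i)) ∧ (∀ i, Function.Surjective (f i)) ∧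
    ∀ x y : G, (∀ i, f i x = f i y) → x = y

/-- A class of groups with a lattice structure. -/
def LClass : Type 1 := ∀ (G : Type) [Group G] [Lattice G], Prop

/-- `V` is a variety of `ℓ`-groups: the class of all `ℓ`-groups satisfying some set of
identities. -/
def IsVariety (V : LClass) : Prop :=
  ∃ E : Set (LTerm × LTerm), ∀ (G : Type) [Group G] [Lattice G],
    V G ↔ IsLGroup G ∧ Satisfies E G

/-- `V ⊆ W`. -/
def Sub (V W : LClass) : Prop := ∀ (G : Type) [Group G] [Lattice G], V G → W G

/-- `V ⊊ W`. -/
def SSub (V W : LClass) : Prop := Sub V W ∧ ¬ Sub W V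

/-- `V` is a subvariety of the variety of representable `ℓ`-groups. -/
def IsSubvarietyOfR (V : LClass) : Prop :=
  IsVariety V ∧ ∀ (G : Type) [Group G] [Lattice G], V G → Representable G

/-- `W` covers `V`. -/
def Covers (W V : LClass) : Prop := SSub V W ∧ ¬ ∃ U : LClass, IsVariety U ∧ SSub V U ∧ SSub U W

/-- `V` has no cover in `R`: no subvariety of `R` covers `V`. -/
def NoCover (V : LClass) : Prop := ∀ W : LClass, IsSubvarietyOfR W → ¬ Covers W V

end Pool.Agent.Helper6.NC
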