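import Mathlib

set_option autoImplicit false

namespace Pool.Agent.Helper6.PLHomeo

/-- The functions obtained from the rational increasing affine maps of the real line
by finitely many pointwise maxima and minima. -/
inductive PL : (ℝ → ℝ) → Prop
  | aff (a b : ℚ) (ha : 0 < a) : PL (fun t => (a : ℝ) * t + (b : ℝ))
  | sup {f g : ℝ → ℝ} : PL f → PL g → PL (f ⊔ g)
  | inf {f g : ℝ → ℝ} : PL f → PL g → PL (f ⊓ g)

theorem PL.id' : PL (fun t : ℝ => t) := by
  have h := PL.aff 1 0 one_pos
  simpa using h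

theorem PL.strictMono {f : ℝ → ℝ} (hf : PL f) : StrictMono f := by
  induction hf with
  | aff a b ha =>
    intro s t hst
    have : (0 : ℝ) < a := by exact_mod_cast ha
    have := mul_lt_mul_of_pos_left hst this
    simpa using this
  | sup _ _ h1 h2 =>
    intro s t hst
    exact max_lt_max (h1 hst) (h2 hst)
  | inf _ _ h1 h2 =>
    intro s t hst
    exact min_lt_min (h1 hst) (h2 hst)

theorem PL.continuous {f : ℝ → ℝ} (hf : PL f) : Continuous f := by
  induction hf with
  | aff a b ha => fun_prop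
  | sup _ _ h1 h2 => exact h1.sup h2
  | inf _ _ h1 h2 => exact h1.inf h2

theorem PL.aff_comp (a b : ℚ) (ha : 0 < a) {g : ℝ → ℝ} (hg : PL g) :
    PL (fun t => (a : ℝ) * g t + (b : ℝ)) := by
  have ha' : (0 : ℝ) < a := by exact_mod_cast ha
  induction hg with
  | aff c d hc =>
    have h := PL.aff (a * c) (a * d + b) (mul_pos ha hc)
    have e : (fun t : ℝ => (a : ℝ) * ((c : ℝ) * t + (d : ℝ)) + (b : ℝ)) =
        (fun t : ℝ => ((a * c : ℚ) : ℝ) * t + ((a * d + b : ℚ) : ℝ)) := by
      funext t; push_cast; ring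
    rw [e]; exact h
  | sup _ _ h1 h2 =>
    have h := PL.sup h1 h2
    refine cast (congrArg PL ?_) h
    funext t
    simp only [Pi.sup_apply]
    rw [max_add_add_right, mul_max_of_nonneg _ _ ha'.le]
  | inf _ _ h1 h2 =>
    have h := PL.inf h1 h2
    refine cast (congrArg PL ?_) h
    funext t
    simp only [Pi.inf_apply]
    rw [min_add_add_right, mul_min_of_nonneg _ _ ha'.le]

theorem PL.comp {f g : ℝ → ℝ} (hf : PL f) (hg : PL g) : PL (fun t => f (g t)) := by
  induction hf with
  | aff a b ha => exact PL.aff_comp a b ha hg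
  | sup _ _ h1 h2 => exact PL.sup h1 h2
  | inf _ _ h1 h2 => exact PL.inf h1 h2

theorem PL.inverse {f : ℝ → ℝ} (hf : PL f) :
    ∃ g : ℝ → ℝ, PL g ∧ (∀ t, g (f t) = t) ∧ (∀ t, f (g t) = t) := by
  induction hf with
  | aff a b ha =>
    have ha' : (a : ℝ) ≠ 0 := by exact_mod_cast ha.ne'
    refine ⟨fun t => ((a⁻¹ : ℚ) : ℝ) * t + ((-(a⁻¹ * b) : ℚ) : ℝ), PL.aff _ _ (inv_pos.mpr ha),
      fun t => ?_, fun t => ?_⟩
    · push_cast; field_simp; ring
    · push_cast; field_simp; ring
  | @sup f1 f2 hf1 hf2 h1 h2 =>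
    obtain ⟨g1, p1, l1, r1⟩ := h1
    obtain ⟨g2, p2, l2, r2⟩ := h2
    have m1 := p1.strictMono.monotone
    have m2 := p2.strictMono.monotone
    have n1 := hf1.strictMono.monotone
    have n2 := hf2.strictMono.monotone
    refine ⟨g1 ⊓ g2, PL.inf p1 p2, fun t => ?_, fun t => ?_⟩
    · simp only [Pi.inf_apply, Pi.sup_apply]
      apply le_antisymm
      · rcases le_total (f1 t) (f2 t) with h | h
        · rw [max_eq_right h]; exact (min_le_right _ _).trans (l2 t).le
        · rw [max_eq_left h]; exact (min_le_left _ _).trans (l1 t).le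
      · refine le_min ?_ ?_
        · calc t = g1 (f1 t) := (l1 t).symm
            _ ≤ _ := m1 (le_max_left _ _)
        · calc t = g2 (f2 t) := (l2 t).symm
            _ ≤ _ := m2 (le_max_right _ _)
    · simp only [Pi.inf_apply, Pi.sup_apply]
      apply le_antisymm
      · refine max_le ?_ ?_
        · calc f1 _ ≤ f1 (g1 t) := n1 (min_le_left _ _)
            _ = t := r1 t
        · calc f2 _ ≤ f2 (g2 t) := n2 (min_le_right _ _)
            _ = t := r2 t
      · rcases le_total (g1 t) (g2 t) with h | h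
        · rw [min_eq_left h]; exact (r1 t).symm.le.trans (le_max_left _ _)
        · rw [min_eq_right h]; exact (r2 t).symm.le.trans (le_max_right _ _)
  | @inf f1 f2 hf1 hf2 h1 h2 =>
    obtain ⟨g1, p1, l1, r1⟩ := h1
    obtain ⟨g2, p2, l2, r2⟩ := h2
    have m1 := p1.strictMono.monotone
    have m2 := p2.strictMono.monotone
    have n1 := hf1.strictMono.monotone
    have n2 := hf2.strictMono.monotone
    refine ⟨g1 ⊔ g2, PL.sup p1 p2, fun t => ?_, fun t => ?_⟩
    · simp only [Pi.inf_apply, Pi.sup_apply]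
      apply le_antisymm
      · refine max_le ?_ ?_
        · calc g1 _ ≤ g1 (f1 t) := m1 (min_le_left _ _)
            _ = t := l1 t
        · calc g2 _ ≤ g2 (f2 t) := m2 (min_le_right _ _)
            _ = t := l2 t
      · rcases le_total (f1 t) (f2 t) with h | h
        · rw [min_eq_left h]; exact (l1 t).symm.le.trans (le_max_left _ _)
        · rw [min_eq_right h]; exact (l2 t).symm.le.trans (le_max_right _ _)
    · simp only [Pi.inf_apply, Pi.sup_apply]
      apply le_antisymm
      · rcases le_total (g1 t) (g2 t) with h | h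
        · rw [max_eq_right h]; exact (min_le_right _ _).trans (r2 t).le
        · rw [max_eq_left h]; exact (min_le_left _ _).trans (r1 t).le
      · refine le_min ?_ ?_
        · calc t = f1 (g1 t) := (r1 t).symm
            _ ≤ _ := n1 (le_max_left _ _)
        · calc t = f2 (g2 t) := (r2 t).symm
            _ ≤ _ := n2 (le_max_right _ _)

/-- Rational points go to rational points. -/
theorem PL.rat {f : ℝ → ℝ} (hf : PL f) (a : ℚ) : ∃ b : ℚ, f a = b := by
  induction hf with
  | aff c d hc => exact ⟨c * a + d, by push_cast; ring⟩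
  | @sup f1 f2 _ _ h1 h2 =>
    obtain ⟨b1, h1⟩ := h1
    obtain ⟨b2, h2⟩ := h2
    refine ⟨max b1 b2, ?_⟩
    simp [Pi.sup_apply, h1, h2]
  | @inf f1 f2 _ _ h1 h2 =>
    obtain ⟨b1, h1⟩ := h1
    obtain ⟨b2, h2⟩ := h2
    refine ⟨min b1 b2, ?_⟩
    simp [Pi.inf_apply, h1, h2]

/-- Conjugation by `t ↦ -t`. -/
theorem PL.negConj {f : ℝ → ℝ} (hf : PL f) : PL (fun t => - f (-t)) := by
  induction hf with
  | aff a b ha =>
    have h := PL.aff a (-b) ha
    refine cast (congrArg PL ?_) h
    funext t; push_cast; ring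
  | @sup f1 f2 _ _ h1 h2 =>
    refine cast (congrArg PL ?_) (PL.inf h1 h2)
    funext t
    simp only [Pi.inf_apply, Pi.sup_apply]
    exact min_neg_neg _ _
  | @inf f1 f2 _ _ h1 h2 =>
    refine cast (congrArg PL ?_) (PL.sup h1 h2)
    funext t
    simp only [Pi.inf_apply, Pi.sup_apply]
    exact max_neg_neg _ _

/-- A quantitative bi-Lipschitz bound. -/
theorem PL.biLip {f : ℝ → ℝ} (hf : PL f) :
    ∃ N : ℚ, 0 < N ∧ ∀ s t : ℝ, s ≤ t → f t - f s ≤ N * (t - s) ∧ t - s ≤ N * (f t - f s) := by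
  induction hf with
  | aff a b ha =>
    have ha' : (0 : ℝ) < a := by exact_mod_cast ha
    refine ⟨a + a⁻¹, add_pos ha (inv_pos.mpr ha), fun s t hst => ⟨?_, ?_⟩⟩
    · push_cast
      have : 0 ≤ (a : ℝ)⁻¹ * (t - s) := mul_nonneg (inv_nonneg.mpr ha'.le) (by linarith)
      nlinarith
    · push_cast
      have h1 : 0 ≤ (a : ℝ) * (a * (t - s)) := mul_nonneg ha'.le (mul_nonneg ha'.le (by linarith))
      have h2 : (a : ℝ)⁻¹ * (a * (t - s)) = t - s := by field_simp
      nlinarith
  | @sup f1 f2 hf1 hf2 h1 h2 =>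
    obtain ⟨N1, p1, h1⟩ := h1
    obtain ⟨N2, p2, h2⟩ := h2
    refine ⟨N1 + N2, add_pos p1 p2, fun s t hst => ?_⟩
    have q1 : (0 : ℝ) < N1 := by exact_mod_cast p1
    have q2 : (0 : ℝ) < N2 := by exact_mod_cast p2
    obtain ⟨a1, b1⟩ := h1 s t hst
    obtain ⟨a2, b2⟩ := h2 s t hst
    have hd : 0 ≤ t - s := by linarith
    have u1 : f1 s ≤ f1 t := hf1.strictMono.monotone hst
    have u2 : f2 s ≤ f2 t := hf2.strictMono.monotone hst
    have e1 : 0 ≤ (N1 : ℝ) * (t - s) := mul_nonneg q1.le hd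
    have e2 : 0 ≤ (N2 : ℝ) * (t - s) := mul_nonneg q2.le hd
    simp only [Pi.sup_apply]
    push_cast
    constructor
    · have hs1 := le_max_left (f1 s) (f2 s)
      have hs2 := le_max_right (f1 s) (f2 s)
      rcases le_total (f1 t) (f2 t) with h | h
      · rw [max_eq_right h]; nlinarith
      · rw [max_eq_left h]; nlinarith
    · have ht1 := le_max_left (f1 t) (f2 t)
      have ht2 := le_max_right (f1 t) (f2 t)
      rcases le_total (f1 s) (f2 s) with h | h
      · rw [max_eq_right h]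
        have m : 0 ≤ max (f1 t) (f2 t) - f2 s := by linarith
        have k1 : 0 ≤ (N1 : ℝ) * (max (f1 t) (f2 t) - f2 s) := mul_nonneg q1.le m
        have k2 : (N2 : ℝ) * (f2 t - f2 s) ≤ N2 * (max (f1 t) (f2 t) - f2 s) :=
          mul_le_mul_of_nonneg_left (by linarith) q2.le
        nlinarith
      · rw [max_eq_left h]
        have m : 0 ≤ max (f1 t) (f2 t) - f1 s := by linarith
        have k1 : 0 ≤ (N2 : ℝ) * (max (f1 t) (f2 t) - f1 s) := mul_nonneg q2.le m
        have k2 : (N1 : ℝ) * (f1 t - f1 s) ≤ N1 * (max (f1 t) (f2 t) - f1 s) :=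
          mul_le_mul_of_nonneg_left (by linarith) q1.le
        nlinarith
  | @inf f1 f2 hf1 hf2 h1 h2 =>
    obtain ⟨N1, p1, h1⟩ := h1
    obtain ⟨N2, p2, h2⟩ := h2
    refine ⟨N1 + N2, add_pos p1 p2, fun s t hst => ?_⟩
    have q1 : (0 : ℝ) < N1 := by exact_mod_cast p1
    have q2 : (0 : ℝ) < N2 := by exact_mod_cast p2
    obtain ⟨a1, b1⟩ := h1 s t hst
    obtain ⟨a2, b2⟩ := h2 s t hst
    have hd : 0 ≤ t - s := by linarith
    have u1 : f1 s ≤ f1 t := hf1.strictMono.monotone hst
    have u2 : f2 s ≤ f2 t := hf2.strictMono.monotone hst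
    have e1 : 0 ≤ (N1 : ℝ) * (t - s) := mul_nonneg q1.le hd
    have e2 : 0 ≤ (N2 : ℝ) * (t - s) := mul_nonneg q2.le hd
    simp only [Pi.inf_apply]
    push_cast
    constructor
    · have ht1 := min_le_left (f1 t) (f2 t)
      have ht2 := min_le_right (f1 t) (f2 t)
      rcases le_total (f1 s) (f2 s) with h | h
      · rw [min_eq_left h]; nlinarith
      · rw [min_eq_right h]; nlinarith
    · have hs1 := min_le_left (f1 s) (f2 s)
      have hs2 := min_le_right (f1 s) (f2 s)
      rcases le_total (f1 t) (f2 t) with h | h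
      · rw [min_eq_left h]
        have m : 0 ≤ f1 t - min (f1 s) (f2 s) := by linarith
        have k1 : 0 ≤ (N2 : ℝ) * (f1 t - min (f1 s) (f2 s)) := mul_nonneg q2.le m
        have k2 : (N1 : ℝ) * (f1 t - f1 s) ≤ N1 * (f1 t - min (f1 s) (f2 s)) :=
          mul_le_mul_of_nonneg_left (by linarith) q1.le
        nlinarith
      · rw [min_eq_right h]
        have m : 0 ≤ f2 t - min (f1 s) (f2 s) := by linarith
        have k1 : 0 ≤ (N1 : ℝ) * (f2 t - min (f1 s) (f2 s)) := mul_nonneg q1.le m
        have k2 : (N2 : ℝ) * (f2 t - f2 s) ≤ N2 * (f2 t - min (f1 s) (f2 s)) :=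
          mul_le_mul_of_nonneg_left (by linarith) q2.le
        nlinarith

/-- Near an irrational point every `PL` function is a single rational affine map. -/
theorem PL.germ {f : ℝ → ℝ} (hf : PL f) (x : ℝ) (hx : Irrational x) :
    ∃ a b : ℚ, ∀ᶠ t in nhds x, f t = (a : ℝ) * t + (b : ℝ) := by
  induction hf with
  | aff a b ha => exact ⟨a, b, Filter.Eventually.of_forall fun t => rfl⟩
  | @sup f1 f2 hf1 hf2 h1 h2 =>
    obtain ⟨a1, b1, h1⟩ := h1
    obtain ⟨a2, b2, h2⟩ := h2
    rcases lt_trichotomy (f1 x) (f2 x) with h | h | h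
    · refine ⟨a2, b2, ?_⟩
      have := (hf1.continuous.continuousAt (x := x)).eventually_lt
        (hf2.continuous.continuousAt (x := x)) h
      filter_upwards [this, h2] with t ht ht2
      simp only [Pi.sup_apply]
      rw [max_eq_right ht.le, ht2]
    · refine ⟨a1, b1, ?_⟩
      have e1 := h1.self_of_nhds
      have e2 := h2.self_of_nhds
      have hab : a1 = a2 := by
        by_contra hne
        apply hx
        have hne' : (a1 : ℝ) - a2 ≠ 0 := by
          rw [sub_ne_zero]; exact_mod_cast hne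
        refine ⟨(b2 - b1) / (a1 - a2), ?_⟩
        push_cast
        rw [div_eq_iff hne']
        linarith
      have hbb : (b1 : ℝ) = b2 := by
        rw [hab] at e1
        linarith
      filter_upwards [h1, h2] with t ht1 ht2
      simp only [Pi.sup_apply]
      rw [ht1, ht2, hab, hbb, max_self]
    · refine ⟨a1, b1, ?_⟩
      have := (hf2.continuous.continuousAt (x := x)).eventually_lt
        (hf1.continuous.continuousAt (x := x)) h
      filter_upwards [this, h1] with t ht ht1
      simp only [Pi.sup_apply]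
      rw [max_eq_left ht.le, ht1]
  | @inf f1 f2 hf1 hf2 h1 h2 =>
    obtain ⟨a1, b1, h1⟩ := h1
    obtain ⟨a2, b2, h2⟩ := h2
    rcases lt_trichotomy (f1 x) (f2 x) with h | h | h
    · refine ⟨a1, b1, ?_⟩
      have := (hf1.continuous.continuousAt (x := x)).eventually_lt
        (hf2.continuous.continuousAt (x := x)) h
      filter_upwards [this, h1] with t ht ht1
      simp only [Pi.inf_apply]
      rw [min_eq_left ht.le, ht1]
    · refine ⟨a1, b1, ?_⟩
      have e1 := h1.self_of_nhds
      have e2 := h2.self_of_nhds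
      have hab : a1 = a2 := by
        by_contra hne
        apply hx
        have hne' : (a1 : ℝ) - a2 ≠ 0 := by
          rw [sub_ne_zero]; exact_mod_cast hne
        refine ⟨(b2 - b1) / (a1 - a2), ?_⟩
        push_cast
        rw [div_eq_iff hne']
        linarith
      have hbb : (b1 : ℝ) = b2 := by
        rw [hab] at e1
        linarith
      filter_upwards [h1, h2] with t ht1 ht2
      simp only [Pi.inf_apply]
      rw [ht1, ht2, hab, hbb, min_self]
    · refine ⟨a2, b2, ?_⟩
      have := (hf2.continuous.continuousAt (x := x)).eventually_lt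
        (hf1.continuous.continuousAt (x := x)) h
      filter_upwards [this, h2] with t ht ht2
      simp only [Pi.inf_apply]
      rw [min_eq_right ht.le, ht2]

/-- Left part of `f`, right part of `g`. -/
noncomputable def patchFun (f g : ℝ → ℝ) (x : ℝ) : ℝ → ℝ := fun t => if t ≤ x then f t else g t

theorem patchFun_left (f g : ℝ → ℝ) (x t : ℝ) (h : t ≤ x) : patchFun f g x t = f t := by
  simp [patchFun, h]

theorem patchFun_right (f g : ℝ → ℝ) (x t : ℝ) (hx : f x = g x) (h : x ≤ t) :
    patchFun f g x t = g t := by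
  unfold patchFun
  split_ifs with h1
  · have : t = x := le_antisymm h1 h
    rw [this, hx]
  · rfl

theorem PL.patch_rat {f g : ℝ → ℝ} (hf : PL f) (hg : PL g) (x : ℚ) (h : f x = g x) :
    PL (patchFun f g x) := by
  obtain ⟨y, hy⟩ := hf.rat x
  obtain ⟨N1, p1, h1⟩ := hf.biLip
  obtain ⟨N2, p2, h2⟩ := hg.biLip
  have q1 : (0 : ℝ) < N1 := by exact_mod_cast p1
  have q2 : (0 : ℝ) < N2 := by exact_mod_cast p2
  set N : ℚ := N1 + N2 with hN
  have pN : 0 < N := add_pos p1 p2
  have qN : (0 : ℝ) < (N : ℝ) := by exact_mod_cast pN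
  have eN : (N : ℝ) = N1 + N2 := by rw [hN]; push_cast; ring
  have c := PL.aff N (y - N * x) pN
  have d := PL.aff N⁻¹ (y - N⁻¹ * x) (inv_pos.mpr pN)
  have hgy : g x = y := by rw [← h, hy]
  -- bounds
  have B1 : ∀ s t : ℝ, s ≤ t → f t - f s ≤ N * (t - s) ∧ (t - s) ≤ N * (f t - f s) := by
    intro s t hst
    obtain ⟨u, v⟩ := h1 s t hst
    have w := hf.strictMono.monotone hst
    constructor
    · rw [eN]; nlinarith [mul_nonneg q2.le (sub_nonneg.mpr hst)]
    · rw [eN]; nlinarith [mul_nonneg q2.le (sub_nonneg.mpr w)]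
  have B2 : ∀ s t : ℝ, s ≤ t → g t - g s ≤ N * (t - s) ∧ (t - s) ≤ N * (g t - g s) := by
    intro s t hst
    obtain ⟨u, v⟩ := h2 s t hst
    have w := hg.strictMono.monotone hst
    constructor
    · rw [eN]; nlinarith [mul_nonneg q1.le (sub_nonneg.mpr hst)]
    · rw [eN]; nlinarith [mul_nonneg q1.le (sub_nonneg.mpr w)]
  have key : patchFun f g x = (f ⊔ fun t => ((N : ℚ) : ℝ) * t + ((y - N * x : ℚ) : ℝ)) ⊓
      (g ⊔ fun t => ((N⁻¹ : ℚ) : ℝ) * t + ((y - N⁻¹ * x : ℚ) : ℝ)) := by
    funext t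
    simp only [Pi.inf_apply, Pi.sup_apply]
    push_cast
    have inv1 : ∀ z : ℝ, (N : ℝ) * ((N : ℝ)⁻¹ * z) = z := fun z => by field_simp
    rcases le_total t x with ht | ht
    · rw [patchFun_left _ _ _ _ ht]
      obtain ⟨u1, v1⟩ := B1 t x ht
      obtain ⟨u2, v2⟩ := B2 t x ht
      rw [hy] at u1 v1
      rw [hgy] at u2 v2
      have a1 : (N : ℝ) * t + (y - N * x) ≤ f t := by nlinarith
      have a2 : g t ≤ (N : ℝ)⁻¹ * t + (y - (N : ℝ)⁻¹ * x) := by
        have : (N : ℝ)⁻¹ * (x - t) ≤ y - g t := by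
          rw [inv_mul_le_iff₀ qN]; linarith
        nlinarith
      have a3 : f t ≤ (N : ℝ)⁻¹ * t + (y - (N : ℝ)⁻¹ * x) := by
        have : (N : ℝ)⁻¹ * (x - t) ≤ y - f t := by
          rw [inv_mul_le_iff₀ qN]; linarith
        nlinarith
      rw [max_eq_left a1, max_eq_right a2, min_eq_left a3]
    · rw [patchFun_right _ _ _ _ h ht]
      obtain ⟨u1, v1⟩ := B1 x t ht
      obtain ⟨u2, v2⟩ := B2 x t ht
      rw [hy] at u1 v1
      rw [hgy] at u2 v2
      have a1 : f t ≤ (N : ℝ) * t + (y - N * x) := by nlinarith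
      have a2 : (N : ℝ)⁻¹ * t + (y - (N : ℝ)⁻¹ * x) ≤ g t := by
        have : (N : ℝ)⁻¹ * (t - x) ≤ g t - y := by
          rw [inv_mul_le_iff₀ qN]; linarith
        nlinarith
      have a3 : g t ≤ (N : ℝ) * t + (y - N * x) := by nlinarith
      rw [max_eq_right a1, max_eq_left a2, min_eq_right a3]
  rw [key]
  exact PL.inf (PL.sup hf c) (PL.sup hg d)

/-- Two `PL` functions that agree at `x` can be patched there. -/
theorem PL.patch {f g : ℝ → ℝ} (hf : PL f) (hg : PL g) (x : ℝ) (h : f x = g x) :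
    PL (patchFun f g x) := by
  by_cases hx : Irrational x
  · obtain ⟨a1, b1, h1⟩ := hf.germ x hx
    obtain ⟨a2, b2, h2⟩ := hg.germ x hx
    have e1 := h1.self_of_nhds
    have e2 := h2.self_of_nhds
    have hab : a1 = a2 := by
      by_contra hne
      apply hx
      have hne' : (a1 : ℝ) - a2 ≠ 0 := by
        rw [sub_ne_zero]; exact_mod_cast hne
      refine ⟨(b2 - b1) / (a1 - a2), ?_⟩
      push_cast
      rw [div_eq_iff hne']
      linarith
    have hbb : (b1 : ℝ) = b2 := by
      rw [hab] at e1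
      linarith
    have hfg : ∀ᶠ t in nhds x, f t = g t := by
      filter_upwards [h1, h2] with t ht1 ht2
      rw [ht1, ht2, hab, hbb]
    obtain ⟨ε, hε, hball⟩ := Metric.eventually_nhds_iff.mp hfg
    obtain ⟨r, hr1, hr2⟩ := exists_rat_btwn (show x < x + ε by linarith)
    have hagree : ∀ t, x ≤ t → t ≤ r → f t = g t := by
      intro t ht1 ht2
      apply hball
      rw [Real.dist_eq, abs_lt]
      constructor <;> linarith
    have hp := PL.patch_rat hf hg r (hagree r hr1.le le_rfl)
    refine cast (congrArg PL ?_) hp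
    funext t
    rcases le_total t x with ht | ht
    · rw [patchFun_left _ _ _ _ ht, patchFun_left _ _ _ _ (ht.trans hr1.le)]
    · rw [patchFun_right _ _ _ _ h ht]
      rcases le_total t r with ht2 | ht2
      · rw [patchFun_left _ _ _ _ ht2, hagree t ht ht2]
      · rw [patchFun_right _ _ _ _ (hagree r hr1.le le_rfl) ht2]
  · unfold Irrational at hx
    push Not at hx
    obtain ⟨q, rfl⟩ := hx
    exact PL.patch_rat hf hg q h

end Pool.Agent.Helper6.PLHomeo
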