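import Pool.Agent.Helper6.PLMain

set_option autoImplicit false

namespace Pool.Agent.Helper6.PLHomeo

theorem invL_eq_iff (f : L) (x y : ℝ) : invL f y = x ↔ f x = y := by
  constructor
  · intro h; rw [← h, invL_right]
  · intro h; rw [← h, invL_left]

theorem invL_invL (f : L) : invL (invL f) = f := by
  apply ext'; intro t
  rw [invL_eq_iff, invL_left]

theorem invL_le {f g : L} : invL f ≤ invL g ↔ g ≤ f := by
  have key : ∀ f g : L, g ≤ f → invL f ≤ invL g := by
    intro f g h t
    apply (mono g).le_iff_le.mp
    rw [invL_right]
    calc g (invL f t) ≤ f (invL f t) := h _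
      _ = t := invL_right _ _
  constructor
  · intro h
    have := key _ _ h
    rwa [invL_invL, invL_invL] at this
  · exact key f g

theorem negC_comp (f g : L) : negC (comp f g) = comp (negC f) (negC g) := by
  apply ext'; intro t
  simp [negC_apply, comp_apply]

theorem invL_comp (f g : L) : invL (comp f g) = comp (invL g) (invL f) := by
  apply ext'; intro t
  rw [invL_eq_iff]
  simp only [comp_apply, invL_right]

theorem invL_negC (f : L) : invL (negC f) = negC (invL f) := by
  apply ext'; intro t
  rw [invL_eq_iff]
  simp only [negC_apply, neg_neg, invL_right]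

/-- The lattice automorphism reversing composition. -/
noncomputable def theta : L ≃o L where
  toFun f := negC (invL f)
  invFun f := negC (invL f)
  left_inv f := by
    change negC (invL (negC (invL f))) = f
    rw [invL_negC, invL_invL, negC_negC]
  right_inv f := by
    change negC (invL (negC (invL f))) = f
    rw [invL_negC, invL_invL, negC_negC]
  map_rel_iff' := by
    intro a b
    change negC (invL a) ≤ negC (invL b) ↔ a ≤ b
    rw [negC_le, invL_le]

theorem theta_apply (f : L) : theta f = negC (invL f) := rfl

theorem theta_symm : theta.symm = theta := rfl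

theorem theta_theta (f : L) : theta (theta f) = f := theta.left_inv f

theorem theta_comp (f g : L) : theta (comp f g) = comp (theta g) (theta f) := by
  rw [theta_apply, invL_comp, negC_comp]; rfl

theorem theta_point (f : L) (x y : ℝ) : theta f (-y) = -x ↔ f x = y := by
  rw [theta_apply, negC_apply, neg_neg, neg_inj, invL_eq_iff]

theorem theta_id : theta idL = idL := by
  apply ext'; intro t
  have := (theta_point idL (-t) (-t)).mpr rfl
  rw [neg_neg] at this
  exact this

/-- Monotonicity of a group operation on `L`. -/
def Compat (H : Group L) : Prop :=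
  ∀ a b c : L, a ≤ b → H.mul c a ≤ H.mul c b ∧ H.mul a c ≤ H.mul b c

/-- Transport of a group operation along a lattice automorphism. -/
@[reducible]
noncomputable def transport (H : Group L) (e : L ≃o L) : Group L :=
  letI := H
  e.symm.toEquiv.group

theorem transport_mul (H : Group L) (e : L ≃o L) (a b : L) :
    (transport H e).mul a b = e (H.mul (e.symm a) (e.symm b)) := rfl

theorem transport_one (H : Group L) (e : L ≃o L) : (transport H e).one = e H.one := rfl

theorem transport_compat (H : Group L) (e : L ≃o L) (hH : Compat H) :
    Compat (transport H e) := by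
  intro a b c hab
  rw [transport_mul, transport_mul, transport_mul, transport_mul, e.le_iff_le, e.le_iff_le]
  exact hH _ _ _ (e.symm.le_iff_le.mpr hab)

/-- Main theorem when the identity element is the identity function and all rational points
have vertical type. -/
theorem main_T (H : Group L) (hH : Compat H) (hone : H.one = idL)
    (hT : ∀ a b : ℚ, a < b → ∀ f : L, f (a : ℝ) = b → ∀ g : L, g (a : ℝ) = f a ↔
      (H.mul (H.inv f) g) (a : ℝ) = a) (f g : L) : H.mul f g = comp f g := by
  let _ := H
  have : MulLeftMono L := ⟨fun c a b h => (hH a b c h).1⟩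
  have : MulRightMono L := ⟨fun c a b h => (hH a b c h).2⟩
  exact mul_eq_comp hone hT f g

theorem main_one (H : Group L) (hH : Compat H) (hone : H.one = idL) :
    ∃ φ : L ≃o L, ∀ x y, φ (comp x y) = H.mul (φ x) (φ y) := by
  let _ := H
  have : MulLeftMono L := ⟨fun c a b h => (hH a b c h).1⟩
  have : MulRightMono L := ⟨fun c a b h => (hH a b c h).2⟩
  have hone' : (1 : L) = idL := hone
  by_cases h01 : T 0 1
  · refine ⟨OrderIso.refl L, fun x y => ?_⟩
    have hT : ∀ a b : ℚ, a < b → T (a : ℝ) b := by
      intro a b hab
      rw [T_all hone' a b 0 1 hab one_pos]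
      simpa using h01
    exact (mul_eq_comp hone' hT x y).symm
  · have hT : ∀ a b : ℚ, a < b → ¬ T (a : ℝ) b := by
      intro a b hab
      rw [T_all hone' a b 0 1 hab one_pos]
      simpa using h01
    have hH' : ∀ a b : ℚ, a < b → ∀ f : L, f (a : ℝ) = b → Hh f a := by
      intro a b hab f hf
      rcases VH hone' f a with h | h
      · exact absurd (T_of_V hone' f a b hf h) (hT a b hab)
      · exact h
    have key := main_T (transport H theta) (transport_compat H theta hH)
      (by rw [transport_one, hone, theta_id]) (by
        intro a b hab f hf g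
        have hb : (-(b : ℝ)) = ((-b : ℚ) : ℝ) := by push_cast; ring
        have ha : (-(a : ℝ)) = ((-a : ℚ) : ℝ) := by push_cast; ring
        -- theta f maps -b to -a
        have e1 : theta f (-(b : ℝ)) = -a := (theta_point f a b).mpr hf
        have e2 := hH' (-b) (-a) (by linarith) (theta f) (by rw [← hb, ← ha]; exact e1)
          (theta g)
        rw [← hb, e1] at e2
        rw [hf, ← theta_point g a b, e2]
        change ((theta f)⁻¹ * theta g) (-(a : ℝ)) = -(a : ℝ) ↔
          (theta ((theta (theta (theta f)⁻¹)) * theta g)) (a : ℝ) = a
        rw [theta_theta]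
        have e3 := theta_point ((theta f)⁻¹ * theta g) (-(a : ℝ)) (-(a : ℝ))
        rw [neg_neg] at e3
        exact e3.symm)
    refine ⟨theta, fun x y => ?_⟩
    have := key x y
    rw [transport_mul, theta_symm] at this
    rw [← this, theta_theta]

/-- Right composition with a fixed element, as a lattice automorphism. -/
noncomputable def rightComp (u : L) : L ≃o L where
  toFun f := comp f (invL u)
  invFun f := comp f u
  left_inv f := by apply ext'; intro t; simp [comp_apply, invL_left]
  right_inv f := by apply ext'; intro t; simp [comp_apply, invL_right]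
  map_rel_iff' := by
    intro a b
    constructor
    · intro h t
      have := h (u t)
      change a (invL u (u t)) ≤ b (invL u (u t)) at this
      rwa [invL_left] at this
    · intro h t
      exact h _

/-- Every compatible group operation on the lattice `L` is isomorphic to composition by a
lattice automorphism. -/
theorem main (H : Group L) (hH : Compat H) :
    ∃ φ : L ≃o L, ∀ x y, φ (comp x y) = H.mul (φ x) (φ y) := by
  set τ := rightComp H.one with hτ
  obtain ⟨φ, hφ⟩ := main_one (transport H τ) (transport_compat H τ hH) (by
    rw [transport_one]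
    apply ext'; intro t
    change H.one (invL H.one t) = t
    exact invL_right _ _)
  refine ⟨φ.trans τ.symm, fun x y => ?_⟩
  change τ.symm (φ (comp x y)) = H.mul (τ.symm (φ x)) (τ.symm (φ y))
  rw [hφ, transport_mul, τ.symm_apply_apply]

/-- The group of all elements of `L` under composition. -/
@[reducible]
noncomputable def compGroup : Group L :=
  letI : Mul L := ⟨comp⟩
  letI : Inv L := ⟨invL⟩
  letI : One L := ⟨idL⟩
  Group.ofLeftAxioms (fun _ _ _ => rfl) (fun _ => rfl) (fun f => ext' fun t => invL_left f t)

theorem compGroup_mul (f g : L) : compGroup.mul f g = comp f g := rfl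

theorem compGroup_compat : Compat compGroup := by
  intro a b c h
  refine ⟨fun t => (mono c).monotone (h t), fun t => h (c t)⟩

theorem comp_not_comm : ∃ f g : L, comp f g ≠ comp g f := by
  refine ⟨⟨_, PL.aff 2 0 (by norm_num)⟩, ⟨_, PL.aff 1 1 one_pos⟩, fun h => ?_⟩
  have := congrArg (fun f : L => f 0) h
  simp only [comp_apply] at this
  norm_num at this

/-- Terms. -/
inductive Tm : Type
  | aff (a b : ℚ) : Tm
  | sup (s t : Tm) : Tm
  | inf (s t : Tm) : Tm
  deriving Countable

/-- Evaluation of terms. -/
noncomputable def Tm.eval : Tm → ℝ → ℝ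
  | .aff a b => fun t => (a : ℝ) * t + (b : ℝ)
  | .sup s t => s.eval ⊔ t.eval
  | .inf s t => s.eval ⊓ t.eval

theorem PL.term {f : ℝ → ℝ} (hf : PL f) : ∃ s : Tm, s.eval = f := by
  induction hf with
  | aff a b ha => exact ⟨.aff a b, rfl⟩
  | sup _ _ h1 h2 =>
    obtain ⟨s1, rfl⟩ := h1
    obtain ⟨s2, rfl⟩ := h2
    exact ⟨.sup s1 s2, rfl⟩
  | inf _ _ h1 h2 =>
    obtain ⟨s1, rfl⟩ := h1
    obtain ⟨s2, rfl⟩ := h2
    exact ⟨.inf s1 s2, rfl⟩

instance : Countable L := by
  have hinj : Function.Injective (fun f : L => f.2.term.choose) := by
    intro f g h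
    apply Subtype.ext
    rw [← f.2.term.choose_spec, ← g.2.term.choose_spec]
    exact congrArg Tm.eval h
  exact hinj.countable

end Pool.Agent.Helper6.PLHomeo
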