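import Pool.Agent.Helper6.PLBase

set_option autoImplicit false

namespace Pool.Agent.Helper6.PLHomeo

/-- The lattice of rational piecewise linear increasing homeomorphisms of the line. -/
abbrev L : Type := {f : ℝ → ℝ // PL f}

noncomputable instance instLatticeL : Lattice L :=
  Subtype.lattice (fun _ _ => PL.sup) (fun _ _ => PL.inf)

instance : CoeFun L (fun _ => ℝ → ℝ) := ⟨Subtype.val⟩

theorem sup_apply (f g : L) (t : ℝ) : (f ⊔ g) t = max (f t) (g t) := rfl

theorem inf_apply (f g : L) (t : ℝ) : (f ⊓ g) t = min (f t) (g t) := rfl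

theorem le_iff (f g : L) : f ≤ g ↔ ∀ t, f t ≤ g t := Iff.rfl

theorem ext' {f g : L} (h : ∀ t, f t = g t) : f = g := Subtype.ext (funext h)

theorem mono (f : L) : StrictMono (f : ℝ → ℝ) := f.2.strictMono

theorem cont (f : L) : Continuous (f : ℝ → ℝ) := f.2.continuous

/-- Composition. -/
def comp (f g : L) : L := ⟨fun t => f (g t), f.2.comp g.2⟩

theorem comp_apply (f g : L) (t : ℝ) : comp f g t = f (g t) := rfl

/-- The identity function. -/
def idL : L := ⟨fun t => t, PL.id'⟩

theorem idL_apply (t : ℝ) : idL t = t := rfl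

/-- The inverse function. -/
noncomputable def invL (f : L) : L := ⟨f.2.inverse.choose, f.2.inverse.choose_spec.1⟩

theorem invL_left (f : L) (t : ℝ) : invL f (f t) = t := f.2.inverse.choose_spec.2.1 t

theorem invL_right (f : L) (t : ℝ) : f (invL f t) = t := f.2.inverse.choose_spec.2.2 t

/-- Conjugation by the reflection of the line. -/
def negC (f : L) : L := ⟨fun t => - f (-t), f.2.negConj⟩

theorem negC_apply (f : L) (t : ℝ) : negC f t = - f (-t) := rfl

theorem negC_negC (f : L) : negC (negC f) = f := by
  apply ext'; intro t; simp [negC_apply]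

/-- Patching at a point of agreement. -/
noncomputable def patch (f g : L) (x : ℝ) (h : f x = g x) : L :=
  ⟨patchFun f g x, f.2.patch g.2 x h⟩

theorem patch_left (f g : L) (x : ℝ) (h : f x = g x) (t : ℝ) (ht : t ≤ x) :
    patch f g x h t = f t := patchFun_left _ _ _ _ ht

theorem patch_right (f g : L) (x : ℝ) (h : f x = g x) (t : ℝ) (ht : x ≤ t) :
    patch f g x h t = g t := patchFun_right _ _ _ _ h ht

/-- Positive bumps. -/
theorem bump_up (x z v : ℝ) (hz : z ≠ x) (hv : z < x → v < x) :
    ∃ k : L, k x = x ∧ (∀ t, t ≤ k t) ∧ v < k z ∧ (x < z → ∀ t ≤ x, k t = t) ∧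
      (z < x → ∀ t, x ≤ t → k t = t) := by
  rcases lt_or_gt_of_ne hz with hzx | hxz
  · -- z < x
    have hm : max v z < x := max_lt (hv hzx) hzx
    obtain ⟨r, hr1, hr2⟩ := exists_rat_btwn hm
    have hvr : v < r := lt_of_le_of_lt (le_max_left _ _) hr1
    have hzr : z < r := lt_of_le_of_lt (le_max_right _ _) hr1
    have hpos : (0 : ℝ) < min 1 ((r - v) / (r - z)) :=
      lt_min one_pos (div_pos (by linarith) (by linarith))
    obtain ⟨δ, hδ1, hδ2⟩ := exists_rat_btwn hpos
    have hδ0 : 0 < δ := by exact_mod_cast hδ1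
    have hδa : (δ : ℝ) < 1 := lt_of_lt_of_le hδ2 (min_le_left _ _)
    have hδb : (δ : ℝ) < (r - v) / (r - z) := lt_of_lt_of_le hδ2 (min_le_right _ _)
    rw [lt_div_iff₀ (by linarith)] at hδb
    have hfix : ∀ t : ℝ, (r : ℝ) ≤ t → max t ((δ : ℝ) * t + ((r - δ * r : ℚ) : ℝ)) = t := by
      intro t ht
      apply max_eq_left
      push_cast
      nlinarith
    refine ⟨⟨_, PL.sup PL.id' (PL.aff δ (r - δ * r) hδ0)⟩, ?_, ?_, ?_, ?_, ?_⟩
    · exact hfix x hr2.le
    · intro t; exact le_max_left _ _
    · apply lt_of_lt_of_le _ (le_max_right _ _)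
      push_cast
      nlinarith
    · intro h; exact absurd h (not_lt.mpr hzx.le)
    · intro _ t ht; exact hfix t (hr2.le.trans ht)
  · -- x < z
    have hxz' : x < z := hxz
    obtain ⟨r, hr1, hr2⟩ := exists_rat_btwn hxz'
    obtain ⟨N, hN⟩ := exists_rat_gt (max 1 ((v - r) / (z - r)))
    have hN1 : (1 : ℝ) < N := lt_of_le_of_lt (le_max_left _ _) hN
    have hN2 : (v - r) / (z - r) < N := lt_of_le_of_lt (le_max_right _ _) hN
    rw [div_lt_iff₀ (by linarith)] at hN2
    have hN0 : 0 < N := by
      have : (0 : ℝ) < N := by linarith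
      exact_mod_cast this
    have hfix : ∀ t : ℝ, t ≤ (r : ℝ) → max t ((N : ℝ) * t + ((r - N * r : ℚ) : ℝ)) = t := by
      intro t ht
      apply max_eq_left
      push_cast
      nlinarith
    refine ⟨⟨_, PL.sup PL.id' (PL.aff N (r - N * r) hN0)⟩, ?_, ?_, ?_, ?_, ?_⟩
    · exact hfix x hr1.le
    · intro t; exact le_max_left _ _
    · apply lt_of_lt_of_le _ (le_max_right _ _)
      push_cast
      nlinarith
    · intro _ t ht; exact hfix t (ht.trans hr1.le)
    · intro h; exact absurd h (not_lt.mpr hxz'.le)

/-- Negative bumps. -/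
theorem bump_down (x z v : ℝ) (hz : z ≠ x) (hv : x < z → x < v) :
    ∃ k : L, k x = x ∧ (∀ t, k t ≤ t) ∧ k z < v ∧ (x < z → ∀ t ≤ x, k t = t) ∧
      (z < x → ∀ t, x ≤ t → k t = t) := by
  obtain ⟨k, h1, h2, h3, h4, h5⟩ := bump_up (-x) (-z) (-v) (by simpa using hz)
    (fun h => by have := hv (by linarith); linarith)
  refine ⟨negC k, ?_, ?_, ?_, ?_, ?_⟩
  · rw [negC_apply, h1]; ring
  · intro t; rw [negC_apply]; have := h2 (-t); linarith
  · rw [negC_apply]; linarith
  · intro h t ht
    rw [negC_apply, h5 (by linarith) (-t) (by linarith)]; ring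
  · intro h t ht
    rw [negC_apply, h4 (by linarith) (-t) (by linarith)]; ring

/-- Separating a point from two others. -/
theorem bump_three (a b z : ℝ) (ha : z ≠ a) (hb : z ≠ b) :
    ∃ k : L, k a = a ∧ k b = b ∧ (∀ t, t ≤ k t) ∧ z < k z := by
  obtain ⟨k1, h1, h2, h3, -, -⟩ := bump_up a z z ha (fun h => h)
  obtain ⟨k2, g1, g2, g3, -, -⟩ := bump_up b z z hb (fun h => h)
  refine ⟨k1 ⊓ k2, ?_, ?_, ?_, ?_⟩
  · rw [inf_apply, h1]; exact min_eq_left (g2 a)
  · rw [inf_apply, g1]; exact min_eq_right (h2 b)
  · intro t; rw [inf_apply]; exact le_min (h2 t) (g2 t)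
  · rw [inf_apply]; exact lt_min h3 g3

/-- The comparison lemma. -/
theorem gap (f : L) (a c d : ℝ) (H : ∀ h : L, h a = f a → d ≤ h c) : a ≤ c ∧ d ≤ f a := by
  have hv : f (invL f d) = d := invL_right f d
  have hac : a ≤ c := by
    by_contra hlt
    push Not at hlt
    obtain ⟨k, h1, -, h3, -, -⟩ := bump_down a c (invL f d) hlt.ne (fun h => absurd h (not_lt.mpr hlt.le))
    have := H (comp f k) (by rw [comp_apply, h1])
    rw [comp_apply] at this
    have h4 := mono f h3
    rw [hv] at h4
    linarith
  refine ⟨hac, ?_⟩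
  by_contra hlt
  push Not at hlt
  rcases eq_or_lt_of_le hac with h | h
  · have := H f rfl
    rw [← h] at this
    linarith
  · have hav : a < invL f d := by
      by_contra hcon
      push Not at hcon
      have := (mono f).monotone hcon
      rw [hv] at this
      linarith
    obtain ⟨k, h1, -, h3, -, -⟩ := bump_down a c (invL f d) h.ne' (fun _ => hav)
    have := H (comp f k) (by rw [comp_apply, h1])
    rw [comp_apply] at this
    have h4 := mono f h3
    rw [hv] at h4
    linarith

/-- One half of the point map lemma. -/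
theorem point_map_half (φ : L ≃o L) (f0 : L) (x : ℝ) :
    ∃ x' : ℝ, ∀ g : L, g x = f0 x → φ g x' = φ f0 x' := by
  classical
  set A : Set L := {a | ∀ t, x ≤ t → a t = f0 t} with hA
  set B : Set L := {b | ∀ t, t ≤ x → b t = f0 t} with hB
  set UA : Set ℝ := ⋃ a ∈ A, {t | φ a t ≠ φ f0 t} with hUA
  set UB : Set ℝ := ⋃ b ∈ B, {t | φ b t ≠ φ f0 t} with hUB
  have openUA : IsOpen UA := isOpen_biUnion fun a _ => isOpen_ne_fun (cont _) (cont _)
  have openUB : IsOpen UB := isOpen_biUnion fun a _ => isOpen_ne_fun (cont _) (cont _)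
  have neUA : UA.Nonempty := by
    obtain ⟨k, h1, h2, h3, h4, h5⟩ := bump_up x (x - 1) (x - 1) (by linarith) (fun h => h)
    have hmem : comp f0 k ∈ A := by
      intro t ht; rw [comp_apply, h5 (by linarith) t ht]
    have hne : comp f0 k ≠ f0 := by
      intro heq
      have : comp f0 k (x - 1) = f0 (x - 1) := by rw [heq]
      rw [comp_apply] at this
      have := mono f0 h3
      linarith
    have hne' : φ (comp f0 k) ≠ φ f0 := fun h => hne (φ.injective h)
    have : ∃ t, φ (comp f0 k) t ≠ φ f0 t := by
      by_contra hcon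
      push Not at hcon
      exact hne' (ext' hcon)
    obtain ⟨t, ht⟩ := this
    exact ⟨t, Set.mem_biUnion hmem ht⟩
  have neUB : UB.Nonempty := by
    obtain ⟨k, h1, h2, h3, h4, h5⟩ := bump_up x (x + 1) (x + 1) (by linarith) (fun h => h)
    have hmem : comp f0 k ∈ B := by
      intro t ht; rw [comp_apply, h4 (by linarith) t ht]
    have hne : comp f0 k ≠ f0 := by
      intro heq
      have : comp f0 k (x + 1) = f0 (x + 1) := by rw [heq]
      rw [comp_apply] at this
      have := mono f0 h3
      linarith
    have hne' : φ (comp f0 k) ≠ φ f0 := fun h => hne (φ.injective h)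
    have : ∃ t, φ (comp f0 k) t ≠ φ f0 t := by
      by_contra hcon
      push Not at hcon
      exact hne' (ext' hcon)
    obtain ⟨t, ht⟩ := this
    exact ⟨t, Set.mem_biUnion hmem ht⟩
  -- disjointness
  have disj : ∀ t, t ∈ UA → t ∈ UB → False := by
    intro t hta htb
    simp only [hUA, hUB, Set.mem_iUnion, Set.mem_ofPred_eq, exists_prop] at hta htb
    obtain ⟨a, ha, hta⟩ := hta
    obtain ⟨b, hb, htb⟩ := htb
    have hax : a x = f0 x := ha x le_rfl
    have hbx : b x = f0 x := hb x le_rfl
    rcases lt_or_gt_of_ne hta with h1 | h1 <;> rcases lt_or_gt_of_ne htb with h2 | h2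
    · -- both below
      have e : (a ⊓ f0) ⊔ (b ⊓ f0) = f0 := by
        apply ext'; intro s
        rw [sup_apply, inf_apply, inf_apply]
        rcases le_total s x with hs | hs
        · rw [hb s hs, min_self]; exact max_eq_right (min_le_right _ _)
        · rw [ha s hs, min_self]; exact max_eq_left (min_le_right _ _)
      have e2 := congrArg (fun g : L => (φ g) t) e
      simp only [map_sup, map_inf, sup_apply, inf_apply] at e2
      rw [min_eq_left h1.le, min_eq_left h2.le] at e2
      have := max_lt h1 h2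
      linarith
    · -- a below, b above
      have hc : (a ⊓ f0) x = (b ⊔ f0) x := by
        rw [inf_apply, sup_apply, hax, hbx, min_self, max_self]
      have e1 : patch (a ⊓ f0) (b ⊔ f0) x hc ⊓ f0 = a ⊓ f0 := by
        apply ext'; intro s
        rw [inf_apply, inf_apply]
        rcases le_total s x with hs | hs
        · rw [patch_left _ _ _ _ _ hs, inf_apply, min_assoc, min_self]
        · rw [patch_right _ _ _ _ _ hs, sup_apply, ha s hs, min_self]
          exact min_eq_right (le_max_right _ _)
      have e2 : patch (a ⊓ f0) (b ⊔ f0) x hc ⊔ f0 = b ⊔ f0 := by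
        apply ext'; intro s
        rw [sup_apply, sup_apply]
        rcases le_total s x with hs | hs
        · rw [patch_left _ _ _ _ _ hs, inf_apply, hb s hs, max_self]
          exact max_eq_right (min_le_right _ _)
        · rw [patch_right _ _ _ _ _ hs, sup_apply, max_assoc, max_self]
      have e1' := congrArg (fun g : L => (φ g) t) e1
      have e2' := congrArg (fun g : L => (φ g) t) e2
      simp only [map_sup, map_inf, sup_apply, inf_apply] at e1' e2'
      rw [min_eq_left h1.le] at e1'
      rw [max_eq_left h2.le] at e2'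
      have k1 : (φ (patch (a ⊓ f0) (b ⊔ f0) x hc)) t < (φ f0) t := by
        by_contra hcon
        push Not at hcon
        rw [min_eq_right hcon] at e1'
        linarith
      rw [max_eq_right k1.le] at e2'
      linarith
    · -- a above, b below
      have hc : (a ⊔ f0) x = (b ⊓ f0) x := by
        rw [inf_apply, sup_apply, hax, hbx, min_self, max_self]
      have e1 : patch (a ⊔ f0) (b ⊓ f0) x hc ⊔ f0 = a ⊔ f0 := by
        apply ext'; intro s
        rw [sup_apply, sup_apply]
        rcases le_total s x with hs | hs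
        · rw [patch_left _ _ _ _ _ hs, sup_apply, max_assoc, max_self]
        · rw [patch_right _ _ _ _ _ hs, inf_apply, ha s hs, max_self]
          exact max_eq_right (min_le_right _ _)
      have e2 : patch (a ⊔ f0) (b ⊓ f0) x hc ⊓ f0 = b ⊓ f0 := by
        apply ext'; intro s
        rw [inf_apply, inf_apply]
        rcases le_total s x with hs | hs
        · rw [patch_left _ _ _ _ _ hs, sup_apply, hb s hs, min_self]
          exact min_eq_right (le_max_right _ _)
        · rw [patch_right _ _ _ _ _ hs, inf_apply, min_assoc, min_self]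
      have e1' := congrArg (fun g : L => (φ g) t) e1
      have e2' := congrArg (fun g : L => (φ g) t) e2
      simp only [map_sup, map_inf, sup_apply, inf_apply] at e1' e2'
      rw [max_eq_left h1.le] at e1'
      rw [min_eq_left h2.le] at e2'
      have k1 : (φ f0) t < (φ (patch (a ⊔ f0) (b ⊓ f0) x hc)) t := by
        by_contra hcon
        push Not at hcon
        rw [max_eq_right hcon] at e1'
        linarith
      rw [min_eq_right k1.le] at e2'
      linarith
    · -- both above
      have e : (a ⊔ f0) ⊓ (b ⊔ f0) = f0 := by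
        apply ext'; intro s
        rw [inf_apply, sup_apply, sup_apply]
        rcases le_total s x with hs | hs
        · rw [hb s hs, max_self]; exact min_eq_right (le_max_right _ _)
        · rw [ha s hs, max_self]; exact min_eq_left (le_max_right _ _)
      have e2 := congrArg (fun g : L => (φ g) t) e
      simp only [map_sup, map_inf, sup_apply, inf_apply] at e2
      rw [max_eq_left h1.le, max_eq_left h2.le] at e2
      have := lt_min h1 h2
      linarith
  -- a point outside of both
  have hex : ∃ x' : ℝ, x' ∉ UA ∧ x' ∉ UB := by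
    by_contra hcon
    push Not at hcon
    have hcov : (Set.univ : Set ℝ) ⊆ UA ∪ UB := by
      intro t _
      by_cases h : t ∈ UA
      · exact Or.inl h
      · exact Or.inr (hcon t h)
    obtain ⟨t, -, h1, h2⟩ := isPreconnected_univ UA UB openUA openUB hcov
      (by simpa using neUA) (by simpa using neUB)
    exact disj t h1 h2
  obtain ⟨x', hx'A, hx'B⟩ := hex
  have hA' : ∀ a ∈ A, φ a x' = φ f0 x' := by
    intro a ha
    by_contra hne
    exact hx'A (Set.mem_biUnion ha hne)
  have hB' : ∀ b ∈ B, φ b x' = φ f0 x' := by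
    intro b hb
    by_contra hne
    exact hx'B (Set.mem_biUnion hb hne)
  refine ⟨x', fun g hg => ?_⟩
  have up : max (φ g x') (φ f0 x') = φ f0 x' := by
    have hc1 : (g ⊔ f0) x = f0 x := by rw [sup_apply, hg, max_self]
    have m1 : patch (g ⊔ f0) f0 x hc1 ∈ A := fun t ht => patch_right _ _ _ _ _ ht
    have m2 : patch f0 (g ⊔ f0) x hc1.symm ∈ B := fun t ht => patch_left _ _ _ _ _ ht
    have e : g ⊔ f0 = patch (g ⊔ f0) f0 x hc1 ⊔ patch f0 (g ⊔ f0) x hc1.symm := by
      apply ext'; intro s
      rw [sup_apply (patch _ _ _ _)]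
      rcases le_total s x with hs | hs
      · rw [patch_left _ _ _ _ _ hs, patch_left _ _ _ _ _ hs, sup_apply]
        exact (max_eq_left (le_max_right _ _)).symm
      · rw [patch_right _ _ _ _ _ hs, patch_right _ _ _ _ _ hs, sup_apply]
        exact (max_eq_right (le_max_right _ _)).symm
    have e' := congrArg (fun g : L => (φ g) x') e
    simp only [map_sup, sup_apply] at e'
    have n1 := hA' _ m1
    have n2 := hB' _ m2
    rw [e', n1, n2, max_self]
  have down : min (φ g x') (φ f0 x') = φ f0 x' := by
    have hc1 : (g ⊓ f0) x = f0 x := by rw [inf_apply, hg, min_self]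
    have m1 : patch (g ⊓ f0) f0 x hc1 ∈ A := fun t ht => patch_right _ _ _ _ _ ht
    have m2 : patch f0 (g ⊓ f0) x hc1.symm ∈ B := fun t ht => patch_left _ _ _ _ _ ht
    have e : g ⊓ f0 = patch (g ⊓ f0) f0 x hc1 ⊓ patch f0 (g ⊓ f0) x hc1.symm := by
      apply ext'; intro s
      rw [inf_apply (patch _ _ _ _)]
      rcases le_total s x with hs | hs
      · rw [patch_left _ _ _ _ _ hs, patch_left _ _ _ _ _ hs, inf_apply]
        exact (min_eq_left (min_le_right _ _)).symm
      · rw [patch_right _ _ _ _ _ hs, patch_right _ _ _ _ _ hs, inf_apply]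
        exact (min_eq_right (min_le_right _ _)).symm
    have e' := congrArg (fun g : L => (φ g) x') e
    simp only [map_inf, inf_apply] at e'
    have n1 := hA' _ m1
    have n2 := hB' _ m2
    rw [e', n1, n2, min_self]
  have u1 := le_max_left (φ g x') (φ f0 x')
  have u2 := min_le_left (φ g x') (φ f0 x')
  linarith

/-- The point map lemma: a lattice automorphism maps point sets to point sets. -/
theorem point_map (φ : L ≃o L) (f0 : L) (x : ℝ) :
    ∃ x' : ℝ, ∀ g : L, g x = f0 x ↔ φ g x' = φ f0 x' := by
  obtain ⟨x', hx'⟩ := point_map_half φ f0 x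
  obtain ⟨x'', hx''⟩ := point_map_half φ.symm (φ f0) x'
  have hxx : x = x'' := by
    by_contra hne
    obtain ⟨k, h1, h2, h3, -, -⟩ := bump_up x x'' x'' (fun h => hne h.symm) (fun h => h)
    have k1 := hx' (comp f0 k) (by rw [comp_apply, h1])
    have k2 := hx'' (φ (comp f0 k)) k1
    simp only [OrderIso.symm_apply_apply] at k2
    rw [comp_apply] at k2
    have := mono f0 h3
    linarith
  refine ⟨x', fun g => ⟨hx' g, fun hg => ?_⟩⟩
  have := hx'' (φ g) hg
  simp only [OrderIso.symm_apply_apply] at this
  rw [hxx]; exact this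

end Pool.Agent.Helper6.PLHomeo
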