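import Pool.Agent.Helper6.PLLattice

set_option autoImplicit false

namespace Pool.Agent.Helper6.PLHomeo

/-- The automorphism `φ` maps the point `(x, y)` to the point `(s, t)`. -/
def PM (φ : L ≃o L) (x y s t : ℝ) : Prop := ∀ h : L, h x = y ↔ φ h s = t

theorem PM.up {φ : L ≃o L} {x y s t : ℝ} (P : PM φ x y s t) (m : L) (hm : m x = y) (h : L) :
    y ≤ h x ↔ t ≤ φ h s := by
  have e := P (h ⊓ m)
  have hm' : φ m s = t := (P m).mp hm
  rw [map_inf, inf_apply, inf_apply, hm, hm', min_eq_right_iff, min_eq_right_iff] at e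
  exact e

theorem join_lemma (φ : L ≃o L) (x1 x2 y1 y2 s1 s2 t1 t2 : ℝ) (hx : x1 ≤ x2) (hy : y1 ≤ y2)
    (hs : s1 ≤ s2) (ht : t1 ≤ t2) (P1 : PM φ x1 y1 s1 t1) (P2 : PM φ x2 y2 s2 t2)
    (m1 : L) (hm1 : m1 x1 = y1) (m2 : L) (hm2 : m2 x2 = y2)
    (m : L) (hm : m x1 = y2) (n : L) (hn : n s1 = t2) : PM φ x1 y2 s1 t2 := by
  obtain ⟨a', ha'⟩ := point_map φ m x1
  have PP : PM φ x1 y2 a' (φ m a') := by
    intro h; rw [← hm]; exact ha' h
  have key1 : ∀ h' : L, h' a' = φ m a' → t1 ≤ h' s1 ∧ t2 ≤ h' s2 := by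
    intro h' hh'
    have e : φ (φ.symm h') = h' := φ.apply_symm_apply h'
    have q : φ.symm h' x1 = y2 := by
      rw [PP (φ.symm h'), e]; exact hh'
    constructor
    · have := (P1.up m1 hm1 (φ.symm h')).mp (by rw [q]; exact hy)
      rwa [e] at this
    · have := (P2.up m2 hm2 (φ.symm h')).mp (by
        rw [← q]; exact (mono _).monotone hx)
      rwa [e] at this
  obtain ⟨g1, -⟩ := gap (φ m) a' s1 t1 (fun h hh => (key1 h hh).1)
  obtain ⟨-, g2⟩ := gap (φ m) a' s2 t2 (fun h hh => (key1 h hh).2)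
  obtain ⟨a'', ha''⟩ := point_map φ.symm n s1
  have key2 : ∀ h : L, h a'' = φ.symm n a'' → y1 ≤ h x1 ∧ y2 ≤ h x2 := by
    intro h hh
    have q : φ h s1 = t2 := by
      rw [← hn, ha'' (φ h), φ.symm_apply_apply]; exact hh
    constructor
    · exact (P1.up m1 hm1 h).mpr (by rw [q]; exact ht)
    · exact (P2.up m2 hm2 h).mpr (by rw [← q]; exact (mono _).monotone hs)
  obtain ⟨g3, -⟩ := gap (φ.symm n) a'' x1 y1 (fun h hh => (key2 h hh).1)
  obtain ⟨-, g4⟩ := gap (φ.symm n) a'' x2 y2 (fun h hh => (key2 h hh).2)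
  have key3 : ∀ n' : L, n' s1 = n s1 → φ m a' ≤ n' a' := by
    intro n' hn'
    have q : φ.symm n' a'' = φ.symm n a'' := (ha'' n').mp hn'
    have r : y2 ≤ φ.symm n' x1 := by
      have := (mono (φ.symm n')).monotone g3
      linarith
    have := (PP.up m hm (φ.symm n')).mp r
    rwa [φ.apply_symm_apply] at this
  obtain ⟨g5, g6⟩ := gap n s1 a' (φ m a') key3
  have e1 : a' = s1 := le_antisymm g1 g5
  have e2 : φ m a' = t2 := le_antisymm (by rw [← hn]; exact g6) g2
  rw [e1] at PP e2
  rw [e2] at PP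
  exact PP

theorem negC_le {f g : L} : negC f ≤ negC g ↔ g ≤ f := by
  constructor
  · intro h t
    have := h (-t)
    simp only [negC_apply, neg_neg] at this
    linarith
  · intro h t
    have := h (-t)
    simp only [negC_apply]
    linarith

/-- Conjugate of an automorphism by the reflection. -/
def negIso (φ : L ≃o L) : L ≃o L where
  toFun h := negC (φ (negC h))
  invFun h := negC (φ.symm (negC h))
  left_inv h := by simp [negC_negC]
  right_inv h := by simp [negC_negC]
  map_rel_iff' := by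
    intro a b
    change negC (φ (negC a)) ≤ negC (φ (negC b)) ↔ a ≤ b
    rw [negC_le, φ.le_iff_le, negC_le]

theorem negIso_PM {φ : L ≃o L} {x y s t : ℝ} (P : PM φ x y s t) :
    PM (negIso φ) (-x) (-y) (-s) (-t) := by
  intro h
  have e := P (negC h)
  change h (-x) = -y ↔ negC (φ (negC h)) (-s) = -t
  rw [negC_apply, neg_neg, neg_inj, ← e, negC_apply]
  constructor
  · intro hh; rw [hh, neg_neg]
  · intro hh; rw [← hh, neg_neg]

theorem negIso_negIso (φ : L ≃o L) : negIso (negIso φ) = φ := by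
  apply OrderIso.ext
  funext h
  change negC (negC (φ (negC (negC h)))) = φ h
  rw [negC_negC, negC_negC]

theorem meet_lemma (φ : L ≃o L) (x1 x2 y1 y2 s1 s2 t1 t2 : ℝ) (hx : x1 ≤ x2) (hy : y1 ≤ y2)
    (hs : s1 ≤ s2) (ht : t1 ≤ t2) (P1 : PM φ x1 y1 s1 t1) (P2 : PM φ x2 y2 s2 t2)
    (m1 : L) (hm1 : m1 x1 = y1) (m2 : L) (hm2 : m2 x2 = y2)
    (m : L) (hm : m x2 = y1) (n : L) (hn : n s2 = t1) : PM φ x2 y1 s2 t1 := by
  have Q := join_lemma (negIso φ) (-x2) (-x1) (-y2) (-y1) (-s2) (-s1) (-t2) (-t1)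
    (by linarith) (by linarith) (by linarith) (by linarith) (negIso_PM P2) (negIso_PM P1)
    (negC m2) (by rw [negC_apply, neg_neg, hm2]) (negC m1) (by rw [negC_apply, neg_neg, hm1])
    (negC m) (by rw [negC_apply, neg_neg, hm]) (negC n) (by rw [negC_apply, neg_neg, hn])
  have R := negIso_PM Q
  rw [negIso_negIso] at R
  simpa using R

/-- Inflationary automorphisms fixing a point of the diagonal. -/
theorem fix_up (φ : L ≃o L) (x : ℝ) (hk : φ idL x = x) (hinf : ∀ g, g ≤ φ g) :
    PM φ x x x x := by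
  obtain ⟨x', hx'⟩ := point_map φ idL x
  have hxx : x' = x := by
    by_contra hne
    obtain ⟨g, h1, h2, h3, -, -⟩ := bump_up x x' (φ idL x') hne (fun h => by
      have := mono (φ idL) h
      rwa [hk] at this)
    have e := (hx' g).mp (by rw [h1]; rfl)
    have := hinf g x'
    linarith
  rw [hxx, hk] at hx'
  exact hx'

theorem fix_down (φ : L ≃o L) (x : ℝ) (hk : φ idL x = x) (hinf : ∀ g, φ g ≤ g) :
    PM φ x x x x := by
  obtain ⟨x', hx'⟩ := point_map φ idL x
  have hxx : x' = x := by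
    by_contra hne
    obtain ⟨g, h1, h2, h3, -, -⟩ := bump_down x x' (φ idL x') hne (fun h => by
      have := mono (φ idL) h
      rwa [hk] at this)
    have e := (hx' g).mp (by rw [h1]; rfl)
    have := hinf g x'
    linarith
  rw [hxx, hk] at hx'
  exact hx'

section group

variable [Group L] [MulLeftMono L] [MulRightMono L]

theorem decomp (k : L) : (k ⊔ 1) * (k ⊓ 1) = k := by
  have h1 : (k ⊓ 1)⁻¹ = k⁻¹ ⊔ 1 := by rw [inv_inf, inv_one]
  have h2 : k * (k ⊓ 1)⁻¹ = k ⊔ 1 := by
    rw [h1, mul_sup, mul_inv_cancel, mul_one, sup_comm]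
  rw [← h2, inv_mul_cancel_right]

theorem fix_right (hone : (1 : L) = idL) (x : ℝ) (k : L) (hk : k x = x) :
    PM (OrderIso.mulRight k) x x x x := by
  have one_x : (1 : L) x = x := by rw [hone]; rfl
  have A : PM (OrderIso.mulRight (k ⊔ 1)) x x x x := by
    apply fix_up
    · change (idL * (k ⊔ 1)) x = x
      rw [← hone, one_mul, sup_apply, hk, one_x, max_self]
    · intro g
      exact le_mul_of_one_le_right' le_sup_right
  have B : PM (OrderIso.mulRight (k ⊓ 1)) x x x x := by
    apply fix_down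
    · change (idL * (k ⊓ 1)) x = x
      rw [← hone, one_mul, inf_apply, hk, one_x, min_self]
    · intro g
      exact mul_le_of_le_one_right' inf_le_right
  intro g
  have a := A g
  have b := B (g * (k ⊔ 1))
  change g x = x ↔ (g * (k ⊔ 1)) x = x at a
  change (g * (k ⊔ 1)) x = x ↔ (g * (k ⊔ 1) * (k ⊓ 1)) x = x at b
  change g x = x ↔ (g * k) x = x
  rw [a, b, mul_assoc, decomp]

theorem fix_left (hone : (1 : L) = idL) (x : ℝ) (k : L) (hk : k x = x) :
    PM (OrderIso.mulLeft k) x x x x := by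
  have one_x : (1 : L) x = x := by rw [hone]; rfl
  have A : PM (OrderIso.mulLeft (k ⊔ 1)) x x x x := by
    apply fix_up
    · change ((k ⊔ 1) * idL) x = x
      rw [← hone, mul_one, sup_apply, hk, one_x, max_self]
    · intro g
      exact le_mul_of_one_le_left' le_sup_right
  have B : PM (OrderIso.mulLeft (k ⊓ 1)) x x x x := by
    apply fix_down
    · change ((k ⊓ 1) * idL) x = x
      rw [← hone, mul_one, inf_apply, hk, one_x, min_self]
    · intro g
      exact mul_le_of_le_one_left' inf_le_right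
  intro g
  have b := B g
  have a := A ((k ⊓ 1) * g)
  change g x = x ↔ ((k ⊓ 1) * g) x = x at b
  change ((k ⊓ 1) * g) x = x ↔ ((k ⊔ 1) * ((k ⊓ 1) * g)) x = x at a
  change g x = x ↔ (k * g) x = x
  rw [b, a, ← mul_assoc, decomp]

/-- vertical type -/
def V (f : L) (a : ℝ) : Prop := ∀ g : L, g a = f a ↔ (f⁻¹ * g) a = a

/-- horizontal type -/
def Hh (f : L) (a : ℝ) : Prop := ∀ g : L, g a = f a ↔ (f⁻¹ * g) (f a) = f a

theorem VH (hone : (1 : L) = idL) (f : L) (a : ℝ) : V f a ∨ Hh f a := by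
  obtain ⟨z, hz⟩ := point_map (OrderIso.mulLeft f⁻¹) f a
  have hz' : ∀ g : L, g a = f a ↔ (f⁻¹ * g) z = z := by
    intro g
    have := hz g
    change g a = f a ↔ (f⁻¹ * g) z = (f⁻¹ * f) z at this
    rw [this, inv_mul_cancel, hone]; rfl
  by_cases h1 : z = a
  · left; intro g; rw [hz' g, h1]
  by_cases h2 : z = f a
  · right; intro g; rw [hz' g, h2]
  exfalso
  obtain ⟨k, k1, k2, -, k3⟩ := bump_three a (f a) z h1 h2
  have P1 := fix_right hone a k k1
  have P2 := fix_right hone (f a) k k2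
  have key : (f * k) a = f a := by
    rcases lt_trichotomy a (f a) with h | h | h
    · have J := join_lemma _ _ _ _ _ _ _ _ _ h.le h.le h.le h.le P1 P2 k k1 k k2 f rfl f rfl
      exact (J f).mp rfl
    · rw [← h]
      exact (P1 f).mp h.symm
    · have J := meet_lemma _ _ _ _ _ _ _ _ _ h.le h.le h.le h.le P2 P1 k k2 k k1 f rfl f rfl
      exact (J f).mp rfl
  have := (hz' (f * k)).mp key
  rw [inv_mul_cancel_left] at this
  linarith

omit [Group L] [MulLeftMono L] [MulRightMono L] in
theorem sep (a b : ℝ) (h : ∀ k : L, k a = a → k b = b) : a = b := by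
  by_contra hne
  obtain ⟨k, h1, -, h3, -, -⟩ := bump_up a b b (fun h => hne h.symm) (fun h => h)
  have := h k h1
  linarith

theorem V_or_H (hone : (1 : L) = idL) (f : L) (a c : ℝ) (hc : f c = a) : V f a ∨ Hh f c := by
  obtain ⟨x', hx'⟩ := point_map (OrderIso.mulLeft f) 1 a
  have hx : ∀ g : L, g a = a ↔ (f * g) x' = f x' := by
    intro g
    have := hx' g
    change g a = (1 : L) a ↔ (f * g) x' = (f * 1) x' at this
    rw [mul_one, hone] at this
    exact this
  rcases VH hone f x' with h | h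
  · have : a = x' := by
      apply sep
      intro k hk
      have := (h (f * k)).mp ((hx k).mp hk)
      rwa [inv_mul_cancel_left] at this
    left; rw [this]; exact h
  · have : a = f x' := by
      apply sep
      intro k hk
      have := (h (f * k)).mp ((hx k).mp hk)
      rwa [inv_mul_cancel_left] at this
    right
    have : c = x' := (mono f).injective (by rw [hc, this])
    rw [this]; exact h

theorem not_V_H (f : L) (a c : ℝ) (hc : f c = a) (hac : a ≠ c) (h1 : V f a) (h2 : Hh f c) :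
    False := by
  apply hac
  apply sep
  intro k hk
  have e1 := (h1 (comp f k)).mp (by rw [comp_apply, hk])
  have e2 := (h2 (comp f k)).mpr (by rw [hc]; exact e1)
  rw [comp_apply] at e2
  exact (mono f).injective e2

theorem not_V_H' (f : L) (a : ℝ) (ha : f a ≠ a) (h1 : V f a) (h2 : Hh f a) : False := by
  apply ha
  symm
  apply sep
  intro k hk
  have e1 := (h1 (f * k)).mpr (by rw [inv_mul_cancel_left]; exact hk)
  have e2 := (h2 (f * k)).mp e1
  rwa [inv_mul_cancel_left] at e2

theorem V_indep (hone : (1 : L) = idL) (f f' : L) (a : ℝ) (hf : f' a = f a) (h : V f a) :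
    V f' a := by
  intro g
  have one_a : (1 : L) a = a := by rw [hone]; rfl
  have hk : (f⁻¹ * f') a = a := (h f').mp hf
  have hk' : (f⁻¹ * f')⁻¹ a = a := by
    have := (fix_left hone a (f⁻¹ * f') hk) (f⁻¹ * f')⁻¹
    change (f⁻¹ * f')⁻¹ a = a ↔ ((f⁻¹ * f') * (f⁻¹ * f')⁻¹) a = a at this
    rw [this, mul_inv_cancel, one_a]
  have e := (fix_left hone a (f⁻¹ * f')⁻¹ hk') (f⁻¹ * g)
  change (f⁻¹ * g) a = a ↔ ((f⁻¹ * f')⁻¹ * (f⁻¹ * g)) a = a at e
  rw [hf, h g, e]
  have : (f⁻¹ * f')⁻¹ * (f⁻¹ * g) = f'⁻¹ * g := by group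
  rw [this]

/-- The type of a point. -/
def T (a b : ℝ) : Prop := ∀ f : L, f a = b → V f a

theorem T_of_V (hone : (1 : L) = idL) (f : L) (a b : ℝ) (hf : f a = b) (h : V f a) : T a b := by
  intro f' hf'
  exact V_indep hone f f' a (by rw [hf, hf']) h

theorem T_step (hone : (1 : L) = idL) (c a b : ℚ) (h1 : c < a) (h2 : a < b) :
    T (a : ℝ) b ↔ T (c : ℝ) a := by
  have m : 0 < (b - a) / (a - c) := div_pos (by linarith) (by linarith)
  have hne : (a : ℝ) - c ≠ 0 := by
    have : (c : ℝ) < a := by exact_mod_cast h1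
    linarith [this]
  have hca : (c : ℝ) < a := by exact_mod_cast h1
  have hab : (a : ℝ) < b := by exact_mod_cast h2
  let f : L := ⟨_, PL.aff ((b - a) / (a - c)) (a - (b - a) / (a - c) * c) m⟩
  have f1 : f c = a := by
    change (((b - a) / (a - c) : ℚ) : ℝ) * c + ((a - (b - a) / (a - c) * c : ℚ) : ℝ) = a
    push_cast; ring
  have f2 : f a = b := by
    change (((b - a) / (a - c) : ℚ) : ℝ) * a + ((a - (b - a) / (a - c) * c : ℚ) : ℝ) = b
    push_cast; field_simp; ring
  constructor
  · intro h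
    have hV : V f a := h f f2
    have hV' : V f c := by
      rcases VH hone f c with h' | h'
      · exact h'
      · exact absurd h' (fun h' => not_V_H f a c f1 hca.ne' hV h')
    exact T_of_V hone f c a f1 hV'
  · intro h
    have hV : V f c := h f f1
    have hV' : V f a := by
      rcases V_or_H hone f a c f1 with h' | h'
      · exact h'
      · exact absurd h' (fun h' => not_V_H' f c (by rw [f1]; exact hca.ne') hV h')
    exact T_of_V hone f a b f2 hV'

theorem T_all (hone : (1 : L) = idL) (a b a' b' : ℚ) (h : a < b) (h' : a' < b') :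
    T (a : ℝ) b ↔ T (a' : ℝ) b' := by
  have hc : min a a' - 1 < a := by have := min_le_left a a'; linarith
  have hc' : min a a' - 1 < a' := by have := min_le_right a a'; linarith
  have hd : min a a' - 2 < min a a' - 1 := by linarith
  rw [T_step hone (min a a' - 1) a b hc h, T_step hone (min a a' - 1) a' b' hc' h',
    T_step hone (min a a' - 2) (min a a' - 1) a hd hc,
    T_step hone (min a a' - 2) (min a a' - 1) a' hd hc']

theorem V_pos (hone : (1 : L) = idL) (hT : ∀ a b : ℚ, a < b → T (a : ℝ) b) (f : L)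
    (hf : ∀ t, t ≤ f t) (a : ℚ) : V f a := by
  rcases eq_or_lt_of_le (hf a) with h | h
  · have one_a : (1 : L) a = a := by rw [hone]; rfl
    have hk' : f⁻¹ a = a := by
      have := (fix_left hone a f h.symm) f⁻¹
      change f⁻¹ a = a ↔ (f * f⁻¹) a = a at this
      rw [this, mul_inv_cancel, one_a]
    intro g
    rw [← h]
    exact (fix_left hone a f⁻¹ hk') g
  · obtain ⟨b, hb⟩ := f.2.rat a
    change f a = b at hb
    rw [hb] at h
    exact hT a b (by exact_mod_cast h) f hb

theorem mul_rat (hone : (1 : L) = idL) (hT : ∀ a b : ℚ, a < b → T (a : ℝ) b) (f : L)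
    (hf : ∀ t, t ≤ f t) (g : L) (a : ℚ) : (f * g) a = f (g a) := by
  obtain ⟨b, hb⟩ := g.2.rat a
  change g a = b at hb
  have P : ∀ c : ℚ, PM (OrderIso.mulLeft f) c c c (f c) := by
    intro c h
    have := V_pos hone hT f hf c (f * h)
    rw [inv_mul_cancel_left] at this
    exact this.symm
  have one_a : ∀ a : ℝ, (1 : L) a = a := by intro a; rw [hone]; rfl
  rw [hb]
  rcases lt_trichotomy (a : ℝ) b with h | h | h
  · have J := join_lemma (OrderIso.mulLeft f) a b a b a b (f a) (f b) h.le h.le h.le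
      ((mono f).monotone h.le) (P a) (P b) 1 (one_a a) 1 (one_a b) g hb (comp f g)
      (by rw [comp_apply, hb])
    exact (J g).mp hb
  · have := (P a g).mp (by rw [hb, ← h])
    rw [← h]; exact this
  · have J := meet_lemma (OrderIso.mulLeft f) b a b a b a (f b) (f a) h.le h.le h.le
      ((mono f).monotone h.le) (P b) (P a) 1 (one_a b) 1 (one_a a) g hb (comp f g)
      (by rw [comp_apply, hb])
    exact (J g).mp hb

theorem mul_pos_eq (hone : (1 : L) = idL) (hT : ∀ a b : ℚ, a < b → T (a : ℝ) b) (f : L)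
    (hf : ∀ t, t ≤ f t) (g : L) : f * g = comp f g := by
  apply ext'
  intro t
  have h1 : Continuous (fun t : ℝ => (f * g) t) := cont _
  have h2 : Continuous (fun t : ℝ => (comp f g) t) := cont _
  have : (fun t : ℝ => (f * g) t) = (fun t : ℝ => (comp f g) t) := by
    apply Rat.denseRange_cast.equalizer h1 h2
    funext a
    exact mul_rat hone hT f hf g a
  exact congrFun this t

theorem mul_eq_comp (hone : (1 : L) = idL) (hT : ∀ a b : ℚ, a < b → T (a : ℝ) b) (f g : L) :
    f * g = comp f g := by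
  set q := f ⊔ 1 with hq
  set p := q * f⁻¹ with hp
  have one_a : ∀ a : ℝ, (1 : L) a = a := by intro a; rw [hone]; rfl
  have q1 : ∀ t, t ≤ q t := by
    intro t; rw [hq, sup_apply, one_a]; exact le_max_right _ _
  have p1 : ∀ t, t ≤ p t := by
    intro t
    have : (1 : L) ≤ p := by
      rw [hp, le_mul_inv_iff_mul_le, one_mul]; exact le_sup_left
    have := this t
    rwa [one_a] at this
  have e1 : p * f = q := by rw [hp, inv_mul_cancel_right]
  have e2 : comp p f = q := by rw [← mul_pos_eq hone hT p p1 f, e1]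
  have e3 : comp p (f * g) = comp q g := by
    rw [← mul_pos_eq hone hT p p1, ← mul_pos_eq hone hT q q1, ← mul_assoc, e1]
  apply ext'
  intro t
  apply (mono p).injective
  have := congrArg (fun h : L => h t) e3
  simp only [comp_apply] at this
  rw [this, ← e2]; rfl

end group

end Pool.Agent.Helper6.PLHomeo
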