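import Pool.Agent.Helper6.LVarHeis

set_option autoImplicit false
set_option linter.unusedSectionVars false
set_option linter.style.haveILetI false

open Filter

namespace Pool.Agent.Helper6.QV

open LVar

section stack

variable {G : Type} [Group G] [Lattice G]

/-- One step of the stack machine. -/
def step (v : ℕ → G) (s : List G) (a : ℕ ⊕ Fin 5) : List G :=
  Sum.elim (fun i : ℕ => v i :: s)
    (fun k : Fin 5 => (![(1 : G), (s.headD 1)⁻¹, s.tail.headD 1 * s.headD 1,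
      s.tail.headD 1 ⊔ s.headD 1, s.tail.headD 1 ⊓ s.headD 1] k) :: s.tail.tail) a

/-- The value of a list. -/
def ev (v : ℕ → G) (L : List (ℕ ⊕ Fin 5)) : G := (List.foldl (step v) [] L).headD 1

variable {H : Type} [Group H] [Lattice H]

theorem step_map (π : G →* H) (hs : ∀ x y, π (x ⊔ y) = π x ⊔ π y)
    (hi : ∀ x y, π (x ⊓ y) = π x ⊓ π y) (v : ℕ → G) (s : List G) (a : ℕ ⊕ Fin 5) :
    step (fun i => π (v i)) (s.map π) a = (step v s a).map π := by
  have h1 : (s.map π).headD 1 = π (s.headD 1) := by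
    cases s <;> simp
  have h2 : (s.map π).tail.headD 1 = π (s.tail.headD 1) := by
    rcases s with _ | ⟨a, _ | ⟨b, s⟩⟩ <;> simp
  have h3 : (s.map π).tail.tail = s.tail.tail.map π := by
    rcases s with _ | ⟨a, _ | ⟨b, s⟩⟩ <;> simp
  rcases a with i | k
  · rfl
  · simp only [step, Sum.elim_inr, List.map_cons, h1, h2, h3]
    congr 1
    fin_cases k
    · simp
    · simp
    · simp
    · simp [hs]
    · simp [hi]

theorem foldl_map (π : G →* H) (hs : ∀ x y, π (x ⊔ y) = π x ⊔ π y)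
    (hi : ∀ x y, π (x ⊓ y) = π x ⊓ π y) (v : ℕ → G) (L : List (ℕ ⊕ Fin 5)) :
    ∀ s : List G, List.foldl (step (fun i => π (v i))) (s.map π) L =
      (List.foldl (step v) s L).map π := by
  induction L with
  | nil => intro s; rfl
  | cons a L ih =>
    intro s
    rw [List.foldl_cons, List.foldl_cons, step_map π hs hi, ih]

theorem ev_map (π : G →* H) (hs : ∀ x y, π (x ⊔ y) = π x ⊔ π y)
    (hi : ∀ x y, π (x ⊓ y) = π x ⊓ π y) (v : ℕ → G) (L : List (ℕ ⊕ Fin 5)) :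
    ev (fun i => π (v i)) L = π (ev v L) := by
  have h := foldl_map π hs hi v L []
  rw [List.map_nil] at h
  rw [ev, h, ev]
  cases List.foldl (step v) [] L <;> simp

/-- Encoding of terms. -/
def enc : LTerm → List (ℕ ⊕ Fin 5)
  | .var i => [Sum.inl i]
  | .one => [Sum.inl 0, Sum.inl 0, Sum.inr 0]
  | .mul s t => enc s ++ (enc t ++ [Sum.inr 2])
  | .inv t => Sum.inl 0 :: (enc t ++ [Sum.inr 1])
  | .sup s t => enc s ++ (enc t ++ [Sum.inr 3])
  | .inf s t => enc s ++ (enc t ++ [Sum.inr 4])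

theorem foldl_enc (v : ℕ → G) (t : LTerm) :
    ∀ s : List G, List.foldl (step v) s (enc t) = t.eval v :: s := by
  induction t with
  | var i => intro s; rfl
  | one => intro s; rfl
  | mul t u ht hu =>
    intro s
    rw [enc, List.foldl_append, ht, List.foldl_append, hu]; rfl
  | inv t ht =>
    intro s
    rw [enc, List.foldl_cons, List.foldl_append, ht]; rfl
  | sup t u ht hu =>
    intro s
    rw [enc, List.foldl_append, ht, List.foldl_append, hu]; rfl
  | inf t u ht hu =>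
    intro s
    rw [enc, List.foldl_append, ht, List.foldl_append, hu]; rfl

theorem ev_enc (v : ℕ → G) (t : LTerm) : ev v (enc t) = t.eval v := by
  rw [ev, foldl_enc]; rfl

end stack

/-! ### The quasi-identity -/

/-- The main expression. -/
def mx {G : Type} [Group G] [Lattice G] (g x c s : G) : G :=
  ((((x * (c ⊔ c⁻¹) * x⁻¹) * (x * (c ⊔ c⁻¹) * x⁻¹) *
      ((c ⊔ c⁻¹) * (c ⊔ c⁻¹) * (c ⊔ c⁻¹))⁻¹) ⊔ 1) ⊓
    (((c ⊔ c⁻¹) * (c ⊔ c⁻¹) * (c ⊔ c⁻¹) * (x * (c ⊔ c⁻¹) * x⁻¹)⁻¹) ⊔ 1)) ⊓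
  ((((s ⊔ s⁻¹) * (s ⊔ s⁻¹) * (s ⊔ s⁻¹) * (s ⊔ s⁻¹) *
      ((x * (s ⊔ s⁻¹) * x⁻¹) * (x * (s ⊔ s⁻¹) * x⁻¹) * (x * (s ⊔ s⁻¹) * x⁻¹))⁻¹) ⊔ 1) ⊓
    (((g * (s ⊔ s⁻¹) * g⁻¹) * ((s ⊔ s⁻¹) * (s ⊔ s⁻¹))⁻¹) ⊔ 1))

/-- Absolute value term. -/
def tabs (c : LTerm) : LTerm := .sup c (.inv c)
/-- Conjugation term. -/
def tconj (x c : LTerm) : LTerm := .mul (.mul x c) (.inv x)

/-- The term for `mx`. -/
def mxT (g x c s : LTerm) : LTerm :=
  .inf
    (.inf
      (.sup (.mul (.mul (tconj x (tabs c)) (tconj x (tabs c)))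
        (.inv (.mul (.mul (tabs c) (tabs c)) (tabs c)))) .one)
      (.sup (.mul (.mul (.mul (tabs c) (tabs c)) (tabs c)) (.inv (tconj x (tabs c)))) .one))
    (.inf
      (.sup (.mul (.mul (.mul (.mul (tabs s) (tabs s)) (tabs s)) (tabs s))
        (.inv (.mul (.mul (tconj x (tabs s)) (tconj x (tabs s))) (tconj x (tabs s))))) .one)
      (.sup (.mul (tconj g (tabs s)) (.inv (.mul (tabs s) (tabs s)))) .one))

theorem mxT_eval {G : Type} [Group G] [Lattice G] (v : ℕ → G) (g x c s : LTerm) :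
    (mxT g x c s).eval v = mx (g.eval v) (x.eval v) (c.eval v) (s.eval v) := rfl

/-- Power terms. -/
def tpow (x : LTerm) : ℕ → LTerm
  | 0 => .one
  | n + 1 => .mul (tpow x n) x

theorem tpow_eval {G : Type} [Group G] [Lattice G] (v : ℕ → G) (x : LTerm) (n : ℕ) :
    (tpow x n).eval v = (x.eval v) ^ n := by
  induction n with
  | zero => rw [pow_zero]; rfl
  | succ n ih => rw [pow_succ, ← ih]; rfl

/-- The quasi-identity `g x = x g → mx g x c s = 1`. -/
def qid : List (List (ℕ ⊕ Fin 5) × List (ℕ ⊕ Fin 5)) × (List (ℕ ⊕ Fin 5) × List (ℕ ⊕ Fin 5)) :=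
  ([(enc (.mul (.var 0) (.var 1)), enc (.mul (.var 1) (.var 0)))],
    (enc (mxT (.var 0) (.var 1) (.var 2) (.var 3)), enc .one))

/-- The identities `mx (x^n) x c s = 1`. -/
def jid (n : ℕ) : List (ℕ ⊕ Fin 5) × List (ℕ ⊕ Fin 5) :=
  (enc (mxT (tpow (.var 1) n) (.var 1) (.var 2) (.var 3)), enc .one)

/-- The class defined by the quasi-identity. -/
def InX (G : Type) [Group G] [Lattice G] : Prop :=
  ∀ g x c s : G, g * x = x * g → mx g x c s = 1

theorem inX_iff (G : Type) [Group G] [Lattice G] :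
    (∀ q ∈ [qid], ∀ w : ℕ → G, (∀ p ∈ q.1, ev w p.1 = ev w p.2) → ev w q.2.1 = ev w q.2.2) ↔
      InX G := by
  constructor
  · intro h g x c s hgx
    have h1 := h qid (List.mem_singleton.mpr rfl)
      (fun i => if i = 0 then g else if i = 1 then x else if i = 2 then c else s)
    simp only [qid, List.mem_singleton, forall_eq, ev_enc, mxT_eval] at h1
    exact h1 hgx
  · intro h q hq w hw
    rw [List.mem_singleton] at hq
    subst hq
    simp only [qid, List.mem_singleton, forall_eq, ev_enc, mxT_eval] at hw ⊢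
    exact h _ _ _ _ hw

theorem jid_of_inX {G : Type} [Group G] [Lattice G] (h : InX G) (n : ℕ) (w : ℕ → G) :
    ev w (jid n).1 = ev w (jid n).2 := by
  simp only [jid, ev_enc, mxT_eval, tpow_eval]
  apply h
  change w 1 ^ n * w 1 = w 1 * w 1 ^ n
  rw [← pow_succ, ← pow_succ']

theorem jid_iff {G : Type} [Group G] [Lattice G] (n : ℕ)
    (h : ∀ w : ℕ → G, ev w (jid n).1 = ev w (jid n).2) (x c s : G) : mx (x ^ n) x c s = 1 := by
  have h1 := h (fun i => if i = 1 then x else if i = 2 then c else s)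
  simp only [jid, ev_enc, mxT_eval, tpow_eval] at h1
  exact h1

/-- In a chain the expression is trivial when one of four inequalities holds. -/
theorem mx_eq_one {G : Type} [Group G] [Lattice G] [MulLeftMono G] [MulRightMono G]
    (htot : ∀ x y : G, x ≤ y ∨ y ≤ x) (g x c s : G)
    (h : ∀ C S : G, 1 ≤ C → 1 ≤ S → C * C * C ≤ (x * C * x⁻¹) * (x * C * x⁻¹) →
      x * C * x⁻¹ ≤ C * C * C →
      (x * S * x⁻¹) * (x * S * x⁻¹) * (x * S * x⁻¹) ≤ S * S * S * S →
      S * S ≤ g * S * g⁻¹ → C = 1 ∨ S = 1) : mx g x c s = 1 := by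
  have hC : 1 ≤ c ⊔ c⁻¹ := by
    rcases htot c 1 with h1 | h1
    · exact le_sup_of_le_right (one_le_inv'.mpr h1)
    · exact le_sup_of_le_left h1
  have hS : 1 ≤ s ⊔ s⁻¹ := by
    rcases htot s 1 with h1 | h1
    · exact le_sup_of_le_right (one_le_inv'.mpr h1)
    · exact le_sup_of_le_left h1
  rw [mx]
  generalize c ⊔ c⁻¹ = C at *
  generalize s ⊔ s⁻¹ = S at *
  have key : ∀ a b c d : G, 1 ≤ a → 1 ≤ b → 1 ≤ c → 1 ≤ d → a = 1 ∨ b = 1 ∨ c = 1 ∨ d = 1 →
      (a ⊓ b) ⊓ (c ⊓ d) = 1 := by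
    intro a b c d ha hb hc hd h
    refine le_antisymm ?_ (le_inf (le_inf ha hb) (le_inf hc hd))
    rcases h with h | h | h | h
    · rw [← h]; exact inf_le_left.trans inf_le_left
    · rw [← h]; exact inf_le_left.trans inf_le_right
    · rw [← h]; exact inf_le_right.trans inf_le_left
    · rw [← h]; exact inf_le_right.trans inf_le_right
  have sup1 : ∀ a b : G, a ≤ b → (a * b⁻¹) ⊔ 1 = 1 := by
    intro a b hab
    exact sup_eq_right.mpr (mul_inv_le_one_iff_le.mpr hab)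
  refine key _ _ _ _ le_sup_right le_sup_right le_sup_right le_sup_right ?_
  rcases htot ((x * C * x⁻¹) * (x * C * x⁻¹)) (C * C * C) with h1 | h1
  · exact Or.inl (sup1 _ _ h1)
  rcases htot (C * C * C) (x * C * x⁻¹) with h2 | h2
  · exact Or.inr (Or.inl (sup1 _ _ h2))
  rcases htot (S * S * S * S) ((x * S * x⁻¹) * (x * S * x⁻¹) * (x * S * x⁻¹)) with h3 | h3
  · exact Or.inr (Or.inr (Or.inl (sup1 _ _ h3)))
  rcases htot (g * S * g⁻¹) (S * S) with h4 | h4
  · exact Or.inr (Or.inr (Or.inr (sup1 _ _ h4)))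
  rcases h C S hC hS h1 h2 h3 h4 with h5 | h5
  · left
    subst h5
    simp
  · right; right; left
    subst h5
    simp

/-- A converse. -/
theorem mx_ne_one {G : Type} [Group G] [Lattice G] [MulLeftMono G] [MulRightMono G]
    (htot : ∀ x y : G, x ≤ y ∨ y ≤ x) (g x C S : G) (hC : 1 ≤ C) (hS : 1 ≤ S)
    (h1 : C * C * C < (x * C * x⁻¹) * (x * C * x⁻¹)) (h2 : x * C * x⁻¹ < C * C * C)
    (h3 : (x * S * x⁻¹) * (x * S * x⁻¹) * (x * S * x⁻¹) < S * S * S * S)
    (h4 : S * S < g * S * g⁻¹) : mx g x C S ≠ 1 := by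
  have hC' : C ⊔ C⁻¹ = C := sup_eq_left.mpr ((inv_le_one'.mpr hC).trans hC)
  have hS' : S ⊔ S⁻¹ = S := sup_eq_left.mpr ((inv_le_one'.mpr hS).trans hS)
  rw [mx, hC', hS']
  have key : ∀ a b : G, 1 < a → 1 < b → 1 < a ⊓ b := by
    intro a b ha hb
    rcases htot a b with h | h
    · rwa [inf_eq_left.mpr h]
    · rwa [inf_eq_right.mpr h]
  have pos : ∀ a b : G, b < a → 1 < (a * b⁻¹) ⊔ 1 := by
    intro a b hab
    exact lt_of_lt_of_le (lt_mul_inv_iff_mul_lt.mpr (by rwa [one_mul])) le_sup_left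
  exact (key _ _ (key _ _ (pos _ _ h1) (pos _ _ h2)) (key _ _ (pos _ _ h3) (pos _ _ h4))).ne'

end Pool.Agent.Helper6.QV
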