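import Pool.Agent.Helper6.QV1

set_option autoImplicit false
set_option linter.unusedSectionVars false
set_option linter.style.haveILetI false

open Filter

namespace Pool.Agent.Helper6.QV

open LVar

/-- A pair of positive characters. -/
structure Ch (A R : Type) [AddCommGroup A] [Field R] [LinearOrder R] where
  f : A → R
  g : A → R
  fpos : ∀ a, 0 < f a
  gpos : ∀ a, 0 < g a
  fadd : ∀ a b, f (a + b) = f a * f b
  gadd : ∀ a b, g (a + b) = g a * g b

section groups

variable {A R : Type} [AddCommGroup A] [LinearOrder A] [IsOrderedAddMonoid A]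
  [Field R] [LinearOrder R] [IsStrictOrderedRing R]

theorem Ch.f0 (χ : Ch A R) : χ.f 0 = 1 := by
  have h := χ.fadd 0 0
  rw [add_zero] at h
  have h2 := (χ.fpos 0).ne'
  exact mul_left_cancel₀ h2 (by rw [← h, mul_one])

theorem Ch.g0 (χ : Ch A R) : χ.g 0 = 1 := by
  have h := χ.gadd 0 0
  rw [add_zero] at h
  have h2 := (χ.gpos 0).ne'
  exact mul_left_cancel₀ h2 (by rw [← h, mul_one])

theorem Ch.fneg (χ : Ch A R) (a : A) : χ.f a * χ.f (-a) = 1 := by
  rw [← χ.fadd, add_neg_cancel, χ.f0]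

theorem Ch.gneg (χ : Ch A R) (a : A) : χ.g a * χ.g (-a) = 1 := by
  rw [← χ.gadd, add_neg_cancel, χ.g0]

theorem Ch.fneg' (χ : Ch A R) (a : A) : χ.f (-a) * χ.f a = 1 := by
  rw [mul_comm, χ.fneg]

theorem Ch.gneg' (χ : Ch A R) (a : A) : χ.g (-a) * χ.g a = 1 := by
  rw [mul_comm, χ.gneg]

/-! ### The metabelian groups -/

/-- The group `(R × R) ⋊ A`. -/
@[ext] structure Mt (χ : Ch A R) where
  k : A
  c : R
  m : R

namespace Mt

variable {χ : Ch A R}

instance : Mul (Mt χ) := ⟨fun x y => ⟨x.k + y.k, x.c + χ.f x.k * y.c, x.m + χ.g x.k * y.m⟩⟩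
instance : One (Mt χ) := ⟨⟨0, 0, 0⟩⟩
instance : Inv (Mt χ) := ⟨fun x => ⟨-x.k, -(χ.f (-x.k) * x.c), -(χ.g (-x.k) * x.m)⟩⟩

@[simp] theorem mul_k (x y : Mt χ) : (x * y).k = x.k + y.k := rfl
@[simp] theorem mul_c (x y : Mt χ) : (x * y).c = x.c + χ.f x.k * y.c := rfl
@[simp] theorem mul_m (x y : Mt χ) : (x * y).m = x.m + χ.g x.k * y.m := rfl
@[simp] theorem one_k : (1 : Mt χ).k = 0 := rfl
@[simp] theorem one_c : (1 : Mt χ).c = 0 := rfl
@[simp] theorem one_m : (1 : Mt χ).m = 0 := rfl
@[simp] theorem inv_k (x : Mt χ) : (x⁻¹).k = -x.k := rfl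
@[simp] theorem inv_c (x : Mt χ) : (x⁻¹).c = -(χ.f (-x.k) * x.c) := rfl
@[simp] theorem inv_m (x : Mt χ) : (x⁻¹).m = -(χ.g (-x.k) * x.m) := rfl

instance : Group (Mt χ) := Group.ofLeftAxioms
  (by
    intro x y z
    ext
    · simp [add_assoc]
    · simp only [mul_c, mul_k, χ.fadd]; ring
    · simp only [mul_m, mul_k, χ.gadd]; ring)
  (by
    intro x
    ext
    · simp
    · simp [χ.f0]
    · simp [χ.g0])
  (by
    intro x
    ext
    · simp
    · simp
    · simp)

/-- The lexicographic cone. -/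
def cone : Cone (Mt χ) where
  Pos x := 0 < x.k ∨ (x.k = 0 ∧ (0 < x.c ∨ (x.c = 0 ∧ 0 < x.m)))
  mul x y hx hy := by
    simp only [mul_k, mul_c, mul_m]
    rcases hx with hx | ⟨hx, hx'⟩ <;> rcases hy with hy | ⟨hy, hy'⟩
    · exact Or.inl (add_pos hx hy)
    · left; rw [hy, add_zero]; exact hx
    · left; rw [hx, zero_add]; exact hy
    · right
      refine ⟨by rw [hx, hy, add_zero], ?_⟩
      rw [hx, χ.f0, χ.g0, one_mul, one_mul]
      rcases hx' with hx' | ⟨hx', hx''⟩ <;> rcases hy' with hy' | ⟨hy', hy''⟩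
      · exact Or.inl (add_pos hx' hy')
      · left; rw [hy', add_zero]; exact hx'
      · left; rw [hx', zero_add]; exact hy'
      · right; exact ⟨by rw [hx', hy', add_zero], add_pos hx'' hy''⟩
  not_one := by simp
  conj h x hx := by
    rcases hx with hx | ⟨hx, hx'⟩
    · left; simpa using hx
    · right
      refine ⟨by simp [hx], ?_⟩
      have e1 : (h * x * h⁻¹).c = χ.f h.k * x.c := by
        simp only [mul_c, mul_k, inv_c, hx, add_zero]
        linear_combination -h.c * χ.fneg h.k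
      have e2 : (h * x * h⁻¹).m = χ.g h.k * x.m := by
        simp only [mul_m, mul_k, inv_m, hx, add_zero]
        linear_combination -h.m * χ.gneg h.k
      rw [e1, e2]
      rcases hx' with hx' | ⟨hx', hx''⟩
      · exact Or.inl (mul_pos (χ.fpos _) hx')
      · exact Or.inr ⟨by rw [hx', mul_zero], mul_pos (χ.gpos _) hx''⟩
  tri x := by
    rcases lt_trichotomy x.k 0 with h | h | h
    · right; right; left; simpa using h
    · rcases lt_trichotomy x.c 0 with h' | h' | h'
      · right; right; right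
        refine ⟨by simp [h], Or.inl ?_⟩
        simp [h, χ.f0, h']
      · rcases lt_trichotomy x.m 0 with h'' | h'' | h''
        · right; right; right
          refine ⟨by simp [h], Or.inr ⟨by simp [h'], ?_⟩⟩
          simp [h, χ.g0, h'']
        · left; ext
          · exact h
          · exact h'
          · exact h''
        · right; left; right; exact ⟨h, Or.inr ⟨h', h''⟩⟩
      · right; left; right; exact ⟨h, Or.inl h'⟩
    · right; left; left; exact h

noncomputable instance : LinearOrder (Mt χ) := cone.order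
instance : MulLeftMono (Mt χ) := cone.mulLeftMono
instance : MulRightMono (Mt χ) := cone.mulRightMono

theorem one_lt_iff (x : Mt χ) :
    1 < x ↔ 0 < x.k ∨ (x.k = 0 ∧ (0 < x.c ∨ (x.c = 0 ∧ 0 < x.m))) := by
  change cone.Pos (1⁻¹ * x) ↔ _
  rw [inv_one, one_mul]
  exact Iff.rfl

theorem total (x y : Mt χ) : x ≤ y ∨ y ≤ x := le_total x y

end Mt

/-! ### The central extensions -/

/-- The central extension of `(R × R) ⋊ A` by `R` with a bilinear cocycle. -/
@[ext] structure Kt (χ : Ch A R) (β : A →+ A →+ R) where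
  k : A
  c : R
  m : R
  l : R

namespace Kt

variable {χ : Ch A R} {β : A →+ A →+ R}

instance : Mul (Kt χ β) := ⟨fun x y =>
  ⟨x.k + y.k, x.c + χ.f x.k * y.c, x.m + χ.g x.k * y.m, x.l + y.l + β x.k y.k⟩⟩
instance : One (Kt χ β) := ⟨⟨0, 0, 0, 0⟩⟩
instance : Inv (Kt χ β) := ⟨fun x =>
  ⟨-x.k, -(χ.f (-x.k) * x.c), -(χ.g (-x.k) * x.m), -x.l + β x.k x.k⟩⟩

@[simp] theorem mul_k (x y : Kt χ β) : (x * y).k = x.k + y.k := rfl
@[simp] theorem mul_c (x y : Kt χ β) : (x * y).c = x.c + χ.f x.k * y.c := rfl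
@[simp] theorem mul_m (x y : Kt χ β) : (x * y).m = x.m + χ.g x.k * y.m := rfl
@[simp] theorem mul_l (x y : Kt χ β) : (x * y).l = x.l + y.l + β x.k y.k := rfl
@[simp] theorem one_k : (1 : Kt χ β).k = 0 := rfl
@[simp] theorem one_c : (1 : Kt χ β).c = 0 := rfl
@[simp] theorem one_m : (1 : Kt χ β).m = 0 := rfl
@[simp] theorem one_l : (1 : Kt χ β).l = 0 := rfl
@[simp] theorem inv_k (x : Kt χ β) : (x⁻¹).k = -x.k := rfl
@[simp] theorem inv_c (x : Kt χ β) : (x⁻¹).c = -(χ.f (-x.k) * x.c) := rfl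
@[simp] theorem inv_m (x : Kt χ β) : (x⁻¹).m = -(χ.g (-x.k) * x.m) := rfl
@[simp] theorem inv_l (x : Kt χ β) : (x⁻¹).l = -x.l + β x.k x.k := rfl

instance : Group (Kt χ β) := Group.ofLeftAxioms
  (by
    intro x y z
    ext
    · simp [add_assoc]
    · simp only [mul_c, mul_k, χ.fadd]; ring
    · simp only [mul_m, mul_k, χ.gadd]; ring
    · simp only [mul_l, mul_k, map_add, AddMonoidHom.add_apply]; ring)
  (by
    intro x
    ext
    · simp
    · simp [χ.f0]
    · simp [χ.g0]
    · simp)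
  (by
    intro x
    ext
    · simp
    · simp
    · simp
    · simp only [mul_l, inv_l, inv_k, map_neg, AddMonoidHom.neg_apply, one_l]; ring)

theorem conj_c (h x : Kt χ β) (hx : x.k = 0) : (h * x * h⁻¹).c = χ.f h.k * x.c := by
  simp only [mul_c, mul_k, inv_c, hx, add_zero]
  linear_combination -h.c * χ.fneg h.k

theorem conj_m (h x : Kt χ β) (hx : x.k = 0) : (h * x * h⁻¹).m = χ.g h.k * x.m := by
  simp only [mul_m, mul_k, inv_m, hx, add_zero]
  linear_combination -h.m * χ.gneg h.k

theorem conj_l (h x : Kt χ β) (hx : x.k = 0) : (h * x * h⁻¹).l = x.l := by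
  simp only [mul_l, mul_k, inv_l, inv_k, hx, add_zero, map_zero, map_neg]
  ring

/-- The lexicographic cone. -/
def cone : Cone (Kt χ β) where
  Pos x := 0 < x.k ∨ (x.k = 0 ∧ (0 < x.c ∨ (x.c = 0 ∧ (0 < x.m ∨ (x.m = 0 ∧ 0 < x.l)))))
  mul x y hx hy := by
    simp only [mul_k, mul_c, mul_m, mul_l]
    rcases hx with hx | ⟨hx, hx'⟩ <;> rcases hy with hy | ⟨hy, hy'⟩
    · exact Or.inl (add_pos hx hy)
    · left; rw [hy, add_zero]; exact hx
    · left; rw [hx, zero_add]; exact hy
    · right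
      refine ⟨by rw [hx, hy, add_zero], ?_⟩
      rw [hx, χ.f0, χ.g0, one_mul, one_mul, map_zero, AddMonoidHom.zero_apply, add_zero]
      rcases hx' with hx' | ⟨hx', hx''⟩ <;> rcases hy' with hy' | ⟨hy', hy''⟩
      · exact Or.inl (add_pos hx' hy')
      · left; rw [hy', add_zero]; exact hx'
      · left; rw [hx', zero_add]; exact hy'
      · right
        refine ⟨by rw [hx', hy', add_zero], ?_⟩
        rcases hx'' with hx'' | ⟨hx'', hx3⟩ <;> rcases hy'' with hy'' | ⟨hy'', hy3⟩
        · exact Or.inl (add_pos hx'' hy'')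
        · left; rw [hy'', add_zero]; exact hx''
        · left; rw [hx'', zero_add]; exact hy''
        · right; exact ⟨by rw [hx'', hy'', add_zero], add_pos hx3 hy3⟩
  not_one := by simp
  conj h x hx := by
    rcases hx with hx | ⟨hx, hx'⟩
    · left; simpa using hx
    · right
      refine ⟨by simp [hx], ?_⟩
      rw [conj_c h x hx, conj_m h x hx, conj_l h x hx]
      rcases hx' with hx' | ⟨hx', hx''⟩
      · exact Or.inl (mul_pos (χ.fpos _) hx')
      · refine Or.inr ⟨by rw [hx', mul_zero], ?_⟩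
        rcases hx'' with hx'' | ⟨hx'', hx3⟩
        · exact Or.inl (mul_pos (χ.gpos _) hx'')
        · exact Or.inr ⟨by rw [hx'', mul_zero], hx3⟩
  tri x := by
    rcases lt_trichotomy x.k 0 with h | h | h
    · right; right; left; simpa using h
    · rcases lt_trichotomy x.c 0 with h' | h' | h'
      · right; right; right
        refine ⟨by simp [h], Or.inl ?_⟩
        simp [h, χ.f0, h']
      · rcases lt_trichotomy x.m 0 with h'' | h'' | h''
        · right; right; right
          refine ⟨by simp [h], Or.inr ⟨by simp [h'], Or.inl ?_⟩⟩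
          simp [h, χ.g0, h'']
        · rcases lt_trichotomy x.l 0 with h3 | h3 | h3
          · right; right; right
            refine ⟨by simp [h], Or.inr ⟨by simp [h'], Or.inr ⟨by simp [h''], ?_⟩⟩⟩
            simp [h, h3]
          · left; ext
            · exact h
            · exact h'
            · exact h''
            · exact h3
          · right; left; right; exact ⟨h, Or.inr ⟨h', Or.inr ⟨h'', h3⟩⟩⟩
        · right; left; right; exact ⟨h, Or.inr ⟨h', Or.inl h''⟩⟩
      · right; left; right; exact ⟨h, Or.inl h'⟩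
    · right; left; left; exact h

noncomputable instance : LinearOrder (Kt χ β) := cone.order
instance : MulLeftMono (Kt χ β) := cone.mulLeftMono
instance : MulRightMono (Kt χ β) := cone.mulRightMono

theorem total (x y : Kt χ β) : x ≤ y ∨ y ≤ x := le_total x y

theorem le_iff (x y : Kt χ β) : x ≤ y ↔ x = y ∨ cone.Pos (x⁻¹ * y) := Iff.rfl

theorem le_k {x y : Kt χ β} (h : x ≤ y) : x.k ≤ y.k := by
  rcases (le_iff x y).mp h with h | h | ⟨h, _⟩
  · rw [h]
  · rw [mul_k, inv_k, neg_add_eq_sub, sub_pos] at h; exact h.le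
  · rw [mul_k, inv_k, neg_add_eq_sub, sub_eq_zero] at h; exact h.ge

theorem le_c {x y : Kt χ β} (hx : x.k = 0) (hy : y.k = 0) (h : x ≤ y) : x.c ≤ y.c := by
  rcases (le_iff x y).mp h with h | h | ⟨_, h⟩
  · rw [h]
  · rw [mul_k, inv_k, hx, hy, neg_zero, add_zero] at h; exact absurd h (lt_irrefl _)
  · have e : (x⁻¹ * y).c = y.c - x.c := by
      simp only [mul_c, inv_c, inv_k, hx, neg_zero, χ.f0]; ring
    rw [e] at h
    rcases h with h | ⟨h, _⟩
    · linarith
    · linarith

theorem le_m {x y : Kt χ β} (hx : x.k = 0) (hy : y.k = 0) (hc : x.c = y.c) (h : x ≤ y) :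
    x.m ≤ y.m := by
  rcases (le_iff x y).mp h with h | h | ⟨_, h⟩
  · rw [h]
  · rw [mul_k, inv_k, hx, hy, neg_zero, add_zero] at h; exact absurd h (lt_irrefl _)
  · have e : (x⁻¹ * y).c = y.c - x.c := by
      simp only [mul_c, inv_c, inv_k, hx, neg_zero, χ.f0]; ring
    have e' : (x⁻¹ * y).m = y.m - x.m := by
      simp only [mul_m, inv_m, inv_k, hx, neg_zero, χ.g0]; ring
    rw [e, e', hc, sub_self] at h
    rcases h with h | ⟨_, h | ⟨h, _⟩⟩
    · exact absurd h (lt_irrefl _)
    · linarith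
    · linarith

theorem le_l {x y : Kt χ β} (hx : x.k = 0) (hy : y.k = 0) (hc : x.c = y.c) (hm : x.m = y.m)
    (h : x ≤ y) : x.l ≤ y.l := by
  rcases (le_iff x y).mp h with h | h | ⟨_, h⟩
  · rw [h]
  · rw [mul_k, inv_k, hx, hy, neg_zero, add_zero] at h; exact absurd h (lt_irrefl _)
  · have e : (x⁻¹ * y).c = y.c - x.c := by
      simp only [mul_c, inv_c, inv_k, hx, neg_zero, χ.f0]; ring
    have e' : (x⁻¹ * y).m = y.m - x.m := by
      simp only [mul_m, inv_m, inv_k, hx, neg_zero, χ.g0]; ring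
    have e'' : (x⁻¹ * y).l = y.l - x.l := by
      simp only [mul_l, inv_l, inv_k, hx, neg_zero, map_zero, AddMonoidHom.zero_apply]; ring
    rw [e, e', e'', hc, hm, sub_self, sub_self] at h
    rcases h with h | ⟨_, h | ⟨_, h⟩⟩
    · exact absurd h (lt_irrefl _)
    · exact absurd h (lt_irrefl _)
    · linarith

/-- The projection to the metabelian group. -/
def proj : Kt χ β →* Mt χ := MonoidHom.mk' (fun x => ⟨x.k, x.c, x.m⟩) (fun _ _ => rfl)

theorem proj_mono {x y : Kt χ β} (h : x ≤ y) : proj x ≤ proj y := by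
  rcases (le_iff x y).mp h with h | h
  · rw [h]
  · have h1 : cone.Pos (x⁻¹ * y) → 1 ≤ proj (x⁻¹ * y) := by
      rintro (q | ⟨q, q1 | ⟨q1, q2 | ⟨q2, _⟩⟩⟩)
      · exact ((Mt.one_lt_iff _).mpr (Or.inl q)).le
      · exact ((Mt.one_lt_iff _).mpr (Or.inr ⟨q, Or.inl q1⟩)).le
      · exact ((Mt.one_lt_iff _).mpr (Or.inr ⟨q, Or.inr ⟨q1, q2⟩⟩)).le
      · apply le_of_eq
        symm
        ext
        · exact q
        · exact q1
        · exact q2
    have h2 := h1 h
    rw [map_mul, map_inv] at h2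
    rwa [le_inv_mul_iff_mul_le, mul_one] at h2

theorem proj_surj : Function.Surjective (proj : Kt χ β →* Mt χ) := by
  intro y
  exact ⟨⟨y.k, y.c, y.m, 0⟩, rfl⟩

/-- **The quasi-identity holds in `Kt`.** -/
theorem inX (h1 : ∀ k k' : A, 3 ≤ 2 * χ.f k' → χ.f k' ≤ 3 → β k k' = β k' k → χ.g k < 2)
    (h2 : ∀ k : A, 3 ≤ 2 * χ.g k → 4 < 3 * χ.f k) : InX (Kt χ β) := by
  intro g x c s hgx
  apply mx_eq_one total
  intro C S hC hS a1 a2 a3 a4
  have hβ : β g.k x.k = β x.k g.k := by
    have := congrArg Kt.l hgx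
    simp only [mul_l] at this
    linarith
  -- the first coordinates vanish
  have two_nonpos : ∀ a : A, a + a + a ≤ a + a → a ≤ 0 := by
    intro a ha
    exact nonpos_of_add_le_right ha
  have hCk : C.k = 0 := by
    have b1 := le_k a1
    have b2 := le_k hC
    simp only [mul_k, inv_k, one_k] at b1 b2
    have b3 : x.k + C.k + -x.k = C.k := by abel
    rw [b3] at b1
    exact le_antisymm (two_nonpos _ b1) b2
  have hSk : S.k = 0 := by
    have b1 := le_k a4
    have b2 := le_k hS
    simp only [mul_k, inv_k, one_k] at b1 b2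
    have b3 : g.k + S.k + -g.k = S.k := by abel
    rw [b3] at b1
    exact le_antisymm (nonpos_of_add_le_right b1) b2
  have kC : (C * C * C).k = 0 := by simp [hCk]
  have kC' : (x * C * x⁻¹).k = 0 := by simp [hCk]
  have kC2 : ((x * C * x⁻¹) * (x * C * x⁻¹)).k = 0 := by simp [hCk]
  have kS4 : (S * S * S * S).k = 0 := by simp [hSk]
  have kS' : (x * S * x⁻¹).k = 0 := by simp [hSk]
  have kS3 : ((x * S * x⁻¹) * (x * S * x⁻¹) * (x * S * x⁻¹)).k = 0 := by simp [hSk]
  have kS2 : (S * S).k = 0 := by simp [hSk]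
  have kSg : (g * S * g⁻¹).k = 0 := by simp [hSk]
  have cm : ∀ y z : Kt χ β, y.k = 0 → (y * z).c = y.c + z.c := by
    intro y z hy; rw [mul_c, hy, χ.f0, one_mul]
  have mm : ∀ y z : Kt χ β, y.k = 0 → (y * z).m = y.m + z.m := by
    intro y z hy; rw [mul_m, hy, χ.g0, one_mul]
  have ll : ∀ y z : Kt χ β, y.k = 0 → (y * z).l = y.l + z.l := by
    intro y z hy; rw [mul_l, hy, map_zero, AddMonoidHom.zero_apply, add_zero]
  have kCC : (C * C).k = 0 := by simp [hCk]
  have kSSS : (S * S * S).k = 0 := by simp [hSk]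
  have kS'S' : ((x * S * x⁻¹) * (x * S * x⁻¹)).k = 0 := by simp [hSk]
  have Cc := le_c rfl hCk hC
  have Sc := le_c rfl hSk hS
  rw [one_c] at Cc Sc
  have c1 := le_c kC kC2 a1
  have c2 := le_c kC' kC a2
  have c3 := le_c kS3 kS4 a3
  have c4 := le_c kS2 kSg a4
  rw [cm _ _ kCC, cm _ _ hCk, cm _ _ kC', conj_c x C hCk] at c1
  rw [cm _ _ kCC, cm _ _ hCk, conj_c x C hCk] at c2
  rw [cm _ _ kS'S', cm _ _ kS', conj_c x S hSk, cm _ _ kSSS, cm _ _ kS2, cm _ _ hSk] at c3
  rw [cm _ _ hSk, conj_c g S hSk] at c4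
  -- the alternatives for `C`
  have altC : (3 ≤ 2 * χ.f x.k ∧ χ.f x.k ≤ 3) ∨ 3 ≤ 2 * χ.g x.k ∨ C = 1 := by
    rcases Cc.lt_or_eq with hc | hc
    · left
      constructor
      · by_contra hcon
        push Not at hcon
        nlinarith
      · by_contra hcon
        push Not at hcon
        nlinarith
    · right
      have e1 : (C * C * C).c = ((x * C * x⁻¹) * (x * C * x⁻¹)).c := by
        rw [cm _ _ kCC, cm _ _ hCk, cm _ _ kC', conj_c x C hCk, ← hc]; ring
      have m0 := le_m rfl hCk hc hC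
      have m1 := le_m kC kC2 e1 a1
      rw [one_m] at m0
      rw [mm _ _ kCC, mm _ _ hCk, mm _ _ kC', conj_m x C hCk] at m1
      rcases m0.lt_or_eq with hm | hm
      · left
        by_contra hcon
        push Not at hcon
        nlinarith
      · right
        have e2 : (C * C * C).m = ((x * C * x⁻¹) * (x * C * x⁻¹)).m := by
          rw [mm _ _ kCC, mm _ _ hCk, mm _ _ kC', conj_m x C hCk, ← hm]; ring
        have l0 := le_l rfl hCk hc hm hC
        have l1 := le_l kC kC2 e1 e2 a1
        rw [one_l] at l0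
        rw [ll _ _ kCC, ll _ _ hCk, ll _ _ kC', conj_l x C hCk] at l1
        ext
        · exact hCk
        · exact hc.symm
        · exact hm.symm
        · rw [one_l]; linarith
  have altS : 3 * χ.f x.k ≤ 4 ∨ (3 * χ.g x.k ≤ 4 ∧ 2 ≤ χ.g g.k) ∨ S = 1 := by
    rcases Sc.lt_or_eq with hc | hc
    · left
      by_contra hcon
      push Not at hcon
      nlinarith
    · right
      have e1 : ((x * S * x⁻¹) * (x * S * x⁻¹) * (x * S * x⁻¹)).c = (S * S * S * S).c := by
        rw [cm _ _ kS'S', cm _ _ kS', conj_c x S hSk, cm _ _ kSSS, cm _ _ kS2, cm _ _ hSk, ← hc]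
        ring
      have e2 : (S * S).c = (g * S * g⁻¹).c := by
        rw [cm _ _ hSk, conj_c g S hSk, ← hc]; ring
      have m0 := le_m rfl hSk hc hS
      have m1 := le_m kS3 kS4 e1 a3
      have m2 := le_m kS2 kSg e2 a4
      rw [one_m] at m0
      rw [mm _ _ kS'S', mm _ _ kS', conj_m x S hSk, mm _ _ kSSS, mm _ _ kS2, mm _ _ hSk] at m1
      rw [mm _ _ hSk, conj_m g S hSk] at m2
      rcases m0.lt_or_eq with hm | hm
      · left
        constructor
        · by_contra hcon
          push Not at hcon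
          nlinarith
        · by_contra hcon
          push Not at hcon
          nlinarith
      · right
        have e3 : (S * S).m = (g * S * g⁻¹).m := by
          rw [mm _ _ hSk, conj_m g S hSk, ← hm]; ring
        have l0 := le_l rfl hSk hc hm hS
        have l1 := le_l kS2 kSg e2 e3 a4
        rw [one_l] at l0
        rw [ll _ _ hSk, conj_l g S hSk] at l1
        ext
        · exact hSk
        · exact hc.symm
        · exact hm.symm
        · rw [one_l]; linarith
  rcases altC with ⟨p1, p2⟩ | p | p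
  · rcases altS with q | ⟨q1, q2⟩ | q
    · linarith
    · exact absurd (h1 g.k x.k p1 p2 hβ) (not_lt.mpr q2)
    · exact Or.inr q
  · rcases altS with q | ⟨q1, q2⟩ | q
    · exact absurd (h2 _ p) (not_lt.mpr q)
    · linarith
    · exact Or.inr q
  · exact Or.inl p

end Kt

end groups

end Pool.Agent.Helper6.QV
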