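import Pool.Agent.Helper6.QV2

set_option autoImplicit false
set_option linter.unusedSectionVars false
set_option linter.style.haveILetI false

open Filter

namespace Pool.Agent.Helper6.QV

open LVar

/-- The multiplier. -/
noncomputable def lam (N : ℕ) : ℝ := 1 + 1 / ((N : ℝ) + 4)

theorem lam_gt (N : ℕ) : 1 < lam N := by
  unfold lam
  have : (0 : ℝ) < 1 / ((N : ℝ) + 4) := by positivity
  linarith

theorem lam_lt (N : ℕ) : 3 * lam N < 4 := by
  unfold lam
  have h : (1 : ℝ) / ((N : ℝ) + 4) ≤ 1 / 4 := by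
    apply one_div_le_one_div_of_le (by norm_num)
    have : (0 : ℝ) ≤ N := Nat.cast_nonneg N
    linarith
  linarith

theorem lam_tendsto : Tendsto lam atTop (nhds 1) := by
  have h : Tendsto (fun N : ℕ => (1 : ℝ) + 1 / ((N : ℝ) + 4)) atTop (nhds (1 + 0)) := by
    apply Tendsto.add tendsto_const_nhds
    apply Tendsto.div_atTop tendsto_const_nhds
    exact tendsto_atTop_add_const_right _ _ tendsto_natCast_atTop_atTop
  rwa [add_zero] at h

/-- The characters of the group `G_N`. -/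
noncomputable def chN (N : ℕ) : Ch ℤ ℝ where
  f n := (2 : ℝ) ^ n
  g n := lam N ^ n
  fpos n := by positivity
  gpos n := zpow_pos (by linarith [lam_gt N]) n
  fadd a b := zpow_add₀ (by norm_num) a b
  gadd a b := zpow_add₀ (by linarith [lam_gt N]) a b

/-- The ultrafilter. -/
noncomputable abbrev UF : Ultrafilter ℕ := hyperfilter ℕ
/-- The nonstandard integers. -/
abbrev Zs : Type := Germ (UF : Filter ℕ) ℤ
/-- The nonstandard reals. -/
abbrev Rs : Type := Germ (UF : Filter ℕ) ℝ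

theorem uf_le : (UF : Filter ℕ) ≤ atTop := Nat.hyperfilter_le_atTop

/-- The characters of the ultraproduct. -/
noncomputable def chw : Ch Zs Rs where
  f := Germ.map (fun n : ℤ => (2 : ℝ) ^ n)
  g := Germ.map₂ (fun (x : ℝ) (n : ℤ) => x ^ n) ((lam : ℕ → ℝ) : Rs)
  fpos a := by
    induction a using Germ.inductionOn with | _ K =>
    exact Germ.coe_pos.mpr (Eventually.of_forall fun N => (chN N).fpos (K N))
  gpos a := by
    induction a using Germ.inductionOn with | _ K =>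
    exact Germ.coe_pos.mpr (Eventually.of_forall fun N => (chN N).gpos (K N))
  fadd a b := by
    induction a using Germ.inductionOn with | _ K =>
    induction b using Germ.inductionOn with | _ L =>
    exact Germ.coe_eq.mpr (Eventually.of_forall fun N => (chN N).fadd (K N) (L N))
  gadd a b := by
    induction a using Germ.inductionOn with | _ K =>
    induction b using Germ.inductionOn with | _ L =>
    exact Germ.coe_eq.mpr (Eventually.of_forall fun N => (chN N).gadd (K N) (L N))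

/-- The product group. -/
abbrev PP : Type := ∀ N : ℕ, Mt (chN N)

/-- The map to the ultraproduct. -/
noncomputable def Phi : PP →* Mt chw := MonoidHom.mk'
  (fun x => ⟨((fun N => (x N).k : ℕ → ℤ) : Zs), ((fun N => (x N).c : ℕ → ℝ) : Rs),
    ((fun N => (x N).m : ℕ → ℝ) : Rs)⟩) (by
  intro x y
  ext1
  · rfl
  · rfl
  · rfl)

theorem Phi_k (x : PP) : (Phi x).k = ((fun N => (x N).k : ℕ → ℤ) : Zs) := rfl
theorem Phi_c (x : PP) : (Phi x).c = ((fun N => (x N).c : ℕ → ℝ) : Rs) := rfl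
theorem Phi_m (x : PP) : (Phi x).m = ((fun N => (x N).m : ℕ → ℝ) : Rs) := rfl

theorem Phi_eq_iff (x y : PP) : Phi x = Phi y ↔ ∀ᶠ N in (UF : Filter ℕ), x N = y N := by
  constructor
  · intro h
    have h1 := Germ.coe_eq.mp (congrArg Mt.k h)
    have h2 := Germ.coe_eq.mp (congrArg Mt.c h)
    have h3 := Germ.coe_eq.mp (congrArg Mt.m h)
    filter_upwards [h1, h2, h3] with N a1 a2 a3
    exact Mt.ext a1 a2 a3
  · intro h
    ext1
    · exact Germ.coe_eq.mpr (h.mono fun N hN => by simp only [hN])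
    · exact Germ.coe_eq.mpr (h.mono fun N hN => by simp only [hN])
    · exact Germ.coe_eq.mpr (h.mono fun N hN => by simp only [hN])

theorem Phi_pos (x : PP) (h : ∀ᶠ N in (UF : Filter ℕ), 1 < x N) : 1 < Phi x := by
  have h' : ∀ᶠ N in (UF : Filter ℕ), 0 < (x N).k ∨ ((x N).k = 0 ∧ (0 < (x N).c ∨
      ((x N).c = 0 ∧ 0 < (x N).m))) := h.mono fun N hN => (Mt.one_lt_iff _).mp hN
  rw [Mt.one_lt_iff]
  rcases Ultrafilter.eventually_or.mp h' with h1 | h1
  · left
    exact Germ.coe_pos.mpr h1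
  · right
    obtain ⟨h2, h3⟩ := eventually_and.mp h1
    refine ⟨Germ.coe_eq.mpr h2, ?_⟩
    rcases Ultrafilter.eventually_or.mp h3 with h4 | h4
    · left
      exact Germ.coe_pos.mpr h4
    · right
      obtain ⟨h5, h6⟩ := eventually_and.mp h4
      exact ⟨Germ.coe_eq.mpr h5, Germ.coe_pos.mpr h6⟩

theorem Phi_le (x y : PP) (h : ∀ᶠ N in (UF : Filter ℕ), x N ≤ y N) : Phi x ≤ Phi y := by
  have h' : ∀ᶠ N in (UF : Filter ℕ), x N = y N ∨ x N < y N :=
    h.mono fun N hN => hN.eq_or_lt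
  rcases Ultrafilter.eventually_or.mp h' with h1 | h1
  · exact ((Phi_eq_iff x y).mpr h1).le
  · have h2 : ∀ᶠ N in (UF : Filter ℕ), 1 < (x⁻¹ * y) N := by
      filter_upwards [h1] with N hN
      rw [Pi.mul_apply, Pi.inv_apply]
      exact one_lt_inv_mul'.mpr hN
    have h3 := Phi_pos _ h2
    rw [map_mul, map_inv] at h3
    exact (one_lt_inv_mul'.mp h3).le

theorem Phi_sup (x y : PP) : Phi (x ⊔ y) = Phi x ⊔ Phi y := by
  have h : ∀ᶠ N in (UF : Filter ℕ), x N ≤ y N ∨ y N ≤ x N :=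
    Eventually.of_forall fun N => le_total _ _
  rcases Ultrafilter.eventually_or.mp h with h1 | h1
  · rw [sup_eq_right.mpr (Phi_le x y h1), Phi_eq_iff]
    filter_upwards [h1] with N hN
    exact sup_eq_right.mpr hN
  · rw [sup_eq_left.mpr (Phi_le y x h1), Phi_eq_iff]
    filter_upwards [h1] with N hN
    exact sup_eq_left.mpr hN

theorem Phi_inf (x y : PP) : Phi (x ⊓ y) = Phi x ⊓ Phi y := by
  have h : ∀ᶠ N in (UF : Filter ℕ), x N ≤ y N ∨ y N ≤ x N :=
    Eventually.of_forall fun N => le_total _ _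
  rcases Ultrafilter.eventually_or.mp h with h1 | h1
  · rw [inf_eq_left.mpr (Phi_le x y h1), Phi_eq_iff]
    filter_upwards [h1] with N hN
    exact inf_eq_left.mpr hN
  · rw [inf_eq_right.mpr (Phi_le y x h1), Phi_eq_iff]
    filter_upwards [h1] with N hN
    exact inf_eq_right.mpr hN

theorem ev_PP (v : ℕ → PP) (L : List (ℕ ⊕ Fin 5)) (N : ℕ) :
    (ev v L) N = ev (fun i => v i N) L :=
  (ev_map (Pi.evalMonoidHom (fun N => Mt (chN N)) N) (fun _ _ => rfl) (fun _ _ => rfl) v L).symm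

/-- Identities of the ultraproduct hold in almost all factors. -/
theorem eventually_of (e : List (ℕ ⊕ Fin 5) × List (ℕ ⊕ Fin 5))
    (h : ∀ v : ℕ → Mt chw, ev v e.1 = ev v e.2) :
    ∀ᶠ N in (UF : Filter ℕ), ∀ v : ℕ → Mt (chN N), ev v e.1 = ev v e.2 := by
  by_contra hcon
  have h1 : ∃ᶠ N in (UF : Filter ℕ), ∃ v : ℕ → Mt (chN N), ev v e.1 ≠ ev v e.2 := by
    intro h2
    apply hcon
    filter_upwards [h2] with N hN v
    by_contra h3
    exact hN ⟨v, h3⟩
  classical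
  let v : ∀ N : ℕ, ℕ → Mt (chN N) := fun N =>
    if hN : ∃ v : ℕ → Mt (chN N), ev v e.1 ≠ ev v e.2 then hN.choose else fun _ => 1
  have hv : ∀ N, (∃ v : ℕ → Mt (chN N), ev v e.1 ≠ ev v e.2) → ev (v N) e.1 ≠ ev (v N) e.2 := by
    intro N hN
    simp only [v, dif_pos hN]
    exact hN.choose_spec
  let w : ℕ → PP := fun i N => v N i
  have h4 := h (fun i => Phi (w i))
  rw [ev_map Phi Phi_sup Phi_inf, ev_map Phi Phi_sup Phi_inf, Phi_eq_iff] at h4
  obtain ⟨N, h5, h6⟩ := (h1.and_eventually h4).exists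
  rw [ev_PP, ev_PP] at h6
  exact hv N h5 h6

/-- The embedding of the nonstandard integers. -/
noncomputable def iota : Zs →+ Rs := AddMonoidHom.mk' (Germ.map (fun n : ℤ => (n : ℝ))) (by
  intro a b
  induction a using Germ.inductionOn with | _ K =>
  induction b using Germ.inductionOn with | _ L =>
  exact Germ.coe_eq.mpr (Eventually.of_forall fun N => by simp))

theorem exists_rho : ∃ ρ : Rs →ₗ[ℝ] ℝ, ρ 1 = 1 := by
  have h : (1 : Rs) ≠ 0 := one_ne_zero
  have h1 : ∃ f : Module.Dual ℝ Rs, f 1 ≠ 0 := by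
    by_contra hcon
    push Not at hcon
    exact h ((Module.forall_dual_apply_eq_zero_iff ℝ (1 : Rs)).mp hcon)
  obtain ⟨f, hf⟩ := h1
  exact ⟨(f 1)⁻¹ • f, by simp [hf]⟩

/-- The functional. -/
noncomputable def rho : Rs →ₗ[ℝ] ℝ := exists_rho.choose
theorem rho_one : rho 1 = 1 := exists_rho.choose_spec

/-- The cocycle. -/
noncomputable def bet : Zs →+ Zs →+ Rs := AddMonoidHom.mk'
  (fun a => AddMonoidHom.mk' (fun b => rho (iota a) • iota b) (by
    intro b b'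
    rw [map_add, smul_add])) (by
  intro a a'
  ext b
  simp only [AddMonoidHom.mk'_apply, AddMonoidHom.add_apply, map_add, add_smul])

theorem bet_apply (a b : Zs) : bet a b = rho (iota a) • iota b := rfl

theorem two_zpow_eq {n : ℤ} (h1 : 3 ≤ 2 * (2 : ℝ) ^ n) (h2 : (2 : ℝ) ^ n ≤ 3) : n = 1 := by
  have h3 : (0 : ℤ) < n := by
    by_contra hcon
    have : (2 : ℝ) ^ n ≤ 2 ^ (0 : ℤ) := zpow_le_zpow_right₀ (by norm_num) (not_lt.mp hcon)
    rw [zpow_zero] at this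
    linarith
  have h4 : n < 2 := by
    by_contra hcon
    have : (2 : ℝ) ^ (2 : ℤ) ≤ 2 ^ n := zpow_le_zpow_right₀ (by norm_num) (not_lt.mp hcon)
    norm_num at this
    linarith
  omega

theorem cond1 : ∀ k k' : Zs, 3 ≤ 2 * chw.f k' → chw.f k' ≤ 3 → bet k k' = bet k' k →
    chw.g k < 2 := by
  intro k k' h1 h2 h3
  induction k using Germ.inductionOn with | _ K =>
  induction k' using Germ.inductionOn with | _ K' =>
  have h1' : ∀ᶠ N in (UF : Filter ℕ), 3 ≤ 2 * (2 : ℝ) ^ (K' N) := Germ.coe_le.mp h1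
  have h2' : ∀ᶠ N in (UF : Filter ℕ), (2 : ℝ) ^ (K' N) ≤ 3 := Germ.coe_le.mp h2
  have h4 : iota ((K' : ℕ → ℤ) : Zs) = 1 := by
    refine Germ.coe_eq.mpr ?_
    filter_upwards [h1', h2'] with N a1 a2
    simp [two_zpow_eq a1 a2]
  rw [bet_apply, bet_apply, h4, rho_one, one_smul] at h3
  have h5 : ∀ᶠ N in (UF : Filter ℕ), rho (iota ((K : ℕ → ℤ) : Zs)) * 1 = (K N : ℝ) :=
    Germ.coe_eq.mp h3
  obtain ⟨N0, hN0⟩ := h5.exists
  have h6 : ∀ᶠ N in (UF : Filter ℕ), K N = K N0 := by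
    filter_upwards [h5] with N hN
    have : (K N : ℝ) = (K N0 : ℝ) := by rw [← hN, ← hN0]
    exact_mod_cast this
  have h7 : Tendsto (fun N => lam N ^ (K N0)) atTop (nhds (1 ^ (K N0))) :=
    lam_tendsto.zpow₀ _ (Or.inl one_ne_zero)
  rw [one_zpow] at h7
  have h8 : ∀ᶠ N in atTop, lam N ^ (K N0) < 2 := h7.eventually (gt_mem_nhds (by norm_num))
  have h9 : ∀ᶠ N in (UF : Filter ℕ), lam N ^ (K N0) < 2 := uf_le h8
  refine Germ.coe_lt.mpr ?_
  filter_upwards [h6, h9] with N b1 b2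
  change lam N ^ (K N) < 2
  rw [b1]; exact b2

theorem cond2 : ∀ k : Zs, 3 ≤ 2 * chw.g k → 4 < 3 * chw.f k := by
  intro k h1
  induction k using Germ.inductionOn with | _ K =>
  have h1' : ∀ᶠ N in (UF : Filter ℕ), 3 ≤ 2 * lam N ^ (K N) := Germ.coe_le.mp h1
  refine Germ.coe_lt.mpr ?_
  filter_upwards [h1'] with N hN
  change (4 : ℝ) < 3 * 2 ^ (K N)
  have h3 : (0 : ℤ) < K N := by
    by_contra hcon
    have : lam N ^ (K N) ≤ lam N ^ (0 : ℤ) :=
      zpow_le_zpow_right₀ (lam_gt N).le (not_lt.mp hcon)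
    rw [zpow_zero] at this
    linarith
  have : (2 : ℝ) ^ (1 : ℤ) ≤ 2 ^ (K N) := zpow_le_zpow_right₀ (by norm_num) h3
  rw [zpow_one] at this
  linarith

theorem K_inX : InX (Kt chw bet) := Kt.inX cond1 cond2

/-- The group `G_N` violates one of the identities. -/
theorem not_jid (N : ℕ) : ∃ n : ℕ, ∃ x c s : Mt (chN N), mx (x ^ n) x c s ≠ 1 := by
  obtain ⟨n, hn⟩ := pow_unbounded_of_one_lt (2 : ℝ) (lam_gt N)
  refine ⟨n, ⟨1, 0, 0⟩, ⟨0, 1, 0⟩, ⟨0, 0, 1⟩, ?_⟩
  have hpk : ∀ j : ℕ, ((⟨1, 0, 0⟩ : Mt (chN N)) ^ j) = ⟨(j : ℤ), 0, 0⟩ := by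
    intro j
    induction j with
    | zero => rfl
    | succ j ih =>
      rw [pow_succ, ih]
      ext
      · simp
      · simp
      · simp
  have cj1 : ∀ (k : ℤ), (⟨k, 0, 0⟩ : Mt (chN N)) * ⟨0, 1, 0⟩ * (⟨k, 0, 0⟩ : Mt (chN N))⁻¹ =
      ⟨0, 2 ^ k, 0⟩ := by
    intro k
    ext
    · simp
    · simp; rfl
    · simp
  have cj2 : ∀ (k : ℤ), (⟨k, 0, 0⟩ : Mt (chN N)) * ⟨0, 0, 1⟩ * (⟨k, 0, 0⟩ : Mt (chN N))⁻¹ =
      ⟨0, 0, lam N ^ k⟩ := by
    intro k
    ext
    · simp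
    · simp
    · simp; rfl
  have f0 := (chN N).f0
  have g0 := (chN N).g0
  apply mx_ne_one Mt.total
  · exact ((Mt.one_lt_iff _).mpr (Or.inr ⟨rfl, Or.inl one_pos⟩)).le
  · exact ((Mt.one_lt_iff _).mpr (Or.inr ⟨rfl, Or.inr ⟨rfl, one_pos⟩⟩)).le
  · rw [cj1, ← one_lt_inv_mul', Mt.one_lt_iff]
    right
    refine ⟨by simp, Or.inl ?_⟩
    simp [f0]
    norm_num
  · rw [cj1, ← one_lt_inv_mul', Mt.one_lt_iff]
    right
    refine ⟨by simp, Or.inl ?_⟩
    simp [f0]
    norm_num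
  · rw [cj2, ← one_lt_inv_mul', Mt.one_lt_iff]
    right
    refine ⟨by simp, Or.inr ⟨by simp, ?_⟩⟩
    simp [g0]
    linarith [lam_lt N]
  · rw [hpk, cj2, ← one_lt_inv_mul', Mt.one_lt_iff]
    right
    refine ⟨by simp, Or.inr ⟨by simp, ?_⟩⟩
    simp [g0]
    linarith

/-- **Main theorem.** -/
theorem main : ¬ (∀ Q : List (List (List (ℕ ⊕ Fin 5) × List (ℕ ⊕ Fin 5)) ×
      (List (ℕ ⊕ Fin 5) × List (ℕ ⊕ Fin 5))),
    ∃ E : List (List (ℕ ⊕ Fin 5) × List (ℕ ⊕ Fin 5)),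
      ∀ (G : Type) [Group G] [Lattice G] [MulLeftMono G] [MulRightMono G],
        ((∀ e ∈ E, ∀ v : ℕ → G, ev v e.1 = ev v e.2) ↔
          (∀ e : List (ℕ ⊕ Fin 5) × List (ℕ ⊕ Fin 5),
            (∀ (H : Type) [Group H] [Lattice H] [MulLeftMono H] [MulRightMono H],
              (∀ q ∈ Q, ∀ w : ℕ → H, (∀ p ∈ q.1, ev w p.1 = ev w p.2) →
                ev w q.2.1 = ev w q.2.2) → ∀ w : ℕ → H, ev w e.1 = ev w e.2) →
            ∀ v : ℕ → G, ev v e.1 = ev v e.2))) := by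
  intro hmain
  obtain ⟨E, hE⟩ := hmain [qid]
  -- the ultraproduct satisfies `E`
  have h1 : ∀ e ∈ E, ∀ v : ℕ → Mt chw, ev v e.1 = ev v e.2 := by
    rw [hE (Mt chw)]
    intro e he v
    have h2 := he (Kt chw bet) ((inX_iff _).mpr K_inX)
    have hp : ∀ i, ∃ y : Kt chw bet, Kt.proj y = v i := fun i => Kt.proj_surj (v i)
    choose w hw using hp
    have hv : v = fun i => Kt.proj (w i) := funext fun i => (hw i).symm
    have ps : ∀ x y : Kt chw bet, Kt.proj (x ⊔ y) = Kt.proj x ⊔ Kt.proj y := by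
      intro x y
      rcases Kt.total x y with h | h
      · rw [sup_eq_right.mpr h, sup_eq_right.mpr (Kt.proj_mono h)]
      · rw [sup_eq_left.mpr h, sup_eq_left.mpr (Kt.proj_mono h)]
    have pi : ∀ x y : Kt chw bet, Kt.proj (x ⊓ y) = Kt.proj x ⊓ Kt.proj y := by
      intro x y
      rcases Kt.total x y with h | h
      · rw [inf_eq_left.mpr h, inf_eq_left.mpr (Kt.proj_mono h)]
      · rw [inf_eq_right.mpr h, inf_eq_right.mpr (Kt.proj_mono h)]
    rw [hv, ev_map Kt.proj ps pi, ev_map Kt.proj ps pi, h2 w]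
  -- hence so does some factor
  have h3 : ∀ᶠ N in (UF : Filter ℕ), ∀ e ∈ E, ∀ v : ℕ → Mt (chN N), ev v e.1 = ev v e.2 := by
    have : ∀ᶠ N in (UF : Filter ℕ), ∀ e ∈ {e | e ∈ E},
        ∀ v : ℕ → Mt (chN N), ev v e.1 = ev v e.2 :=
      (eventually_all_finite (List.finite_toSet E)).mpr fun e he => eventually_of e (h1 e he)
    exact this
  obtain ⟨N, hN⟩ := h3.exists
  rw [hE (Mt (chN N))] at hN
  obtain ⟨n, x, c, s, hx⟩ := not_jid N
  apply hx
  apply jid_iff n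
  apply hN
  intro H _ _ _ _ hH w
  exact jid_of_inX ((inX_iff H).mp hH) n w

end Pool.Agent.Helper6.QV
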